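import Pool.Agent.Lib.MP_b7d179_gt.T.AnnB

/-! General position with respect to a curve. -/

namespace Pool.Agent.Lib.MP_b7d179_gt

open Set Metric Topology Filter

variable {Z Z' : Type*} [MetricSpace Z] [MetricSpace Z'] {ι κ : Type*}

variable {S O₁ O₂ c N n Γ : Set Z}

lemma gp_mid0 {x y z : Z} (hS : Hemi S O₁ O₂ c) (hN : Disc N n) (hs : N ⊆ S) (hz : z ∈ O₂ \ c)
    (hzN : z ∉ N) (hx : x ∈ N \ n) (hy : y ∈ N \ n) (hne : x ≠ y) :
    ∃ m ⊆ N \ n, Arc m x y ∧ (m ∩ c).Finite := by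
  obtain ⟨χ, h1, h2, h3, h4, -, h5⟩ := hS.chart hz
  obtain ⟨V, hV, eV⟩ := hS.sph.open hN hs
  have hr : N ⊆ range χ := h3 ▸ fun w hw => ⟨hs hw, fun e => hzN (e ▸ hw)⟩
  have hK : IsCompact (χ ⁻¹' N) := by
    obtain ⟨K, k1, k2⟩ := mem_cocompact.1 (h4 (hN.closed.isOpen_compl.mem_nhds hzN))
    exact k1.of_isClosed_subset (hN.closed.preimage h1) (compl_subset_compl.1 k2)
  have hE : Emb χ univ := ⟨h1.continuousOn, h2.injOn⟩
  obtain ⟨ψ, e, -, -, hψ⟩ := (hE.mono (subset_univ _)).inv hK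
  rw [image_preimage_eq_of_subset hr] at e
  have hU : IsOpen (χ ⁻¹' (N \ n)) := by
    have : χ ⁻¹' (N \ n) = χ ⁻¹' V := by
      rw [← eV]
      exact subset_antisymm (fun w hw => hw.1) fun w hw => ⟨hw, (h3.le ⟨w, rfl⟩).1⟩
    exact this ▸ hV.preimage h1
  have hC : IsPreconnected (χ ⁻¹' (N \ n)) := by
    rw [← hψ (χ ⁻¹' (N \ n)) fun w hw => hw.1, image_preimage_eq_of_subset (diff_subset.trans hr)]
    exact (hN.conn_diff subset_rfl).image _ (e.1.mono diff_subset)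
  obtain ⟨x, rfl⟩ := hr hx.1
  obtain ⟨y, rfl⟩ := hr hy.1
  obtain ⟨m, m1, m2, m3⟩ := plane_arc_fin hU hC hx hy fun e => hne (e ▸ rfl)
  refine ⟨χ '' m, image_subset_iff.2 m1, m2.image hE (subset_univ _), ?_⟩
  rw [← h5, ← image_inter h2]
  exact m3.image _

lemma gp_mid {x y : Z} (hS : Hemi S O₁ O₂ c) (hN : Disc N n) (hs : N ⊆ S) (hx : x ∈ N \ n)
    (hy : y ∈ N \ n) (hne : x ≠ y) : ∃ m ⊆ N \ n, Arc m x y ∧ (m ∩ c).Finite := by
  obtain ⟨z, z1, z2⟩ := not_subset.1 (hS.sph.not_sub hN hs)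
  rcases hS.union.ge z1 with h | h
  · obtain ⟨w, w1, w2⟩ := mem_closure_iff.1 (hS.d1.dense h) _ hN.closed.isOpen_compl z2
    exact gp_mid0 hS.symm hN hs w2 w1 hx hy hne
  · obtain ⟨w, w1, w2⟩ := mem_closure_iff.1 (hS.d2.dense h) _ hN.closed.isOpen_compl z2
    exact gp_mid0 hS hN hs w2 w1 hx hy hne

theorem gp1 {a : Set Z} {p q : Z} (hS : Hemi S O₁ O₂ c) (hN : Disc N n) (hs : N ⊆ S)
    (ha : Cc N n a p q) (hΓ : IsClosed Γ) (hc : Γ ⊆ c) (hp : p ∉ Γ) (hq : q ∉ Γ) :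
    ∃ a', Cc N n a' p q ∧ (a' ∩ Γ).Finite := by
  obtain ⟨u, v, x, u1, v1, i1, e1, s1⟩ := ha.arc.start (hΓ.isOpen_compl.mem_nhds hp)
  obtain ⟨u', v', y, u2, v2, i2, e2, s2⟩ := v1.symm.start (hΓ.isOpen_compl.mem_nhds hq)
  have ua : u ⊆ a := e1 ▸ subset_union_left
  have va : v ⊆ a := e1 ▸ subset_union_right
  have uv : u' ⊆ v := e2 ▸ subset_union_left
  have pv : p ∉ v := fun h => u1.ne (i1.le ⟨u1.left, h⟩)
  have qu : q ∉ u := fun h => v1.ne (i1.le ⟨h, v1.right⟩).symm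
  have yu : y ∉ u := fun h => v2.ne (i1.le ⟨h, uv u2.right⟩)
  have hx : x ∈ N \ n := ⟨ha.sub (ua u1.right), fun h =>
    (ha.inter.le ⟨ua u1.right, h⟩).elim (fun e => u1.ne e.symm) v1.ne⟩
  have hy : y ∈ N \ n := ⟨ha.sub (va (uv u2.right)), fun h =>
    (ha.inter.le ⟨va (uv u2.right), h⟩).elim (fun e => yu (e ▸ u1.left)) fun e => u2.ne e.symm⟩
  obtain ⟨m, m1, m2, m3⟩ := gp_mid hS hN hs hx hy v2.ne.symm
  obtain ⟨b, b1, b2⟩ := u1.splice m2 ⟨x, u1.right, m2.left⟩ (fun h => (m1 h).2 ha.left) yu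
  obtain ⟨d, d1, d2⟩ := b2.splice u2.symm ⟨y, b2.right, u2.right⟩ (fun h => pv (uv h))
    fun h => (b1 h).elim qu fun h => (m1 h).2 ha.right
  have k : ∀ w ∈ d, w ∈ a \ Γ ∨ w ∈ m := fun w hw => by
    rcases d1 hw with h | h
    · exact (b1 h).imp_left fun h => ⟨ua h, s1 h⟩
    · exact Or.inl ⟨va (uv h), s2 h⟩
  refine ⟨d, ⟨d2, fun w hw => (k w hw).elim (fun h => ha.sub h.1) fun h => (m1 h).1,
    subset_antisymm (fun w hw => (k w hw.1).elim (fun h => ha.inter.le ⟨h.1, hw.2⟩)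
      fun h => ((m1 h).2 hw.2).elim) (subset_inter d2.ends (ha.inter.ge.trans inter_subset_right))⟩,
    m3.subset fun w hw => (k w hw.1).elim (fun h => (h.2 hw.2).elim) fun h => ⟨h, hc hw.2⟩⟩

/-- finitely many disjoint arcs in `S` that meet `A` exactly in their ends -/
structure Arcs (S A : Set Z) (s : Set ι) (a : ι → Set Z) (p q : ι → Z) : Prop where
  fin : s.Finite
  arc : ∀ i ∈ s, Arc (a i) (p i) (q i)
  sub : ∀ i ∈ s, a i ⊆ S
  inter : ∀ i ∈ s, a i ∩ A = {p i, q i}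
  disj : s.PairwiseDisjoint a

theorem Arcs.iso {A : Set Z} {s : Set ι} {a : ι → Set Z} {p q : ι → Z} {F : Z → Z} (hS : Sph S)
    (h : Arcs S A s a p q) (hF : Iso S A F) : Arcs S A s (fun i => F '' a i) p q := by
  obtain ⟨e1, e2⟩ := hF.emb hS
  refine ⟨h.fin, fun i hi => ?_, fun i hi => e2 ▸ image_mono (h.sub i hi),
    fun i hi => (hF.inter _).trans (h.inter i hi),
    fun i hi k hk hne => disjoint_image_of_injective hF.injective (h.disj hi hk hne)⟩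
  have := (h.arc i hi).image e1 (h.sub i hi)
  rwa [hF.fix (Or.inl ((h.inter i hi).ge (mem_insert _ _)).2),
    hF.fix (Or.inl ((h.inter i hi).ge (mem_insert_of_mem _ rfl)).2)] at this

/-- a thin disc round an arc that lies in the rims of two discs -/
lemma gp_lens {D E cD cE a A : Set Z} {p q : Z} (hD : Disc D cD) (hE : Disc E cE) (ha : Arc a p q)
    (h1 : a ⊆ cD) (h2 : a ⊆ cE) (hA : IsClosed A) (hd : Disjoint A a) (hi : D ∩ E ⊆ a ∪ A) :
    ∃ N n, Disc N n ∧ N ⊆ D ∪ E ∧ Cc N n a p q ∧ Disjoint N A ∧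
      N ⊆ (D \ cD) ∪ (E \ cE) ∪ a := by
  obtain ⟨u, hu⟩ := hD.two_of_arc ha h1
  obtain ⟨v, hv⟩ := hE.two_of_arc ha h2
  obtain ⟨g, D', _, c1, d1⟩ := bite0 hD hu hA hd
  obtain ⟨g', E', _, c2, d2⟩ := bite0 hE hv hA hd
  have k := Disc.glue c1.d1 c2.d1 c1.two1.symm c2.two1.symm (subset_antisymm
    (fun w hw => (hi ⟨c1.sub1 hw.1, c2.sub1 hw.2⟩).resolve_right (disjoint_left.1 d1 hw.1))
    (subset_inter (subset_union_left.trans c1.d1.rim_sub) (subset_union_left.trans c2.d1.rim_sub)))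
  refine ⟨_, _, k.disc, union_subset_union c1.sub1 c2.sub1, k.cc, disjoint_union_left.2 ⟨d1, d2⟩,
    fun w hw => ?_⟩
  by_cases e : w ∈ a
  · exact Or.inr e
  · exact Or.inl (hw.imp (fun h => ⟨c1.sub1 h, fun h' => e (c1.inter_rim.le ⟨h, h'⟩)⟩)
      fun h => ⟨c2.sub1 h, fun h' => e (c2.inter_rim.le ⟨h, h'⟩)⟩)

/-- a thin disc round an arc whose ends lie on two equal or disjoint discs -/
lemma gp_strip {W w W' w' a A : Set Z} {p q : Z} (hS : Sph S) (hW : Disc W w) (hW' : Disc W' w')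
    (s1 : W ⊆ S) (s2 : W' ⊆ S) (hWW : W = W' ∨ Disjoint W W') (ha : Arc a p q) (hs : a ⊆ S)
    (hp : p ∈ W) (hq : q ∈ W') (hi : a ∩ (W ∪ W') ⊆ {p, q}) (hA : IsClosed A)
    (hd : Disjoint A a) : ∃ N n, Disc N n ∧ N ⊆ S ∧ Cc N n a p q ∧ Disjoint N A ∧
      N ∩ (W ∪ W') ⊆ a := by
  have i1 : a ∩ W ⊆ {p, q} := (inter_subset_inter_right _ subset_union_left).trans hi
  have i2 : a ∩ W' ⊆ {q, p} :=
    ((inter_subset_inter_right _ subset_union_right).trans hi).trans (pair_comm _ _).le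
  have pw := hS.end_rim hW s1 ha hs hp i1
  have qw := hS.end_rim hW' s2 ha.symm hs hq i2
  obtain ⟨O, hO⟩ := hS.compl hW s1
  have out : ∀ x ∈ S, x ∉ W → x ∈ O \ w := fun x hx h =>
    ⟨(hO.union.ge hx).resolve_left h, fun h' => h (hW.rim_sub h')⟩
  rcases hWW with rfl | hWW
  · obtain rfl := hW.rim_unique hW'
    obtain ⟨u, v, h2⟩ := hW.exists_two pw qw ha.ne
    have e : ({p, q} : Set Z) ⊆ w := insert_subset pw (singleton_subset_iff.2 qw)
    obtain ⟨D, E, k⟩ := hO.d2.cut h2 (g := a) ⟨ha, fun x hx => by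
      by_cases h : x ∈ W
      exacts [hO.d2.rim_sub (e (i1 ⟨hx, h⟩)), (out x (hs hx) h).1],
      subset_antisymm ((inter_subset_inter_right _ hW.rim_sub).trans i1) (subset_inter ha.ends e)⟩
    obtain ⟨N, n, n1, n2, n3, n4, n5⟩ := gp_lens k.d1 k.d2 ha subset_union_right
      subset_union_right hA hd (k.inter.le.trans subset_union_left)
    rw [k.union] at n2
    refine ⟨N, n, n1, n2.trans hO.sub2, n3, n4, fun x hx => ?_⟩
    have xw : x ∈ w := hO.inter.le ⟨hx.2.elim id id, n2 hx.1⟩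
    rcases n5 hx.1 with (h | h) | h
    exacts [(h.2 (Or.inl (k.inter_rim.le ⟨h.1, xw⟩))).elim,
      (h.2 (Or.inl (k.symm.inter_rim.le ⟨h.1, xw⟩))).elim, h]
  · obtain ⟨p', p1, p2⟩ := hW.exists_rim (finite_singleton p)
    obtain ⟨q', q1, q2⟩ := hW'.exists_rim (finite_singleton q)
    obtain ⟨u, v, h2⟩ := hW.exists_two pw p1 (Ne.symm p2)
    obtain ⟨η, r, r', D, E, a1, -, a2, -, d1, d2, -, -, e1, e2, e3, e4, e5, e6, -⟩ :=
      anncut (t := (univ : Set Unit)) (W := fun _ => W') (w := fun _ => w') (j := ()) hO.d2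
        ⟨finite_univ, fun _ _ => hW', fun _ _ x hx => out x (s2 hx) (disjoint_right.1 hWW hx),
          fun _ _ _ _ h => (h rfl).elim⟩ (mem_univ _) h2 qw q1 (Ne.symm q2) ha fun x hx =>
        ⟨out x (hs hx.1) fun h => hx.2 (i1 ⟨hx.1, h⟩), fun h => by
          obtain ⟨_, _, h⟩ := mem_iUnion₂.1 h
          exact hx.2 (hi ⟨hx.1, Or.inr h⟩)⟩
    obtain ⟨N, n, n1, n2, n3, n4, n5⟩ := gp_lens d1 d2 ha (fun x hx => Or.inl (Or.inl (Or.inr hx)))
      (fun x hx => Or.inl (Or.inl (Or.inr hx))) (hA.union a1.closed)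
      (disjoint_union_left.2 ⟨hd, a2.symm⟩) (e1.le.trans (union_subset_union_right _
        subset_union_right))
    have n6 : N ⊆ O := n2.trans (e6 ▸ subset_union_left)
    refine ⟨N, n, n1, n6.trans hO.sub2, n3, n4.mono_right subset_union_left, fun x hx => ?_⟩
    rcases n5 hx.1 with (h | h) | h
    · refine (h.2 ?_).elim
      rcases hx.2 with k | k
      exacts [Or.inl (Or.inl (Or.inl (e4.le ⟨h.1, hO.inter.le ⟨k, n6 hx.1⟩⟩))),
        Or.inl (Or.inr (e2.le ⟨h.1, k⟩))]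
    · refine (h.2 ?_).elim
      rcases hx.2 with k | k
      exacts [Or.inl (Or.inl (Or.inl (e5.le ⟨h.1, hO.inter.le ⟨k, n6 hx.1⟩⟩))),
        Or.inl (Or.inr (e3.le ⟨h.1, k⟩))]
    · exact h

theorem strips {t : Set κ} {W w : κ → Set Z} {s : Set ι} {a : ι → Set Z} {p q : ι → Z}
    (hS : Sph S) (hW : Holes S t W w) (h : Arcs S (⋃ j ∈ t, W j) s a p q) {i : ι} (hi : i ∈ s) :
    ∃ N n, Disc N n ∧ N ⊆ S ∧ Cc N n (a i) (p i) (q i) ∧ Disjoint (N \ n) (⋃ j ∈ t, W j) ∧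
      ∀ k ∈ s, k ≠ i → Disjoint N (a k) := by
  have e := h.inter i hi
  obtain ⟨j, hj, hp⟩ := mem_iUnion₂.1 (e.ge (mem_insert _ _)).2
  obtain ⟨j', hj', hq⟩ := mem_iUnion₂.1 (e.ge (mem_insert_of_mem _ rfl)).2
  obtain ⟨N, n, n1, n2, n3, n4, n5⟩ := gp_strip
    (A := (⋃ k ∈ s \ {i}, a k) ∪ ⋃ l ∈ t \ {j, j'}, W l) hS (hW.disc j hj) (hW.disc j' hj')
    (hW.sub j hj) (hW.sub j' hj') (by
      by_cases k : j = j'
      exacts [Or.inl (k ▸ rfl), Or.inr (hW.disj hj hj' k)]) (h.arc i hi) (h.sub i hi) hp hq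
    ((inter_subset_inter_right _ (union_subset (subset_biUnion_of_mem (u := W) hj)
      (subset_biUnion_of_mem (u := W) hj'))).trans e.le)
    ((h.fin.diff.isClosed_biUnion fun k hk => (h.arc k hk.1).closed).union
      (hW.fin.diff.isClosed_biUnion fun l hl => (hW.disc l hl.1).closed)) (by
      refine disjoint_union_left.2 ⟨disjoint_iUnion₂_left.2 fun k hk => h.disj hk.1 hi hk.2,
        disjoint_iUnion₂_left.2 fun l hl => disjoint_left.2 fun x hx hx' => ?_⟩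
      rcases e.le ⟨hx', mem_biUnion hl.1 hx⟩ with rfl | rfl
      · exact disjoint_left.1 (hW.disj hl.1 hj fun k => hl.2 (Or.inl k)) hx hp
      · exact disjoint_left.1 (hW.disj hl.1 hj' fun k => hl.2 (Or.inr k)) hx hq)
  refine ⟨N, n, n1, n2, n3, disjoint_left.2 fun x hx hx' => ?_, fun k hk hne => n4.mono_right
    ((subset_biUnion_of_mem (u := a) (⟨hk, hne⟩ : k ∈ s \ {i})).trans subset_union_left)⟩
  obtain ⟨l, hl, hx''⟩ := mem_iUnion₂.1 hx'
  by_cases k : l ∈ ({j, j'} : Set κ)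
  · refine hx.2 (n3.inter.ge (e.le ⟨n5 ⟨hx.1, ?_⟩, hx'⟩)).2
    rcases k with rfl | rfl
    exacts [Or.inl hx'', Or.inr hx'']
  · exact disjoint_left.1 n4 hx.1 (Or.inr (mem_biUnion (⟨hl, k⟩ : l ∈ t \ {j, j'}) hx''))

theorem gp {t : Set κ} {W w : κ → Set Z} {s : Set ι} {a : ι → Set Z} {p q : ι → Z}
    (hS : Hemi S O₁ O₂ c) (hW : Holes S t W w) (h : Arcs S (⋃ j ∈ t, W j) s a p q)
    (he : ∀ i ∈ s, p i ∉ closure (c \ ⋃ j ∈ t, W j) ∧ q i ∉ closure (c \ ⋃ j ∈ t, W j)) :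
    ∃ F, Iso S (⋃ j ∈ t, W j) F ∧ ((⋃ i ∈ s, F '' a i) ∩ (c \ ⋃ j ∈ t, W j)).Finite := by
  have key : ∀ s' : Set ι, s'.Finite → s' ⊆ s → ∃ F, Iso S (⋃ j ∈ t, W j) F ∧
      ∀ i ∈ s', (F '' a i ∩ closure (c \ ⋃ j ∈ t, W j)).Finite := by
    intro s' hs'
    induction s', hs' using Set.Finite.induction_on with
    | empty => exact fun _ => ⟨id, Iso.refl, fun _ h => h.elim⟩
    | @insert i s' _ _ ih =>
      intro hs
      obtain ⟨F, hF, hf⟩ := ih ((subset_insert _ _).trans hs)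
      have hi := hs (mem_insert _ _)
      obtain ⟨N, n, n1, n2, n3, n4, n5⟩ := strips hS.sph hW (h.iso hS.sph hF) hi
      obtain ⟨a', a1, a2⟩ := gp1 hS n1 n2 n3 isClosed_closure
        (closure_minimal diff_subset hS.d1.rim_closed) (he i hi).1 (he i hi).2
      obtain ⟨G, g1, g2⟩ := mc1 n1 n3 a1
      refine ⟨G ∘ F, hF.step n1 n2 n4 g1, fun k hk => ?_⟩
      rw [image_comp]
      by_cases e : k = i
      · rwa [e, g2]
      · rw [image_congr (g := id) fun x hx => g1.fix x fun hx' =>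
          disjoint_left.1 (n5 k (hs hk) e) hx'.1 hx, image_id]
        exact hf k (hk.resolve_left e)
  obtain ⟨F, hF, hf⟩ := key s h.fin subset_rfl
  refine ⟨F, hF, (h.fin.biUnion hf).subset fun x hx => ?_⟩
  obtain ⟨i, hi, hx'⟩ := mem_iUnion₂.1 hx.1
  exact mem_biUnion hi ⟨hx', subset_closure hx.2⟩

end Pool.Agent.Lib.MP_b7d179_gt
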