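import Pool.Agent.Lib.MP_b7d179_gt.T.NF

/-! Normal position with respect to seams. -/

namespace Pool.Agent.Lib.MP_b7d179_gt

open Set Metric Topology Filter

variable {Z Z' : Type*} [MetricSpace Z] [MetricSpace Z'] {ι κ : Type*}

variable {S O₁ O₂ c₁ c₂ : Set Z}

/-- the sphere minus the holes is the union of two discs that meet in disjoint seams -/
structure Seams {μ : Type*} (S O₁ O₂ c₁ c₂ : Set Z) (t : Set κ) (W w : κ → Set Z) (k : Set μ)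
    (g : μ → Set Z) (x y : μ → Z) : Prop where
  sph : Sph S
  holes : Holes S t W w
  d1 : Disc O₁ c₁
  d2 : Disc O₂ c₂
  union : O₁ ∪ O₂ ∪ ⋃ j ∈ t, W j = S
  fin : k.Finite
  arc : ∀ i ∈ k, Arc (g i) (x i) (y i) ∧ g i ⊆ c₁ ∩ c₂ ∧ g i ∩ ⋃ j ∈ t, W j = {x i, y i}
  disj : k.PairwiseDisjoint g
  inter : O₁ ∩ O₂ = ⋃ i ∈ k, g i
  rim1 : c₁ ⊆ (⋃ i ∈ k, g i) ∪ ⋃ j ∈ t, W j
  rim2 : c₂ ⊆ (⋃ i ∈ k, g i) ∪ ⋃ j ∈ t, W j
  off1 : O₁ ∩ ⋃ j ∈ t, W j ⊆ c₁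
  off2 : O₂ ∩ ⋃ j ∈ t, W j ⊆ c₂
  meet : ∀ j ∈ t, (W j ∩ c₁).Nonempty

omit [MetricSpace Z] in
lemma nF2_img {F : Z → Z} {A B C : Set Z} (hF : Function.Injective F) (hA : ∀ x ∈ A, F x = x)
    (hC : F '' C = C) (h : B \ A = C \ A) : F '' B = B := by
  have a : ∀ D ⊆ A, F '' D = D := fun D hD =>
    (image_congr fun x hx => hA x (hD hx)).trans (image_id' D)
  rw [← sdiff_union_inter B A, image_union, a _ inter_subset_right, h, image_sdiff hF, hC,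
    a A subset_rfl]

lemma nF2_sys {F G : Z → Z} {O c : Set Z} {s : Set (Set Z)} {x y : Set Z → Z}
    (h : Sys O c s id x y) (hc : c ⊆ O) (hF : Emb F O) (h1 : F '' O = O) (h2 : F '' c = c)
    (hG : ∀ z, G (F z) = z) :
    Sys O c (image F '' s) id (fun b => F (x (G '' b))) (fun b => F (y (G '' b))) := by
  have l : ∀ b, G '' (F '' b) = b := fun b => by simp only [image_image, hG, image_id']
  refine ⟨h.fin.image _, ?_, ?_⟩
  · rintro _ ⟨b, hb, rfl⟩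
    have := (h.cc b hb).image hc hF subset_rfl
    rw [h1, h2] at this
    simpa only [l, id] using this
  · rintro _ ⟨b, hb, rfl⟩ _ ⟨b', hb', rfl⟩ n
    exact disjoint_image_of_injective (Function.LeftInverse.injective hG)
      (h.disj hb hb' fun e => n (e ▸ rfl))

theorem nf2 {μ : Type*} {t : Set κ} {W w : κ → Set Z} {k : Set μ} {g J : μ → Set Z}
    {x y j j' : μ → Z} {s : Set ι} {a : ι → Set Z} {p q : ι → Z}
    (hS : Seams S O₁ O₂ c₁ c₂ t W w k g x y) (hJ : ∀ i ∈ k, Arc (J i) (j i) (j' i) ∧ J i ⊆ g i)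
    (h : Arcs S (⋃ j ∈ t, W j) s a p q) (he : ∀ i ∈ s, p i ∉ ⋃ l ∈ k, g l ∧ q i ∉ ⋃ l ∈ k, g l) :
    ∃ F, Iso S (⋃ j ∈ t, W j) F ∧ ∃ (s₁ s₂ : Set (Set Z)) (x' y' : Set Z → Z),
      Sys O₁ c₁ s₁ id x' y' ∧ Sys O₂ c₂ s₂ id x' y' ∧
      (⋃ i ∈ s, F '' a i) ∩ O₁ = ⋃₀ s₁ ∧ (⋃ i ∈ s, F '' a i) ∩ O₂ = ⋃₀ s₂ ∧
      ⋃₀ s₁ ∪ ⋃₀ s₂ = ⋃ i ∈ s, F '' a i ∧
      (⋃ i ∈ s, F '' a i) ∩ (⋃ l ∈ k, g l) ⊆ ⋃ l ∈ k, J l \ {j l, j' l} ∧
      ∀ b ∈ s₁ ∪ s₂, (∀ l ∈ k, ¬ (x' b ∈ g l ∧ y' b ∈ g l)) ∧ ∃ i ∈ s, b ⊆ F '' a i ∧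
        (x' b ∈ ⋃ j ∈ t, W j → y' b ∈ ⋃ j ∈ t, W j → b = F '' a i) := by
  set A := ⋃ j ∈ t, W j with hA
  set G := ⋃ l ∈ k, g l with hG
  have cA : IsClosed A := hS.holes.fin.isClosed_biUnion fun i hi => (hS.holes.disc i hi).closed
  have cG : IsClosed G := hS.fin.isClosed_biUnion fun i hi => (hS.arc i hi).1.closed
  have G12 : G ⊆ c₁ ∩ c₂ := iUnion₂_subset fun i hi => (hS.arc i hi).2.1
  have S1 : O₁ ⊆ S := hS.union ▸ subset_union_left.trans subset_union_left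
  have S2 : O₂ ⊆ S := hS.union ▸ subset_union_right.trans subset_union_left
  obtain ⟨E, hE⟩ := hS.sph.compl hS.d1 S1
  have cE : c₁ ⊆ E := hE.d2.rim_sub
  have OE : O₂ ⊆ E := hS.d2.dense.trans (closure_minimal (fun z hz =>
    (hE.union.ge (S2 hz.1)).resolve_left fun b => hz.2 (G12 (hS.inter.le ⟨b, hz.1⟩)).2) hE.d2.closed)
  have G2 : G ⊆ O₂ := hS.inter.ge.trans inter_subset_right
  have EO : ∀ z ∈ E, z ∉ A → z ∈ O₂ := fun z hz n =>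
    ((hS.union.ge (hE.sub2 hz)).resolve_right n).elim
      (fun b => G2 ((hS.rim1 (hE.inter.le ⟨b, hz⟩)).resolve_right n)) id
  have cl : closure (c₁ \ A) ⊆ G :=
    closure_minimal (fun z hz => (hS.rim1 hz.1).resolve_right hz.2) cG
  obtain ⟨F, hF, s₁, s₂, x', y', N, hp⟩ := nf hE hS.holes h fun i hi =>
    ⟨fun b => (he i hi).1 (cl b), fun b => (he i hi).2 (cl b)⟩
  set X := ⋃ i ∈ s, F '' a i with hX
  have XA : ∀ z ∈ X, z ∈ G → z ∉ A := fun z hz b n => by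
    obtain ⟨i, hi, hz⟩ := mem_iUnion₂.1 hz
    rcases (h.inter i hi).le ((hF.inter (a i)).le ⟨hz, n⟩) with rfl | rfl
    exacts [(he i hi).1 b, (he i hi).2 b]
  have X1 : ∀ b ∈ s₁, b ⊆ X := fun b hb z hz => N.cov.le (Or.inl ⟨b, hb, hz⟩)
  have X2 : ∀ b ∈ s₂, b ⊆ X := fun b hb z hz => N.cov.le (Or.inr ⟨b, hb, hz⟩)
  have c1 : ∀ b ∈ s₁, Cc O₁ c₁ b (x' b) (y' b) := fun b hb => by
    obtain ⟨a1, a2, a3⟩ := N.p1 b hb
    refine ⟨a1, a2, Subset.antisymm (fun z hz => a3.le ⟨hz.1, Or.inl hz.2⟩) fun z hz => ?_⟩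
    have m := a3.ge hz
    exact ⟨m.1, m.2.elim id fun n => hS.off1 ⟨a2 m.1, n⟩⟩
  have c2 : ∀ b ∈ s₂, Cc O₂ c₂ b (x' b) (y' b) := fun b hb => by
    obtain ⟨a1, a2, a3⟩ := N.p2 b hb
    have o : b ⊆ O₂ := (a1.dense (toFinite {x' b, y' b})).trans (closure_minimal
      (fun z hz => EO z (a2 hz.1) fun n => hz.2 (a3.le ⟨hz.1, Or.inr n⟩)) hS.d2.closed)
    refine ⟨a1, o, Subset.antisymm (fun z hz => a3.le ⟨hz.1,
      (hS.rim2 hz.2).imp_left fun n => (G12 n).1⟩) fun z hz => ?_⟩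
    have m := a3.ge hz
    by_cases n : z ∈ A
    · exact ⟨m.1, hS.off2 ⟨o m.1, n⟩⟩
    · exact ⟨m.1, (G12 ((hS.rim1 (m.2.resolve_right n)).resolve_right n)).2⟩
  have i1 : X ∩ O₁ = ⋃₀ s₁ := by
    refine Subset.antisymm (fun z hz => ?_)
      (sUnion_subset fun b hb => subset_inter (X1 b hb) (c1 b hb).sub)
    by_cases n : z ∈ A
    · refine (N.cov.ge hz.1).resolve_right fun ⟨b, hb, m⟩ => ?_
      exact XA z hz.1 (hS.inter.le ⟨hz.2, (c2 b hb).sub m⟩) n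
    · exact N.cov1 ⟨hz, n⟩
  have i2 : X ∩ O₂ = ⋃₀ s₂ := by
    refine Subset.antisymm (fun z hz => ?_)
      (sUnion_subset fun b hb => subset_inter (X2 b hb) (c2 b hb).sub)
    by_cases n : z ∈ A
    · refine (N.cov.ge hz.1).resolve_left fun ⟨b, hb, m⟩ => ?_
      exact XA z hz.1 (hS.inter.le ⟨(c1 b hb).sub m, hz.2⟩) n
    · exact N.cov2 ⟨⟨hz.1, OE hz.2⟩, n⟩
  have gA : ∀ l ∈ k, ∀ z ∈ g l, z ∉ A → z ∈ g l \ {x l, y l} := fun l hl z hz n =>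
    ⟨hz, fun m => n ((hS.arc l hl).2.2.ge m).2⟩
  have gA' : ∀ l ∈ k, Disjoint (g l \ {x l, y l}) A := fun l hl =>
    disjoint_left.2 fun z hz n => hz.2 ((hS.arc l hl).2.2.le ⟨hz.1, n⟩)
  have nb : ∀ b ∈ s₁ ∪ s₂, ∀ l ∈ k, ¬ (x' b ∈ g l ∧ y' b ∈ g l) := by
    rintro b hb l hl ⟨m1, m2⟩
    have ab : Arc b (x' b) (y' b) := hb.elim (fun e => (c1 b e).arc) fun e => (c2 b e).arc
    have bX : b ⊆ X := hb.elim (X1 b) (X2 b)
    have n1 := XA _ (bX ab.left) (mem_biUnion hl m1)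
    have n2 := XA _ (bX ab.right) (mem_biUnion hl m2)
    obtain ⟨ag, gc, -⟩ := hS.arc l hl
    obtain ⟨u, ug, au⟩ := ag.sub m1 m2 ab.ne
    have uA : ∀ z ∈ u, z ∉ A := fun z hz => disjoint_left.1 (gA' l hl)
      (ag.sub_of_conn au ug ag.conn_open sdiff_subset (gA l hl _ m1 n1) (gA l hl _ m2 n2) hz)
    obtain ⟨v, tw⟩ := hS.d1.two_of_arc au (ug.trans (gc.trans inter_subset_left))
    rcases hb with hb | hb
    · obtain ⟨D, D', ct⟩ := hS.d1.cut tw (c1 b hb)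
      obtain ⟨z, z1, z2⟩ := N.b1 b hb _ _ _ _ ct n1 n2
      exact uA z (ct.inter_rim.le ⟨z1, hS.off1 ⟨ct.sub1 z1, z2⟩⟩) z2
    · obtain ⟨-, a2, a3⟩ := N.p2 b hb
      obtain ⟨D, D', ct⟩ := hE.d2.cut tw (g := b) ⟨ab, a2, Subset.antisymm
        (fun z hz => a3.le ⟨hz.1, Or.inl hz.2⟩) (subset_inter ab.ends (au.ends.trans tw.sub1))⟩
      obtain ⟨z, z1, z2⟩ := N.b2 b hb _ _ _ _ ct n1 n2
      obtain ⟨i, hi, z2⟩ := mem_iUnion₂.1 z2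
      have WA : W i ⊆ A := subset_biUnion_of_mem (u := W) hi
      have WD := (ct.side1 (hS.holes.disc i hi).conn
        (fun z hz => (hE.union.ge (hS.holes.sub i hi hz)).elim
          (fun m => cE (hS.off1 ⟨m, WA hz⟩)) id)
        (disjoint_left.2 fun z hz m => (a3.le ⟨m, Or.inr (WA hz)⟩).elim
          (fun e => n1 (e ▸ WA hz)) fun e => n2 ((mem_singleton_iff.1 e) ▸ WA hz)) ⟨z, z2, z1⟩).1
      obtain ⟨r, r1, r2⟩ := hS.meet i hi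
      exact uA r (ct.inter_rim.le ⟨WD r1, r2⟩) (WA r1)
  obtain ⟨H, hH, o1, o2, o3, o4, o5⟩ := slide hE cA hS.fin (E := X ∩ G)
    (fun l hl => ⟨(hS.arc l hl).1, (hS.arc l hl).2.1.trans inter_subset_left, gA' l hl, hJ l hl⟩)
    hS.disj (N.fin.subset fun z hz => ⟨hz.1, (G12 hz.2).1, XA z hz.1 hz.2⟩) fun z hz => by
      obtain ⟨l, hl, m⟩ := mem_iUnion₂.1 hz.2
      exact mem_biUnion hl (gA l hl z m (XA z hz.1 hz.2))
  obtain ⟨K, -, hK, -⟩ := hH.inv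
  have inj := hH.injective
  have fx : ∀ z ∈ A, H z = z := fun z hz => hH.fix (Or.inl hz)
  have eH := (hH.emb hS.sph).1
  have o6 : H '' O₂ = O₂ := nF2_img inj fx o2 (Subset.antisymm (fun z hz => ⟨OE hz.1, hz.2⟩)
    fun z hz => ⟨EO z hz.1 hz.2, hz.2⟩)
  have o7 : H '' c₂ = c₂ := nF2_img inj fx o3 (Subset.antisymm
    (fun z hz => ⟨(G12 ((hS.rim2 hz.1).resolve_right hz.2)).1, hz.2⟩)
    fun z hz => ⟨(G12 ((hS.rim1 hz.1).resolve_right hz.2)).2, hz.2⟩)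
  have o8 : H '' G = G := by
    rw [hG, image_iUnion₂]
    exact iUnion₂_congr o4
  have eX : ⋃ i ∈ s, (H ∘ F) '' a i = H '' X := by
    rw [hX, image_iUnion₂]
    exact iUnion₂_congr fun i _ => image_comp _ _ _
  refine ⟨H ∘ F, hH.comp hF, image H '' s₁, image H '' s₂, fun b => H (x' (K '' b)),
    fun b => H (y' (K '' b)),
    nF2_sys ⟨N.f1, c1, N.d1⟩ hS.d1.rim_sub (eH.mono S1) o1 o3 hK,
    nF2_sys ⟨N.f2, c2, N.d2⟩ hS.d2.rim_sub (eH.mono S2) o6 o7 hK, ?_, ?_, ?_, ?_, ?_⟩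
  · rw [eX, ← image_sUnion, ← i1, image_inter inj, o1]
  · rw [eX, ← image_sUnion, ← i2, image_inter inj, o6]
  · rw [eX, ← image_sUnion, ← image_sUnion, ← image_union, N.cov]
  · rwa [eX, ← o8, ← image_inter inj]
  · rw [← image_union]
    rintro _ ⟨b, hb, rfl⟩
    have l : K '' (H '' b) = b := by simp only [image_image, hK, image_id']
    have mA : ∀ z, H z ∈ A → z ∈ A := fun z hz => inj (fx _ hz) ▸ hz
    simp only [l]
    obtain ⟨i, hi, b1, b2⟩ := hp b hb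
    refine ⟨fun l hl m => nb b hb l hl ⟨inj.mem_set_image.1 ((o4 l hl).symm ▸ m.1),
      inj.mem_set_image.1 ((o4 l hl).symm ▸ m.2)⟩, i, hi, ?_, fun m1 m2 => ?_⟩
    · rw [image_comp]
      exact image_mono b1
    · rw [image_comp, ← b2 (mA _ m1) (mA _ m2)]

end Pool.Agent.Lib.MP_b7d179_gt
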