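import Pool.Agent.Lib.MP_b7d179_gt.T.Sys

/-! Access arcs. -/

namespace Pool.Agent.Lib.MP_b7d179_gt

open Set Metric Topology Filter

variable {Z Z' : Type*} [MetricSpace Z] [MetricSpace Z'] {ι κ : Type*}

variable {O c J l r g g₀ gm gp X : Set Z} {j j' m m' n n' e₀ : Z}

omit [MetricSpace Z] in
lemma fan_glue {X₁ X₂ D E G a₀ : Set Z} {P : Z → Set Z → Z → Prop} {q₀ : Z} {a₁ a₂ : Z → Set Z}
    {q₁ q₂ : Z → Z} (hX : X ⊆ insert e₀ (X₁ ∪ X₂)) (p0 : P e₀ a₀ q₀) (s0 : a₀ ⊆ G)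
    (i : D ∩ E ⊆ G) (d1 : X₁.PairwiseDisjoint a₁) (d2 : X₂.PairwiseDisjoint a₂)
    (p1 : ∀ e ∈ X₁, P e (a₁ e) (q₁ e) ∧ a₁ e ⊆ D \ G)
    (p2 : ∀ e ∈ X₂, P e (a₂ e) (q₂ e) ∧ a₂ e ⊆ E \ G) :
    ∃ (a : Z → Set Z) (q : Z → Z), X.PairwiseDisjoint a ∧ ∀ e ∈ X, P e (a e) (q e) := by
  classical
  let a : Z → Set Z := fun e => if e = e₀ then a₀ else if e ∈ X₁ then a₁ e else a₂ e
  let q : Z → Z := fun e => if e = e₀ then q₀ else if e ∈ X₁ then q₁ e else q₂ e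
  have k : ∀ e ∈ X, (e = e₀ ∧ a e = a₀ ∧ q e = q₀) ∨ (e ∈ X₁ ∧ a e = a₁ e ∧ q e = q₁ e) ∨
      (e ∈ X₂ ∧ a e = a₂ e ∧ q e = q₂ e) := fun e he => by
    by_cases h0 : e = e₀
    · exact Or.inl ⟨h0, if_pos h0, if_pos h0⟩
    · by_cases h1 : e ∈ X₁
      · exact Or.inr (Or.inl ⟨h1, (if_neg h0).trans (if_pos h1), (if_neg h0).trans (if_pos h1)⟩)
      · exact Or.inr (Or.inr ⟨((hX he).resolve_left h0).resolve_left h1,
          (if_neg h0).trans (if_neg h1), (if_neg h0).trans (if_neg h1)⟩)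
  have d01 : ∀ e ∈ X₁, Disjoint a₀ (a₁ e) := fun e he =>
    disjoint_left.2 fun z hz h => ((p1 e he).2 h).2 (s0 hz)
  have d02 : ∀ e ∈ X₂, Disjoint a₀ (a₂ e) := fun e he =>
    disjoint_left.2 fun z hz h => ((p2 e he).2 h).2 (s0 hz)
  have d12 : ∀ e ∈ X₁, ∀ f ∈ X₂, Disjoint (a₁ e) (a₂ f) := fun e he f hf =>
    disjoint_left.2 fun z hz h => ((p1 e he).2 hz).2 (i ⟨((p1 e he).2 hz).1, ((p2 f hf).2 h).1⟩)
  refine ⟨a, q, fun e he f hf ne => ?_, fun e he => ?_⟩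
  · change Disjoint (a e) (a f)
    rcases k e he with ⟨h, h', -⟩ | ⟨h, h', -⟩ | ⟨h, h', -⟩ <;>
      rcases k f hf with ⟨s, s', -⟩ | ⟨s, s', -⟩ | ⟨s, s', -⟩ <;> rw [h', s']
    exacts [(ne (h.trans s.symm)).elim, d01 f s, d02 f s, (d01 e h).symm, d1 h s ne, d12 e h f s,
      (d02 e h).symm, (d12 f s e h).symm, d2 h s ne]
  · rcases k e he with ⟨h, h', h''⟩ | ⟨h, h', h''⟩ | ⟨h, h', h''⟩ <;> rw [h', h'']
    exacts [h ▸ p0, (p1 e h).1, (p2 e h).1]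

omit [MetricSpace Z] in
lemma fan_cov {u v : Set Z} (hs : X ⊆ u ∪ v) (e : Z) :
    X ⊆ insert e ((X \ {e}) ∩ u ∪ (X \ {e}) ∩ v) := fun _ hw =>
  or_iff_not_imp_left.2 fun k => (hs hw).elim (fun s => Or.inl ⟨⟨hw, k⟩, s⟩) fun s =>
    Or.inr ⟨⟨hw, k⟩, s⟩

lemma fan_side {u v D E b : Set Z} {x y s t : Z} (h : Cut O c u v g D E x y)
    (hb : Cc D (u ∪ g) b s t) (hs : s ∈ u \ {x, y}) (ht : t ∈ u \ {x, y}) :
    Cc O c b s t ∧ b ⊆ D \ g := by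
  refine ⟨h.cc_up hb hs.1 ht.1, fun z hz => ⟨hb.sub hz, fun k => ?_⟩⟩
  rcases hb.inter.le ⟨hz, Or.inr k⟩ with rfl | rfl
  · exact hs.2 (h.cc.inter.le ⟨k, h.two.sub1 hs.1⟩)
  · exact ht.2 (h.cc.inter.le ⟨k, h.two.sub1 ht.1⟩)

lemma fan_start {u U : Set Z} {x y : Z} (h : Arc u x y) (hU : IsOpen U) (hx : x ∈ U) :
    ∃ b z, Arc b x z ∧ b ⊆ (u ∩ U) \ {y} := by
  obtain ⟨b, b', z, hb, -, -, un, s⟩ := h.start
    ((hU.inter (isOpen_compl_singleton (x := y))).mem_nhds ⟨hx, h.ne⟩)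
  exact ⟨b, z, hb, fun w hw => ⟨⟨un.le (Or.inl hw), (s hw).1⟩, (s hw).2⟩⟩

lemma fan_zero (k : ℕ) : ∀ {O c J X : Set Z} {j j' : Z}, Disc O c → Arc J j j' → J ⊆ c → X.Finite →
    X.ncard ≤ k → X ⊆ c → Disjoint X J → ∃ (a : Z → Set Z) (q : Z → Z), X.PairwiseDisjoint a ∧
      ∀ e ∈ X, Cc O c (a e) e (q e) ∧ q e ∈ J \ {j, j'} := by
  induction k with
  | zero =>
    intro O c J X j j' _ _ _ hX hk _ _
    rw [(ncard_eq_zero hX).1 (Nat.le_zero.1 hk)]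
    exact ⟨fun _ => ∅, id, pairwiseDisjoint_empty, fun _ h => h.elim⟩
  | succ k ih =>
    intro O c J X j j' hO hJ hc hX hk hs hd
    rcases X.eq_empty_or_nonempty with rfl | ⟨e₀, he⟩
    · exact ⟨fun _ => ∅, id, pairwiseDisjoint_empty, fun _ h => h.elim⟩
    obtain ⟨q₀, hq, qn⟩ := hJ.exists_notMem ((finite_singleton j').insert j)
    have ne : e₀ ≠ q₀ := fun h => disjoint_left.1 hd he (h ▸ hq)
    obtain ⟨u, v, t⟩ := hO.exists_two (hs he) (hc hq) ne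
    obtain ⟨g, hg⟩ := hO.exists_cc (hs he) (hc hq) ne
    obtain ⟨D, E, h⟩ := hO.cut t hg
    obtain ⟨U, hU, iU⟩ := hO.rim_rel_open hJ hc
    have side : ∀ {u v D E : Set Z}, Cut O c u v g D E e₀ q₀ → ∃ (a : Z → Set Z) (q : Z → Z),
        ((X \ {e₀}) ∩ u).PairwiseDisjoint a ∧ ∀ e ∈ (X \ {e₀}) ∩ u,
          (Cc O c (a e) e (q e) ∧ q e ∈ J \ {j, j'}) ∧ a e ⊆ D \ g := fun {u v D E} h => by
      obtain ⟨b, z, hb, sb⟩ := fan_start h.two.a1.symm hU (iU.ge ⟨hq, qn⟩).1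
      have bJ : b ⊆ J \ {j, j'} := fun w hw => iU.le ⟨(sb hw).1.2, h.two.sub1 (sb hw).1.1⟩
      obtain ⟨a, q, d, ha⟩ := ih (X := (X \ {e₀}) ∩ u) h.d1 hb
        (fun w hw => Or.inl (sb hw).1.1) (hX.subset fun w hw => hw.1.1)
        (Nat.le_of_lt_succ (((ncard_le_ncard inter_subset_left (hX.subset sdiff_subset)).trans_lt
          (ncard_sdiff_singleton_lt_of_mem he hX)).trans_le hk))
        (fun w hw => Or.inl hw.2) (hd.mono (fun w hw => hw.1.1) (bJ.trans sdiff_subset))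
      refine ⟨a, q, d, fun e he' => ?_⟩
      have m := (ha e he').2
      have f := fan_side h (ha e he').1 ⟨he'.2, by
          rintro (k | k)
          · exact he'.1.2 k
          · exact disjoint_left.1 hd he'.1.1 (k ▸ hq)⟩ ⟨(sb m.1).1.1, by
          rintro (k | k)
          · exact (sb m.1).2 k
          · exact m.2 (Or.inl k)⟩
      exact ⟨⟨f.1, bJ m.1⟩, f.2⟩
    obtain ⟨a₁, q₁, d1, p1⟩ := side h
    obtain ⟨a₂, q₂, d2, p2⟩ := side h.symm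
    exact fan_glue (P := fun e a q => Cc O c a e q ∧ q ∈ J \ {j, j'}) (e₀ := e₀)
      (fan_cov (hs.trans t.union.ge) e₀) ⟨hg, hq, qn⟩ subset_rfl h.inter.le d1 d2 p1 p2

lemma fan_closed {A : Set Z} (hO : Disc O c) (hA : IsClosed A) (hAc : Disjoint A c)
    (hJ : Arc J j j') (hc : J ⊆ c) (hX : X.Finite) (hs : X ⊆ c) (hd : Disjoint X J) :
    ∃ (a : Z → Set Z) (q : Z → Z), X.PairwiseDisjoint a ∧
      ∀ e ∈ X, Cc O c (a e) e (q e) ∧ q e ∈ J \ {j, j'} ∧ Disjoint (a e) A := by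
  obtain ⟨v, t⟩ := hO.two_of_arc hJ hc
  obtain ⟨z, hz, zn⟩ := t.a2.exists_notMem (hX.union ((finite_singleton j').insert j))
  obtain ⟨I, x, y, hI, s1, s2⟩ := hO.rim_around (hX.isCompact.union hJ.compact)
    ⟨j, Or.inr hJ.left⟩ (union_subset hs hc) (t.sub2 hz) (by
      rintro (k | k)
      · exact zn (Or.inl k)
      · exact zn (Or.inr (t.inter.le ⟨k, hz⟩)))
  obtain ⟨I', t'⟩ := hO.two_of_arc hI (s1.trans sdiff_subset)
  obtain ⟨g, D, E, h, d⟩ := bite0 hO t' hA (hAc.mono_right t'.sub1)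
  obtain ⟨a, q, p, ha⟩ := fan_zero _ h.d1 hJ (fun w hw => Or.inl (s2 (Or.inr hw)).1) hX le_rfl
    (fun w hw => Or.inl (s2 (Or.inl hw)).1) hd
  exact ⟨a, q, p, fun e he => ⟨h.cc_up (ha e he).1 (s2 (Or.inl he)).1 (s2 (Or.inr (ha e he).2.1)).1,
    (ha e he).2, d.mono_left (ha e he).1.sub⟩⟩

theorem fan {t : Set ι} {W w : ι → Set Z} (hO : Disc O c) (hW : Holes (O \ c) t W w)
    (hJ : Arc J j j') (hc : J ⊆ c) (hX : X.Finite) (hs : X ⊆ c) (hd : Disjoint X J) :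
    ∃ (a : Z → Set Z) (q : Z → Z), Sys O c X a id q ∧
      ∀ e ∈ X, q e ∈ J \ {j, j'} ∧ Disjoint (a e) (⋃ i ∈ t, W i) := by
  obtain ⟨a, q, p, ha⟩ := fan_closed hO
    (hW.fin.isClosed_biUnion fun i hi => (hW.disc i hi).closed)
    (disjoint_iUnion₂_left.2 fun i hi => disjoint_left.2 fun z hz => (hW.sub i hi hz).2)
    hJ hc hX hs hd
  exact ⟨a, q, ⟨hX, fun e he => (ha e he).1, p⟩, fun e he => (ha e he).2⟩

theorem fan_hole {t : Set ι} {W w : ι → Set Z} {i₀ : ι} (hO : Disc O c)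
    (hW : Holes (O \ c) t W w) (hi : i₀ ∈ t) (hJ : Arc J j j') (hc : J ⊆ w i₀) (hX : X.Finite)
    (hs : X ⊆ c) : ∃ (a : Z → Set Z) (q : Z → Z), X.PairwiseDisjoint a ∧ ∀ e ∈ X,
      Arc (a e) e (q e) ∧ q e ∈ J \ {j, j'} ∧ a e \ {e, q e} ⊆ (O \ c) \ ⋃ i ∈ t, W i := by
  rcases X.eq_empty_or_nonempty with rfl | ⟨p, hp⟩
  · exact ⟨fun _ => ∅, id, pairwiseDisjoint_empty, fun _ h => h.elim⟩
  have h₀ := hW.disc i₀ hi
  have wc : ∀ z ∈ W i₀, z ∉ c := fun z hz => (hW.sub i₀ hi hz).2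
  obtain ⟨p', hp', pn⟩ := hO.exists_rim hX
  obtain ⟨u, v, h⟩ := hO.exists_two (hs hp) hp' fun k => pn (k ▸ hp)
  obtain ⟨x, hx, xn⟩ := hJ.exists_notMem ((finite_singleton j').insert j)
  obtain ⟨x', hx', xn'⟩ := h₀.exists_rim (finite_singleton x)
  obtain ⟨η, hη, sη⟩ := hole_arc hO hW (Or.inl (hs hp)) (Or.inr (mem_biUnion hi (hc hx)))
    fun k => wc x (h₀.rim_sub (hc hx)) (k ▸ hs hp)
  obtain ⟨η', r, r', D, E, hη', sη', -, tw, hD, hE, -, -, iDE, iD, iE, cD, cE, un, oth⟩ :=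
    anncut hO hW hi h (hc hx) hx' (fun k => xn' k.symm) hη sη
  obtain ⟨U, hU, iU⟩ := h₀.rim_rel_open hJ hc
  have side : ∀ {u r D : Set Z}, Disc D (u ∪ η ∪ r ∪ η') → D ⊆ O → D ∩ W i₀ = r → D ∩ c = u →
      Arc r x x' → r ⊆ w i₀ →
      (∀ i ∈ t, i ≠ i₀ → W i ⊆ D \ (u ∪ η ∪ r ∪ η') ∨ Disjoint (W i) D) →
      ∃ (a : Z → Set Z) (q : Z → Z), ((X \ {p}) ∩ u).PairwiseDisjoint a ∧ ∀ e ∈ (X \ {p}) ∩ u,
        (Arc (a e) e (q e) ∧ q e ∈ J \ {j, j'} ∧ a e \ {e, q e} ⊆ (O \ c) \ ⋃ i ∈ t, W i) ∧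
        a e ⊆ D \ (η ∪ η') := fun {u r D} hD sD iD cD hr rw' oth => by
    obtain ⟨b, z, hb, sb⟩ := fan_start hr hU (iU.ge ⟨hx, xn⟩).1
    have bW : ∀ y ∈ b, y ∈ W i₀ := fun y hy => h₀.rim_sub (rw' (sb hy).1.1)
    obtain ⟨a, q, d, ha⟩ := fan_closed (A := ⋃ i ∈ t \ {i₀}, W i) (X := (X \ {p}) ∩ u) hD
      ((hW.fin.subset sdiff_subset).isClosed_biUnion fun i hi => (hW.disc i hi.1).closed)
      (disjoint_iUnion₂_left.2 fun i hi => (oth i hi.1 hi.2).elim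
        (fun k => disjoint_left.2 fun z hz => (k hz).2) fun k => k.mono_right hD.rim_sub)
      hb (fun y hy => Or.inl (Or.inr (sb hy).1.1)) (hX.subset fun y hy => hy.1.1)
      (fun y hy => Or.inl (Or.inl (Or.inl hy.2)))
      (disjoint_left.2 fun y hy k => wc y (bW y k) (hs hy.1.1))
    refine ⟨a, q, d, fun e he => ?_⟩
    obtain ⟨k1, k2, k3⟩ := ha e he
    have ec := hs he.1.1
    refine ⟨⟨k1.arc, iU.le ⟨(sb k2.1).1.2, rw' (sb k2.1).1.1⟩, fun y hy => ?_⟩,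
      fun y hy => ⟨k1.sub hy, fun k => ?_⟩⟩
    · have yD := k1.sub hy.1
      have yn : y ∉ u ∪ η ∪ r ∪ η' := fun k => hy.2 (k1.inter.le ⟨hy.1, k⟩)
      refine ⟨⟨sD yD, fun k => yn (Or.inl (Or.inl (Or.inl (cD.le ⟨yD, k⟩))))⟩, fun k => ?_⟩
      obtain ⟨i, hi', k⟩ := mem_iUnion₂.1 k
      by_cases s : i = i₀
      · exact yn (Or.inl (Or.inr (iD.le ⟨yD, s ▸ k⟩)))
      · exact disjoint_left.1 k3 hy.1 (mem_biUnion (show i ∈ t \ {i₀} from ⟨hi', s⟩) k)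
    · have qW := bW _ k2.1
      rcases k1.inter.le ⟨hy, k.imp (fun k => Or.inl (Or.inr k)) id⟩ with rfl | rfl
      · rcases k with k | k
        · refine (sη ⟨k, ?_⟩).1.2 ec
          rintro (s | s)
          · exact he.1.2 s
          · exact wc x (h₀.rim_sub (hc hx)) (s ▸ ec)
        · refine (sη' ⟨k, ?_⟩).1.2 ec
          rintro (s | s)
          · exact wc x' (h₀.rim_sub hx') (s ▸ ec)
          · exact pn (s ▸ he.1.1)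
      · rcases k with k | k
        · refine (sη ⟨k, ?_⟩).2 (mem_biUnion hi qW)
          rintro (s | s)
          · exact wc _ qW (s ▸ hs hp)
          · exact k2.2 (Or.inl s)
        · refine (sη' ⟨k, ?_⟩).2 (mem_biUnion hi qW)
          rintro (s | s)
          · exact (sb k2.1).2 s
          · exact wc _ qW (s ▸ hp')
  obtain ⟨a₁, q₁, d1, p1⟩ := side hD (fun z hz => un.le (Or.inl (Or.inl hz))) iD cD tw.a1 tw.sub1
    fun i hi ne => (oth i hi ne).imp And.left And.right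
  obtain ⟨a₂, q₂, d2, p2⟩ := side hE (fun z hz => un.le (Or.inl (Or.inr hz))) iE cE tw.a2 tw.sub2
    fun i hi ne => (oth i hi ne).symm.imp And.left And.right
  exact fan_glue (P := fun e a q => Arc a e q ∧ q ∈ J \ {j, j'} ∧
      a \ {e, q} ⊆ (O \ c) \ ⋃ i ∈ t, W i) (e₀ := p)
    (fan_cov (hs.trans h.union.ge) p) ⟨hη, ⟨hx, xn⟩, sη⟩ subset_union_left iDE.le
    d1 d2 p1 p2

theorem access3 (hO : Disc O c) (hq : Quad c g l g₀ r) (hm : Arc gm m m') (hp : Arc gp n n')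
    (hl : gm ⊆ l) (hr : gp ⊆ r) (hX : X.Finite) (hs : X ⊆ g \ (l ∪ r)) (he : e₀ ∈ X) :
    ∃ (a : Z → Set Z) (q : Z → Z), Sys O c X a id q ∧ q e₀ ∈ g₀ \ (l ∪ r) ∧
      ∀ e ∈ X, e ≠ e₀ → q e ∈ gm \ {m, m'} ∨ q e ∈ gp \ {n, n'} := by
  obtain ⟨q₀, h0, qn⟩ : ∃ q₀ ∈ g₀, q₀ ∉ l ∪ r := by
    obtain ⟨_, _, d, e, -, -, k, -, -, i1, i2, -⟩ := hq.ex
    obtain ⟨z, hz, zn⟩ := k.exists_notMem ((finite_singleton e).insert d)
    exact ⟨z, hz, fun s => zn (s.imp (fun s => i1.le ⟨s, hz⟩) fun s => i2.le ⟨hz, s⟩)⟩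
  have ne : ∀ e ∈ X, e ≠ q₀ := fun e he k => disjoint_left.1 hq.d1 (hs he).1 (k ▸ h0)
  obtain ⟨u, v, t, lu, rv⟩ := hq.two (hs he).1 h0
  obtain ⟨b, hb⟩ := hO.exists_cc (t.sub1 t.a1.left) (t.sub1 t.a1.right) (ne e₀ he)
  obtain ⟨D, E, h⟩ := hO.cut t hb
  have side : ∀ {u v D E J : Set Z} {j j' : Z}, Cut O c u v b D E e₀ q₀ → Arc J j j' → J ⊆ u →
      J ⊆ l ∪ r → ∃ (a : Z → Set Z) (q : Z → Z), ((X \ {e₀}) ∩ u).PairwiseDisjoint a ∧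
        ∀ e ∈ (X \ {e₀}) ∩ u, Cc O c (a e) e (q e) ∧ q e ∈ J \ {j, j'} ∧ a e ⊆ D \ b :=
    fun {u v D E J j j'} h hJ Ju Js => by
    obtain ⟨a, q, d, ha⟩ := fan_zero _ (X := (X \ {e₀}) ∩ u) h.d1 hJ (fun w hw => Or.inl (Ju hw))
      (hX.subset fun w hw => hw.1.1) le_rfl (fun w hw => Or.inl hw.2)
      (disjoint_left.2 fun w hw k => (hs hw.1.1).2 (Js k))
    refine ⟨a, q, d, fun e he' => ?_⟩
    have k := (ha e he').2
    have f := fan_side h (ha e he').1 ⟨he'.2, by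
        rintro (s | s)
        · exact he'.1.2 s
        · exact ne e he'.1.1 s⟩ ⟨Ju k.1, by
        rintro (s | s)
        · exact (hs he).2 (s ▸ Js k.1)
        · exact qn (s ▸ Js k.1)⟩
    exact ⟨f.1, k, f.2⟩
  obtain ⟨a₁, q₁, d1, p1⟩ := side h hm (hl.trans lu) (hl.trans subset_union_left)
  obtain ⟨a₂, q₂, d2, p2⟩ := side h.symm hp (hr.trans rv) (hr.trans subset_union_right)
  obtain ⟨a, q, d, ha⟩ := fan_glue (X := X) (P := fun e a q => Cc O c a e q ∧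
      (e = e₀ → q ∈ g₀ \ (l ∪ r)) ∧ (e ≠ e₀ → q ∈ gm \ {m, m'} ∨ q ∈ gp \ {n, n'})) (e₀ := e₀)
    (fan_cov (fun w hw => t.union.ge (hq.union.le (Or.inl (Or.inl (Or.inl (hs hw).1))))) e₀)
    ⟨hb, fun _ => ⟨h0, qn⟩, fun k => (k rfl).elim⟩
    subset_rfl h.inter.le d1 d2
    (fun e he => ⟨⟨(p1 e he).1, fun k => (he.1.2 k).elim, fun _ => Or.inl (p1 e he).2.1⟩,
      (p1 e he).2.2⟩)
    (fun e he => ⟨⟨(p2 e he).1, fun k => (he.1.2 k).elim, fun _ => Or.inr (p2 e he).2.1⟩,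
      (p2 e he).2.2⟩)
  exact ⟨a, q, ⟨hX, fun e he => (ha e he).1, d⟩, (ha e₀ he).2.1 rfl, fun e he => (ha e he).2.2⟩

end Pool.Agent.Lib.MP_b7d179_gt
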