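import Pool.Agent.Lib.MP_b7d179_gt.T.AnnB

/-! Discs with holes are equivalent. -/

namespace Pool.Agent.Lib.MP_b7d179_gt

open Set Metric Topology Filter

variable {Z Z' : Type*} [MetricSpace Z] [MetricSpace Z'] {ι κ : Type*}

/-- every disc is a hemisphere of a sphere in another space -/
theorem hole_hemi {O c : Set Z} (hO : Disc O c) :
    ∃ (k : Z → ℂ × ℝ) (S U : Set (ℂ × ℝ)), Emb k O ∧ Hemi S (k '' O) U (k '' c) := by
  obtain ⟨φ, ψ, -, hψ, -, -, e1, e2, -⟩ := hO.chart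
  have ha : Emb (fun z : ℂ => (z, (0 : ℝ))) (closedBall 0 1) :=
    ⟨by fun_prop, fun _ _ _ _ h => congrArg Prod.fst h⟩
  have hb : Emb (fun z : ℂ => (z, 1 - ‖z‖)) (closedBall 0 1) :=
    ⟨by fun_prop, fun _ _ _ _ h => congrArg Prod.fst h⟩
  have hk := ha.comp hψ e1.le
  have e : (fun z : ℂ => (z, 1 - ‖z‖)) '' sphere 0 1 = (fun z : ℂ => (z, (0 : ℝ))) '' sphere 0 1 :=
    image_congr fun z hz => by rw [mem_sphere_zero_iff_norm.1 hz, sub_self]
  refine ⟨_, _, (fun z : ℂ => (z, 1 - ‖z‖)) '' closedBall 0 1, hk, hO.image hk subset_rfl, ?_, ?_,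
    rfl⟩
  · rw [image_comp, e2, ← e]
    exact disc_unit.image hb subset_rfl
  · rw [image_comp, image_comp, e1, e2]
    refine subset_antisymm ?_ (subset_inter (image_mono sphere_subset_closedBall)
      (e ▸ image_mono sphere_subset_closedBall))
    rintro _ ⟨⟨z, -, rfl⟩, z', -, h⟩
    obtain ⟨rfl, h'⟩ := Prod.mk.inj h
    exact ⟨z', mem_sphere_zero_iff_norm.2 (by linarith), rfl⟩

/-- moving a disc inside a disc with holes -/
theorem hole_move {O c E e E' e' : Set Z} {t : Set ι} {W w : ι → Set Z} (hO : Disc O c)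
    (hW : Holes (O \ c) t W w) (hE : Disc E e) (hE' : Disc E' e')
    (hs : E ⊆ (O \ c) \ ⋃ j ∈ t, W j) (hs' : E' ⊆ (O \ c) \ ⋃ j ∈ t, W j) :
    ∃ G : Z → Z, Emb G O ∧ G '' O = O ∧ EqOn G id (c ∪ ⋃ j ∈ t, W j) ∧ G '' E = E' ∧
      G '' e = e' := by
  obtain ⟨k, S, U, hk, hS⟩ := hole_hemi hO
  have : Nonempty Z := let ⟨φ, _⟩ := hO; ⟨φ 0⟩
  obtain ⟨k', hk', l, -, im⟩ := hk.inv hO.compact
  have wO : ∀ j ∈ t, W j ⊆ O := fun j hj => (hW.sub j hj).trans sdiff_subset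
  have hU : ∀ x ∈ O \ c, k x ∉ U := fun x hx h =>
    hx.2 ((hk.mem_iff hO.rim_sub hx.1).1 (hS.inter.le ⟨⟨x, hx.1, rfl⟩, h⟩))
  have dU : ∀ j ∈ t, Disjoint U (k '' W j) := fun j hj => disjoint_right.2 (by
    rintro _ ⟨x, hx, rfl⟩
    exact hU x (hW.sub j hj hx))
  have H : Holes S (insert none (some '' t)) (fun o => o.elim U fun j => k '' W j)
      fun o => o.elim (k '' c) fun j => k '' w j := by
    refine ⟨(hW.fin.image _).insert _, ?_, ?_, ?_⟩
    · rintro _ (rfl | ⟨j, hj, rfl⟩)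
      · exact hS.d2
      · exact (hW.disc j hj).image hk (wO j hj)
    · rintro _ (rfl | ⟨j, hj, rfl⟩)
      · exact hS.sub2
      · exact (image_mono (wO j hj)).trans hS.sub1
    · rintro _ (rfl | ⟨i, hi, rfl⟩) _ (rfl | ⟨j, hj, rfl⟩) hne
      · exact absurd rfl hne
      · exact dU j hj
      · exact (dU i hi).symm
      · exact hk.disjoint (wO i hi) (wO j hj) (hW.disj hi hj fun h => hne (congrArg some h))
  have key : ∀ B ⊆ (O \ c) \ ⋃ j ∈ t, W j, k '' B ⊆ S \ ⋃ o ∈ insert none (some '' t),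
      (fun o : Option ι => o.elim U fun j => k '' W j) o := by
    rintro B hB _ ⟨x, hx, rfl⟩
    refine ⟨hS.sub1 ⟨x, (hB hx).1.1, rfl⟩, fun h => ?_⟩
    obtain ⟨_, rfl | ⟨j, hj, rfl⟩, h⟩ := mem_iUnion₂.1 h
    · exact hU x (hB hx).1 h
    · exact (hB hx).2 (mem_iUnion₂.2 ⟨j, hj, (hk.mem_iff (wO j hj) (hB hx).1.1).1 h⟩)
  have EO : E ⊆ O := fun x hx => (hs hx).1.1
  have EO' : E' ⊆ O := fun x hx => (hs' hx).1.1
  obtain ⟨F, hF, f1, f2⟩ := discmove hS.sph H (hE.image hk EO) (hE'.image hk EO') (key E hs)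
    (key E' hs')
  obtain ⟨fe, fi⟩ := hF.emb hS.sph
  have fU : ∀ y ∈ U, F y = y := fun y hy =>
    hF.fix (Or.inl (mem_iUnion₂.2 ⟨none, mem_insert _ _, hy⟩))
  have fO : F '' (k '' O) = k '' O := by
    refine subset_antisymm ?_ fun y hy => ?_
    · rintro _ ⟨x, hx, rfl⟩
      rcases hS.union.ge (fi.le ⟨x, hS.sub1 hx, rfl⟩) with h | h
      · exact h
      · rwa [hF.injective (fU _ h)]
    · obtain ⟨x, hx, rfl⟩ := fi.ge (hS.sub1 hy)
      rcases hS.union.ge hx with h | h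
      · exact ⟨x, h, rfl⟩
      · exact ⟨x, by rwa [fU x h] at hy, rfl⟩
  refine ⟨k' ∘ F ∘ k, hk'.comp ((fe.mono hS.sub1).comp hk subset_rfl)
    (by rw [image_comp, fO]), by rw [image_comp, image_comp, fO, im O subset_rfl], ?_,
    by rw [image_comp, image_comp, f1, im E' EO'],
    by rw [image_comp, image_comp, f2, im e' (hE'.rim_sub.trans EO')]⟩
  rintro x (hx | hx)
  · change k' (F (k x)) = x
    rw [fU _ (hS.d2.rim_sub ⟨x, hx, rfl⟩), l x (hO.rim_sub hx)]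
  · obtain ⟨j, hj, hx⟩ := mem_iUnion₂.1 hx
    change k' (F (k x)) = x
    rw [hF.fix (Or.inl (mem_iUnion₂.2 ⟨some j, Or.inr ⟨j, hj, rfl⟩, x, hx, rfl⟩)), l x (wO j hj hx)]

theorem Holes.hole_mono {S : Set Z} {t s : Set ι} {W w : ι → Set Z} (h : Holes S t W w)
    (hs : s ⊆ t) : Holes S s W w :=
  ⟨h.fin.subset hs, fun j hj => h.disc j (hs hj), fun j hj => h.sub j (hs hj), h.disj.subset hs⟩

theorem holes_map {O c : Set Z} {O' c' : Set Z'} {t : Set ι} {W w : ι → Set Z}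
    {W' w' : ι → Set Z'} {f : Z → Z'} (hO : Disc O c) (hO' : Disc O' c') (hf : Emb f c)
    (hi : f '' c = c') (hW : Holes (O \ c) t W w) (hW' : Holes (O' \ c') t W' w') :
    ∃ F : Z → Z', Emb F O ∧ F '' O = O' ∧ EqOn F f c ∧
      ∀ j ∈ t, F '' W j = W' j ∧ F '' w j = w' j := by
  have fin := hW.fin
  induction t, fin using Set.Finite.induction_on with
  | empty =>
    obtain ⟨F, a, b, d⟩ := hO.cone hO' hf hi
    exact ⟨F, a, b, d, fun _ h => h.elim⟩
  | @insert j t hj _ ih =>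
    obtain ⟨F, a, b, d, e⟩ := ih (hW.hole_mono (subset_insert _ _))
      (hW'.hole_mono (subset_insert _ _))
    have mj := mem_insert j t
    have wO : ∀ i ∈ insert j t, W i ⊆ O := fun i h => (hW.sub i h).trans sdiff_subset
    have Fc : F '' c = c' := (image_congr d).trans hi
    obtain ⟨G, g1, g2, g3, g4, g5⟩ := hole_move hO' (hW'.hole_mono (subset_insert _ _))
      ((hW.disc j mj).image a (wO j mj)) (hW'.disc j mj) (by
        rintro _ ⟨x, hx, rfl⟩
        refine ⟨⟨b.le ⟨x, wO j mj hx, rfl⟩, fun h => (hW.sub j mj hx).2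
          ((a.mem_iff hO.rim_sub (wO j mj hx)).1 (Fc.ge h))⟩, fun h => ?_⟩
        obtain ⟨i, h1, h2⟩ := mem_iUnion₂.1 h
        exact disjoint_left.1 (hW.disj mj (Or.inr h1) fun k => hj (k ▸ h1)) hx
          ((a.mem_iff (wO i (Or.inr h1)) (wO j mj hx)).1 ((e i h1).1.ge h2)))
      fun x hx => ⟨hW'.sub j mj hx, fun h => by
        obtain ⟨i, h1, h2⟩ := mem_iUnion₂.1 h
        exact disjoint_left.1 (hW'.disj mj (Or.inr h1) fun k => hj (k ▸ h1)) hx h2⟩
    have gi : ∀ i ∈ t, ∀ B ⊆ W' i, G '' B = B := fun i h B hB =>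
      (image_congr fun x hx => g3 (Or.inr (mem_iUnion₂.2 ⟨i, h, hB hx⟩))).trans (image_id B)
    refine ⟨G ∘ F, g1.comp a b.le, by rw [image_comp, b, g2], fun x hx => ?_, ?_⟩
    · exact (g3 (Or.inl (Fc.le ⟨x, hx, rfl⟩))).trans (d hx)
    · rintro i (rfl | h)
      · rw [image_comp, image_comp]
        exact ⟨g4, g5⟩
      · rw [image_comp, image_comp, (e i h).1, (e i h).2]
        exact ⟨gi i h _ subset_rfl, gi i h _ (hW'.disc i (Or.inr h)).rim_sub⟩

/-- two holes are joined to one -/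
theorem holes_join {O c : Set Z} {t : Set ι} {W w : ι → Set Z} {i j : ι} (hO : Disc O c)
    (hW : Holes (O \ c) t W w) (hi : i ∈ t) (hj : j ∈ t) (hne : i ≠ j) :
    ∃ T n, Disc T n ∧ W i ∪ W j ⊆ T \ n ∧ T ⊆ O \ c ∧
      ∀ l ∈ t, l ≠ i → l ≠ j → Disjoint T (W l) := by
  obtain ⟨x, hx, -⟩ := (hW.disc i hi).exists_rim finite_empty
  obtain ⟨y, hy, -⟩ := (hW.disc j hj).exists_rim finite_empty
  have xi := (hW.disc i hi).rim_sub hx
  have yj := (hW.disc j hj).rim_sub hy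
  have d : Disjoint (W i) (W j) := hW.disj hi hj hne
  obtain ⟨a, ha, hs⟩ := hole_arc hO hW (Or.inr (mem_iUnion₂.2 ⟨i, hi, hx⟩))
    (Or.inr (mem_iUnion₂.2 ⟨j, hj, hy⟩)) (d.ne_of_mem xi yj)
  have key : ∀ l ∈ t, ∀ z ∈ a, z ∈ W l → z = x ∨ z = y := fun l hl z hz h => by
    by_contra k
    exact (hs ⟨hz, k⟩).2 (mem_iUnion₂.2 ⟨l, hl, h⟩)
  obtain ⟨T, n, h1, h2, h3, h4⟩ := hO.dumb_nbhd (A := ⋃ l ∈ t \ {i, j}, W l) (hW.disc i hi)
    (hW.disc j hj) ha (union_subset (union_subset (hW.sub i hi) fun z hz => by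
      by_cases k : z = x ∨ z = y
      · rcases k with rfl | rfl
        · exact hW.sub i hi xi
        · exact hW.sub j hj yj
      · exact (hs ⟨hz, k⟩).1) (hW.sub j hj)) d
    (subset_antisymm (fun z hz => (key i hi z hz.1 hz.2).resolve_right fun k =>
      disjoint_left.1 d hz.2 (k ▸ yj)) (singleton_subset_iff.2 ⟨ha.left, xi⟩))
    (subset_antisymm (fun z hz => (key j hj z hz.1 hz.2).resolve_left fun k =>
      disjoint_left.1 d (k ▸ xi) hz.2) (singleton_subset_iff.2 ⟨ha.right, yj⟩))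
    ((hW.fin.subset sdiff_subset).isClosed_biUnion fun l hl => (hW.disc l hl.1).closed)
    (disjoint_left.2 fun z hz => by
      obtain ⟨l, hl, hz⟩ := mem_iUnion₂.1 hz
      have di : Disjoint (W l) (W i) := hW.disj hl.1 hi fun k => hl.2 (Or.inl k)
      have dj : Disjoint (W l) (W j) := hW.disj hl.1 hj fun k => hl.2 (Or.inr k)
      rintro ((h | h) | h)
      · exact disjoint_left.1 di hz h
      · rcases key l hl.1 z h hz with rfl | rfl
        · exact disjoint_left.1 di hz xi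
        · exact disjoint_left.1 dj hz yj
      · exact disjoint_left.1 dj hz h)
  exact ⟨T, n, h1, (union_subset_union_left _ subset_union_left).trans h2, h3,
    fun l hl a b => h4.mono_right (subset_biUnion_of_mem (u := W)
      (show l ∈ t \ {i, j} from ⟨hl, fun k => k.elim a b⟩))⟩

end Pool.Agent.Lib.MP_b7d179_gt
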