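import Pool.Agent.Lib.MP_b7d179_gt.T.Sph

/-! Spheres: curves, touching discs, moving a bite. -/

namespace Pool.Agent.Lib.MP_b7d179_gt

open Set Metric Topology Filter

variable {Z Z' : Type*} [MetricSpace Z] [MetricSpace Z'] {ι κ : Type*}

variable {S A D D' E c j u v P : Set Z} {p q : Z}

theorem Sph.jordan (h : Sph S) (hj : Two j u v p q) (hs : j ⊆ S) : ∃ D E, Hemi S D E j := by
  obtain ⟨D, E, c, k⟩ := h
  by_cases a : ∃ x ∈ S, x ∉ j
  · obtain ⟨x, hx, n⟩ := a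
    obtain ⟨O, O', o, k', -, d⟩ := k.sph.big (hj.union ▸ hj.a1.closed.union hj.a2.closed) hx n
    obtain ⟨F, hF, dF⟩ := k'.d1.fill hj fun y hy =>
      (k'.union.ge (hs hy)).resolve_right fun b => disjoint_left.1 d b hy
    obtain ⟨G, hG⟩ := k.sph.compl dF (hF.trans k'.sub1)
    exact ⟨F, G, hG⟩
  · exfalso
    push Not at a
    obtain ⟨x, hx, -⟩ := k.d1.exists_int finite_empty
    obtain ⟨y, hy, n⟩ := k.d1.exists_int (finite_singleton x)
    obtain ⟨u', v', t⟩ := hj.other (a x (k.sub1 hx.1)) (a y (k.sub1 hy.1)) (Ne.symm n)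
    have cc : c ⊆ u' ∪ v' := t.union.symm ▸ (k.d1.rim_sub.trans k.sub1).trans a
    have nc : Disjoint c (u' ∩ v') := t.inter.symm ▸ disjoint_left.2 fun z hz b =>
      b.elim (fun e => hx.2 (e ▸ hz)) fun e => hy.2 ((mem_singleton_iff.1 e) ▸ hz)
    have key : ∀ {u' v' : Set Z}, Two j u' v' x y → ¬ c ⊆ u' := fun {u' v'} t hc => by
      obtain ⟨a1, h1, -⟩ := k.d1.exists_rim finite_empty
      obtain ⟨a2, h2, n⟩ := k.d1.exists_rim (finite_singleton a1)
      obtain ⟨b1, b2, t'⟩ := k.d1.exists_two h1 h2 (Ne.symm n)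
      have s1 := t.a1.sub_of_conn t'.a1 (t'.sub1.trans hc) t'.a2.conn (t'.sub2.trans hc)
        t'.a2.left t'.a2.right
      obtain ⟨z, hz, n'⟩ := t'.a1.exists_notMem (toFinite {a1, a2})
      exact n' (t'.inter.le ⟨hz, s1 hz⟩)
    exact (side_of k.d1.rim_conn t.a1.closed t.a2.closed cc nc).elim (key t) (key t.symm)

theorem Hemi.eq (h : Hemi S D E c) (hD : Disc D' c) (hs : D' ⊆ S) : D' = D ∨ D' = E := by
  obtain ⟨x, hx, -⟩ := hD.exists_int finite_empty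
  have cl : ∀ F : Set Z, IsClosed F → D' \ c ⊆ F → D' ⊆ F := fun F hF s =>
    hD.dense.trans (closure_minimal s hF)
  exact (h.side (hD.conn_diff subset_rfl) (sdiff_subset.trans hs) disjoint_sdiff_left).imp
    (fun a => h.d1.eq_of_rim hD h.d1 (cl D h.d1.closed a) subset_rfl)
    fun a => h.d2.eq_of_rim hD h.d2 (cl E h.d2.closed a) subset_rfl

theorem Hemi.unique {E' : Set Z} (h : Hemi S D E c) (h' : Hemi S D E' c) : E = E' := by
  refine ((h.eq h'.d2 h'.sub2).resolve_left fun e => ?_).symm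
  obtain ⟨x, hx, -⟩ := h.d1.exists_int finite_empty
  exact hx.2 (h'.inter.le ⟨hx.1, e ▸ hx.1⟩)

/-- two discs with one rim that cover a sphere meet only in the rim -/
theorem Sph.hemi (h : Sph S) (hD : Disc D c) (hE : Disc E c) (hu : D ∪ E = S) :
    Hemi S D E c := by
  have sD : D ⊆ S := hu ▸ subset_union_left
  obtain ⟨F, k⟩ := h.compl hD sD
  rcases k.eq hE (hu ▸ subset_union_right) with e | e
  · exact (h.not_sub hD sD (by rw [← hu, e, union_self])).elim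
  · exact e ▸ k

theorem Sph.conn_in (h : Sph S) (hD : Disc D c) (hs : D ⊆ S) (hP : IsPreconnected P) (hP' : P ⊆ S)
    (hd : Disjoint P c) (hn : (P ∩ D).Nonempty) : P ⊆ D \ c := by
  obtain ⟨F, k⟩ := h.compl hD hs
  have a : P ⊆ D := (k.side hP hP' hd).elim id fun b => by
    obtain ⟨x, hx, hx'⟩ := hn
    exact (disjoint_left.1 hd hx (k.inter.le ⟨hx', b hx⟩)).elim
  exact fun x hx => ⟨a hx, disjoint_left.1 hd hx⟩

/-- a disc whose interior misses another disc meets it only in both rims -/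
theorem Sph.touch {c' : Set Z} (h : Sph S) (hD : Disc D c) (hD' : Disc D' c') (hs : D ⊆ S)
    (hs' : D' ⊆ S) (hd : Disjoint (D \ c) D') : D ∩ D' ⊆ c ∩ c' := by
  intro x hx
  refine ⟨by_contra fun n => disjoint_left.1 hd ⟨hx.1, n⟩ hx.2, by_contra fun n => ?_⟩
  obtain ⟨U, hU, e⟩ := h.open hD' hs'
  obtain ⟨y, y1, y2⟩ := mem_closure_iff.1 (hD.dense hx.1) U hU (e.ge ⟨hx.2, n⟩).1
  exact disjoint_left.1 hd y2 (e.le ⟨y1, hs y2.1⟩).1

/-- the end of an arc that leaves a disc lies in the rim -/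
theorem Sph.end_rim {a : Set Z} (h : Sph S) (hD : Disc D c) (hs : D ⊆ S) (ha : Arc a p q)
    (has : a ⊆ S) (hp : p ∈ D) (hi : a ∩ D ⊆ {p, q}) : p ∈ c := by
  by_contra n
  obtain ⟨U, hU, e⟩ := h.open hD hs
  obtain ⟨y, y1, y2⟩ := mem_closure_iff.1 (ha.dense (toFinite {p, q}) ha.left) U hU (e.ge ⟨hp, n⟩).1
  exact y2.2 (hi ⟨y2.1, (e.le ⟨y1, has y2.1⟩).1⟩)

/-- moving a bite from one half to the other -/
theorem Hemi.move {I I' g R R' : Set Z} (h : Hemi S D E c) (hc : Cut E c I I' g R R' p q) :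
    Hemi S (D ∪ R) R' (I' ∪ g) := by
  have i1 : D ∩ R = I := by
    rw [← hc.inter_rim, ← h.inter]
    exact Subset.antisymm (fun x hx => ⟨hx.2, hx.1, hc.sub1 hx.2⟩) fun x hx => ⟨hx.2.1, hx.1⟩
  have i2 : D ∩ R' = I' := by
    rw [← hc.symm.inter_rim, ← h.inter]
    exact Subset.antisymm (fun x hx => ⟨hx.2, hx.1, hc.sub2 hx.2⟩) fun x hx => ⟨hx.2.1, hx.1⟩
  exact ⟨(h.d1.glue hc.d1 hc.two.symm hc.two1.symm i1).disc, hc.d2,
    by rw [union_inter_distrib_right, i2, hc.inter], by rw [union_assoc, hc.union, h.union]⟩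

/-- replacing one half of a sphere -/
theorem Hemi.holes {t : Set ι} {W w : ι → Set Z} (h : Hemi S D E c) (hW : Holes S t W w)
    (hd : ∀ i ∈ t, Disjoint (W i) c) :
    Holes (D \ c) {i ∈ t | W i ⊆ D} W w ∧ Holes (E \ c) {i ∈ t | W i ⊆ E} W w ∧
      ∀ i ∈ t, W i ⊆ D \ c ∨ W i ⊆ E \ c := by
  have a : ∀ {F : Set Z}, ∀ i ∈ t, W i ⊆ F → W i ⊆ F \ c := fun i hi s x hx =>
    ⟨s hx, disjoint_left.1 (hd i hi) hx⟩
  have b : ∀ F : Set Z, Holes (F \ c) {i ∈ t | W i ⊆ F} W w := fun F =>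
    ⟨hW.fin.subset (sep_subset _ _), fun i hi => hW.disc i hi.1, fun i hi => a i hi.1 hi.2,
      hW.disj.subset (sep_subset _ _)⟩
  exact ⟨b D, b E, fun i hi => (h.side (hW.disc i hi).conn (hW.sub i hi) (hd i hi)).imp
    (a i hi) (a i hi)⟩

end Pool.Agent.Lib.MP_b7d179_gt
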