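import Pool.Agent.Lib.MP_b7d179_gt.T.Defs

/-! Arcs: cutting, joining, subarcs. -/

namespace Pool.Agent.Lib.MP_b7d179_gt

open Set Metric Topology Filter

variable {Z Z' : Type*} [MetricSpace Z] [MetricSpace Z'] {ι κ : Type*}

variable {a b u I J E A P U : Set Z} {p q r x y j j' : Z}

theorem arcA_Icc {s t : ℝ} (h : s < t) : Arc (Icc s t) s t := by
  refine ⟨fun v => (t - s) * v + s, ⟨by fun_prop, fun v _ w _ e => ?_⟩, ?_, by simp, by simp⟩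
  · exact mul_left_cancel₀ (sub_pos.2 h).ne' (add_right_cancel e)
  · rw [image_affine_Icc' (sub_pos.2 h)]
    simp

theorem arcA_of {γ : ℝ → Z} {B : Set ℝ} (e : Emb γ B) {s t : ℝ} (h : s < t) (hB : Icc s t ⊆ B) :
    Arc (γ '' Icc s t) (γ s) (γ t) := (arcA_Icc h).image e hB

theorem arcA_real {u : Set ℝ} {s t : ℝ} (h : Arc u s t) : u = uIcc s t := by
  refine Subset.antisymm ?_ (h.conn.ordConnected.uIcc_subset h.left h.right)
  obtain ⟨γ, e, rfl, rfl, rfl⟩ := h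
  rintro _ ⟨v, hv, rfl⟩
  have h0 : (0 : ℝ) ∈ Icc (0 : ℝ) 1 := left_mem_Icc.2 zero_le_one
  have h1 : (1 : ℝ) ∈ Icc (0 : ℝ) 1 := right_mem_Icc.2 zero_le_one
  rcases e.1.strictMonoOn_of_injOn_Icc' zero_le_one e.2 with m | m
  · exact mem_uIcc.2 (Or.inl ⟨m.monotoneOn h0 hv hv.1, m.monotoneOn hv h1 hv.2⟩)
  · exact mem_uIcc.2 (Or.inr ⟨m.antitoneOn hv h1 hv.2, m.antitoneOn h0 hv hv.1⟩)

/-- a parametrisation with its inverse -/
theorem Arc.arcA_chart (h : Arc a p q) : ∃ (γ : ℝ → Z) (g : Z → ℝ), Emb γ (Icc 0 1) ∧ Emb g a ∧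
    γ '' Icc 0 1 = a ∧ g '' a = Icc 0 1 ∧ γ 0 = p ∧ γ 1 = q ∧ g p = 0 ∧ g q = 1 ∧
    ∀ z ∈ a, γ (g z) = z := by
  obtain ⟨γ, e, rfl, rfl, rfl⟩ := h
  obtain ⟨g, e', l, r, i⟩ := e.inv isCompact_Icc
  exact ⟨γ, g, e, e', rfl, i _ subset_rfl, rfl, rfl, l _ (left_mem_Icc.2 zero_le_one),
    l _ (right_mem_Icc.2 zero_le_one), r⟩

theorem Arc.cat (ha : Arc a p q) (hb : Arc b q r) (h : a ∩ b = {q}) : Arc (a ∪ b) p r := by
  obtain ⟨γ, e, ia, rfl, rfl⟩ := ha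
  obtain ⟨δ, e', ib, d0, rfl⟩ := hb
  have i : (fun t : ℝ => t - 1) '' Icc 1 2 = Icc 0 1 := by
    rw [image_sub_const_Icc]
    norm_num
  have e₂ : Emb (δ ∘ fun t : ℝ => t - 1) (Icc 1 2) :=
    e'.comp ⟨by fun_prop, fun s _ t _ h => by simpa using h⟩ i.le
  have i₂ : (δ ∘ fun t : ℝ => t - 1) '' Icc 1 2 = b := by rw [image_comp, i, ib]
  have m : Icc (0 : ℝ) 1 ∩ Icc 1 2 = {1} := by
    rw [Icc_inter_Icc]
    norm_num
  obtain ⟨F, eF, f1, f2⟩ := e.paste e₂ isClosed_Icc isClosed_Icc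
    (by rw [m]; rintro _ rfl; simp [d0]) (by rw [ia, i₂, h, m, image_singleton])
  have un : Icc (0 : ℝ) 1 ∪ Icc 1 2 = Icc 0 2 := Icc_union_Icc_eq_Icc zero_le_one one_le_two
  have := arcA_of eF two_pos un.ge
  rw [← un, image_union, f1.image_eq, f2.image_eq, ia, i₂, f1 (left_mem_Icc.2 zero_le_one),
    f2 (right_mem_Icc.2 one_le_two)] at this
  convert this using 1
  norm_num

theorem Arc.split (ha : Arc a p q) (hx : x ∈ a) (hp : x ≠ p) (hq : x ≠ q) :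
    ∃ u v, Arc u p x ∧ Arc v x q ∧ u ∩ v = {x} ∧ u ∪ v = a := by
  obtain ⟨γ, e, rfl, rfl, rfl⟩ := ha
  obtain ⟨s, hs, rfl⟩ := hx
  have h0 : 0 < s := hs.1.lt_of_ne fun k => hp (k ▸ rfl)
  have h1 : s < 1 := hs.2.lt_of_ne fun k => hq (k ▸ rfl)
  have s0 : Icc 0 s ⊆ Icc (0 : ℝ) 1 := Icc_subset_Icc_right hs.2
  have s1 : Icc s 1 ⊆ Icc (0 : ℝ) 1 := Icc_subset_Icc_left hs.1
  refine ⟨_, _, arcA_of e h0 s0, arcA_of e h1 s1, ?_, ?_⟩
  · rw [← e.inter s0 s1, Icc_inter_Icc, sup_eq_right.2 hs.1, inf_eq_left.2 hs.2, Icc_self,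
      image_singleton]
  · rw [← image_union, Icc_union_Icc_eq_Icc hs.1 hs.2]

theorem Arc.sub (ha : Arc a p q) (hx : x ∈ a) (hy : y ∈ a) (h : x ≠ y) :
    ∃ u ⊆ a, Arc u x y := by
  obtain ⟨γ, e, rfl, rfl, rfl⟩ := ha
  obtain ⟨s, hs, rfl⟩ := hx
  obtain ⟨t, ht, rfl⟩ := hy
  rcases lt_trichotomy s t with k | rfl | k
  · exact ⟨_, image_mono (Icc_subset_Icc hs.1 ht.2), arcA_of e k (Icc_subset_Icc hs.1 ht.2)⟩
  · exact (h rfl).elim
  · exact ⟨_, image_mono (Icc_subset_Icc ht.1 hs.2),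
      (arcA_of e k (Icc_subset_Icc ht.1 hs.2)).symm⟩

theorem Arc.sub_of_conn (ha : Arc a p q) (hu : Arc u x y) (hua : u ⊆ a) (hP : IsPreconnected P)
    (hPa : P ⊆ a) (hx : x ∈ P) (hy : y ∈ P) : u ⊆ P := by
  obtain ⟨γ, g, -, e, -⟩ := ha.arcA_chart
  intro z hz
  refine (e.mem_iff hPa (hua hz)).1 ((hP.image _ (e.1.mono hPa)).ordConnected.uIcc_subset
    (mem_image_of_mem g hx) (mem_image_of_mem g hy) ?_)
  rw [← arcA_real (hu.image e hua)]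
  exact mem_image_of_mem g hz

theorem Arc.eq_of_sub (ha : Arc a p q) (hu : Arc u p q) (h : u ⊆ a) : u = a :=
  h.antisymm (ha.sub_of_conn ha subset_rfl hu.conn h hu.left hu.right)

theorem Arc.ends_eq (h : Arc a p q) (h' : Arc a x y) : ({p, q} : Set Z) = {x, y} := by
  obtain ⟨γ, g, -, e, -, i, g0, g1, -, -, r⟩ := h.arcA_chart
  have k := arcA_real (h'.image e subset_rfl)
  rw [i] at k
  rw [← g0, ← g1, ← r x h'.left, ← r y h'.right]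
  rcases le_total (g x) (g y) with l | l
  · rw [uIcc_of_le l, Icc_eq_Icc_iff zero_le_one] at k
    rw [← k.1, ← k.2]
  · rw [uIcc_of_ge l, Icc_eq_Icc_iff zero_le_one] at k
    rw [← k.1, ← k.2, pair_comm]

theorem Arc.conn_open (h : Arc a p q) : IsPreconnected (a \ {p, q}) := by
  obtain ⟨γ, e, rfl, rfl, rfl⟩ := h
  rw [← image_pair, ← e.diff subset_rfl (arcA_Icc zero_lt_one).ends, Icc_sdiff_both]
  exact isPreconnected_Ioo.image _ (e.1.mono Ioo_subset_Icc_self)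

theorem Arc.conn_half (h : Arc a p q) : IsPreconnected (a \ {p}) := by
  obtain ⟨γ, e, rfl, rfl, rfl⟩ := h
  rw [← image_singleton, ← e.diff subset_rfl
    (singleton_subset_iff.2 (left_mem_Icc.2 zero_le_one)), Icc_sdiff_left]
  exact isPreconnected_Ioc.image _ (e.1.mono Ioc_subset_Icc_self)

theorem Arc.dense (h : Arc a p q) (hE : E.Finite) : a ⊆ closure (a \ E) := by
  obtain ⟨γ, e, rfl, -, -⟩ := h
  have f : (Icc 0 1 ∩ γ ⁻¹' E).Finite :=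
    Finite.of_finite_image (hE.subset (by rintro _ ⟨t, ht, rfl⟩; exact ht.2))
      (e.2.mono inter_subset_left)
  have d : Icc (0 : ℝ) 1 ⊆ closure (Ioo 0 1 ∩ (Icc 0 1 ∩ γ ⁻¹' E)ᶜ) := by
    exact (closure_Ioo zero_ne_one).ge.trans (closure_minimal
      ((f.countable.dense_compl ℝ).open_subset_closure_inter isOpen_Ioo) isClosed_closure)
  rintro _ ⟨t, ht, rfl⟩
  refine closure_mono ?_ (((e.1 t ht).mono
    (inter_subset_left.trans Ioo_subset_Icc_self)).mem_closure_image (d ht))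
  rintro _ ⟨s, hs, rfl⟩
  exact ⟨⟨s, Ioo_subset_Icc_self hs.1, rfl⟩, fun k => hs.2 ⟨Ioo_subset_Icc_self hs.1, k⟩⟩

theorem Arc.exists_notMem (h : Arc a p q) (hE : E.Finite) : ∃ x ∈ a, x ∉ E :=
  closure_nonempty_iff.1 ⟨p, h.dense hE h.left⟩

theorem Arc.homeo {a' : Set Z'} {p' q' : Z'} (h : Arc a p q) (h' : Arc a' p' q') :
    ∃ f : Z → Z', Emb f a ∧ f '' a = a' ∧ f p = p' ∧ f q = q' := by
  obtain ⟨γ, g, -, e, -, i, -, -, g0, g1, -⟩ := h.arcA_chart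
  obtain ⟨δ, e', rfl, rfl, rfl⟩ := h'
  exact ⟨δ ∘ g, e'.comp e i.le, by rw [image_comp, i], congrArg δ g0, congrArg δ g1⟩

theorem arcA_two {s t w s' t' w' : ℝ} (h : s ≤ t) (k : t < w) (h' : s' ≤ t') (k' : t' < w')
    {f : ℝ → ℝ} (e : Emb f (Icc s t)) (i : f '' Icc s t = Icc s' t') (ft : f t = t') :
    ∃ F : ℝ → ℝ, Emb F (Icc s w) ∧ F '' Icc s w = Icc s' w' ∧ F w = w' ∧ EqOn F f (Icc s t) := by
  obtain ⟨g, e', i', g0, g1⟩ := (arcA_Icc k).homeo (arcA_Icc k')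
  have m : ∀ {s t w : ℝ}, s ≤ t → t < w → Icc s t ∩ Icc t w = {t} := fun h k => by
    rw [Icc_inter_Icc, sup_eq_right.2 h, inf_eq_left.2 k.le, Icc_self]
  obtain ⟨F, eF, f1, f2⟩ := e.paste e' isClosed_Icc isClosed_Icc
    (by rw [m h k]; rintro _ rfl; rw [ft, g0]) (by rw [i, i', m h k, m h' k', image_singleton, ft])
  rw [← Icc_union_Icc_eq_Icc h k.le, ← Icc_union_Icc_eq_Icc h' k'.le]
  exact ⟨F, eF, by rw [image_union, f1.image_eq, f2.image_eq, i, i'],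
    (f2 (right_mem_Icc.2 k.le)).trans g1, f1⟩

theorem arcA_three {s t c d : ℝ} (h0 : 0 < s) (h : s < t) (h1 : t < 1) (k0 : 0 < c) (k : c < d)
    (k1 : d < 1) : ∃ F : ℝ → ℝ, Emb F (Icc 0 1) ∧ F '' Icc 0 1 = Icc 0 1 ∧ F 0 = 0 ∧ F 1 = 1 ∧
      MapsTo F (Icc s t) (Icc c d) := by
  obtain ⟨f, e, i, f0, f1⟩ := (arcA_Icc h0).homeo (arcA_Icc k0)
  obtain ⟨g, e', i', g1, gf⟩ := arcA_two h0.le h k0.le k e i f1
  obtain ⟨F, eF, iF, F1, Fg⟩ := arcA_two (h0.trans h).le h1 (k0.trans k).le k1 e' i' g1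
  have a0 : (0 : ℝ) ∈ Icc 0 t := left_mem_Icc.2 (h0.trans h).le
  have as : s ∈ Icc 0 t := ⟨h0.le, h.le⟩
  refine ⟨F, eF, iF, (Fg a0).trans ((gf (left_mem_Icc.2 h0.le)).trans f0), F1, fun z hz => ?_⟩
  have := arcA_real (arcA_of e' h (Icc_subset_Icc_left h0.le))
  rw [gf (right_mem_Icc.2 h0.le), f1, g1, uIcc_of_le k.le] at this
  rw [Fg (Icc_subset_Icc_left h0.le hz), ← this]
  exact mem_image_of_mem g hz

theorem Arc.squeeze (h : Arc a p q) (hE : IsCompact E) (hEa : E ⊆ a \ {p, q}) (hJ : Arc J j j')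
    (hJa : J ⊆ a) :
    ∃ f : Z → Z, Emb f a ∧ f '' a = a ∧ f p = p ∧ f q = q ∧ f '' E ⊆ J \ {j, j'} := by
  obtain ⟨γ, g, eγ, e, iγ, i, γ0, γ1, g0, g1, r⟩ := h.arcA_chart
  have Ea : E ⊆ a := hEa.trans sdiff_subset
  have cE : IsCompact (insert (1 / 3) (insert (2 / 3) (g '' E))) :=
    ((e.compact Ea hE).insert _).insert _
  have sE : insert (1 / 3) (insert (2 / 3) (g '' E)) ⊆ Ioo 0 1 := by
    refine insert_subset (by norm_num) (insert_subset (by norm_num) ?_)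
    rw [← Icc_sdiff_both, ← i, ← g1, ← g0, ← image_pair, ← e.diff subset_rfl h.ends]
    exact image_mono hEa
  obtain ⟨s, hs⟩ := cE.exists_isLeast (insert_nonempty _ _)
  obtain ⟨t, ht⟩ := cE.exists_isGreatest (insert_nonempty _ _)
  have st : s < t := by
    have := hs.2 (mem_insert _ _)
    have := ht.2 (mem_insert_of_mem _ (mem_insert _ _))
    linarith
  obtain ⟨c, d, cd, iJ, ends⟩ : ∃ c d, c < d ∧ g '' J = Icc c d ∧ g '' {j, j'} = {c, d} := by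
    have k := hJ.image e hJa
    rcases k.ne.lt_or_gt with l | l
    · exact ⟨_, _, l, by rw [arcA_real k, uIcc_of_le l.le], image_pair ..⟩
    · exact ⟨_, _, l, by rw [arcA_real k, uIcc_of_ge l.le], by rw [image_pair, pair_comm]⟩
  have sJ : Icc c d ⊆ Icc 0 1 := iJ ▸ i ▸ image_mono hJa
  have c0 := (sJ (left_mem_Icc.2 cd.le)).1
  have d1 := (sJ (right_mem_Icc.2 cd.le)).2
  obtain ⟨F, eF, iF, F0, F1, m⟩ := arcA_three (sE hs.1).1 st (sE ht.1).2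
    (c := (2 * c + d) / 3) (d := (c + 2 * d) / 3) (by linarith) (by linarith) (by linarith)
  refine ⟨γ ∘ F ∘ g, eγ.comp (eF.comp e i.le) (by rw [image_comp, i, iF]),
    by rw [image_comp, image_comp, i, iF, iγ], by simp [g0, F0, γ0], by simp [g1, F1, γ1], ?_⟩
  rintro _ ⟨z, hz, rfl⟩
  have k : g z ∈ insert (1 / 3) (insert (2 / 3) (g '' E)) :=
    mem_insert_of_mem _ (mem_insert_of_mem _ (mem_image_of_mem g hz))
  have l := m ⟨hs.2 k, ht.2 k⟩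
  have n : F (g z) ∈ g '' (J \ {j, j'}) := by
    rw [e.diff hJa (hJ.ends.trans hJa), iJ, ends, Icc_sdiff_both]
    exact ⟨by linarith [l.1], by linarith [l.2]⟩
  obtain ⟨w, hw, ew⟩ := n
  change γ (F (g z)) ∈ _
  rwa [← ew, r w (hJa hw.1)]

theorem Arc.first_hit (h : Arc a p q) (hA : IsClosed A) (hp : p ∉ A) (hn : (a ∩ A).Nonempty) :
    ∃ u x, u ⊆ a ∧ Arc u p x ∧ u ∩ A = {x} := by
  obtain ⟨γ, e, rfl, rfl, -⟩ := h
  have c : IsCompact (Icc 0 1 ∩ γ ⁻¹' A) := isCompact_Icc.of_isClosed_subset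
    (e.1.preimage_isClosed_of_isClosed isClosed_Icc hA) inter_subset_left
  obtain ⟨s, hs, m⟩ := c.exists_isLeast (by
    obtain ⟨_, ⟨t, ht, rfl⟩, k⟩ := hn
    exact ⟨t, ht, k⟩)
  have h0 : 0 < s := hs.1.1.lt_of_ne fun k => hp (k ▸ hs.2)
  have s0 : Icc 0 s ⊆ Icc (0 : ℝ) 1 := Icc_subset_Icc_right hs.1.2
  refine ⟨_, _, image_mono s0, arcA_of e h0 s0, eq_singleton_iff_unique_mem.2
    ⟨⟨⟨s, right_mem_Icc.2 h0.le, rfl⟩, hs.2⟩, ?_⟩⟩
  rintro _ ⟨⟨t, ht, rfl⟩, k⟩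
  rw [le_antisymm ht.2 (m ⟨s0 ht, k⟩)]

end Pool.Agent.Lib.MP_b7d179_gt
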