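import Pool.Agent.Lib.MP_b7d179_gt.T.SphB

/-! Supported homeomorphisms and systems of crosscuts. -/

namespace Pool.Agent.Lib.MP_b7d179_gt

open Set Metric Topology Filter

variable {Z Z' : Type*} [MetricSpace Z] [MetricSpace Z'] {ι κ : Type*}

variable {S A A' O c N n u v g D E a a' B : Set Z} {p q : Z} {F G : Z → Z}

theorem sup_id : Sup (id : Z → Z) O c := ⟨emb_id _, image_id _, fun _ _ => rfl⟩

theorem Sup.comp (hG : Sup G O c) (hF : Sup F O c) : Sup (G ∘ F) O c :=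
  ⟨hG.emb.comp hF.emb hF.img.le, by rw [image_comp, hF.img, hG.img], fun x hx => by
    rw [Function.comp_apply, hF.fix x hx, hG.fix x hx]⟩

theorem Sup.inv (hO : Disc O c) (hF : Sup F O c) :
    ∃ G, Sup G O c ∧ (∀ x, G (F x) = x) ∧ ∀ x, F (G x) = x := by
  classical
  have : Nonempty Z := let ⟨φ, _⟩ := hO; ⟨φ 0⟩
  obtain ⟨g, hg, l, r, i⟩ := hF.emb.inv hO.compact
  have i1 := i O subset_rfl
  rw [hF.img] at hg r i1
  have e : EqOn (O.piecewise g id) g O := fun x hx => piecewise_eq_of_mem _ _ _ hx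
  have o : ∀ x, x ∉ O → O.piecewise g id x = x := fun x hx => piecewise_eq_of_notMem _ _ _ hx
  refine ⟨O.piecewise g id, ⟨hg.congr e, (image_congr e).trans i1, fun x hx => ?_⟩, fun x => ?_,
    fun x => ?_⟩ <;> by_cases h : x ∈ O
  · rw [e h]
    exact (congrArg g (hF.fix x hx).symm).trans (l x h)
  · exact o x h
  · rw [e (hF.img.le ⟨x, h, rfl⟩), l x h]
  · rw [hF.fix x fun k => h k.1, o x h]
  · rw [e h, r x h]
  · rw [o x h, hF.fix x fun k => h k.1]

theorem Sup.injective (hO : Disc O c) (hF : Sup F O c) : Function.Injective F :=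
  let ⟨_, _, h, _⟩ := hF.inv hO
  Function.LeftInverse.injective h

lemma Sup.mc_fix (hF : Sup F O c) (h : B ⊆ c) : F '' B = B :=
  (image_congr fun x hx => hF.fix x fun k => k.2 (h hx)).trans (image_id' B)

theorem Sup.rim (hF : Sup F O c) : F '' c = c := hF.mc_fix subset_rfl

theorem sup_of (hO : Disc O c) (hF : Emb F O) (hi : F '' O = O) (hc : EqOn F id c) :
    ∃ G, Sup G O c ∧ EqOn G F O := by
  classical
  have e : EqOn (O.piecewise F id) F O := fun x hx => piecewise_eq_of_mem _ _ _ hx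
  refine ⟨O.piecewise F id, ⟨hF.congr e, (image_congr e).trans hi, fun x hx => ?_⟩, e⟩
  by_cases h : x ∈ O
  · rw [e h]
    exact hc (by_contra fun k => hx ⟨h, k⟩)
  · exact piecewise_eq_of_notMem _ _ _ h

lemma Sup.mc_up (hF : Sup F N n) (hN : Disc N n) (hS : IsClosed S) (hs : N ⊆ S)
    (hU : ∃ U, IsOpen U ∧ U ∩ S = N \ n) : Emb F S ∧ F '' S = S := by
  obtain ⟨U, hU, e⟩ := hU
  have u : N ∪ S \ U = S := (union_subset hs sdiff_subset).antisymm fun x hx =>
    (em (x ∈ U)).imp (fun h => (e.le ⟨h, hx⟩).1) fun h => ⟨hx, h⟩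
  have f : EqOn F id (S \ U) := fun x hx => hF.fix x fun k => hx.2 (e.ge k).1
  refine ⟨⟨?_, (hF.injective hN).injOn⟩, ?_⟩
  · rw [← u]
    exact hF.emb.1.union_of_isClosed (continuousOn_id.congr f) hN.closed (hS.sdiff hU)
  · conv_lhs => rw [← u, image_union, hF.img, image_congr f, image_id, u]

theorem Sup.up (hO : Disc O c) (hN : Disc N n) (hs : N ⊆ O) (hF : Sup F N n) : Sup F O c :=
  have h := hF.mc_up hN hO.closed hs (hO.sub_open hN hs)
  ⟨h.1, h.2, fun x hx => hF.fix x fun k => hx (hO.sub_int hN hs k)⟩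

theorem Sup.sph (hS : Sph S) (hN : Disc N n) (hs : N ⊆ S) (hF : Sup F N n) :
    Emb F S ∧ F '' S = S := hF.mc_up hN hS.compact.isClosed hs (hS.open hN hs)

theorem Sup.cc (hO : Disc O c) (hF : Sup F O c) (ha : Cc O c a p q) : Cc O c (F '' a) p q := by
  have := ha.image hO.rim_sub hF.emb subset_rfl
  rwa [hF.img, hF.rim, hF.fix p fun k => k.2 ha.left, hF.fix q fun k => k.2 ha.right] at this

theorem Sup.cut (hF : Sup F O c) (h : Cut O c u v g D E p q) :
    Cut O c u v (F '' g) (F '' D) (F '' E) p q := by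
  have := h.image hF.emb subset_rfl
  rwa [hF.img, hF.rim, hF.mc_fix h.two.sub1, hF.mc_fix h.two.sub2,
    hF.fix p fun k => k.2 h.cc.left, hF.fix q fun k => k.2 h.cc.right] at this

theorem Sup.sys {s : Set ι} {a : ι → Set Z} {p q : ι → Z} (hO : Disc O c) (hF : Sup F O c)
    (h : Sys O c s a p q) : Sys O c s (fun i => F '' a i) p q :=
  ⟨h.fin, fun i hi => hF.cc hO (h.cc i hi), fun i hi j hj k =>
    hF.emb.disjoint (h.cc i hi).sub (h.cc j hj).sub (h.disj hi hj k)⟩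

theorem Sup.iso (hN : Disc N n) (hs : N ⊆ S) (hd : Disjoint (N \ n) A) (hF : Sup F N n) :
    Iso S A F := Iso.step .refl hN hs hd hF

theorem Iso.comp (hG : Iso S A G) (hF : Iso S A F) : Iso S A (G ∘ F) := by
  induction hG with
  | refl => exact hF
  | step _ h1 h2 h3 h4 ih => exact (Iso.step ih h1 h2 h3 h4 :)

theorem Iso.mono (hF : Iso S A F) (h : A' ⊆ A) : Iso S A' F := by
  induction hF with
  | refl => exact .refl
  | step _ h1 h2 h3 h4 ih => exact Iso.step ih h1 h2 (h3.mono_right h) h4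

theorem Iso.fix (hF : Iso S A F) {x : Z} (hx : x ∈ A ∨ x ∉ S) : F x = x := by
  induction hF with
  | refl => rfl
  | step _ h1 h2 h3 h4 ih =>
    rw [Function.comp_apply, ih]
    exact h4.fix x fun k => hx.elim (disjoint_left.1 h3 k) fun n => n (h2 k.1)

theorem Iso.emb (hS : Sph S) (hF : Iso S A F) : Emb F S ∧ F '' S = S := by
  induction hF with
  | refl => exact ⟨emb_id _, image_id _⟩
  | step _ h1 h2 h3 h4 ih =>
    have := h4.sph hS h1 h2
    exact ⟨this.1.comp ih.1 ih.2.le, by rw [image_comp, ih.2, this.2]⟩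

theorem Iso.inv (hF : Iso S A F) :
    ∃ G, Iso S A G ∧ (∀ x, G (F x) = x) ∧ ∀ x, F (G x) = x := by
  induction hF with
  | refl => exact ⟨id, .refl, fun _ => rfl, fun _ => rfl⟩
  | step _ h1 h2 h3 h4 ih =>
    obtain ⟨G, a1, a2, a3⟩ := ih
    obtain ⟨G', b1, b2, b3⟩ := h4.inv h1
    exact ⟨G ∘ G', a1.comp (b1.iso h1 h2 h3), fun x => by simp [a2, b2], fun x => by simp [a3, b3]⟩

theorem Iso.injective (hF : Iso S A F) : Function.Injective F :=
  let ⟨_, _, h, _⟩ := hF.inv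
  Function.LeftInverse.injective h

theorem Iso.inter (hF : Iso S A F) (B : Set Z) : F '' B ∩ A = B ∩ A := by
  ext x
  refine and_congr_left fun hx => ?_
  conv_lhs => rw [← hF.fix (.inl hx)]
  exact hF.injective.mem_set_image

/-- conjugation by a homeomorphism of spheres -/
theorem Iso.conj {f : Z → Z'} (hS : Sph S) (hf : Emb f S) (hA : A ⊆ S) (hF : Iso S A F) :
    ∃ G, Iso (f '' S) (f '' A) G ∧ ∀ x ∈ S, G (f x) = f (F x) := by
  have : Nonempty Z := let ⟨_, _, _, ⟨φ, _⟩, _, _, _⟩ := hS; ⟨φ 0⟩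
  obtain ⟨g, hg, l, -, i⟩ := hf.inv hS.compact
  induction hF with
  | refl => exact ⟨id, .refl, fun _ _ => rfl⟩
  | @step F G N n h0 h1 h2 h3 h4 ih =>
    obtain ⟨G₀, a1, a2⟩ := ih
    have s1 := h1.rim_sub.trans h2
    obtain ⟨G', b1, b2⟩ := sup_of (F := f ∘ G ∘ g) (h1.image hf h2)
      (hf.comp (h4.emb.comp (hg.mono (image_mono h2)) (i N h2).le) (by
        rw [image_comp, i N h2, h4.img]; exact h2))
      (by rw [image_comp, image_comp, i N h2, h4.img]) (by
        rintro _ ⟨x, hx, rfl⟩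
        simp only [Function.comp_apply, l x (s1 hx), h4.fix x fun k => k.2 hx, id])
    refine ⟨G' ∘ G₀, Iso.step a1 (h1.image hf h2) (image_mono h2) ?_ b1, fun x hx => ?_⟩
    · rw [← hf.diff h2 s1]
      exact hf.disjoint (sdiff_subset.trans h2) hA h3
    · have hy : F x ∈ S := (h0.emb hS).2.le ⟨x, hx, rfl⟩
      rw [Function.comp_apply, a2 x hx, Function.comp_apply]
      by_cases k : F x ∈ N
      · rw [b2 ⟨_, k, rfl⟩, Function.comp_apply, Function.comp_apply, l _ hy]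
      · rw [h4.fix _ fun m => k m.1, b1.fix _ fun m => k ((hf.mem_iff h2 hy).1 m.1)]

section
variable {a : ι → Set Z} {a' : ι → Set Z'} {p q : ι → Z}

/-- the statement of `mc` for the index set `t` -/
def McP (a : ι → Set Z) (a' : ι → Set Z') (p q : ι → Z) (t : Set ι) : Prop :=
  ∀ (O c : Set Z) (O' c' : Set Z') (f : Z → Z'), Disc O c → Disc O' c' → Emb f c → f '' c = c' →
    Sys O c t a p q → Sys O' c' t a' (f ∘ p) (f ∘ q) →
    ∃ F : Z → Z', Emb F O ∧ F '' O = O' ∧ EqOn F f c ∧ ∀ i ∈ t, F '' a i = a' i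

lemma mc_half {O' c' D' E' : Set Z'} {t : Set ι} {i : ι} {f k : Z → Z'} (hi : i ∈ t)
    (ih : McP a a' p q {j ∈ t | j ≠ i ∧ p j ∈ u}) (hf : Emb f c) (h : Sys O c t a p q)
    (h' : Sys O' c' t a' (f ∘ p) (f ∘ q)) (C : Cut O c u v (a i) D E (p i) (q i))
    (C' : Cut O' c' (f '' u) (f '' v) (a' i) D' E' (f (p i)) (f (q i))) (hk : Emb k (a i))
    (ki : k '' a i = a' i) (kp : k (p i) = f (p i)) (kq : k (q i) = f (q i)) :
    ∃ F : Z → Z', Emb F D ∧ F '' D = D' ∧ EqOn F f u ∧ EqOn F k (a i) ∧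
      ∀ j ∈ t, j ≠ i → p j ∈ u → F '' a j = a' j ∧ a j ⊆ D := by
  obtain ⟨f₁, e1, e2, e3, e4⟩ := C.two1.homeo C'.two1 (hf.mono C.two.sub1) hk rfl ki rfl rfl kp kq
  have k1 : ∀ j ∈ t, j ≠ i → p j ∈ u → Cc D (u ∪ a i) (a j) (p j) (q j) := fun j hj n m =>
    C.cc1 (h.cc j hj) (h.disj hj hi n) ⟨_, (h.cc j hj).arc.left, C.d1.rim_sub (.inl m)⟩
  obtain ⟨F, f1, f2, f3, f4⟩ := ih D _ D' _ f₁ C.d1 C'.d1 e1 e2
    ⟨h.fin.subset (sep_subset _ _), fun j hj => k1 j hj.1 hj.2.1 hj.2.2,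
      h.disj.subset (sep_subset _ _)⟩
    ⟨h.fin.subset (sep_subset _ _), fun j hj => by
      have := k1 j hj.1 hj.2.1 hj.2.2
      rw [Function.comp_apply, Function.comp_apply, e3 hj.2.2,
        e3 (C.inter_rim.le ⟨this.sub this.arc.right, (h.cc j hj.1).right⟩)]
      exact C'.cc1 (h'.cc j hj.1) (h'.disj hj.1 hi hj.2.1)
        ⟨_, (h'.cc j hj.1).arc.left, C'.d1.rim_sub (.inl ⟨_, hj.2.2, rfl⟩)⟩,
      h'.disj.subset (sep_subset _ _)⟩
  exact ⟨F, f1, f2, fun x hx => (f3 (.inl hx)).trans (e3 hx),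
    fun x hx => (f3 (.inr hx)).trans (e4 hx), fun j hj n m => ⟨f4 j ⟨hj, n, m⟩, (k1 j hj n m).sub⟩⟩

lemma mc_ind {s : Set ι} (hs : s.Finite) : ∀ t ⊆ s, McP a a' p q t := by
  induction s, hs using Set.Finite.induction_on with
  | empty =>
    intro t ht O c O' c' f hO hO' hf hi _ _
    obtain ⟨F, h1, h2, h3⟩ := hO.cone hO' hf hi
    exact ⟨F, h1, h2, h3, fun i h => (ht h).elim⟩
  | @insert i s _ _ ih =>
    intro t ht
    by_cases hi : i ∈ t
    swap
    · exact ih t fun j hj => (ht hj).resolve_left fun e => hi (e ▸ hj)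
    intro O c O' c' f hO hO' hf fi h h'
    have c1 := h.cc i hi
    have c2 := h'.cc i hi
    obtain ⟨u, v, T⟩ := hO.exists_two c1.left c1.right c1.arc.ne
    obtain ⟨D, E, C⟩ := hO.cut T c1
    obtain ⟨D', E', C'⟩ := hO'.cut (fi ▸ T.image hf subset_rfl) c2
    obtain ⟨k, hk, ki, kp, kq⟩ := c1.arc.homeo c2.arc
    obtain ⟨F₁, a1, a2, a3, a4, a5⟩ := mc_half hi
      (ih _ fun j hj => (ht hj.1).resolve_left hj.2.1) hf h h' C C' hk ki kp kq
    obtain ⟨F₂, b1, b2, b3, b4, b5⟩ := mc_half hi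
      (ih _ fun j hj => (ht hj.1).resolve_left hj.2.1) hf h h' C.symm C'.symm hk ki kp kq
    obtain ⟨F, f1, f2, f3⟩ := a1.paste b1 C.d1.closed C.d2.closed
      (C.inter ▸ fun x hx => (a4 hx).trans (b4 hx).symm) (by
        rw [a2, b2, C'.inter, C.inter, image_congr a4, ki])
    refine ⟨F, C.union ▸ f1, ?_, fun x hx => ?_, fun j hj => ?_⟩
    · rw [← C.union, image_union, image_congr f2, image_congr f3, a2, b2, C'.union]
    · rcases T.union.ge hx with m | m
      · exact (f2 (C.d1.rim_sub (.inl m))).trans (a3 m)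
      · exact (f3 (C.d2.rim_sub (.inl m))).trans (b3 m)
    · by_cases n : j = i
      · subst n
        exact (image_congr fun x hx => (f2 (C.d1.rim_sub (.inr hx))).trans (a4 hx)).trans ki
      rcases T.union.ge (h.cc j hj).left with m | m
      · exact (image_congr (f2.mono (a5 j hj n m).2)).trans (a5 j hj n m).1
      · exact (image_congr (f3.mono (b5 j hj n m).2)).trans (b5 j hj n m).1

end

theorem mc {O' c' : Set Z'} {s : Set ι} {a : ι → Set Z} {a' : ι → Set Z'} {p q : ι → Z}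
    {f : Z → Z'} (hO : Disc O c) (hO' : Disc O' c') (hf : Emb f c) (hi : f '' c = c')
    (h : Sys O c s a p q) (h' : Sys O' c' s a' (f ∘ p) (f ∘ q)) :
    ∃ F : Z → Z', Emb F O ∧ F '' O = O' ∧ EqOn F f c ∧ ∀ i ∈ s, F '' a i = a' i :=
  mc_ind h.fin s subset_rfl O c O' c' f hO hO' hf hi h h'

theorem mc_sup {s : Set ι} {a a' : ι → Set Z} {p q : ι → Z} (hO : Disc O c)
    (h : Sys O c s a p q) (h' : Sys O c s a' p q) :
    ∃ F, Sup F O c ∧ ∀ i ∈ s, F '' a i = a' i := by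
  obtain ⟨F, h1, h2, h3, h4⟩ := mc hO hO (emb_id c) (image_id c) h h'
  obtain ⟨G, g1, g2⟩ := sup_of hO h1 h2 h3
  exact ⟨G, g1, fun i hi => (image_congr (g2.mono (h.cc i hi).sub)).trans (h4 i hi)⟩

theorem mc1 (hO : Disc O c) (h : Cc O c a p q) (h' : Cc O c a' p q) :
    ∃ F, Sup F O c ∧ F '' a = a' := by
  obtain ⟨F, h1, h2⟩ := mc_sup (s := (univ : Set Unit)) (a := fun _ => a) (a' := fun _ => a')
    (p := fun _ => p) (q := fun _ => q) hO
    ⟨finite_univ, fun _ _ => h, Set.Subsingleton.pairwise subsingleton_univ _⟩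
    ⟨finite_univ, fun _ _ => h', Set.Subsingleton.pairwise subsingleton_univ _⟩
  exact ⟨F, h1, h2 () trivial⟩

end Pool.Agent.Lib.MP_b7d179_gt
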