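import Pool.Agent.Lib.MP_b7d179_gt.T.ThickB
import Pool.Agent.Lib.MP_b7d179_gt.T.MC

/-! Annuli, absorbing a bite, moving discs. -/

namespace Pool.Agent.Lib.MP_b7d179_gt

open Set Metric Topology Filter

variable {Z Z' : Type*} [MetricSpace Z] [MetricSpace Z'] {ι κ : Type*}

variable {S A O c O₁ O₂ I I' g R R' T t T' t' E e E' e' u v η : Set Z} {p p' x x' y : Z}

omit [MetricSpace Z] in
lemma ann_inter {a b : Set Z} (ha : p ∈ a) (hb : p ∈ b) (h : ∀ z ∈ a, z ∈ b → z = p) :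
    a ∩ b = {p} :=
  subset_antisymm (fun z hz => h z hz.1 hz.2) (singleton_subset_iff.2 ⟨ha, hb⟩)

/-- two disjoint sticks from the rim `c` to the hole `V` -/
structure AnnSt (O c V η η' : Set Z) (p p' x x' : Z) : Prop where
  a1 : Arc η p x
  a2 : Arc η' x' p'
  s1 : η ⊆ O
  s2 : η' ⊆ O
  c1 : ∀ z ∈ η, z ∈ c → z = p
  c2 : ∀ z ∈ η', z ∈ c → z = p'
  v1 : ∀ z ∈ η, z ∈ V → z = x
  v2 : ∀ z ∈ η', z ∈ V → z = x'
  d : Disjoint η η'
  hV : V ⊆ O \ c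

lemma ann_quad {V η' r : Set Z} (h : AnnSt O c V η η' p p' x x') (hu : Arc u p p') (huc : u ⊆ c)
    (hr : Arc r x x') (hrV : r ⊆ V) : Quad (u ∪ η ∪ r ∪ η') u η' r η := by
  refine ⟨⟨p, p', x', x, hu, h.a2.symm, hr.symm, h.a1.symm,
    ann_inter hu.right h.a2.right fun z a b => h.c2 z b (huc a),
    ann_inter h.a2.left hr.right fun z a b => h.v2 z a (hrV b),
    ann_inter hr.left h.a1.right fun z a b => h.v1 z b (hrV a),
    ann_inter h.a1.left hu.left fun z a b => h.c1 z a (huc b)⟩,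
    disjoint_left.2 fun z a b => (h.hV (hrV b)).2 (huc a), h.d.symm, ?_⟩
  ext z
  simp only [mem_union]
  tauto

lemma ann_cc {V η' r : Set Z} (h : AnnSt O c V η η' p p' x x') (hp : p ∈ c) (hp' : p' ∈ c)
    (hr : Arc r x x') (hrV : r ⊆ V) : Cc O c (η ∪ r ∪ η') p p' := by
  refine ⟨(h.a1.cat hr (ann_inter h.a1.right hr.left fun z a b => h.v1 z a (hrV b))).cat h.a2
    (ann_inter (Or.inr hr.right) h.a2.left ?_),
    union_subset (union_subset h.s1 fun z a => (h.hV (hrV a)).1) h.s2, subset_antisymm ?_ ?_⟩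
  · rintro z (a | a) b
    · exact (disjoint_left.1 h.d a b).elim
    · exact h.v2 z b (hrV a)
  · rintro z ⟨(a | a) | a, b⟩
    · exact Or.inl (h.c1 z a b)
    · exact ((h.hV (hrV a)).2 b).elim
    · exact Or.inr (h.c2 z a b)
  · rintro z (rfl | rfl)
    · exact ⟨Or.inl (Or.inl h.a1.left), hp⟩
    · exact ⟨Or.inr h.a2.right, hp'⟩

/-- the case that the hole lies on the side `E` -/
lemma ann_core {V w η' r r' D : Set Z} (h : AnnSt O c V η η' p p' x x') (hV : Disc V w)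
    (h2 : Two w r r' x x') (k : Cut O c u v (η ∪ r ∪ η') D E p p') (hE : r' ⊆ E) :
    ∃ E', Disc D (u ∪ η ∪ r ∪ η') ∧ Disc E' (v ∪ η ∪ r' ∪ η') ∧ D ∩ E' = η ∪ η' ∧ D ∩ V = r ∧
      E' ∩ V = r' ∧ D ∩ c = u ∧ E' ∩ c = v ∧ D ∪ E' ∪ V = O ∧
      ∀ P : Set Z, IsPreconnected P → P.Nonempty → P ⊆ O \ c → Disjoint P η → Disjoint P η' →
        Disjoint P V → (P ⊆ D \ (u ∪ η ∪ r ∪ η') ∧ Disjoint P E') ∨
          (P ⊆ E' \ (v ∪ η ∪ r' ∪ η') ∧ Disjoint P D) := by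
  have rV : r ⊆ V := h2.sub1.trans hV.rim_sub
  have rV' : r' ⊆ V := h2.sub2.trans hV.rim_sub
  have uc := k.two.sub1
  have vc := k.two.sub2
  have a3 : Arc (η ∪ v ∪ η') x x' :=
    (h.a1.symm.cat k.two.a2 (ann_inter h.a1.left k.two.a2.left fun z a b => h.c1 z a (vc b))).cat
      h.a2.symm (ann_inter (Or.inr k.two.a2.right) h.a2.right (by
        rintro z (a | a) b
        · exact (disjoint_left.1 h.d a b).elim
        · exact h.c2 z b (vc a)))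
  have i3 : ∀ z ∈ V, z ∈ η ∪ v ∪ η' → z ∈ ({x, x'} : Set Z) := by
    rintro z a ((b | b) | b)
    · exact Or.inl (h.v1 z b a)
    · exact ((h.hV a).2 (vc b)).elim
    · exact Or.inr (h.v2 z b a)
  have t3 : Two (v ∪ (η ∪ r ∪ η')) r (η ∪ v ∪ η') x x' :=
    ⟨h2.a1, a3, subset_antisymm (fun z hz => i3 z (rV hz.1) hz.2)
      (subset_inter h2.a1.ends a3.ends), by ext z; simp only [mem_union]; tauto⟩
  have c3 : Cc E (v ∪ (η ∪ r ∪ η')) r' x x' := by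
    refine ⟨h2.a2, hE, subset_antisymm (fun z hz => ?_)
      (subset_inter h2.a2.ends (h2.a1.ends.trans t3.sub1))⟩
    rcases t3.union.ge hz.2 with a | a
    · exact h2.inter.le ⟨a, hz.1⟩
    · exact i3 z (rV' hz.1) a
  obtain ⟨F, E', k'⟩ := k.d2.cut t3 c3
  obtain rfl : F = V := k.disc.eq_of_rim (h2.union ▸ k'.d1) hV (k'.sub1.trans k.sub2)
    fun z a => (h.hV a).1
  have e1 : u ∪ (η ∪ r ∪ η') = u ∪ η ∪ r ∪ η' := by simp only [union_assoc]
  have e2 : η ∪ v ∪ η' ∪ r' = v ∪ η ∪ r' ∪ η' := by ext z; simp only [mem_union]; tauto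
  have gD : η ∪ r ∪ η' ⊆ D := k.inter.ge.trans inter_subset_left
  have aE : η ∪ v ∪ η' ⊆ E' := subset_union_left.trans k'.d2.rim_sub
  refine ⟨E', e1 ▸ k.d1, e2 ▸ k'.d2, subset_antisymm (fun z hz => ?_) (fun z hz => ?_),
    subset_antisymm (fun z hz => ?_) (fun z hz => ⟨gD (Or.inl (Or.inr hz)), rV hz⟩),
    by rw [inter_comm, k'.inter], k.inter_rim,
    subset_antisymm (fun z hz => k.symm.inter_rim.le ⟨k'.sub2 hz.1, hz.2⟩)
      (fun z hz => ⟨aE (Or.inl (Or.inr hz)), vc hz⟩),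
    by rw [union_assoc, union_comm E', k'.union, k.union], fun P c1 ⟨y, hy⟩ c3 c4 c5 c6 => ?_⟩
  · have z1 := k.inter.le ⟨hz.1, k'.sub2 hz.2⟩
    have z2 := k'.symm.inter_rim.le ⟨hz.2, Or.inr z1⟩
    rcases z1 with (a | a) | a
    · exact Or.inl a
    · rcases i3 z (rV a) z2 with rfl | rfl
      exacts [Or.inl h.a1.right, Or.inr h.a2.left]
    · exact Or.inr a
  · rcases hz with a | a
    · exact ⟨gD (Or.inl (Or.inl a)), aE (Or.inl (Or.inl a))⟩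
    · exact ⟨gD (Or.inr a), aE (Or.inr a)⟩
  · exact k'.inter_rim.le ⟨hz.2, Or.inr (k.inter.le ⟨hz.1, k'.sub1 hz.2⟩)⟩
  have dg : Disjoint P (η ∪ r ∪ η') :=
    disjoint_union_right.2 ⟨disjoint_union_right.2 ⟨c4, c6.mono_right rV⟩, c5⟩
  have off : ∀ {b s : Set Z}, b ⊆ c → s ⊆ F → ∀ z ∈ P, z ∉ b ∪ η ∪ s ∪ η' := by
    rintro b s hb hs z a (((d | d) | d) | d)
    exacts [(c3 a).2 (hb d), disjoint_left.1 c4 a d, disjoint_left.1 c6 a (hs d),
      disjoint_left.1 c5 a d]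
  rcases k.side c1 (fun z a => (c3 a).1) dg with a | a
  · exact Or.inl ⟨fun z b => ⟨a b, off uc rV z b⟩, disjoint_left.2 fun z b d =>
      disjoint_left.1 dg b (k.inter.le ⟨a b, k'.sub2 d⟩)⟩
  · rcases k'.side c1 a (c6.mono_right rV') with b | b
    · exact (disjoint_left.1 c6 hy (b hy)).elim
    · exact Or.inr ⟨fun z d => ⟨b d, off vc rV' z d⟩, disjoint_left.2 fun z d f =>
        disjoint_left.1 dg d (k.inter.le ⟨f, a d⟩)⟩

/-- an annulus with further holes, cut along two arcs, the first one given -/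
theorem anncut {t : Set ι} {W w : ι → Set Z} {j : ι} (hO : Disc O c) (hW : Holes (O \ c) t W w)
    (hj : j ∈ t) (h : Two c u v p p') (hx : x ∈ w j) (hx' : x' ∈ w j) (hne : x ≠ x')
    (hη : Arc η p x) (hs : η \ {p, x} ⊆ (O \ c) \ ⋃ i ∈ t, W i) :
    ∃ η' r r' D E, Arc η' x' p' ∧ η' \ {x', p'} ⊆ (O \ c) \ ⋃ i ∈ t, W i ∧ Disjoint η η' ∧
      Two (w j) r r' x x' ∧ Disc D (u ∪ η ∪ r ∪ η') ∧ Disc E (v ∪ η ∪ r' ∪ η') ∧
      Quad (u ∪ η ∪ r ∪ η') u η' r η ∧ Quad (v ∪ η ∪ r' ∪ η') v η' r' η ∧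
      D ∩ E = η ∪ η' ∧ D ∩ W j = r ∧ E ∩ W j = r' ∧ D ∩ c = u ∧ E ∩ c = v ∧ D ∪ E ∪ W j = O ∧
      ∀ i ∈ t, i ≠ j → (W i ⊆ D \ (u ∪ η ∪ r ∪ η') ∧ Disjoint (W i) E) ∨
        (W i ⊆ E \ (v ∪ η ∪ r' ∪ η') ∧ Disjoint (W i) D) := by
  have hV := hW.disc j hj
  have hVO := hW.sub j hj
  have hp : p ∈ c := h.sub1 h.a1.left
  have hp' : p' ∈ c := h.sub1 h.a1.right
  have xV := hV.rim_sub hx
  have xV' := hV.rim_sub hx'
  have dj : ∀ i ∈ t, i ≠ j → ∀ z ∈ W i, z ∉ W j := fun i hi hij z a b =>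
    disjoint_left.1 (hW.disj hi hj hij) a b
  -- properties of a stick
  have stick : ∀ {a : Set Z} {q y : Z}, q ∈ c → y ∈ W j →
      a \ {q, y} ⊆ (O \ c) \ ⋃ i ∈ t, W i → a ⊆ O ∧ (∀ z ∈ a, z ∈ c → z = q) ∧
        (∀ z ∈ a, z ∈ W j → z = y) ∧ ∀ i ∈ t, i ≠ j → Disjoint (W i) a := by
    intro a q y hq hy ha
    have cs : ∀ z ∈ a, z = q ∨ z = y ∨ z ∈ (O \ c) \ ⋃ i ∈ t, W i := fun z hz => by
      by_cases e : z ∈ ({q, y} : Set Z)
      · exact e.imp id Or.inl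
      · exact Or.inr (Or.inr (ha ⟨hz, e⟩))
    refine ⟨fun z hz => ?_, fun z hz b => ?_, fun z hz b => ?_,
      fun i hi hij => disjoint_left.2 fun z b hz => ?_⟩
    · rcases cs z hz with rfl | rfl | e
      exacts [hO.rim_sub hq, (hVO hy).1, e.1.1]
    · rcases cs z hz with rfl | rfl | e
      exacts [rfl, ((hVO hy).2 b).elim, (e.1.2 b).elim]
    · rcases cs z hz with rfl | rfl | e
      exacts [((hVO b).2 hq).elim, rfl, (e.2 (mem_biUnion hj b)).elim]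
    · rcases cs z hz with rfl | rfl | e
      exacts [(hW.sub i hi b).2 hq, dj i hi hij _ b hy, e.2 (mem_biUnion hi b)]
  obtain ⟨s1, c1, v1, o1⟩ := stick hp xV hs
  have hW0 : Holes (O \ c) (t \ {j}) W w := ⟨hW.fin.subset sdiff_subset, fun i hi => hW.disc i hi.1,
    fun i hi => hW.sub i hi.1, hW.disj.subset sdiff_subset⟩
  have cl0 : IsClosed (⋃ i ∈ t \ {j}, W i) :=
    hW0.fin.isClosed_biUnion fun i hi => (hW0.disc i hi).closed
  have m0 : ∀ z ∈ ⋃ i ∈ t \ {j}, W i, z ∉ η ∧ z ∉ W j ∧ z ∉ c := fun z hz => by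
    obtain ⟨i, hi, a⟩ := mem_iUnion₂.1 hz
    exact ⟨disjoint_left.1 (o1 i hi.1 hi.2) a, dj i hi.1 hi.2 z a, (hW.sub i hi.1 a).2⟩
  have n1 := ns_arc hO cl0 (ns_holes hO hW0) hη s1 (by
    refine Set.Subsingleton.isPreconnected (subsingleton_of_subset_singleton (a := p) ?_)
    rintro z ⟨a | a, b⟩
    exacts [c1 z b a, ((m0 z a).1 b).elim])
  have cl1 := cl0.union hη.closed
  have n2 := ns_disc hO cl1 n1 hV (fun z a => (hVO a).1) (by
    refine Set.Subsingleton.isPreconnected (subsingleton_of_subset_singleton (a := x) ?_)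
    rintro z ⟨a | a | a, b⟩
    exacts [((hVO b).2 a).elim, ((m0 z a).2.1 b).elim, v1 z a b])
  have xη : x' ∉ η := fun a => hne (v1 _ a xV').symm
  have pη : p' ∉ η := fun a => h.a1.ne (c1 _ a hp').symm
  obtain ⟨η', a2, hs2⟩ := arc_in hO (cl1.union hV.closed) n2
    (acc_hole hO hV (fun z a => (hVO a).1) cl1 hx' (hVO xV').2 (by
      rintro (a | a)
      exacts [(m0 _ a).2.1 xV', xη a]))
    (acc_rim hO (cl1.union hV.closed) hp' (by
      rintro ((a | a) | a)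
      exacts [(m0 _ a).2.2 hp', pη a, (hVO a).2 hp'])) fun e => (hVO xV').2 (e ▸ hp')
  have hs' : η' \ {x', p'} ⊆ (O \ c) \ ⋃ i ∈ t, W i := fun z hz => ⟨(hs2 hz).1, fun a => by
    obtain ⟨i, hi, a⟩ := mem_iUnion₂.1 a
    by_cases e : i = j
    · exact (hs2 hz).2 (Or.inr (e ▸ a))
    · exact (hs2 hz).2 (Or.inl (Or.inl (mem_biUnion (t := W) ⟨hi, e⟩ a)))⟩
  obtain ⟨s2, c2, v2, o2⟩ := stick hp' xV' (pair_comm x' p' ▸ hs')
  have d : Disjoint η η' := disjoint_left.2 fun z a b => by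
    by_cases e : z ∈ ({x', p'} : Set Z)
    · rcases e with rfl | rfl
      exacts [xη a, pη a]
    · exact (hs2 ⟨b, e⟩).2 (Or.inl (Or.inr a))
  have st : AnnSt O c (W j) η η' p p' x x' := ⟨hη, a2, s1, s2, c1, c2, v1, v2, d, hVO⟩
  obtain ⟨r, r', h2⟩ := hV.exists_two hx hx' hne
  have rV : r ⊆ W j := h2.sub1.trans hV.rim_sub
  have rV' : r' ⊆ W j := h2.sub2.trans hV.rim_sub
  obtain ⟨D, E, k⟩ := hO.cut h (ann_cc st hp hp' h2.a1 rV)
  have ne : ∀ i ∈ t, (W i).Nonempty := fun i hi => by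
    obtain ⟨φ, -, e, -⟩ := hW.disc i hi
    exact e ▸ ⟨φ 0, 0, mem_closedBall_self zero_le_one, rfl⟩
  have sd := k.side h2.a2.conn_open (fun z a => (hVO (rV' a.1)).1) (disjoint_left.2 (by
    rintro z a ((b | b) | b)
    exacts [a.2 (Or.inl (v1 z b (rV' a.1))), a.2 (h2.inter.le ⟨b, a.1⟩),
      a.2 (Or.inr (v2 z b (rV' a.1)))]))
  have up : ∀ {F : Set Z}, η ∪ r ∪ η' ⊆ F → r' \ {x, x'} ⊆ F → r' ⊆ F := fun a b z hz => by
    by_cases e : z ∈ ({x, x'} : Set Z)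
    · exact a (Or.inl (Or.inr (h2.a1.ends e)))
    · exact b ⟨hz, e⟩
  rcases sd with a | a
  · obtain ⟨D', q1, q2, q3, q4, q5, q6, q7, q8, q9⟩ := ann_core st hV h2 k.symm
      (up (k.inter.ge.trans inter_subset_left) a)
    exact ⟨η', r', r, D', E, a2, hs', d, h2.symm, q2, q1, ann_quad st h.a1 h.sub1 h2.a2 rV',
      ann_quad st h.a2 h.sub2 h2.a1 rV, by rw [inter_comm, q3], q5, q4, q7, q6,
      by rw [union_comm D', q8], fun i hi hij => (q9 _ (hW.disc i hi).conn (ne i hi) (hW.sub i hi)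
        (o1 i hi hij) (o2 i hi hij) (hW.disj hi hj hij)).symm⟩
  · obtain ⟨E', q1, q2, q3, q4, q5, q6, q7, q8, q9⟩ := ann_core st hV h2 k
      (up (k.inter.ge.trans inter_subset_right) a)
    exact ⟨η', r, r', D, E', a2, hs', d, h2, q1, q2, ann_quad st h.a1 h.sub1 h2.a1 rV,
      ann_quad st h.a2 h.sub2 h2.a2 rV', q3, q4, q5, q6, q7, q8,
      fun i hi hij => q9 _ (hW.disc i hi).conn (ne i hi) (hW.sub i hi)
        (o1 i hi hij) (o2 i hi hij) (hW.disj hi hj hij)⟩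

end Pool.Agent.Lib.MP_b7d179_gt
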