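import Pool.Agent.Lib.MP_b7d179_gt.T.Ann

/-! Absorbing a bite, moving discs, sliding points. -/

namespace Pool.Agent.Lib.MP_b7d179_gt

open Set Metric Topology Filter

variable {Z Z' : Type*} [MetricSpace Z] [MetricSpace Z'] {ι κ : Type*}

variable {S A O c O₁ O₂ I I' g R R' T t T' t' E e E' e' u v η : Set Z} {p p' x x' y : Z}

omit [MetricSpace Z] in
lemma annb_fix {F : Z → Z} {B : Set Z} (h : ∀ z ∈ B, F z = z) : F '' B = B :=
  (image_congr h).trans (image_id' B)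

/-- a larger bite round a bite -/
lemma Cut.larger (h : Cut O c I I' g R R' x y) (hA : IsClosed A) (hd : Disjoint A R) :
    ∃ J J' g₂ P P' j j', Cut O c J J' g₂ P P' j j' ∧ I ⊆ J \ {j, j'} ∧ R ⊆ P ∧ Disjoint R g₂ ∧
      Disjoint P A := by
  have uD : I ⊆ R := fun z hz => h.d1.rim_sub (Or.inl hz)
  have bD : g ⊆ R := fun z hz => h.d1.rim_sub (Or.inr hz)
  obtain ⟨J, j, j', hJ, hs, uI, YI⟩ := h.disc.rim_larger h.two.a1 h.two.sub1 hA (hd.mono_right uD)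
  obtain ⟨J', hT⟩ := h.disc.two_of_arc hJ hs
  have uI' : Disjoint I J' :=
    disjoint_left.2 fun z hz hz' => (uI hz).2 (hT.inter.le ⟨(uI hz).1, hz'⟩)
  have e3 : O \ (R ∪ J) = R' \ (g ∪ (J ∩ I')) := by
    ext z
    constructor
    · rintro ⟨h1, h2⟩
      refine ⟨(h.union.ge h1).resolve_left fun h' => h2 (Or.inl h'), ?_⟩
      rintro (h' | h')
      · exact h2 (Or.inl (bD h'))
      · exact h2 (Or.inr h'.1)
    · rintro ⟨h1, h2⟩
      refine ⟨h.sub2 h1, ?_⟩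
      rintro (h' | h')
      · exact h2 (Or.inl (h.inter.le ⟨h', h1⟩))
      · exact h2 (Or.inr ⟨h', h.symm.inter_rim.le ⟨h1, hs h'⟩⟩)
  obtain ⟨g₂, P, P', hc', DR, Dg, RY⟩ := bite h.disc hT h.d1.closed h.sub1
    (disjoint_left.2 fun z hz hz' => uI'.le_bot ⟨h.inter_rim.le ⟨hz, hT.sub2 hz'⟩, hz'⟩)
    (h.d1.conn.union _ (uD h.two.a1.left) (uI h.two.a1.left).1 hJ.conn)
    (e3 ▸ h.d2.conn_diff (union_subset subset_union_right fun z hz => Or.inl hz.2)) hA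
    (disjoint_union_right.2 ⟨hd, YI⟩)
  exact ⟨J, J', g₂, P, P', j, j', hc', uI, DR, Dg, RY⟩

/-- bites on both sides of an arc of the common rim form a disc -/
lemma annb_glue {J J' g₁ g₂ P P' Q Q' : Set Z} {j j' : Z} (hS : Hemi S O₁ O₂ c)
    (h1 : Cut O₁ c J J' g₁ Q Q' j j') (h2 : Cut O₂ c J J' g₂ P P' j j') :
    Cut (Q ∪ P) (g₁ ∪ g₂) g₁ g₂ J Q P j j' ∧ (Q ∪ P) ∩ c = J ∧ Q ∪ P ⊆ S := by
  refine ⟨h1.d1.glue h2.d1 h1.two1.symm h2.two1.symm (Subset.antisymm (fun z hz =>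
    h1.inter_rim.le ⟨hz.1, hS.inter.le ⟨h1.sub1 hz.1, h2.sub1 hz.2⟩⟩) fun z hz =>
    ⟨h1.d1.rim_sub (Or.inl hz), h2.d1.rim_sub (Or.inl hz)⟩), ?_,
    union_subset (h1.sub1.trans hS.sub1) (h2.sub1.trans hS.sub2)⟩
  rw [union_inter_distrib_right, h1.inter_rim, h2.inter_rim, union_self]

theorem absorb (hS : Hemi S O₁ O₂ c) (h : Cut O₂ c I I' g R R' x y) (hA : IsClosed A)
    (hd : Disjoint A R) :
    ∃ F, Iso S A F ∧ F '' (O₁ ∪ R) = O₁ ∧ F '' R' = O₂ ∧ F '' (I' ∪ g) = c := by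
  obtain ⟨J, J', g₂, P, P', j, j', h2, IJ, RP, Rg, PA⟩ := h.larger hA hd
  have JP : J ⊆ P := fun z hz => h2.d1.rim_sub (Or.inl hz)
  have gR : g ⊆ R := fun z hz => h.d1.rim_sub (Or.inr hz)
  obtain ⟨g₁, Q, Q', h1, QA⟩ := bite0 hS.d1 h2.two hA (PA.symm.mono_right JP)
  obtain ⟨hN, Nc, NS⟩ := annb_glue hS h1 h2
  obtain ⟨a, b, u, v, hI, hu, hv, uI, Iv, uv, eJ⟩ := h2.two.a1.trisect h.two.a1 IJ
  have ab : ({x, y} : Set Z) = {a, b} := h.two.a1.ends_eq hI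
  have hg : Arc g a b := by
    have ne := hI.ne
    rcases ab.ge (mem_insert a _) with r | r <;> rcases ab.ge (mem_insert_of_mem a rfl) with r' | r'
    · exact absurd (r.trans r'.symm) ne
    · rw [r, (r' : b = y)]; exact h.cc.arc
    · rw [(r : a = y), r']; exact h.cc.arc.symm
    · exact absurd ((r : a = y).trans (r' : b = y).symm) ne
  have uJ : u ⊆ J := eJ ▸ subset_union_left.trans subset_union_left
  have vJ : v ⊆ J := eJ ▸ subset_union_right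
  have gc : ∀ z ∈ g, z ∈ c → z = a ∨ z = b := fun z hz hc => (ab ▸ h.cc.inter).le ⟨hz, hc⟩
  have h3 : Arc (u ∪ g) j b := hu.cat hg (Subset.antisymm (fun z hz =>
    (gc z hz.2 (h2.two.sub1 (uJ hz.1))).resolve_right fun r => uv.le_bot ⟨hz.1, r ▸ hv.left⟩)
    (singleton_subset_iff.2 ⟨hu.right, hg.left⟩))
  have h4 : Arc (u ∪ g ∪ v) j j' := h3.cat hv (Subset.antisymm (fun z hz => hz.1.elim
    (fun r => (uv.le_bot ⟨r, hz.2⟩).elim) fun r => (gc z r (h2.two.sub1 (vJ hz.2))).resolve_left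
      fun r' => uv.le_bot ⟨r' ▸ hu.right, hz.2⟩) (singleton_subset_iff.2 ⟨h3.right, hv.left⟩))
  have h5 : Cc (Q ∪ P) (g₁ ∪ g₂) (u ∪ g ∪ v) j j' := by
    refine ⟨h4, (union_subset (union_subset (uJ.trans JP) (gR.trans RP)) (vJ.trans JP)).trans
      subset_union_right, Subset.antisymm ?_ (subset_inter h4.ends (hN.cc.inter.ge.trans
        inter_subset_right))⟩
    rintro z ⟨(r | r) | r, r'⟩
    · exact hN.cc.inter.le ⟨uJ r, r'⟩
    · rcases r' with r' | r'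
      · exact h1.cc.inter.le ⟨r', hS.inter.le ⟨h1.cc.sub r', h.cc.sub r⟩⟩
      · exact (Rg.le_bot ⟨gR r, r'⟩).elim
    · exact hN.cc.inter.le ⟨vJ r, r'⟩
  obtain ⟨F, hF, Fa⟩ := mc1 hN.disc h5 hN.cc
  have iso : Iso S A F := hF.iso hN.disc NS
    ((disjoint_union_left.2 ⟨QA, PA⟩).mono_left sdiff_subset)
  have e1 : I' ∪ g = J' ∪ (u ∪ g ∪ v) := by
    have abI : ∀ z, z = a ∨ z = b → z ∈ I' := fun z hz => ((h.two.inter.trans ab).ge hz).2
    ext z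
    constructor
    · rintro (r | r)
      · rcases h2.two.union.ge (h.two.sub2 r) with r' | r'
        · rcases eJ.ge r' with (r'' | r'') | r''
          · exact Or.inr (Or.inl (Or.inl r''))
          · exact Or.inr (Or.inl (Or.inr (hg.ends ((h.two.inter.trans ab).le ⟨r'', r⟩))))
          · exact Or.inr (Or.inr r'')
        · exact Or.inl r'
      · exact Or.inr (Or.inl (Or.inr r))
    · rintro (r | (r | r) | r)
      · exact Or.inl ((h.two.union.ge (h2.two.sub2 r)).resolve_left fun r' =>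
          (IJ r').2 (h2.two.inter.le ⟨(IJ r').1, r⟩))
      · exact Or.inl ((h.two.union.ge (h2.two.sub1 (uJ r))).elim
          (fun r' => abI z (Or.inl (uI.le ⟨r, r'⟩))) id)
      · exact Or.inr r
      · exact Or.inl ((h.two.union.ge (h2.two.sub1 (vJ r))).elim
          (fun r' => abI z (Or.inr (Iv.le ⟨r', r⟩))) id)
  have e2 : F '' (I' ∪ g) = c := by
    rw [e1, image_union, Fa, annb_fix, union_comm, h2.two.union]
    exact fun z hz => hF.fix z fun r => r.2 (hN.cc.inter.ge (h2.two.inter.le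
      ⟨Nc.le ⟨r.1, h2.two.sub2 hz⟩, hz⟩)).2
  obtain ⟨em, im⟩ := iso.emb hS.sph
  have hm := (hS.move h).image em subset_rfl
  rw [im, e2] at hm
  have e3 : F '' (O₁ ∪ R) = O₁ := by
    refine (hS.eq hm.d1 hm.sub1).resolve_right fun r => ?_
    obtain ⟨z, hz, hz'⟩ := h1.cc.arc.exists_notMem (toFinite ({j, j'} : Set Z))
    exact hz' (h1.cc.inter.le ⟨hz, hS.inter.le ⟨h1.cc.sub hz, r.le ⟨z, Or.inl (h1.cc.sub hz),
      hF.fix z fun r' => r'.2 (Or.inl hz)⟩⟩⟩)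
  rw [e3] at hm
  exact ⟨F, iso, e3, hm.unique hS, e2⟩

omit [MetricSpace Z] in
lemma annb_inv {F G : Z → Z} (h : ∀ z, G (F z) = z) (B : Set Z) : G '' (F '' B) = B := by
  rw [image_image]; exact (image_congr fun z _ => h z).trans (image_id' B)

lemma annb_rim (hS : Sph S) {F : Z → Z} (hF : Iso S A F) (hT : Disc T t) (hT' : Disc T' t')
    (hs : T' ⊆ S) (h : F '' T' = T) : F '' t' = t :=
  (h ▸ hT'.image (hF.emb hS).1 hs).rim_unique hT

theorem grow (hS : Sph S) (hT : Disc T t) (hT' : Disc T' t') (hs : T ⊆ S) (hs' : T' ⊆ T \ t)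
    (hA : IsClosed A) (hd : Disjoint A (T \ (T' \ t'))) :
    ∃ F, Iso S A F ∧ F '' T' = T ∧ F '' t' = t := by
  have sT : T' ⊆ S := (hs'.trans sdiff_subset).trans hs
  obtain ⟨C, hC⟩ := hS.compl hT' sT
  have hW : Holes (T \ t) (univ : Set Unit) (fun _ => T') fun _ => t' :=
    ⟨toFinite _, fun _ _ => hT', fun _ _ => hs', subsingleton_univ.pairwise _⟩
  obtain ⟨p, hp, -⟩ := hT.exists_rim finite_empty
  obtain ⟨p', hp', pp⟩ := hT.exists_rim (finite_singleton p)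
  obtain ⟨x, hx, -⟩ := hT'.exists_rim finite_empty
  obtain ⟨x', hx', xx⟩ := hT'.exists_rim (finite_singleton x)
  obtain ⟨u, v, h2⟩ := hT.exists_two hp hp' (Ne.symm pp)
  have pT : p ∉ T' := fun r => (hs' r).2 hp
  have pT' : p' ∉ T' := fun r => (hs' r).2 hp'
  obtain ⟨η, hη, sη⟩ := hole_arc hT hW (Or.inl hp) (Or.inr (mem_iUnion₂.2 ⟨(), trivial, hx⟩))
    fun r => pT (r ▸ hT'.rim_sub hx)
  obtain ⟨η', r, r', D, E, hη', sη', dd, hr, hD, hE, -, -, DE, DW, EW, -, -, un, -⟩ :=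
    anncut (j := ()) hT hW trivial h2 hx hx' (Ne.symm xx) hη sη
  have DT : D ⊆ T := un ▸ subset_union_left.trans subset_union_left
  have ET : E ⊆ T := un ▸ subset_union_right.trans subset_union_left
  obtain ⟨v₀, g₀, E₀, c1, -⟩ := hC.d2.cut_of_sub hD (fun z hz => (hC.union.ge (hs (DT hz))).elim
    (fun h' => hC.d2.rim_sub (hr.sub1 (DW.le ⟨hz, h'⟩))) id) hr.a1
    (Subset.antisymm (fun z hz => DW.le ⟨hz.1, hT'.rim_sub hz.2⟩)
      fun z hz => ⟨(DW.ge hz).1, hr.sub1 hz⟩)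
  obtain ⟨F₁, i1, f1, -⟩ := absorb hC c1 hA
    (hd.mono_right fun z hz => mem_sdiff_of_mem (DT hz) fun h' =>
      h'.2 (hr.sub1 (DW.le ⟨hz, h'.1⟩)))
  have hM := hC.move c1
  have e1 : E ∩ (T' ∪ D) = η ∪ r' ∪ η' := by
    rw [inter_union_distrib_left, EW, inter_comm, DE]
    ext z; simp only [mem_union]; tauto
  have tc := hS.touch hE hM.d1 (ET.trans hs) hM.sub1 (disjoint_left.2 fun z hz hz' => hz.2 (by
    have := e1.le ⟨hz.1, hz'⟩
    simp only [mem_union] at this ⊢; tauto))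
  have k1 : ∀ z ∈ η, z ∈ T' → z = x := fun z hz h' => by
    by_contra hn
    exact (sη ⟨hz, fun r => r.elim (fun r => pT (r ▸ h')) hn⟩).2 (mem_iUnion₂.2 ⟨(), trivial, h'⟩)
  have k2 : ∀ z ∈ η', z ∈ T' → z = x' := fun z hz h' => by
    by_contra hn
    exact (sη' ⟨hz, fun r => r.elim hn fun r => pT' ((r : z = p') ▸ h')⟩).2
      (mem_iUnion₂.2 ⟨(), trivial, h'⟩)
  have a1 : Arc (η ∪ r') p x' := hη.cat hr.a2 (Subset.antisymm
    (fun z hz => k1 z hz.1 (hT'.rim_sub (hr.sub2 hz.2)))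
    (singleton_subset_iff.2 ⟨hη.right, hr.a2.left⟩))
  have a2 : Arc (η ∪ r' ∪ η') p p' := a1.cat hη' (Subset.antisymm
    (fun z hz => hz.1.elim (fun r => (dd.le_bot ⟨r, hz.2⟩).elim)
      fun r => k2 z hz.2 (hT'.rim_sub (hr.sub2 r)))
    (singleton_subset_iff.2 ⟨a1.right, hη'.left⟩))
  obtain ⟨v₁, g₁, E₁, c2, -⟩ := hM.d2.cut_of_sub hE (fun z hz => (hM.union.ge (hs (ET hz))).elim
    (fun h' => hM.d2.rim_sub (tc ⟨hz, h'⟩).2) id) a2
    (Subset.antisymm (fun z hz => e1.le ⟨hz.1, hM.d1.rim_sub hz.2⟩)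
      fun z hz => ⟨(e1.ge hz).1, (tc (e1.ge hz)).2⟩)
  obtain ⟨F₂, i2, f2, -⟩ := absorb hM c2 hA
    (hd.mono_right fun z hz => mem_sdiff_of_mem (ET hz) fun h' =>
      h'.2 (hr.sub2 (EW.le ⟨hz, h'.1⟩)))
  have e2 : T' ∪ D ∪ E = T := by
    rw [← un]; ext z; simp only [mem_union]; tauto
  obtain ⟨G, iG, l, -⟩ := (i1.comp i2).inv
  have e3 : G '' T' = T := by
    rw [← f1, ← f2, e2, ← image_comp F₁ F₂, annb_inv l]
  exact ⟨G, iG, e3, annb_rim hS iG hT hT' sT e3⟩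

lemma Holes.add {t : Set ι} {W w : ι → Set Z} (hW : Holes S t W w) (hE : Disc E e) (hs : E ⊆ S)
    (hd : Disjoint E (⋃ j ∈ t, W j)) :
    Holes S (insert none (some '' t)) (fun o => o.elim E W) (fun o => o.elim e w) ∧
      (⋃ j ∈ insert none (some '' t), j.elim E W) = E ∪ (⋃ j ∈ t, W j) ∧
      (⋃ j ∈ insert none (some '' t), j.elim e w) = e ∪ ⋃ j ∈ t, w j := by
  have d : ∀ j ∈ t, Disjoint E (W j) := fun j hj => hd.mono_right (subset_biUnion_of_mem (u := W) hj)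
  refine ⟨⟨(hW.fin.image _).insert _, ?_, ?_, ?_⟩, by simp, by simp⟩
  · rintro _ (rfl | ⟨j, hj, rfl⟩)
    exacts [hE, hW.disc j hj]
  · rintro _ (rfl | ⟨j, hj, rfl⟩)
    exacts [hs, hW.sub j hj]
  · rintro _ (rfl | ⟨j, hj, rfl⟩) _ (rfl | ⟨k, hk, rfl⟩) hne
    · exact absurd rfl hne
    · exact d k hk
    · exact (d j hj).symm
    · exact hW.disj hj hk fun r => hne (r ▸ rfl)

lemma Holes.closed {t : Set ι} {W w : ι → Set Z} (hW : Holes S t W w) : IsClosed (⋃ j ∈ t, W j) :=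
  hW.fin.isClosed_biUnion fun j hj => (hW.disc j hj).closed

theorem discmove {t : Set ι} {W w : ι → Set Z} (hS : Sph S) (hW : Holes S t W w) (hE : Disc E e)
    (hE' : Disc E' e') (hs : E ⊆ S \ ⋃ j ∈ t, W j) (hs' : E' ⊆ S \ ⋃ j ∈ t, W j) :
    ∃ F, Iso S (⋃ j ∈ t, W j) F ∧ F '' E = E' ∧ F '' e = e' := by
  set A := ⋃ j ∈ t, W j with hA
  have cA : IsClosed A := hW.closed
  obtain ⟨z, hz, -⟩ := hE.exists_int finite_empty
  obtain ⟨z', hz', zz⟩ := hE'.exists_int (finite_singleton z)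
  obtain ⟨U, U', hU, hU', dU⟩ := t2_separation_nhds (Ne.symm zz : z ≠ z')
  obtain ⟨D, d, hD, sD, -⟩ := hE.small hz hU
  obtain ⟨D', d', hD', sD', -⟩ := hE'.small hz' hU'
  have DD : Disjoint D D' := dU.mono (fun x hx => (sD hx).2) fun x hx => (sD' hx).2
  have DA : Disjoint D A := disjoint_left.2 fun x hx => (hs (sD hx).1.1).2
  have DA' : Disjoint D' A := disjoint_left.2 fun x hx => (hs' (sD' hx).1.1).2
  have DS : D ⊆ S := fun x hx => (hs (sD hx).1.1).1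
  have DS' : D' ⊆ S := fun x hx => (hs' (sD' hx).1.1).1
  obtain ⟨H1, u1, v1⟩ := hW.add hD DS DA
  obtain ⟨H2, u2, v2⟩ := H1.add hD' DS' (by rw [u1]; exact disjoint_union_right.2 ⟨DD.symm, DA'⟩)
  rw [u1] at u2
  rw [v1] at v2
  obtain ⟨y, hy, -⟩ := hD.exists_rim finite_empty
  obtain ⟨y', hy', -⟩ := hD'.exists_rim finite_empty
  obtain ⟨a, aS, ha, ai⟩ := hS.hole_arc H2 (v2.ge (Or.inr (Or.inl hy))) (v2.ge (Or.inl hy'))
    fun r => DD.le_bot ⟨hD.rim_sub hy, r ▸ hD'.rim_sub hy'⟩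
  rw [u2] at ai
  obtain ⟨N, n, hN, sN, NS, NA⟩ := hS.dumb_nbhd hD hD' ha (union_subset (union_subset DS aS) DS') DD
    (Subset.antisymm (fun x hx => (ai.le ⟨hx.1, Or.inr (Or.inl hx.2)⟩).resolve_right
      fun r => DD.le_bot ⟨hx.2, (r : x = y') ▸ hD'.rim_sub hy'⟩)
      (singleton_subset_iff.2 ⟨ha.left, hD.rim_sub hy⟩))
    (Subset.antisymm (fun x hx => (ai.le ⟨hx.1, Or.inl hx.2⟩).resolve_left
      fun r => DD.le_bot ⟨r ▸ hD.rim_sub hy, hx.2⟩)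
      (singleton_subset_iff.2 ⟨ha.right, hD'.rim_sub hy'⟩)) cA
    (disjoint_union_right.2 ⟨disjoint_union_right.2 ⟨DA.symm, disjoint_left.2 fun x hx hx' =>
      (ai.le ⟨hx', Or.inr (Or.inr hx)⟩).elim (fun r => DA.le_bot ⟨r ▸ hD.rim_sub hy, hx⟩)
        fun r => DA'.le_bot ⟨(r : x = y') ▸ hD'.rim_sub hy', hx⟩⟩, DA'.symm⟩)
  obtain ⟨F₁, i1, f1, -⟩ := grow hS hE hD (hs.trans sdiff_subset) (fun x hx => (sD hx).1) cA
    (disjoint_left.2 fun x hx hx' => (hs hx'.1).2 hx)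
  obtain ⟨F₂, i2, f2, -⟩ := grow hS hN hD NS (fun x hx => sN (Or.inl (Or.inl hx))) cA
    (NA.symm.mono_right sdiff_subset)
  obtain ⟨F₃, i3, f3, -⟩ := grow hS hN hD' NS (fun x hx => sN (Or.inr hx)) cA
    (NA.symm.mono_right sdiff_subset)
  obtain ⟨F₄, i4, f4, -⟩ := grow hS hE' hD' (hs'.trans sdiff_subset) (fun x hx => (sD' hx).1) cA
    (disjoint_left.2 fun x hx hx' => (hs' hx'.1).2 hx)
  obtain ⟨G₁, j1, l1, -⟩ := i1.inv
  obtain ⟨G₃, j3, l3, -⟩ := i3.inv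
  have i := i4.comp (j3.comp (i2.comp j1))
  have e1 : (F₄ ∘ G₃ ∘ F₂ ∘ G₁) '' E = E' := by
    rw [image_comp, image_comp, image_comp, ← f1, annb_inv l1, f2, ← f3, annb_inv l3, f4]
  exact ⟨_, i, e1, annb_rim hS i hE' hE (hs.trans sdiff_subset) e1⟩

lemma annb_half {I I' g₁ Q Q' : Set Z} {i i' : Z} {f : Z → Z} (h : Cut O c I I' g₁ Q Q' i i')
    (hf : Emb f I) (fi : f '' I = I) (f1 : f i = i) (f2 : f i' = i') :
    ∃ F : Z → Z, Emb F Q ∧ F '' Q = Q ∧ EqOn F f I ∧ EqOn F id g₁ := by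
  obtain ⟨k, hk, ki, k1, k2⟩ := h.two1.homeo h.two1 hf (emb_id g₁) fi (image_id _) f1 f2 rfl rfl
  obtain ⟨F, hF, Fi, Fk⟩ := h.d1.cone h.d1 hk ki
  exact ⟨F, hF, Fi, fun z hz => (Fk (Or.inl hz)).trans (k1 hz),
    fun z hz => (Fk (Or.inr hz)).trans (k2 hz)⟩

lemma annb_slide {J : Set Z} {j j' : Z} (hS : Hemi S O₁ O₂ c) (hA : IsClosed A) (hg : Arc g x y)
    (gc : g ⊆ c) (gA : Disjoint (g \ {x, y}) A) (hJ : Arc J j j') (Jg : J ⊆ g) (hE : E.Finite)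
    (hs : E ⊆ g \ {x, y}) : ∃ F, Iso S A F ∧ F '' O₁ = O₁ ∧ F '' O₂ = O₂ ∧ F '' g = g ∧
      F '' E ⊆ J \ {j, j'} := by
  obtain ⟨z, hz, hz'⟩ := hJ.exists_notMem (toFinite (({j, j'} : Set Z) ∪ {x, y}))
  obtain ⟨J₀, k, k', hJ₀, sJ, -⟩ := hJ.small ⟨hz, fun r => hz' (Or.inl r)⟩
    ((toFinite ({x, y} : Set Z)).isClosed.isOpen_compl.mem_nhds fun r => hz' (Or.inr r))
  obtain ⟨I, i, i', hI, sI, EI⟩ := hg.around (hE.isCompact.union hJ₀.compact)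
    ⟨k, Or.inr hJ₀.left⟩ (union_subset hs fun z hz => ⟨Jg (sJ hz).1.1, (sJ hz).2⟩)
  obtain ⟨f, hf, fi, f1, f2, fE⟩ := hI.squeeze hE.isCompact (fun z hz => EI (Or.inl hz)) hJ₀
    fun z hz => (EI (Or.inr hz)).1
  obtain ⟨I', hT⟩ := hS.d1.two_of_arc hI fun z hz => gc (sI hz).1
  obtain ⟨g₁, Q, Q', h1, QA⟩ := bite0 hS.d1 hT hA (gA.symm.mono_right sI)
  obtain ⟨g₂, P, P', h2, PA⟩ := bite0 hS.d2 hT hA (gA.symm.mono_right sI)
  obtain ⟨hN, Nc, NS⟩ := annb_glue hS h1 h2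
  obtain ⟨F₁, e1, i1, a1, b1⟩ := annb_half h1 hf fi f1 f2
  obtain ⟨F₂, e2, i2, a2, b2⟩ := annb_half h2 hf fi f1 f2
  obtain ⟨F₀, e0, a0, b0⟩ := e1.paste e2 h1.d1.closed h2.d1.closed
    (by rw [hN.inter]; exact fun z hz => (a1 hz).trans (a2 hz).symm)
    (by rw [i1, i2, hN.inter, image_congr a1, fi])
  obtain ⟨F, hF, eF⟩ := sup_of hN.disc e0
    (by rw [image_union, image_congr a0, image_congr b0, i1, i2])
    (fun z hz => hz.elim (fun r => (a0 (h1.d1.rim_sub (Or.inr r))).trans (b1 r))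
      fun r => (b0 (h2.d1.rim_sub (Or.inr r))).trans (b2 r))
  have IQ : I ⊆ Q := fun z hz => h1.d1.rim_sub (Or.inl hz)
  have FQ : F '' Q = Q := (image_congr fun z hz => (eF (Or.inl hz)).trans (a0 hz)).trans i1
  have FP : F '' P = P := (image_congr fun z hz => (eF (Or.inr hz)).trans (b0 hz)).trans i2
  have FI : ∀ z ∈ I, F z = f z := fun z hz => ((eF (Or.inl (IQ hz))).trans (a0 (IQ hz))).trans (a1 hz)
  refine ⟨F, hF.iso hN.disc NS ((disjoint_union_left.2 ⟨QA, PA⟩).mono_left sdiff_subset), ?_, ?_,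
    ?_, fun _ ⟨z, hz, e⟩ => ?_⟩
  · rw [← h1.union, image_union, FQ, annb_fix]
    refine fun z hz => hF.fix z fun r => r.2 (Or.inl (h1.inter.le ⟨r.1.elim id fun r' =>
      IQ (h2.inter_rim.le ⟨r', hS.inter.le ⟨h1.sub2 hz, h2.sub1 r'⟩⟩), hz⟩))
  · rw [← h2.union, image_union, FP, annb_fix]
    refine fun z hz => hF.fix z fun r => r.2 (Or.inr (h2.inter.le ⟨r.1.elim (fun r' =>
      h2.d1.rim_sub (Or.inl (h1.inter_rim.le ⟨r', hS.inter.le ⟨h1.sub1 r', h2.sub2 hz⟩⟩))) id, hz⟩))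
  · rw [← union_sdiff_cancel (sI.trans sdiff_subset), image_union, image_congr FI, fi, annb_fix]
    exact fun z hz => hF.fix z fun r => hz.2 (Nc.le ⟨r.1, gc hz.1⟩)
  · rw [← e, FI z (EI (Or.inl hz)).1]
    exact (sJ (fE ⟨z, hz, rfl⟩).1).1

theorem slide {k : Set κ} {g J : κ → Set Z} {x y j j' : κ → Z} (hS : Hemi S O₁ O₂ c)
    (hA : IsClosed A) (hk : k.Finite) (hg : ∀ i ∈ k, Arc (g i) (x i) (y i) ∧ g i ⊆ c ∧
      Disjoint (g i \ {x i, y i}) A ∧ Arc (J i) (j i) (j' i) ∧ J i ⊆ g i)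
    (hd : k.PairwiseDisjoint g) (hE : E.Finite) (hs : E ⊆ ⋃ i ∈ k, g i \ {x i, y i}) :
    ∃ F, Iso S A F ∧ F '' O₁ = O₁ ∧ F '' O₂ = O₂ ∧ F '' c = c ∧ (∀ i ∈ k, F '' g i = g i) ∧
      F '' E ⊆ ⋃ i ∈ k, J i \ {j i, j' i} := by
  have key : ∀ k' : Set κ, k'.Finite → k' ⊆ k → ∃ F, Iso S A F ∧ F '' O₁ = O₁ ∧ F '' O₂ = O₂ ∧
      (∀ i ∈ k, F '' g i = g i) ∧ (∀ i ∈ k, i ∉ k' → ∀ z ∈ g i, F z = z) ∧
      ∀ i ∈ k', F '' (E ∩ (g i \ {x i, y i})) ⊆ J i \ {j i, j' i} := by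
    intro k' hk'
    induction k', hk' using Set.Finite.induction_on with
    | empty => exact fun _ => ⟨id, Iso.refl, image_id _, image_id _, fun _ _ => image_id _,
        fun _ _ _ _ _ => rfl, fun _ h => h.elim⟩
    | @insert i k' hi _ ih =>
      intro hs'
      have ik : i ∈ k := hs' (mem_insert _ _)
      obtain ⟨F, iF, F1, F2, F3, F4, F5⟩ := ih ((subset_insert _ _).trans hs')
      obtain ⟨a1, a2, a3, a4, a5⟩ := hg i ik
      obtain ⟨G, iG, G1, G2, G3, G4⟩ := annb_slide (A := A ∪ ⋃ l ∈ k \ {i}, g l) hS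
        (hA.union ((hk.subset sdiff_subset).isClosed_biUnion fun l hl => (hg l hl.1).1.closed)) a1 a2
        (disjoint_union_right.2 ⟨a3, disjoint_iUnion₂_right.2 fun l hl =>
          (hd ik hl.1 (Ne.symm hl.2)).mono_left sdiff_subset⟩) a4 a5
        (hE.inter_of_left (g i \ {x i, y i})) inter_subset_right
      have fx : ∀ l ∈ k, l ≠ i → ∀ z ∈ g l, G z = z := fun l hl hn z hz =>
        iG.fix (Or.inl (Or.inr (mem_iUnion₂.2 ⟨l, ⟨hl, hn⟩, hz⟩)))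
      refine ⟨G ∘ F, (iG.mono subset_union_left).comp iF, by rw [image_comp, F1, G1],
        by rw [image_comp, F2, G2], fun l hl => ?_, fun l hl hn z hz => ?_, fun l hl => ?_⟩
      · rw [image_comp, F3 l hl]
        by_cases r : l = i
        · rw [r, G3]
        · exact annb_fix (fx l hl r)
      · rw [Function.comp, F4 l hl (fun r => hn (Or.inr r)) z hz, fx l hl (fun r => hn (Or.inl r)) z hz]
      · rw [image_comp]
        rcases hl with rfl | hl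
        · rw [annb_fix fun z hz => F4 l ik hi z hz.2.1]
          exact G4
        · have lk : l ∈ k := hs' (Or.inr hl)
          rw [annb_fix fun z hz => fx l lk (fun r => hi (r ▸ hl)) z ((hg l lk).2.2.2.2 (F5 l hl hz).1)]
          exact F5 l hl
  obtain ⟨F, iF, F1, F2, F3, -, F5⟩ := key k hk subset_rfl
  refine ⟨F, iF, F1, F2, ?_, F3, ?_⟩
  · rw [← hS.inter, image_inter iF.injective, F1, F2]
  · rintro _ ⟨z, hz, rfl⟩
    obtain ⟨i, hi, hz'⟩ := mem_iUnion₂.1 (hs hz)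
    exact mem_iUnion₂.2 ⟨i, hi, F5 i hi ⟨z, ⟨hz, hz'⟩, rfl⟩⟩

end Pool.Agent.Lib.MP_b7d179_gt
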