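import Pool.Agent.Lib.MP_b7d179_gt.T.ArcA

/-! Arcs: splicing, small subarcs, pieces. -/

namespace Pool.Agent.Lib.MP_b7d179_gt

open Set Metric Topology Filter

variable {Z Z' : Type*} [MetricSpace Z] [MetricSpace Z'] {ι κ : Type*}

variable {a b u I J E A P U : Set Z} {p q r x y j j' : Z}

theorem Arc.splice (ha : Arc a p x) (hb : Arc b y q) (hn : (a ∩ b).Nonempty) (hp : p ∉ b)
    (hq : q ∉ a) : ∃ u ⊆ a ∪ b, Arc u p q := by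
  obtain ⟨u, z, ua, hu, i⟩ := ha.first_hit hb.closed hp hn
  have m : z ∈ u ∩ b := i.ge rfl
  obtain ⟨v, vb, hv⟩ := hb.sub m.2 hb.right fun k => hq (k ▸ ua m.1)
  exact ⟨u ∪ v, union_subset_union ua vb, hu.cat hv (subset_antisymm
    ((inter_subset_inter_right _ vb).trans i.le) (singleton_subset_iff.2 ⟨m.1, hv.left⟩))⟩

lemma arcB_open {γ : ℝ → Z} (e : Emb γ (Icc 0 1)) {s t : ℝ} (h : s < t) (h0 : 0 ≤ s) (h1 : t ≤ 1) :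
    γ '' Icc s t \ {γ s, γ t} = γ '' Ioo s t := by
  have k : Icc s t ⊆ Icc 0 1 := Icc_subset_Icc h0 h1
  rw [← image_pair, ← e.diff k ((arcA_Icc h).ends.trans k), Icc_sdiff_both]

lemma arcB_sub {γ : ℝ → Z} (e : Emb γ (Icc 0 1)) (hI : Arc I j j') (hs : I ⊆ γ '' Icc 0 1) :
    ∃ s t, s < t ∧ 0 ≤ s ∧ t ≤ 1 ∧ I = γ '' Icc s t ∧ ({j, j'} : Set Z) = {γ s, γ t} := by
  obtain ⟨s, h0, rfl⟩ := hs hI.left
  obtain ⟨t, h1, rfl⟩ := hs hI.right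
  have ha := arcA_of e zero_lt_one subset_rfl
  have k : ∀ {s t : ℝ}, s ∈ Icc (0 : ℝ) 1 → t ∈ Icc (0 : ℝ) 1 → s < t → Arc I (γ s) (γ t) →
      I = γ '' Icc s t := fun h0 h1 l hI => by
    have c := Icc_subset_Icc h0.1 h1.2
    have hu := arcA_of e l c
    exact (hI.eq_of_sub hu (ha.sub_of_conn hu (image_mono c) hI.conn hs hI.left hI.right)).symm
  rcases lt_trichotomy s t with l | rfl | l
  · exact ⟨s, t, l, h0.1, h1.2, k h0 h1 l hI, rfl⟩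
  · exact (hI.ne rfl).elim
  · exact ⟨t, s, l, h1.1, h0.2, k h1 h0 l hI.symm, pair_comm _ _⟩

lemma arcB_mem {γ : ℝ → Z} (e : Emb γ (Icc 0 1)) {s : ℝ} (h : s ∈ Icc (0 : ℝ) 1)
    (n : γ s ∈ γ '' Icc 0 1 \ {γ 0, γ 1}) : s ∈ Ioo (0 : ℝ) 1 := by
  rw [arcB_open e zero_lt_one le_rfl le_rfl] at n
  exact (e.mem_iff Ioo_subset_Icc_self h).1 n

lemma arcB_fat {γ : ℝ → Z} (e : Emb γ (Icc 0 1)) (hA : IsClosed A) {s t : ℝ} (h : s ≤ t)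
    (h0 : 0 < s) (h1 : t < 1) (hd : ∀ z ∈ Icc s t, γ z ∉ A) : ∃ I j j', Arc I j j' ∧
      I ⊆ γ '' Icc 0 1 \ {γ 0, γ 1} ∧ γ '' Icc s t ⊆ I \ {j, j'} ∧ Disjoint A I := by
  have o : IsOpen (Ioo 0 1 ∩ γ ⁻¹' Aᶜ) :=
    (e.1.mono Ioo_subset_Icc_self).isOpen_inter_preimage isOpen_Ioo hA.isOpen_compl
  have m : Icc s t ⊆ Ioo 0 1 ∩ γ ⁻¹' Aᶜ := fun z hz =>
    ⟨⟨h0.trans_le hz.1, hz.2.trans_lt h1⟩, hd z hz⟩
  obtain ⟨ε, hε, k⟩ := nhds_basis_closedBall.mem_iff.1 (o.mem_nhds (m (left_mem_Icc.2 h)))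
  obtain ⟨δ, hδ, k'⟩ := nhds_basis_closedBall.mem_iff.1 (o.mem_nhds (m (right_mem_Icc.2 h)))
  rw [Real.closedBall_eq_Icc] at k k'
  have w : Icc (s - ε) (t + δ) ⊆ Ioo 0 1 ∩ γ ⁻¹' Aᶜ := fun z hz => by
    rcases le_total z s with c | c
    · exact k ⟨hz.1, by linarith⟩
    · rcases le_total z t with d | d
      · exact m ⟨c, d⟩
      · exact k' ⟨by linarith, hz.2⟩
  have l : s - ε < t + δ := by linarith
  have w0 := (w (left_mem_Icc.2 l.le)).1.1.le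
  have w1 := (w (right_mem_Icc.2 l.le)).1.2.le
  refine ⟨_, _, _, arcA_of e l (Icc_subset_Icc w0 w1), ?_, ?_, disjoint_right.2 ?_⟩
  · rw [arcB_open e zero_lt_one le_rfl le_rfl]
    exact image_mono (w.trans inter_subset_left)
  · rw [arcB_open e l w0 w1]
    exact image_mono (Icc_subset_Ioo (by linarith) (by linarith))
  · rintro _ ⟨z, hz, rfl⟩
    exact (w hz).2

theorem Arc.around (h : Arc a p q) (hE : IsCompact E) (hn : E.Nonempty) (hEa : E ⊆ a \ {p, q}) :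
    ∃ I x y, Arc I x y ∧ I ⊆ a \ {p, q} ∧ E ⊆ I \ {x, y} := by
  obtain ⟨γ, e, rfl, rfl, rfl⟩ := h
  have c : IsCompact (Icc 0 1 ∩ γ ⁻¹' E) := isCompact_Icc.of_isClosed_subset
    (e.1.preimage_isClosed_of_isClosed isClosed_Icc hE.isClosed) inter_subset_left
  have n : (Icc 0 1 ∩ γ ⁻¹' E).Nonempty := by
    obtain ⟨z, hz⟩ := hn
    obtain ⟨t, ht, rfl⟩ := (hEa hz).1
    exact ⟨t, ht, hz⟩
  obtain ⟨s, hs⟩ := c.exists_isLeast n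
  obtain ⟨t, ht⟩ := c.exists_isGreatest n
  obtain ⟨I, j, j', hI, s1, s2, -⟩ := arcB_fat e isClosed_empty (hs.2 ht.1)
    (arcB_mem e hs.1.1 (hEa hs.1.2)).1 (arcB_mem e ht.1.1 (hEa ht.1.2)).2 fun _ _ k => k
  refine ⟨I, j, j', hI, s1, fun z hz => s2 ?_⟩
  obtain ⟨w, hw, rfl⟩ := (hEa hz).1
  exact ⟨w, ⟨hs.2 ⟨hw, hz⟩, ht.2 ⟨hw, hz⟩⟩, rfl⟩

/-- a slightly larger subarc -/
theorem Arc.larger (h : Arc a p q) (hu : Arc u x y) (hua : u ⊆ a \ {p, q}) (hA : IsClosed A)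
    (hd : Disjoint A u) :
    ∃ I j j', Arc I j j' ∧ I ⊆ a \ {p, q} ∧ u ⊆ I \ {j, j'} ∧ Disjoint A I := by
  obtain ⟨γ, e, rfl, rfl, rfl⟩ := h
  obtain ⟨s, t, l, h0, h1, rfl, -⟩ := arcB_sub e hu (hua.trans sdiff_subset)
  exact arcB_fat e hA l.le
    (arcB_mem e ⟨h0, l.le.trans h1⟩ (hua ⟨s, left_mem_Icc.2 l.le, rfl⟩)).1
    (arcB_mem e ⟨h0.trans l.le, h1⟩ (hua ⟨t, right_mem_Icc.2 l.le, rfl⟩)).2
    fun z hz => disjoint_right.1 hd ⟨z, hz, rfl⟩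

theorem Arc.small (h : Arc a p q) (hx : x ∈ a \ {p, q}) (hU : U ∈ 𝓝 x) :
    ∃ I j j', Arc I j j' ∧ I ⊆ (a \ {p, q}) ∩ U ∧ x ∈ I \ {j, j'} := by
  obtain ⟨γ, e, rfl, rfl, rfl⟩ := h
  obtain ⟨s, hs, rfl⟩ := hx.1
  have m := arcB_mem e hs hx
  obtain ⟨I, j, j', hI, s1, s2, d⟩ := arcB_fat e (isOpen_interior (s := U)).isClosed_compl le_rfl
    m.1 m.2 fun z hz k => k (by
      rw [le_antisymm hz.2 hz.1]; exact mem_interior_iff_mem_nhds.2 hU)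
  exact ⟨I, j, j', hI, fun z hz => ⟨s1 hz, interior_subset (not_not.1 (disjoint_right.1 d hz))⟩,
    s2 ⟨s, left_mem_Icc.2 le_rfl, rfl⟩⟩

lemma arcB_inter {γ : ℝ → Z} (e : Emb γ (Icc 0 1)) {s t w : ℝ} (h0 : 0 ≤ s) (h : s ≤ t) (k : t ≤ w)
    (h1 : w ≤ 1) : γ '' Icc s t ∩ γ '' Icc t w = {γ t} := by
  rw [← e.inter (Icc_subset_Icc h0 (k.trans h1)) (Icc_subset_Icc (h0.trans h) h1), Icc_inter_Icc,
    sup_eq_right.2 h, inf_eq_left.2 k, Icc_self, image_singleton]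

theorem Arc.start (h : Arc a p q) (hU : U ∈ 𝓝 p) :
    ∃ u v x, Arc u p x ∧ Arc v x q ∧ u ∩ v = {x} ∧ u ∪ v = a ∧ u ⊆ U := by
  obtain ⟨γ, e, rfl, rfl, rfl⟩ := h
  obtain ⟨ε, hε, k⟩ := (nhdsWithin_hasBasis nhds_basis_closedBall _).mem_iff.1
    (e.1 0 (left_mem_Icc.2 zero_le_one) hU)
  have h0 : 0 < min ε (1 / 2) := lt_min hε one_half_pos
  have h1 : min ε (1 / 2) < 1 := (min_le_right _ _).trans_lt one_half_lt_one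
  refine ⟨_, _, _, arcA_of e h0 (Icc_subset_Icc_right h1.le),
    arcA_of e h1 (Icc_subset_Icc_left h0.le), arcB_inter e le_rfl h0.le h1.le le_rfl,
    by rw [← image_union, Icc_union_Icc_eq_Icc h0.le h1.le], ?_⟩
  rintro _ ⟨z, hz, rfl⟩
  refine k ⟨?_, hz.1, hz.2.trans h1.le⟩
  rw [Real.closedBall_eq_Icc]
  exact ⟨by linarith [hz.1], by linarith [hz.2, min_le_left ε (1 / 2)]⟩

/-- an open subarc is relatively open -/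
theorem Arc.rel_open (h : Arc a p q) (hI : Arc I j j') (hIa : I ⊆ a) :
    ∃ U, IsOpen U ∧ U ∩ a = I \ {j, j'} := by
  obtain ⟨γ, e, rfl, rfl, rfl⟩ := h
  obtain ⟨s, t, l, h0, h1, rfl, k⟩ := arcB_sub e hI hIa
  have c : Ioo s t ⊆ Icc 0 1 := Ioo_subset_Icc_self.trans (Icc_subset_Icc h0 h1)
  refine ⟨(γ '' (Icc 0 1 \ Ioo s t))ᶜ,
    (e.compact sdiff_subset (isCompact_Icc.diff isOpen_Ioo)).isClosed.isOpen_compl, ?_⟩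
  rw [k, arcB_open e l h0 h1, e.diff subset_rfl c]
  ext z
  exact ⟨fun hz => not_not.1 fun n => hz.1 ⟨hz.2, n⟩, fun hz => ⟨fun n => n.2 hz, image_mono c hz⟩⟩

theorem Arc.trisect (h : Arc a p q) (hI : Arc I j j') (hIa : I ⊆ a \ {p, q}) :
    ∃ x y u v, Arc I x y ∧ Arc u p x ∧ Arc v y q ∧ u ∩ I = {x} ∧ I ∩ v = {y} ∧ Disjoint u v ∧
      u ∪ I ∪ v = a := by
  obtain ⟨γ, e, rfl, rfl, rfl⟩ := h
  obtain ⟨s, t, l, h0, h1, rfl, -⟩ := arcB_sub e hI (hIa.trans sdiff_subset)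
  have s0 := (arcB_mem e ⟨h0, l.le.trans h1⟩ (hIa ⟨s, left_mem_Icc.2 l.le, rfl⟩)).1
  have t1 := (arcB_mem e ⟨h0.trans l.le, h1⟩ (hIa ⟨t, right_mem_Icc.2 l.le, rfl⟩)).2
  have c0 : Icc 0 s ⊆ Icc (0 : ℝ) 1 := Icc_subset_Icc_right (l.le.trans h1)
  have c1 : Icc t 1 ⊆ Icc (0 : ℝ) 1 := Icc_subset_Icc_left (h0.trans l.le)
  refine ⟨_, _, _, _, arcA_of e l (Icc_subset_Icc h0 h1), arcA_of e s0 c0, arcA_of e t1 c1,
    arcB_inter e le_rfl h0 l.le h1, arcB_inter e h0 l.le h1 le_rfl,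
    e.disjoint c0 c1 (disjoint_left.2 fun z hz hz' => (hz.2.trans_lt l).not_ge hz'.1), ?_⟩
  rw [← image_union, ← image_union, Icc_union_Icc_eq_Icc h0 l.le,
    Icc_union_Icc_eq_Icc (h0.trans l.le) h1]

/-- consecutive points of a set of reals -/
def arcB_R (T : Set ℝ) : Set (ℝ × ℝ) :=
  {z | z.1 ∈ T ∧ z.2 ∈ T ∧ z.1 < z.2 ∧ ∀ w ∈ T, w ≤ z.1 ∨ z.2 ≤ w}

lemma arcB_gap {T L : Set ℝ} (hT : T.Finite) (h0 : (T ∩ L).Nonempty) (h1 : (T \ L).Nonempty)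
    (hL : ∀ s ∈ L, ∀ t, t ∉ L → s < t) : ∃ z ∈ arcB_R T, z.1 ∈ L ∧ z.2 ∉ L := by
  obtain ⟨s, hs⟩ := (hT.inter_of_left L).isCompact.exists_isGreatest h0
  obtain ⟨t, ht⟩ := (hT.subset (sdiff_subset (t := L))).isCompact.exists_isLeast h1
  refine ⟨(s, t), ⟨hs.1.1, ht.1.1, hL s hs.1.2 t ht.1.2, fun w hw => ?_⟩, hs.1.2, ht.1.2⟩
  by_cases k : w ∈ L
  · exact Or.inl (hs.2 ⟨hw, k⟩)
  · exact Or.inr (ht.2 ⟨hw, k⟩)

lemma arcB_tri {T : Set ℝ} {z z' : ℝ × ℝ} (h : z ∈ arcB_R T) (h' : z' ∈ arcB_R T) :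
    z = z' ∨ z.2 ≤ z'.1 ∨ z'.2 ≤ z.1 := by
  by_contra n
  push Not at n
  refine n.1 (Prod.ext (le_antisymm ?_ ?_) (le_antisymm ?_ ?_))
  · exact (h'.2.2.2 _ h.1).resolve_right n.2.2.not_ge
  · exact (h.2.2.2 _ h'.1).resolve_right n.2.1.not_ge
  · exact (h.2.2.2 _ h'.2.1).resolve_left n.2.2.not_ge
  · exact (h'.2.2.2 _ h.2.1).resolve_left n.2.1.not_ge

/-- an arc cut at finitely many points -/
theorem Arc.pieces (h : Arc a p q) (hE : E.Finite) :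
    ∃ (s : Set (Set Z)) (x y : Set Z → Z), s.Finite ∧ ⋃₀ s = a ∧
      (∀ b ∈ s, Arc b (x b) (y b) ∧ b ∩ (E ∪ {p, q}) = {x b, y b}) ∧
      (∀ b ∈ s, ∀ b' ∈ s, b ≠ b' → b ∩ b' ⊆ E \ {p, q}) ∧
      (∀ e ∈ (a ∩ E) \ {p, q}, ∃ b ∈ s, ∃ b' ∈ s, b ≠ b' ∧ e ∈ b ∧ e ∈ b' ∧
        ∀ b'' ∈ s, e ∈ b'' → b'' = b ∨ b'' = b') := by
  obtain ⟨γ, e, rfl, rfl, rfl⟩ := h
  set T : Set ℝ := Icc 0 1 ∩ γ ⁻¹' (E ∪ {γ 0, γ 1}) with hT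
  have f : T.Finite := Finite.of_finite_image
    ((hE.union ((finite_singleton (γ 1)).insert (γ 0))).subset
      (by rintro _ ⟨t, ht, rfl⟩; exact ht.2)) (e.2.mono inter_subset_left)
  have T0 : (0 : ℝ) ∈ T := ⟨left_mem_Icc.2 zero_le_one, Or.inr (Or.inl rfl)⟩
  have T1 : (1 : ℝ) ∈ T := ⟨right_mem_Icc.2 zero_le_one, Or.inr (Or.inr rfl)⟩
  have up : ∀ r, 0 ≤ r → r < 1 → ∃ z ∈ arcB_R T, z.1 ≤ r ∧ r < z.2 := fun r h0 h1 => by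
    obtain ⟨z, hz, k, k'⟩ := arcB_gap (L := Iic r) f ⟨0, T0, h0⟩ ⟨1, T1, h1.not_ge⟩
      fun s hs t ht => lt_of_le_of_lt hs (not_le.1 ht)
    exact ⟨z, hz, k, not_le.1 k'⟩
  have dn : ∀ r, 0 < r → r ≤ 1 → ∃ z ∈ arcB_R T, z.1 < r ∧ r ≤ z.2 := fun r h0 h1 => by
    obtain ⟨z, hz, k, k'⟩ := arcB_gap (L := Iio r) f ⟨0, T0, h0⟩ ⟨1, T1, h1.not_gt⟩
      fun s hs t ht => lt_of_lt_of_le hs (not_lt.1 ht)
    exact ⟨z, hz, k, not_lt.1 k'⟩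
  have sb : ∀ z ∈ arcB_R T, Icc z.1 z.2 ⊆ Icc 0 1 := fun z hz =>
    Icc_subset_Icc hz.1.1.1 hz.2.1.1.2
  let F : ℝ × ℝ → Set Z := fun z => γ '' Icc z.1 z.2
  have ch : ∀ b, ∃ x y, b ∈ F '' arcB_R T → Arc b x y ∧ b ∩ (E ∪ {γ 0, γ 1}) = {x, y} := fun b => by
    by_cases hb : b ∈ F '' arcB_R T
    · obtain ⟨z, hz, rfl⟩ := hb
      have hA := arcA_of e hz.2.2.1 (sb z hz)
      refine ⟨_, _, fun _ => ⟨hA, subset_antisymm ?_ (subset_inter hA.ends ?_)⟩⟩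
      · rintro _ ⟨⟨w, hw, rfl⟩, k⟩
        rcases hz.2.2.2 w ⟨sb z hz hw, k⟩ with c | c
        · exact Or.inl (congrArg γ (le_antisymm c hw.1))
        · exact Or.inr (congrArg γ (le_antisymm hw.2 c))
      · exact insert_subset hz.1.2 (singleton_subset_iff.2 hz.2.1.2)
    · exact ⟨γ 0, γ 0, fun k => (hb k).elim⟩
  choose x y hxy using ch
  have mid : ∀ z ∈ arcB_R T, ∀ z' ∈ arcB_R T, z.2 ≤ z'.1 → F z ∩ F z' ⊆ E \ {γ 0, γ 1} := by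
    rintro z hz z' hz' l _ ⟨⟨w, hw, rfl⟩, k⟩
    have hw' := (e.mem_iff (sb z' hz') (sb z hz hw)).1 k
    have e1 : w = z.2 := le_antisymm hw.2 (l.trans hw'.1)
    have n : γ w ∈ γ '' Icc 0 1 \ {γ 0, γ 1} := by
      rw [arcB_open e zero_lt_one le_rfl le_rfl]
      exact ⟨w, ⟨hz.1.1.1.trans_lt (e1 ▸ hz.2.2.1),
        ((hw.2.trans l).trans_lt hz'.2.2.1).trans_le hz'.2.1.1.2⟩, rfl⟩
    exact ⟨(e1 ▸ hz.2.1.2 : γ w ∈ E ∪ {γ 0, γ 1}).resolve_right n.2, n.2⟩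
  refine ⟨F '' arcB_R T, x, y, ((f.prod f).subset fun z hz => ⟨hz.1, hz.2.1⟩).image F,
    subset_antisymm ?_ ?_, hxy, ?_, ?_⟩
  · rintro w ⟨_, ⟨z, hz, rfl⟩, hw⟩
    exact image_mono (sb z hz) hw
  · rintro _ ⟨r, hr, rfl⟩
    rcases hr.2.eq_or_lt with k | k
    · obtain ⟨z, hz, k1, k2⟩ := dn r (k ▸ zero_lt_one) hr.2
      exact ⟨_, ⟨z, hz, rfl⟩, r, ⟨k1.le, k2⟩, rfl⟩
    · obtain ⟨z, hz, k1, k2⟩ := up r hr.1 k
      exact ⟨_, ⟨z, hz, rfl⟩, r, ⟨k1, k2.le⟩, rfl⟩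
  · rintro _ ⟨z, hz, rfl⟩ _ ⟨z', hz', rfl⟩ n
    rcases arcB_tri hz hz' with rfl | k | k
    · exact (n rfl).elim
    · exact mid z hz z' hz' k
    · rw [inter_comm]; exact mid z' hz' z hz k
  · rintro _ ⟨⟨⟨r, hr, rfl⟩, hE'⟩, n⟩
    have m := arcB_mem e hr ⟨⟨r, hr, rfl⟩, n⟩
    have rT : r ∈ T := ⟨hr, Or.inl hE'⟩
    obtain ⟨z, hz, k1, k2⟩ := dn r m.1 hr.2
    obtain ⟨z', hz', l1, l2⟩ := up r hr.1 m.2
    have k3 : z.2 ≤ r := (hz.2.2.2 r rT).resolve_left k1.not_ge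
    have l3 : r ≤ z'.1 := (hz'.2.2.2 r rT).resolve_right l2.not_ge
    refine ⟨_, ⟨z, hz, rfl⟩, _, ⟨z', hz', rfl⟩, fun c => ?_, ⟨r, ⟨k1.le, k2⟩, rfl⟩,
      ⟨r, ⟨l1, l2.le⟩, rfl⟩, ?_⟩
    · have c' : γ z.1 ∈ F z' := c ▸ ⟨z.1, left_mem_Icc.2 hz.2.2.1.le, rfl⟩
      exact (k1.trans_le l3).not_ge ((e.mem_iff (sb z' hz') hz.1.1).1 c').1
    · rintro _ ⟨w, hw, rfl⟩ c
      have c' := (e.mem_iff (sb w hw) hr).1 c
      rcases hw.2.2.2 r rT with d | d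
      · rcases arcB_tri hw hz' with rfl | d' | d'
        · exact Or.inr rfl
        · exact ((d.trans_lt hw.2.2.1).not_ge (d'.trans l1)).elim
        · exact (l2.not_ge (d'.trans c'.1)).elim
      · rcases arcB_tri hw hz with rfl | d' | d'
        · exact Or.inl rfl
        · exact (k1.not_ge (c'.2.trans d')).elim
        · exact ((hw.2.2.1.trans_le d).not_ge (k2.trans d')).elim

end Pool.Agent.Lib.MP_b7d179_gt
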