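import Pool.Agent.Lib.MP_b7d179_gt.T.PlaneB

/-! Subdiscs, crosscuts, unions along an arc. -/

namespace Pool.Agent.Lib.MP_b7d179_gt

open Set Metric Topology Filter

variable {Z Z' : Type*} [MetricSpace Z] [MetricSpace Z'] {ι κ : Type*}

variable {O D E E' c c' e j u v g P cD cE : Set Z} {p q : Z}

theorem Disc.sub_int (hD : Disc D c) (hE : Disc E e) (h : E ⊆ D) : E \ e ⊆ D \ c := by
  obtain ⟨φ, ψ, -, eψ, -, -, i1, i2, -⟩ := hD.chart
  rintro x hx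
  refine ⟨h hx.1, fun hc => ?_⟩
  have a : ψ x ∈ interior (ψ '' E) := by
    rw [(hE.image eψ h).interior_eq, ← eψ.diff h (hE.rim_sub.trans h)]
    exact mem_image_of_mem _ hx
  have b := interior_mono (i1 ▸ image_mono h : ψ '' E ⊆ closedBall 0 1) a
  rw [interior_closedBall _ one_ne_zero] at b
  exact (mem_ball.1 b).ne (mem_sphere.1 (i2 ▸ mem_image_of_mem ψ hc))

theorem Disc.sub_open (hD : Disc D c) (hE : Disc E e) (h : E ⊆ D) :
    ∃ U, IsOpen U ∧ U ∩ D = E \ e := by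
  obtain ⟨φ, ψ, -, eψ, -⟩ := hD.chart
  obtain ⟨U, hU, e1⟩ := continuousOn_iff'.1 eψ.1 _ (isOpen_interior (s := ψ '' E))
  refine ⟨U, hU, ?_⟩
  rw [← e1, (hE.image eψ h).interior_eq, ← eψ.diff h (hE.rim_sub.trans h)]
  ext x
  exact ⟨fun hx => (eψ.mem_iff (sdiff_subset.trans h) hx.2).1 hx.1,
    fun hx => ⟨mem_image_of_mem _ hx, h hx.1⟩⟩

theorem Disc.rim_unique (h : Disc D c) (h' : Disc D c') : c = c' := by
  refine Subset.antisymm (fun x hx => ?_) fun x hx => ?_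
  · by_contra n
    exact (h.sub_int h' subset_rfl ⟨h.rim_sub hx, n⟩).2 hx
  · by_contra n
    exact (h'.sub_int h subset_rfl ⟨h'.rim_sub hx, n⟩).2 hx

theorem Disc.eq_of_rim (hD : Disc D c) (hE : Disc E e) (hE' : Disc E' e) (h : E ⊆ D)
    (h' : E' ⊆ D) : E = E' := by
  obtain ⟨φ, ψ, -, eψ, -, -, -, -, -, -, r⟩ := hD.chart
  rw [← r E h, ← r E' h', (hE.image eψ h).plane_eq (hE'.image eψ h')]

theorem Disc.fill (hD : Disc D c) (h : Two j u v p q) (hj : j ⊆ D) : ∃ E ⊆ D, Disc E j := by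
  obtain ⟨φ, ψ, eφ, eψ, j1, -, i1, -, -, -, r⟩ := hD.chart
  obtain ⟨E, hE, d⟩ := (h.image eψ hj).plane_disc_sub (i1 ▸ image_mono hj)
  exact ⟨φ '' E, j1 ▸ image_mono hE, r j hj ▸ d.image eφ hE⟩

theorem Disc.conn_in (hD : Disc D c) (hE : Disc E e) (h : E ⊆ D) (hP : IsPreconnected P)
    (hs : P ⊆ D) (hd : Disjoint P e) (hn : (P ∩ E).Nonempty) : P ⊆ E \ e := by
  obtain ⟨U, hU, e1⟩ := hD.sub_open hE h
  have k : ∀ x ∈ P, x ∈ E → x ∈ U := fun x hx hx' =>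
    (e1.ge ⟨hx', disjoint_left.1 hd hx⟩).1
  intro x hx
  refine ⟨by_contra fun n => ?_, disjoint_left.1 hd hx⟩
  obtain ⟨y, hy, hy'⟩ := hn
  obtain ⟨z, hz, z1, z2⟩ := hP U Eᶜ hU hE.closed.isOpen_compl
    (fun w hw => (em (w ∈ E)).imp (k w hw) id) ⟨y, hy, k y hy hy'⟩ ⟨x, hx, n⟩
  exact z2 (e1.le ⟨z1, hs hz⟩).1

theorem Disc.cut (hO : Disc O c) (h : Two c u v p q) (hg : Cc O c g p q) :
    ∃ D E, Cut O c u v g D E p q := by
  obtain ⟨φ, ψ, eφ, eψ, j1, j2, i1, i2, -, l, r⟩ := hO.chart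
  have a := h.image eψ hO.rim_sub
  have b := hg.image hO.rim_sub eψ subset_rfl
  rw [i2] at a b
  rw [i1] at b
  obtain ⟨D, E, k⟩ := plane_cut a b
  have k' := k.image eφ subset_rfl
  rw [j1, j2, r u (h.sub1.trans hO.rim_sub), r v (h.sub2.trans hO.rim_sub), r g hg.sub,
    l p (hO.rim_sub hg.left), l q (hO.rim_sub hg.right)] at k'
  exact ⟨_, _, k'⟩

theorem Cut.inter_rim (h : Cut O c u v g D E p q) : D ∩ c = u := by
  refine Subset.antisymm (fun x hx => ?_)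
    (subset_inter (subset_union_left.trans h.d1.rim_sub) h.two.sub1)
  have a : x ∈ u ∪ g := by_contra fun n => (h.disc.sub_int h.d1 h.sub1 ⟨hx.1, n⟩).2 hx.2
  exact a.elim id fun b => h.two.a1.ends (h.cc.inter.le ⟨b, hx.2⟩)

theorem Cut.two1 (h : Cut O c u v g D E p q) : Two (u ∪ g) u g p q :=
  ⟨h.two.a1, h.cc.arc, Subset.antisymm (fun _ hx => h.cc.inter.le ⟨hx.2, h.two.sub1 hx.1⟩)
    (subset_inter h.two.a1.ends h.cc.arc.ends), rfl⟩

theorem Cut.unique {D' : Set Z} (h : Cut O c u v g D E p q) (h' : Cut O c u v g D' E' p q) :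
    D = D' ∧ E = E' :=
  ⟨h.disc.eq_of_rim h.d1 h'.d1 h.sub1 h'.sub1, h.disc.eq_of_rim h.d2 h'.d2 h.sub2 h'.sub2⟩

/-- a connected set off the crosscut that meets `D` lies in `D` and misses `E` -/
theorem Cut.side1 (h : Cut O c u v g D E p q) (hP : IsPreconnected P) (hs : P ⊆ O)
    (hd : Disjoint P g) (hn : (P ∩ D).Nonempty) : P ⊆ D ∧ Disjoint P E := by
  have a : P ⊆ D := (h.side hP hs hd).elim id fun b => by
    obtain ⟨x, hx, hx'⟩ := hn
    exact (disjoint_left.1 hd hx (h.inter.le ⟨hx', b hx⟩)).elim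
  exact ⟨a, disjoint_left.2 fun x hx hx' => disjoint_left.1 hd hx (h.inter.le ⟨a hx, hx'⟩)⟩

/-- a crosscut off `g` that meets `D` is a crosscut of `D` -/
theorem Cut.cc1 {a : Set Z} {x y : Z} (h : Cut O c u v g D E p q) (ha : Cc O c a x y)
    (hd : Disjoint a g) (hn : (a ∩ D).Nonempty) : Cc D (u ∪ g) a x y := by
  have s := (h.side1 ha.arc.conn ha.sub hd hn).1
  refine ⟨ha.arc, s, Subset.antisymm (fun z hz => ?_) fun z hz => ?_⟩
  · exact hz.2.elim (fun b => ha.inter.le ⟨hz.1, h.two.sub1 b⟩)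
      fun b => (disjoint_left.1 hd hz.1 b).elim
  · have b := ha.inter.ge hz
    exact ⟨b.1, Or.inl (h.inter_rim.le ⟨s b.1, b.2⟩)⟩

/-- a crosscut of `D` with ends in `u` is a crosscut of `O` -/
theorem Cut.cc_up {a : Set Z} {x y : Z} (h : Cut O c u v g D E p q) (ha : Cc D (u ∪ g) a x y)
    (hx : x ∈ u) (hy : y ∈ u) : Cc O c a x y :=
  ⟨ha.arc, ha.sub.trans h.sub1, Subset.antisymm
    (fun _ hz => ha.inter.le ⟨hz.1, Or.inl (h.inter_rim.le ⟨ha.sub hz.1, hz.2⟩)⟩)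
    (subset_inter ha.arc.ends
      (insert_subset (h.two.sub1 hx) (singleton_subset_iff.2 (h.two.sub1 hy))))⟩

theorem Disc.glue (hD : Disc D cD) (hE : Disc E cE) (h1 : Two cD u g p q) (h2 : Two cE v g p q)
    (hi : D ∩ E = g) : Cut (D ∪ E) (u ∪ v) u v g D E p q := by
  have uD : u ⊆ D := h1.sub1.trans hD.rim_sub
  have vE : v ⊆ E := h2.sub1.trans hE.rim_sub
  refine ⟨?_, ⟨h1.a1, h2.a1, Subset.antisymm
      (fun x hx => h1.inter.le ⟨hx.1, hi.le ⟨uD hx.1, vE hx.2⟩⟩)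
      (subset_inter h1.a1.ends h2.a1.ends), rfl⟩,
    ⟨h1.a2, hi.ge.trans (inter_subset_left.trans subset_union_left), Subset.antisymm
      (fun x hx => hx.2.elim (fun b => h1.inter.le ⟨b, hx.1⟩) fun b => h2.inter.le ⟨b, hx.1⟩)
      (subset_inter h1.a2.ends (h1.a1.ends.trans subset_union_left))⟩,
    h1.union.symm ▸ hD, h2.union.symm ▸ hE, hi, rfl⟩
  have m1 : (1 : ℂ) ∈ sphere (0 : ℂ) 1 := by simp
  have m2 : (-1 : ℂ) ∈ sphere (0 : ℂ) 1 := by simp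
  have ne : (1 : ℂ) ≠ -1 := by norm_num
  obtain ⟨u0, v0, t0⟩ := disc_unit.exists_two m1 m2 ne
  obtain ⟨g0, c0⟩ := disc_unit.exists_cc m1 m2 ne
  obtain ⟨D0, E0, k⟩ := plane_cut t0 c0
  obtain ⟨f1, a1, a2, a3, a4⟩ := t0.a1.homeo h1.a1
  obtain ⟨f2, b1, b2, b3, b4⟩ := t0.a2.homeo h2.a1
  obtain ⟨f3, d1, d2, d3, d4⟩ := c0.arc.homeo h1.a2
  obtain ⟨F1, x1, x2, x3, x4⟩ := k.two1.homeo h1 a1 d1 a2 d2 a3 a4 d3 d4
  obtain ⟨F2, y1, y2, y3, y4⟩ := k.symm.two1.homeo h2 b1 d1 b2 d2 b3 b4 d3 d4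
  obtain ⟨G1, z1, z2, z3⟩ := k.d1.cone hD x1 x2
  obtain ⟨G2, w1, w2, w3⟩ := k.d2.cone hE y1 y2
  have e1 : EqOn G1 f3 g0 := (z3.mono subset_union_right).trans x4
  have e2 : EqOn G2 f3 g0 := (w3.mono subset_union_right).trans y4
  obtain ⟨F, o1, o2, o3⟩ := z1.paste w1 k.d1.closed k.d2.closed
    (by rw [k.inter]; exact e1.trans e2.symm) (by rw [k.inter, z2, w2, hi, e1.image_eq, d2])
  refine ⟨F, k.union ▸ o1, ?_, ?_⟩
  · rw [← k.union, image_union, o2.image_eq, o3.image_eq, z2, w2]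
  · rw [← t0.union, image_union, ← a2, ← b2,
      ((o2.mono (subset_union_left.trans k.d1.rim_sub)).trans
        ((z3.mono subset_union_left).trans x3)).image_eq,
      ((o3.mono (subset_union_left.trans k.d2.rim_sub)).trans
        ((w3.mono subset_union_left).trans y3)).image_eq]

theorem Disc.glue' (hD : Disc D cD) (hE : Disc E cE) (hg : Arc g p q) (hi : D ∩ E = g)
    (h1 : g ⊆ cD) (h2 : g ⊆ cE) : Disc (D ∪ E) ((cD ∪ cE) \ (g \ {p, q})) := by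
  obtain ⟨u, t1⟩ := hD.two_of_arc hg h1
  obtain ⟨v, t2⟩ := hE.two_of_arc hg h2
  have k := (hD.glue hE t1.symm t2.symm hi).disc
  have e : (cD ∪ cE) \ (g \ {p, q}) = u ∪ v := by
    refine Subset.antisymm (fun x hx => ?_) fun x hx => ?_
    · by_cases b : x ∈ g
      · exact Or.inl (t1.a2.ends (by_contra fun n => hx.2 ⟨b, n⟩))
      · exact hx.1.imp (fun a => (t1.union.ge a).resolve_left b)
          fun a => (t2.union.ge a).resolve_left b
    · exact ⟨hx.imp (fun a => t1.sub2 a) fun a => t2.sub2 a, fun n => n.2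
        (hx.elim (fun a => t1.inter.le ⟨n.1, a⟩) fun a => t2.inter.le ⟨n.1, a⟩)⟩
  rwa [e]

/-- a subdisc that meets the rim in an arc of its own rim is a bite -/
theorem Disc.cut_of_sub (hO : Disc O c) (hD : Disc D cD) (hs : D ⊆ O) (hu : Arc u p q)
    (hi : D ∩ c = u) : ∃ v g E, Cut O c u v g D E p q ∧ cD = u ∪ g := by
  have uD : u ⊆ cD := fun x hx => by_contra fun n =>
    (hO.sub_int hD hs ⟨(hi.ge hx).1, n⟩).2 (hi.ge hx).2
  have uc : u ⊆ c := hi.ge.trans inter_subset_right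
  obtain ⟨g, t1⟩ := hD.two_of_arc hu uD
  obtain ⟨v, t2⟩ := hO.two_of_arc hu uc
  have gD : g ⊆ D := t1.sub2.trans hD.rim_sub
  obtain ⟨D', E, k⟩ := hO.cut t2 (g := g) ⟨t1.a2, gD.trans hs, Subset.antisymm
    (fun x hx => t1.inter.le ⟨hi.le ⟨gD hx.1, hx.2⟩, hx.1⟩)
    (subset_inter t1.a2.ends (hu.ends.trans uc))⟩
  obtain rfl : D = D' := hO.eq_of_rim (t1.union.symm ▸ hD) k.d1 hs k.sub1
  exact ⟨v, g, E, k, t1.union.symm⟩

end Pool.Agent.Lib.MP_b7d179_gt
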