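import Pool.Agent.Lib.MP_b7d179_gt.T.ArcB

/-! Rims of discs, cones, chords. -/

namespace Pool.Agent.Lib.MP_b7d179_gt

open Set Metric Topology Filter

variable {Z Z' : Type*} [MetricSpace Z] [MetricSpace Z'] {ι κ : Type*}

variable {D c u v w g l g' r I I' E B U O a P : Set Z} {p q e x y x' y' : Z}

lemma circ_unit {a b : ℂ} (ha : a ∈ sphere (0 : ℂ) 1) (hb : b ∈ sphere (0 : ℂ) 1) (hne : a ≠ b) :
    ∃ u v, Two (sphere (0 : ℂ) 1) u v a b := by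
  obtain ⟨A, B, ⟨hA, hB, e0, e1, hn, hc, hi⟩, rfl, rfl⟩ := MP_d32f96_gt.F1.exists_two
    (mem_sphere_zero_iff_norm.1 ha) (mem_sphere_zero_iff_norm.1 hb) hne
  have a1 : Arc (A '' Icc 0 1) (A 0) (A 1) := ⟨A, ⟨hA.1.continuousOn, hA.2⟩, rfl, rfl, rfl⟩
  have a2 : Arc (B '' Icc 0 1) (A 0) (A 1) := ⟨B, ⟨hB.1.continuousOn, hB.2⟩, rfl, e0.symm, e1.symm⟩
  refine ⟨_, _, a1, a2, subset_antisymm ?_ (subset_inter a1.ends a2.ends), subset_antisymm ?_ ?_⟩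
  · rintro _ ⟨⟨t, ht, rfl⟩, s, hs, e⟩
    rcases hi t ht s hs e.symm with rfl | rfl
    · exact Or.inl rfl
    · exact Or.inr rfl
  · rintro _ (⟨t, -, rfl⟩ | ⟨t, -, rfl⟩)
    · exact mem_sphere_zero_iff_norm.2 (hn t).1
    · exact mem_sphere_zero_iff_norm.2 (hn t).2
  · intro z hz
    obtain ⟨t, ht, e | e⟩ := hc z (mem_sphere_zero_iff_norm.1 hz)
    · exact Or.inl ⟨t, ht, e.symm⟩
    · exact Or.inr ⟨t, ht, e.symm⟩

lemma circ_emb {γ : ℂ → Z} (hγ : Emb γ (sphere 0 1)) (hp : p ∈ γ '' sphere 0 1)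
    (hq : q ∈ γ '' sphere 0 1) (hne : p ≠ q) : ∃ u v, Two (γ '' sphere 0 1) u v p q := by
  obtain ⟨a, ha, rfl⟩ := hp
  obtain ⟨b, hb, rfl⟩ := hq
  obtain ⟨u, v, h⟩ := circ_unit ha hb fun e => hne (congrArg γ e)
  exact ⟨_, _, h.image hγ subset_rfl⟩

lemma circ_std : ∃ u v, Two (sphere (0 : ℂ) 1) u v 1 (-1) :=
  circ_unit (by simp) (by simp) (by norm_num)

theorem Disc.exists_two (h : Disc D c) (hp : p ∈ c) (hq : q ∈ c) (hne : p ≠ q) :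
    ∃ u v, Two c u v p q := by
  obtain ⟨φ, e, -, rfl⟩ := h
  exact circ_emb (e.mono sphere_subset_closedBall) hp hq hne

theorem Two.homeo {c' u' v' : Set Z'} {p' q' : Z'} (h : Two c u v p q) (h' : Two c' u' v' p' q')
    {f k : Z → Z'} (hf : Emb f u) (hk : Emb k v) (fi : f '' u = u') (ki : k '' v = v')
    (fp : f p = p') (fq : f q = q') (kp : k p = p') (kq : k q = q') :
    ∃ F : Z → Z', Emb F c ∧ F '' c = c' ∧ EqOn F f u ∧ EqOn F k v := by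
  obtain ⟨F, hF, e1, e2⟩ := hf.paste hk h.a1.closed h.a2.closed
    (by
      rw [h.inter]
      rintro _ (rfl | rfl)
      · rw [fp, kp]
      · rw [fq, kq])
    (by rw [fi, ki, h'.inter, h.inter, image_pair, fp, fq])
  refine ⟨F, h.union ▸ hF, ?_, e1, e2⟩
  rw [← h.union, image_union, image_congr e1, image_congr e2, ← h'.union, ← fi, ← ki]

/-- a union of two arcs is an embedded circle -/
theorem Two.param (h : Two c u v p q) :
    ∃ γ : ℂ → Z, Emb γ (sphere 0 1) ∧ γ '' sphere 0 1 = c := by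
  obtain ⟨u₀, v₀, h₀⟩ := circ_std
  obtain ⟨f, hf, fi, fp, fq⟩ := h₀.a1.homeo h.a1
  obtain ⟨k, hk, ki, kp, kq⟩ := h₀.a2.homeo h.a2
  obtain ⟨F, hF, hi, -⟩ := h₀.homeo h hf hk fi ki fp fq kp kq
  exact ⟨F, hF, hi⟩

theorem Two.other (h : Two c u v p q) (hx : x ∈ c) (hy : y ∈ c) (hne : x ≠ y) :
    ∃ u' v', Two c u' v' x y := by
  obtain ⟨γ, e, rfl⟩ := h.param
  exact circ_emb e hx hy hne

theorem Two.unique (h : Two c u v p q) (hw : Arc w p q) (hc : w ⊆ c) : w = u ∨ w = v := by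
  have k : ∀ {a : Set Z}, Arc a p q → w \ {p, q} ⊆ a → w = a := fun ha s =>
    ha.eq_of_sub hw fun z hz => by
      by_cases e : z ∈ ({p, q} : Set Z)
      · exact ha.ends e
      · exact s ⟨hz, e⟩
  exact (side_of hw.conn_open h.a1.closed h.a2.closed (h.union.symm ▸ sdiff_subset.trans hc)
    (h.inter.symm ▸ disjoint_sdiff_left)).imp (k h.a1) (k h.a2)

theorem Disc.two_of_arc (h : Disc D c) (hu : Arc u p q) (hc : u ⊆ c) : ∃ v, Two c u v p q := by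
  obtain ⟨u', v', t⟩ := h.exists_two (hc hu.left) (hc hu.right) hu.ne
  rcases t.unique hu hc with rfl | rfl
  · exact ⟨_, t⟩
  · exact ⟨_, t.symm⟩

/-- a homeomorphism of the rims extends -/
theorem Disc.cone {D' c' : Set Z'} (h : Disc D c) (h' : Disc D' c') {f : Z → Z'} (hf : Emb f c)
    (hi : f '' c = c') : ∃ F : Z → Z', Emb F D ∧ F '' D = D' ∧ EqOn F f c := by
  obtain ⟨φ, ψ, eφ, eψ, -, φc, ψD, ψc, -, φψ, -⟩ := h.chart
  obtain ⟨φ', ψ', eφ', eψ', φD', -, -, ψc', -, φψ', -⟩ := h'.chart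
  have e1 : Emb (f ∘ φ) (sphere 0 1) := hf.comp (eφ.mono sphere_subset_closedBall) φc.le
  have i1 : (f ∘ φ) '' sphere 0 1 = c' := by rw [image_comp, φc, hi]
  have e2 : Emb (ψ' ∘ f ∘ φ) (sphere 0 1) := eψ'.comp e1 (i1.le.trans h'.rim_sub)
  obtain ⟨C, hC, bC, nC, eC⟩ := MP_d32f96_gt.E.cone e2.1 e2.2 (by rw [image_comp, i1, ψc'])
  have iC : C '' closedBall 0 1 = closedBall 0 1 := by
    ext z
    obtain ⟨s, rfl⟩ := bC.2 z
    rw [bC.1.mem_set_image, mem_closedBall_zero_iff, mem_closedBall_zero_iff, nC]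
  have i2 : (C ∘ ψ) '' D = closedBall 0 1 := by rw [image_comp, ψD, iC]
  refine ⟨φ' ∘ C ∘ ψ, eφ'.comp (Emb.comp ⟨hC.continuousOn, bC.1.injOn⟩ eψ (subset_univ _)) i2.le,
    by rw [image_comp, i2, φD'], fun z hz => ?_⟩
  have hz' : ψ z ∈ sphere (0 : ℂ) 1 := ψc.le (mem_image_of_mem _ hz)
  simp only [Function.comp_apply, eC _ (mem_sphere_zero_iff_norm.1 hz'), φψ z (h.rim_sub hz)]
  exact φψ' _ (h'.rim_sub (hi.le (mem_image_of_mem _ hz)))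

lemma circ_ex (h : Disc D c) (hE : E.Finite) : ∃ x ∈ c, x ∉ E := by
  obtain ⟨φ, e, -, rfl⟩ := h
  obtain ⟨u₀, v₀, h₀⟩ := circ_std
  have t := h₀.image e sphere_subset_closedBall
  obtain ⟨x, hx, hn⟩ := t.a1.exists_notMem hE
  exact ⟨x, t.sub1 hx, hn⟩

theorem Disc.rim_small (h : Disc D c) (he : e ∈ c) (hU : U ∈ 𝓝 e) :
    ∃ I x y, Arc I x y ∧ I ⊆ c ∩ U ∧ e ∈ I \ {x, y} := by
  obtain ⟨p, hp, pe⟩ := circ_ex h (finite_singleton e)
  obtain ⟨q, hq, qe⟩ := circ_ex h ((finite_singleton e).insert p)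
  have n : e ∉ ({p, q} : Set Z) := by
    rintro (rfl | rfl)
    · exact pe rfl
    · exact qe (Or.inr rfl)
  obtain ⟨u, v, t⟩ := h.exists_two hp hq fun k => qe (Or.inl k.symm)
  have k : ∀ {a : Set Z}, Arc a p q → a ⊆ c → e ∈ a →
      ∃ I x y, Arc I x y ∧ I ⊆ c ∩ U ∧ e ∈ I \ {x, y} := fun ha s m => by
    obtain ⟨I, j, j', hI, hs, hm⟩ := ha.small ⟨m, n⟩ hU
    exact ⟨I, j, j', hI, fun z hz => ⟨s (hs hz).1.1, (hs hz).2⟩, hm⟩
  rcases t.union.ge he with m | m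
  · exact k t.a1 t.sub1 m
  · exact k t.a2 t.sub2 m

set_option linter.unusedVariables false in
theorem Disc.rim_around (h : Disc D c) (hE : IsCompact E) (hn : E.Nonempty) (hc : E ⊆ c)
    (hp : p ∈ c) (hpE : p ∉ E) : ∃ I x y, Arc I x y ∧ I ⊆ c \ {p} ∧ E ⊆ I \ {x, y} := by
  obtain ⟨J, x, y, hJ, hs, hm⟩ := h.rim_small hp (hE.isClosed.isOpen_compl.mem_nhds hpE)
  obtain ⟨v, t⟩ := h.two_of_arc hJ (hs.trans inter_subset_left)
  refine ⟨v, x, y, t.a2, fun z hz => ⟨t.sub2 hz, fun k => ?_⟩, fun z hz => ?_⟩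
  · rw [mem_singleton_iff.1 k] at hz
    exact hm.2 (t.inter.le ⟨hm.1, hz⟩)
  · have n : z ∉ J := fun k => (hs k).2 hz
    exact ⟨(t.union.ge (hc hz)).resolve_left n, fun k => n (hJ.ends k)⟩

/-- a slightly larger arc of the rim -/
theorem Disc.rim_larger (h : Disc D c) (hu : Arc u p q) (hc : u ⊆ c) (hB : IsClosed B)
    (hd : Disjoint B u) : ∃ I x y, Arc I x y ∧ I ⊆ c ∧ u ⊆ I \ {x, y} ∧ Disjoint B I := by
  obtain ⟨v, t⟩ := h.two_of_arc hu hc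
  obtain ⟨z, hz, zn⟩ := t.a2.exists_notMem ((finite_singleton q).insert p)
  obtain ⟨J, x, y, hJ, hs, hm⟩ := h.rim_around hu.compact ⟨p, hu.left⟩ hc (t.sub2 hz)
    fun k => zn (t.inter.le ⟨k, hz⟩)
  obtain ⟨I, j, j', hI, s1, s2, d⟩ := hJ.larger hu hm hB hd
  exact ⟨I, j, j', hI, fun a ha => (hs (s1 ha).1).1, s2, d⟩

theorem Disc.rim_rel_open (h : Disc D c) (hI : Arc I x y) (hc : I ⊆ c) :
    ∃ U, IsOpen U ∧ U ∩ c = I \ {x, y} := by
  obtain ⟨v, t⟩ := h.two_of_arc hI hc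
  refine ⟨vᶜ, t.a2.closed.isOpen_compl, subset_antisymm (fun z hz => ?_) fun z hz => ?_⟩
  · exact ⟨(t.union.ge hz.2).resolve_right hz.1, fun k => hz.1 (t.a2.ends k)⟩
  · exact ⟨fun k => hz.2 (t.inter.le ⟨hz.1, k⟩), hc hz.1⟩

end Pool.Agent.Lib.MP_b7d179_gt
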