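import Pool.Agent.Lib.MP_b7d179_gt.T.Circ

/-! Interiors of discs, cycles of four arcs. -/

namespace Pool.Agent.Lib.MP_b7d179_gt

open Set Metric Topology Filter

variable {Z Z' : Type*} [MetricSpace Z] [MetricSpace Z'] {ι κ : Type*}

variable {D c u v w g l g' r I I' E B U O a P : Set Z} {p q e x y x' y' : Z}

lemma circb_ball {φ : ℂ → Z} (h : Emb φ (closedBall 0 1)) {s : ℝ} (hs : s ≤ 1) :
    φ '' ball 0 s = φ '' closedBall 0 s \ φ '' sphere 0 s := by
  rw [← h.diff (closedBall_subset_closedBall hs)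
    (sphere_subset_closedBall.trans (closedBall_subset_closedBall hs)), closedBall_diff_sphere]

lemma circb_disc {s : ℝ} (hs : 0 < s) : Disc (closedBall (0 : ℂ) s) (sphere 0 s) := by
  refine ⟨fun z => s • z, ⟨by fun_prop, fun a _ b _ e => smul_right_injective ℂ hs.ne' e⟩, ?_, ?_⟩
  · rw [image_smul, smul_closedBall' hs.ne', smul_zero, Real.norm_of_nonneg hs.le, mul_one]
  · rw [image_smul, smul_sphere' hs.ne', smul_zero, Real.norm_of_nonneg hs.le, mul_one]

lemma circb_conc {φ : ℂ → Z} (h : Emb φ (closedBall 0 1)) {s : ℝ} (h0 : 0 < s) (h1 : s < 1) :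
    Disc (φ '' closedBall 0 s) (φ '' sphere 0 s) ∧
      φ '' closedBall 0 s ⊆ φ '' closedBall 0 1 \ φ '' sphere 0 1 :=
  ⟨(circb_disc h0).image h (closedBall_subset_closedBall h1.le),
    circb_ball h le_rfl ▸ image_mono (closedBall_subset_ball h1)⟩

theorem Disc.exists_rim (h : Disc D c) (hE : E.Finite) : ∃ x ∈ c, x ∉ E := circ_ex h hE

theorem Disc.rim_conn (h : Disc D c) : IsPreconnected c := by
  obtain ⟨φ, e, -, rfl⟩ := h
  exact (isPreconnected_sphere (by simp) 0 1).image _ (e.1.mono sphere_subset_closedBall)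

theorem Disc.dense (h : Disc D c) : D ⊆ closure (D \ c) := by
  obtain ⟨φ, e, rfl, rfl⟩ := h
  rw [← circb_ball e le_rfl, ← closure_ball (0 : ℂ) one_ne_zero]
  exact ContinuousOn.image_closure (by rw [closure_ball (0 : ℂ) one_ne_zero]; exact e.1)

theorem Disc.conn_diff (h : Disc D c) (hB : B ⊆ c) : IsPreconnected (D \ B) := by
  refine IsPreconnected.subset_closure (s := D \ c) ?_ (sdiff_subset_sdiff_right hB)
    (sdiff_subset.trans h.dense)
  obtain ⟨φ, e, rfl, rfl⟩ := h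
  rw [← circb_ball e le_rfl]
  exact (convex_ball _ _).isPreconnected.image _ (e.1.mono ball_subset_closedBall)

theorem Disc.exists_int (h : Disc D c) (hE : E.Finite) : ∃ x ∈ D \ c, x ∉ E := by
  obtain ⟨φ, e, rfl, rfl⟩ := h
  rw [← circb_ball e le_rfl]
  exact ((infinite_of_mem_nhds _ (ball_mem_nhds (0 : ℂ) one_pos)).image
    (e.2.mono ball_subset_closedBall)).exists_notMem_finite hE

theorem Disc.exists_cc (h : Disc D c) (hp : p ∈ c) (hq : q ∈ c) (hne : p ≠ q) :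
    ∃ a, Cc D c a p q := by
  obtain ⟨φ, e, rfl, rfl⟩ := h
  obtain ⟨a, ha, rfl⟩ := hp
  obtain ⟨b, hb, rfl⟩ := hq
  have n : a ≠ b := fun k => hne (congrArg φ k)
  have A : Arc (segment ℝ a b) a b := ⟨AffineMap.lineMap a b,
    ⟨AffineMap.lineMap_continuous.continuousOn, (AffineMap.lineMap_injective ℝ n).injOn⟩,
    (segment_eq_image_lineMap ℝ a b).symm, by simp, by simp⟩
  refine ⟨_, Cc.image ⟨A, (convex_closedBall _ _).segment_subset (sphere_subset_closedBall ha)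
    (sphere_subset_closedBall hb), subset_antisymm (fun z hz => ?_) (subset_inter A.ends
      (insert_subset ha (singleton_subset_iff.2 hb)))⟩ sphere_subset_closedBall e subset_rfl⟩
  rw [← insert_endpoints_openSegment] at hz
  rcases hz.1 with k | k | k
  · exact Or.inl k
  · exact Or.inr k
  · exact absurd (mem_sphere.1 hz.2) (mem_ball.1 (openSegment_subset_ball_of_ne
      (sphere_subset_closedBall ha) (sphere_subset_closedBall hb) n k)).ne

theorem Disc.recentre (h : Disc D c) (hp : p ∈ D \ c) : ∃ φ : ℂ → Z, Emb φ (closedBall 0 1) ∧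
    φ '' closedBall 0 1 = D ∧ φ '' sphere 0 1 = c ∧ φ 0 = p := by
  obtain ⟨φ, e, rfl, rfl⟩ := h
  rw [← circb_ball e le_rfl] at hp
  obtain ⟨a, ha, rfl⟩ := hp
  rw [mem_ball_zero_iff] at ha
  let f : ℂ → ℂ := fun z => z + (1 - ‖z‖) • a
  have i : f '' closedBall 0 1 = closedBall 0 1 := by
    refine subset_antisymm ?_ fun z hz => ?_
    · rintro _ ⟨z, hz, rfl⟩
      rw [mem_closedBall_zero_iff] at hz ⊢
      refine (norm_add_le _ _).trans ?_
      rw [norm_smul, Real.norm_of_nonneg (sub_nonneg.2 hz)]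
      nlinarith
    · rw [mem_closedBall_zero_iff] at hz
      obtain ⟨t, ht, k⟩ := intermediate_value_Icc' zero_le_one
        (f := fun t : ℝ => ‖z - (1 - t) • a‖ - t) (by fun_prop)
        (⟨by simpa using hz, by simp⟩ : (0 : ℝ) ∈ Icc _ _)
      rw [sub_eq_zero] at k
      exact ⟨z - (1 - t) • a, mem_closedBall_zero_iff.2 (k.le.trans ht.2), by
        simp only [f, k, sub_add_cancel]⟩
  have j : InjOn f (closedBall 0 1) := fun z _ w _ k => by
    have k1 : z - w = (‖z‖ - ‖w‖) • a := by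
      rw [show z - w = f z - f w + (‖z‖ - ‖w‖) • a by simp only [f, sub_smul]; abel, k, sub_self,
        zero_add]
    have k2 := congrArg norm k1
    rw [norm_smul, Real.norm_eq_abs] at k2
    have k3 := abs_norm_sub_norm_le z w
    have k4 := abs_nonneg (‖z‖ - ‖w‖)
    exact sub_eq_zero.1 (norm_le_zero_iff.1 (by nlinarith [norm_nonneg a, norm_nonneg (z - w)]))
  refine ⟨φ ∘ f, e.comp ⟨by fun_prop, j⟩ i.le, by rw [image_comp, i], image_congr fun z hz => ?_,
    by simp [f]⟩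
  simp [f, mem_sphere_zero_iff_norm.1 hz]

theorem Disc.small (h : Disc D c) (hp : p ∈ D \ c) (hU : U ∈ 𝓝 p) :
    ∃ W w, Disc W w ∧ W ⊆ (D \ c) ∩ U ∧ p ∈ W \ w := by
  obtain ⟨φ, e, rfl, rfl, rfl⟩ := h.recentre hp
  obtain ⟨δ, hδ, k⟩ := Metric.mem_nhdsWithin_iff.1
    (e.1 0 (mem_closedBall_self zero_le_one) hU)
  have s0 : 0 < min (δ / 2) (1 / 2) := by positivity
  have s1 : min (δ / 2) (1 / 2) < 1 := (min_le_right _ _).trans_lt (by norm_num)
  obtain ⟨a, b⟩ := circb_conc e s0 s1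
  refine ⟨_, _, a, subset_inter b ?_, circb_ball e s1.le ▸ ⟨0, mem_ball_self s0, rfl⟩⟩
  rintro _ ⟨z, hz, rfl⟩
  exact k ⟨closedBall_subset_ball ((min_le_left _ _).trans_lt (half_lt_self hδ)) hz,
    closedBall_subset_closedBall s1.le hz⟩

/-- a concentric disc that contains a given compact part of the interior -/
theorem Disc.inner (h : Disc D c) (hB : IsCompact B) (hs : B ⊆ D \ c) :
    ∃ W w, Disc W w ∧ W ⊆ D \ c ∧ B ⊆ W \ w := by
  obtain ⟨φ, ψ, eφ, eψ, rfl, rfl, -, -, l, -, i⟩ := h.chart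
  have k : ψ '' B ⊆ ball 0 1 := by
    rintro _ ⟨x, hx, rfl⟩
    obtain ⟨z, hz, rfl⟩ := (circb_ball eφ le_rfl).ge (hs hx)
    rwa [l z (ball_subset_closedBall hz)]
  obtain ⟨s, hs', k'⟩ := exists_pos_lt_subset_ball one_pos
    (eψ.compact (hs.trans sdiff_subset) hB).isClosed k
  obtain ⟨a, b⟩ := circb_conc eφ hs'.1 hs'.2
  refine ⟨_, _, a, b, ?_⟩
  rw [← circb_ball eφ hs'.2.le, ← i B (hs.trans sdiff_subset)]
  exact image_mono k'

theorem Quad.rot (h : Quad c g l g' r) : Quad c l g' r g := by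
  obtain ⟨⟨a, b, d, e, h1, h2, h3, h4, i1, i2, i3, i4⟩, d1, d2, un⟩ := h
  exact ⟨⟨b, d, e, a, h2, h3, h4, h1, i2, i3, i4, i1⟩, d2, d1.symm, by rw [← un]; ac_rfl⟩

theorem Quad.rev (h : Quad c g l g' r) : Quad c g r g' l := by
  obtain ⟨⟨a, b, d, e, h1, h2, h3, h4, i1, i2, i3, i4⟩, d1, d2, un⟩ := h
  exact ⟨⟨b, a, e, d, h1.symm, h4.symm, h3.symm, h2.symm, inter_comm r g ▸ i4, inter_comm g' r ▸ i3,
    inter_comm l g' ▸ i2, inter_comm g l ▸ i1⟩, d1, d2.symm, by rw [← un]; ac_rfl⟩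

lemma circb_side (t : Two c u v p q) (h : Arc a x y) (hc : a ⊆ c) (hp : p ∈ a → p = x ∨ p = y)
    (hq : q ∈ a → q = x ∨ q = y) : a ⊆ u ∨ a ⊆ v := by
  have k : ∀ {b : Set Z}, IsClosed b → a \ {x, y} ⊆ b → a ⊆ b := fun cb s =>
    (h.dense ((finite_singleton y).insert x)).trans (cb.closure_subset_iff.2 s)
  refine (side_of h.conn_open t.a1.closed t.a2.closed (t.union.symm ▸ sdiff_subset.trans hc)
    (t.inter.symm ▸ disjoint_left.2 ?_)).imp (k t.a1.closed) (k t.a2.closed)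
  rintro z hz (rfl | rfl)
  · exact hz.2 (hp hz.1)
  · exact hz.2 (hq hz.1)

theorem Quad.two (h : Quad c g l g' r) (hp : p ∈ g) (hq : q ∈ g') :
    ∃ u v, Two c u v p q ∧ l ⊆ u ∧ r ⊆ v := by
  obtain ⟨⟨a, b, d, e, h1, h2, h3, h4, i1, i2, i3, i4⟩, d1, d2, un⟩ := h
  have sg : g ⊆ c := un ▸ fun z hz => Or.inl (Or.inl (Or.inl hz))
  have sl : l ⊆ c := un ▸ fun z hz => Or.inl (Or.inl (Or.inr hz))
  have sg' : g' ⊆ c := un ▸ fun z hz => Or.inl (Or.inr hz)
  have sr : r ⊆ c := un ▸ fun z hz => Or.inr hz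
  have t0 : Two c (g ∪ l) (g' ∪ r) a d := by
    refine ⟨h1.cat h2 i1, (h3.cat h4 i3).symm, subset_antisymm ?_
      (subset_inter (h1.cat h2 i1).ends (h3.cat h4 i3).symm.ends), by rw [← un]; ac_rfl⟩
    rintro z ⟨k | k, k' | k'⟩
    · exact (disjoint_left.1 d1 k k').elim
    · exact Or.inl (i4.le ⟨k', k⟩)
    · exact Or.inr (i2.le ⟨k, k'⟩)
    · exact (disjoint_left.1 d2 k k').elim
  obtain ⟨u, v, t⟩ := t0.other (sg hp) (sg' hq) fun k => disjoint_left.1 d1 hp (k ▸ hq)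
  have no : ∀ {u v : Set Z}, Two c u v p q → l ⊆ u → r ⊆ u → False := fun {u v} t a1 a2 => by
    have s : v ⊆ g ∪ g' := fun z hz => by
      by_cases k : z ∈ u
      · rcases t.inter.le ⟨k, hz⟩ with rfl | rfl
        · exact Or.inl hp
        · exact Or.inr hq
      · rcases un.ge (t.sub2 hz) with ((m | m) | m) | m
        · exact Or.inl m
        · exact (k (a1 m)).elim
        · exact Or.inr m
        · exact (k (a2 m)).elim
    rcases side_of t.a2.conn h1.closed h3.closed s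
      (disjoint_iff_inter_eq_empty.1 d1 ▸ disjoint_empty v) with m | m
    · exact disjoint_left.1 d1 (m t.a2.right) hq
    · exact disjoint_left.1 d1 hp (m t.a2.left)
  rcases circb_side t h2 sl (fun k => Or.inl (i1.le ⟨hp, k⟩)) fun k => Or.inr (i2.le ⟨k, hq⟩)
    with a1 | a1 <;>
  rcases circb_side t h4 sr (fun k => Or.inr (i4.le ⟨k, hp⟩)) fun k => Or.inl (i3.le ⟨hq, k⟩)
    with a2 | a2
  · exact (no t a1 a2).elim
  · exact ⟨u, v, t, a1, a2⟩
  · exact ⟨v, u, t.symm, a1, a2⟩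
  · exact (no t.symm a1 a2).elim

set_option linter.unusedVariables false in
theorem Disc.quad (h : Disc D c) (hI : Arc I x y) (hI' : Arc I' x' y') (hc : I ⊆ c) (hc' : I' ⊆ c)
    (hd : Disjoint I I') : ∃ l r, Quad c I l I' r := by
  obtain ⟨v, t⟩ := h.two_of_arc hI hc
  obtain ⟨x1, y1, l, r, a0, a1, a2, i1, i2, d, un⟩ := t.a2.trisect hI' fun z hz =>
    ⟨(t.union.ge (hc' hz)).resolve_left (disjoint_right.1 hd hz),
      fun k => disjoint_right.1 hd hz (hI.ends k)⟩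
  have sl : l ⊆ v := un ▸ fun z hz => Or.inl (Or.inl hz)
  have sr : r ⊆ v := un ▸ fun z hz => Or.inr hz
  refine ⟨l, r, ⟨y, x, x1, y1, hI.symm, a1, a0, a2, subset_antisymm (fun z hz => ?_) ?_, i1, i2,
    subset_antisymm (fun z hz => ?_) ?_⟩, hd, d, by rw [← t.union, ← un]; ac_rfl⟩
  · rcases t.inter.le ⟨hz.1, sl hz.2⟩ with rfl | rfl
    · rfl
    · exact (disjoint_left.1 d hz.2 a2.right).elim
  · exact singleton_subset_iff.2 ⟨hI.left, a1.left⟩
  · rcases t.inter.le ⟨hz.2, sr hz.1⟩ with rfl | rfl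
    · exact (disjoint_left.1 d a1.left hz.1).elim
    · rfl
  · exact singleton_subset_iff.2 ⟨a2.right, hI.right⟩

theorem Quad.image (h : Quad c g l g' r) {f : Z → Z'} (hf : Emb f B) (hB : c ⊆ B) :
    Quad (f '' c) (f '' g) (f '' l) (f '' g') (f '' r) := by
  obtain ⟨⟨a, b, d, e, h1, h2, h3, h4, i1, i2, i3, i4⟩, d1, d2, un⟩ := h
  rw [← un] at hB
  simp only [union_subset_iff] at hB
  obtain ⟨⟨⟨s1, s2⟩, s3⟩, s4⟩ := hB
  exact ⟨⟨f a, f b, f d, f e, h1.image hf s1, h2.image hf s2, h3.image hf s3, h4.image hf s4,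
    by rw [← hf.inter s1 s2, i1, image_singleton], by rw [← hf.inter s2 s3, i2, image_singleton],
    by rw [← hf.inter s3 s4, i3, image_singleton], by rw [← hf.inter s4 s1, i4, image_singleton]⟩,
    hf.disjoint s1 s3 d1, hf.disjoint s2 s4 d2, by rw [← un]; simp only [image_union]⟩

end Pool.Agent.Lib.MP_b7d179_gt
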