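import Pool.Agent.Lib.MP_d32f96_gt.All

/-! Arcs, discs and spheres in a metric space: definitions and the trivial part of the API. -/

namespace Pool.Agent.Lib.MP_b7d179_gt

open Set Metric Topology

section
variable {X Y W : Type*} [TopologicalSpace X] [TopologicalSpace Y] [TopologicalSpace W]

/-- continuous and injective on `A` -/
def Emb (f : X → Y) (A : Set X) : Prop := ContinuousOn f A ∧ InjOn f A

lemma Emb.mono {f : X → Y} {A B : Set X} (h : Emb f A) (hB : B ⊆ A) : Emb f B :=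
  ⟨h.1.mono hB, h.2.mono hB⟩

lemma Emb.comp {f : X → Y} {g : Y → W} {A : Set X} {B : Set Y} (hg : Emb g B) (hf : Emb f A)
    (h : f '' A ⊆ B) : Emb (g ∘ f) A :=
  ⟨hg.1.comp hf.1 (mapsTo_iff_image_subset.2 h), hg.2.comp hf.2 (mapsTo_iff_image_subset.2 h)⟩

lemma Emb.congr {f g : X → Y} {A : Set X} (h : Emb f A) (e : EqOn g f A) : Emb g A :=
  ⟨h.1.congr e, h.2.congr e.symm⟩

lemma emb_id (A : Set X) : Emb id A := ⟨continuousOn_id, injOn_id _⟩

lemma Emb.compact {f : X → Y} {A B : Set X} (h : Emb f A) (hB : B ⊆ A) (k : IsCompact B) :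
    IsCompact (f '' B) := k.image_of_continuousOn (h.1.mono hB)

lemma Emb.inter {f : X → Y} {A B C : Set X} (h : Emb f A) (hB : B ⊆ A) (hC : C ⊆ A) :
    f '' (B ∩ C) = f '' B ∩ f '' C := h.2.image_inter hB hC

lemma Emb.diff {f : X → Y} {A B C : Set X} (h : Emb f A) (hB : B ⊆ A) (hC : C ⊆ A) :
    f '' (B \ C) = f '' B \ f '' C := by
  ext y
  constructor
  · rintro ⟨x, hx, rfl⟩
    exact ⟨⟨x, hx.1, rfl⟩, fun ⟨z, hz, e⟩ => hx.2 (h.2 (hC hz) (hB hx.1) e ▸ hz)⟩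
  · rintro ⟨⟨x, hx, rfl⟩, hn⟩
    exact ⟨x, ⟨hx, fun hc => hn ⟨x, hc, rfl⟩⟩, rfl⟩

lemma Emb.mem_iff {f : X → Y} {A B : Set X} (h : Emb f A) (hB : B ⊆ A) {x : X} (hx : x ∈ A) :
    f x ∈ f '' B ↔ x ∈ B := h.2.mem_image_iff hB hx

lemma Emb.disjoint {f : X → Y} {A B C : Set X} (h : Emb f A) (hB : B ⊆ A) (hC : C ⊆ A)
    (d : Disjoint B C) : Disjoint (f '' B) (f '' C) := by
  rw [disjoint_iff_inter_eq_empty, ← h.inter hB hC, disjoint_iff_inter_eq_empty.1 d, image_empty]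

/-- the inverse of an embedding of a compact set -/
lemma Emb.inv [T2Space Y] [Nonempty X] {f : X → Y} {A : Set X} (h : Emb f A) (k : IsCompact A) :
    ∃ g : Y → X, Emb g (f '' A) ∧ (∀ x ∈ A, g (f x) = x) ∧ (∀ y ∈ f '' A, f (g y) = y) ∧
      ∀ B ⊆ A, g '' (f '' B) = B := by
  have l : ∀ x ∈ A, Function.invFunOn f A (f x) = x := fun x hx => h.2.leftInvOn_invFunOn hx
  refine ⟨Function.invFunOn f A, ⟨?_, ?_⟩, l, ?_, fun B hB => ?_⟩
  · refine continuousOn_iff_isClosed.2 fun t ht => ⟨f '' (A ∩ t),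
      ((k.inter_right ht).image_of_continuousOn (h.1.mono inter_subset_left)).isClosed, ?_⟩
    ext w
    constructor
    · rintro ⟨h1, z, hz, rfl⟩
      rw [mem_preimage, l z hz] at h1
      exact ⟨⟨z, ⟨hz, h1⟩, rfl⟩, z, hz, rfl⟩
    · rintro ⟨⟨z, hz, rfl⟩, h2⟩
      exact ⟨by rw [mem_preimage, l z hz.1]; exact hz.2, h2⟩
  · rintro _ ⟨x, hx, rfl⟩ _ ⟨y, hy, rfl⟩ e
    rw [l x hx, l y hy] at e
    rw [e]
  · rintro _ ⟨x, hx, rfl⟩
    rw [l x hx]
  · rw [image_image]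
    exact (image_congr fun x hx => l x (hB hx)).trans (image_id' B)

/-- pasting of two embeddings on closed sets -/
lemma Emb.paste {f g : X → Y} {A B : Set X} (hf : Emb f A) (hg : Emb g B) (cA : IsClosed A)
    (cB : IsClosed B) (e : EqOn f g (A ∩ B)) (i : f '' A ∩ g '' B ⊆ f '' (A ∩ B)) :
    ∃ F : X → Y, Emb F (A ∪ B) ∧ EqOn F f A ∧ EqOn F g B := by
  classical
  have e1 : EqOn (A.piecewise f g) f A := fun x hx => piecewise_eq_of_mem _ _ _ hx
  have e2 : EqOn (A.piecewise f g) g B := fun x hx => by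
    by_cases h : x ∈ A
    · rw [e1 h, e ⟨h, hx⟩]
    · exact piecewise_eq_of_notMem _ _ _ h
  have key : ∀ x ∈ A, ∀ y ∈ B, f x = g y → x = y := fun x hx y hy h => by
    obtain ⟨z, hz, hz'⟩ := i ⟨⟨x, hx, rfl⟩, y, hy, h.symm⟩
    rw [← hf.2 hz.1 hx hz', hg.2 hz.2 hy (by rw [← e hz, hz', h])]
  refine ⟨A.piecewise f g, ⟨(hf.1.congr e1).union_of_isClosed (hg.1.congr e2) cA cB, ?_⟩, e1, e2⟩
  rintro x (hx | hx) y (hy | hy) h
  · exact hf.2 hx hy (by rwa [e1 hx, e1 hy] at h)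
  · exact key x hx y hy (by rwa [e1 hx, e2 hy] at h)
  · exact (key y hy x hx (by rw [e2 hx, e1 hy] at h; exact h.symm)).symm
  · exact hg.2 hx hy (by rwa [e2 hx, e2 hy] at h)

end

variable {Z Z' : Type*} [MetricSpace Z] [MetricSpace Z']

/-- `a` is an arc from `p` to `q` -/
def Arc (a : Set Z) (p q : Z) : Prop :=
  ∃ γ : ℝ → Z, Emb γ (Icc 0 1) ∧ γ '' Icc 0 1 = a ∧ γ 0 = p ∧ γ 1 = q

/-- `D` is a disc with rim `c` -/
def Disc (D c : Set Z) : Prop :=
  ∃ φ : ℂ → Z, Emb φ (closedBall 0 1) ∧ φ '' closedBall 0 1 = D ∧ φ '' sphere 0 1 = c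

/-- `S` is the union of the discs `D`, `E` along their common rim `c` -/
structure Hemi (S D E c : Set Z) : Prop where
  d1 : Disc D c
  d2 : Disc E c
  inter : D ∩ E = c
  union : D ∪ E = S

/-- `S` is a 2-sphere -/
def Sph (S : Set Z) : Prop := ∃ D E c, Hemi S D E c

/-- `c` is the union of two arcs from `p` to `q` that meet only in the ends -/
structure Two (c u v : Set Z) (p q : Z) : Prop where
  a1 : Arc u p q
  a2 : Arc v p q
  inter : u ∩ v = {p, q}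
  union : u ∪ v = c

/-- `c` is a cycle of four arcs -/
structure Quad (c g l g' r : Set Z) : Prop where
  ex : ∃ a b d e, Arc g a b ∧ Arc l b d ∧ Arc g' d e ∧ Arc r e a ∧ g ∩ l = {b} ∧ l ∩ g' = {d} ∧
    g' ∩ r = {e} ∧ r ∩ g = {a}
  d1 : Disjoint g g'
  d2 : Disjoint l r
  union : g ∪ l ∪ g' ∪ r = c

/-- `a` is a crosscut of `O` (rim `c`) from `p` to `q` -/
structure Cc (O c a : Set Z) (p q : Z) : Prop where
  arc : Arc a p q
  sub : a ⊆ O
  inter : a ∩ c = {p, q}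

/-- the crosscut `g` cuts the disc `O` (rim `c = u ∪ v`) into the discs `D`, `E` -/
structure Cut (O c u v g D E : Set Z) (p q : Z) : Prop where
  disc : Disc O c
  two : Two c u v p q
  cc : Cc O c g p q
  d1 : Disc D (u ∪ g)
  d2 : Disc E (v ∪ g)
  inter : D ∩ E = g
  union : D ∪ E = O

/-- finitely many disjoint crosscuts -/
structure Sys {ι : Type*} (O c : Set Z) (s : Set ι) (a : ι → Set Z) (p q : ι → Z) : Prop where
  fin : s.Finite
  cc : ∀ i ∈ s, Cc O c (a i) (p i) (q i)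
  disj : s.PairwiseDisjoint a

/-- finitely many disjoint discs in `S` -/
structure Holes {ι : Type*} (S : Set Z) (t : Set ι) (W w : ι → Set Z) : Prop where
  fin : t.Finite
  disc : ∀ j ∈ t, Disc (W j) (w j)
  sub : ∀ j ∈ t, W j ⊆ S
  disj : t.PairwiseDisjoint W

/-- `F` is a homeomorphism of `O` and the identity off `O \ c` -/
structure Sup (F : Z → Z) (O c : Set Z) : Prop where
  emb : Emb F O
  img : F '' O = O
  fix : ∀ x, x ∉ O \ c → F x = x

/-- products of homeomorphisms supported in discs of `S` whose interiors miss `A` -/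
inductive Iso (S A : Set Z) : (Z → Z) → Prop
  | refl : Iso S A id
  | step {F G : Z → Z} {N n : Set Z} : Iso S A F → Disc N n → N ⊆ S → Disjoint (N \ n) A →
      Sup G N n → Iso S A (G ∘ F)

/-- a stick `η` from the point `e` to the disc `W` -/
structure Lol (η W w : Set Z) (e x : Z) : Prop where
  arc : Arc η e x
  disc : Disc W w
  inter : η ∩ W = {x}
  mem : x ∈ w

/-- normal position of the set `X` with respect to the curve `c` and the obstacle `A`: pieces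
`s₁` in `O₁`, `s₂` in `O₂`, no bigon free of `A` -/
structure Normal (O₁ O₂ c A X : Set Z) (s₁ s₂ : Set (Set Z)) (x y : Set Z → Z) : Prop where
  fin : (X ∩ (c \ A)).Finite
  f1 : s₁.Finite
  f2 : s₂.Finite
  p1 : ∀ b ∈ s₁, Arc b (x b) (y b) ∧ b ⊆ O₁ ∧ b ∩ (c ∪ A) = {x b, y b}
  p2 : ∀ b ∈ s₂, Arc b (x b) (y b) ∧ b ⊆ O₂ ∧ b ∩ (c ∪ A) = {x b, y b}
  d1 : s₁.PairwiseDisjoint id
  d2 : s₂.PairwiseDisjoint id
  d12 : ∀ b ∈ s₁, ∀ b' ∈ s₂, b ∩ b' ⊆ c \ A
  cov : ⋃₀ s₁ ∪ ⋃₀ s₂ = X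
  cov1 : (X ∩ O₁) \ A ⊆ ⋃₀ s₁
  cov2 : (X ∩ O₂) \ A ⊆ ⋃₀ s₂
  b1 : ∀ b ∈ s₁, ∀ u v D E, Cut O₁ c u v b D E (x b) (y b) → x b ∉ A → y b ∉ A → (D ∩ A).Nonempty
  b2 : ∀ b ∈ s₂, ∀ u v D E, Cut O₂ c u v b D E (x b) (y b) → x b ∉ A → y b ∉ A → (D ∩ A).Nonempty

/-! ### trivial API -/

lemma Arc.left {a : Set Z} {p q : Z} (h : Arc a p q) : p ∈ a := by
  obtain ⟨γ, -, rfl, rfl, -⟩ := h; exact ⟨0, left_mem_Icc.2 zero_le_one, rfl⟩

lemma Arc.right {a : Set Z} {p q : Z} (h : Arc a p q) : q ∈ a := by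
  obtain ⟨γ, -, rfl, -, rfl⟩ := h; exact ⟨1, right_mem_Icc.2 zero_le_one, rfl⟩

lemma Arc.ends {a : Set Z} {p q : Z} (h : Arc a p q) : ({p, q} : Set Z) ⊆ a :=
  insert_subset h.left (singleton_subset_iff.2 h.right)

lemma Arc.ne {a : Set Z} {p q : Z} (h : Arc a p q) : p ≠ q := by
  obtain ⟨γ, e, -, rfl, rfl⟩ := h
  exact fun h => zero_ne_one (e.2 (left_mem_Icc.2 zero_le_one) (right_mem_Icc.2 zero_le_one) h)

lemma Arc.compact {a : Set Z} {p q : Z} (h : Arc a p q) : IsCompact a := by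
  obtain ⟨γ, e, rfl, -⟩ := h; exact e.compact subset_rfl isCompact_Icc

lemma Arc.closed {a : Set Z} {p q : Z} (h : Arc a p q) : IsClosed a := h.compact.isClosed

lemma Arc.conn {a : Set Z} {p q : Z} (h : Arc a p q) : IsPreconnected a := by
  obtain ⟨γ, e, rfl, -⟩ := h; exact isPreconnected_Icc.image _ e.1

lemma Arc.symm {a : Set Z} {p q : Z} (h : Arc a p q) : Arc a q p := by
  obtain ⟨γ, e, rfl, rfl, rfl⟩ := h
  have i : (fun t : ℝ => 1 - t) '' Icc 0 1 = Icc 0 1 := by simp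
  refine ⟨γ ∘ fun t => 1 - t, e.comp ⟨by fun_prop, fun s _ t _ h => by simpa using h⟩ i.le, ?_,
    by simp, by simp⟩
  rw [image_comp, i]

lemma Arc.image {a B : Set Z} {p q : Z} (h : Arc a p q) {f : Z → Z'} (hf : Emb f B)
    (hB : a ⊆ B) : Arc (f '' a) (f p) (f q) := by
  obtain ⟨γ, e, rfl, rfl, rfl⟩ := h
  exact ⟨f ∘ γ, hf.comp e hB, image_comp _ _ _, rfl, rfl⟩

lemma Disc.rim_sub {D c : Set Z} (h : Disc D c) : c ⊆ D := by
  obtain ⟨φ, -, rfl, rfl⟩ := h; exact image_mono sphere_subset_closedBall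

lemma Disc.compact {D c : Set Z} (h : Disc D c) : IsCompact D := by
  obtain ⟨φ, e, rfl, -⟩ := h; exact e.compact subset_rfl (isCompact_closedBall _ _)

lemma Disc.closed {D c : Set Z} (h : Disc D c) : IsClosed D := h.compact.isClosed

lemma Disc.rim_compact {D c : Set Z} (h : Disc D c) : IsCompact c := by
  obtain ⟨φ, e, -, rfl⟩ := h; exact e.compact sphere_subset_closedBall (isCompact_sphere _ _)

lemma Disc.rim_closed {D c : Set Z} (h : Disc D c) : IsClosed c := h.rim_compact.isClosed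

lemma Disc.conn {D c : Set Z} (h : Disc D c) : IsPreconnected D := by
  obtain ⟨φ, e, rfl, -⟩ := h; exact (convex_closedBall _ _).isPreconnected.image _ e.1

lemma Disc.image {D c B : Set Z} (h : Disc D c) {f : Z → Z'} (hf : Emb f B) (hB : D ⊆ B) :
    Disc (f '' D) (f '' c) := by
  obtain ⟨φ, e, rfl, rfl⟩ := h
  exact ⟨f ∘ φ, hf.comp e hB, image_comp _ _ _, image_comp _ _ _⟩

lemma disc_unit : Disc (closedBall (0 : ℂ) 1) (sphere 0 1) :=
  ⟨id, emb_id _, image_id _, image_id _⟩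

/-- a chart of a disc with its inverse -/
lemma Disc.chart {D c : Set Z} (h : Disc D c) : ∃ (φ : ℂ → Z) (ψ : Z → ℂ),
    Emb φ (closedBall 0 1) ∧ Emb ψ D ∧ φ '' closedBall 0 1 = D ∧ φ '' sphere 0 1 = c ∧
    ψ '' D = closedBall 0 1 ∧ ψ '' c = sphere 0 1 ∧ (∀ z ∈ closedBall (0 : ℂ) 1, ψ (φ z) = z) ∧
    (∀ x ∈ D, φ (ψ x) = x) ∧ ∀ B ⊆ D, φ '' (ψ '' B) = B := by
  obtain ⟨φ, e, rfl, rfl⟩ := h
  obtain ⟨ψ, e', l, r, i⟩ := e.inv (isCompact_closedBall _ _)
  refine ⟨φ, ψ, e, e', rfl, rfl, i _ subset_rfl, i _ sphere_subset_closedBall, l, r, fun B hB => ?_⟩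
  rw [image_image]
  exact (image_congr fun x hx => r x (hB hx)).trans (image_id' B)

lemma Two.symm {c u v : Set Z} {p q : Z} (h : Two c u v p q) : Two c v u p q :=
  ⟨h.a2, h.a1, by rw [inter_comm, h.inter], by rw [union_comm, h.union]⟩

lemma Two.rev {c u v : Set Z} {p q : Z} (h : Two c u v p q) : Two c u v q p :=
  ⟨h.a1.symm, h.a2.symm, by rw [h.inter, pair_comm], h.union⟩

lemma Two.sub1 {c u v : Set Z} {p q : Z} (h : Two c u v p q) : u ⊆ c := h.union ▸ subset_union_left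

lemma Two.sub2 {c u v : Set Z} {p q : Z} (h : Two c u v p q) : v ⊆ c := h.union ▸ subset_union_right

lemma Two.image {c u v B : Set Z} {p q : Z} (h : Two c u v p q) {f : Z → Z'} (hf : Emb f B)
    (hB : c ⊆ B) : Two (f '' c) (f '' u) (f '' v) (f p) (f q) :=
  ⟨h.a1.image hf (h.sub1.trans hB), h.a2.image hf (h.sub2.trans hB), by
    rw [← hf.inter (h.sub1.trans hB) (h.sub2.trans hB), h.inter, image_pair], by
    rw [← image_union, h.union]⟩

lemma Cc.symm {O c a : Set Z} {p q : Z} (h : Cc O c a p q) : Cc O c a q p :=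
  ⟨h.arc.symm, h.sub, by rw [h.inter, pair_comm]⟩

lemma Cc.left {O c a : Set Z} {p q : Z} (h : Cc O c a p q) : p ∈ c :=
  (h.inter.ge (mem_insert _ _)).2

lemma Cc.right {O c a : Set Z} {p q : Z} (h : Cc O c a p q) : q ∈ c := h.symm.left

lemma Cc.image {O c a B : Set Z} {p q : Z} (h : Cc O c a p q) (hc : c ⊆ O) {f : Z → Z'}
    (hf : Emb f B) (hB : O ⊆ B) : Cc (f '' O) (f '' c) (f '' a) (f p) (f q) :=
  ⟨h.arc.image hf (h.sub.trans hB), image_mono h.sub, by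
    rw [← hf.inter (h.sub.trans hB) (hc.trans hB), h.inter, image_pair]⟩

lemma Cut.symm {O c u v g D E : Set Z} {p q : Z} (h : Cut O c u v g D E p q) :
    Cut O c v u g E D p q :=
  ⟨h.disc, h.two.symm, h.cc, h.d2, h.d1, by rw [inter_comm, h.inter], by rw [union_comm, h.union]⟩

lemma Cut.rev {O c u v g D E : Set Z} {p q : Z} (h : Cut O c u v g D E p q) :
    Cut O c u v g D E q p := ⟨h.disc, h.two.rev, h.cc.symm, h.d1, h.d2, h.inter, h.union⟩

lemma Cut.sub1 {O c u v g D E : Set Z} {p q : Z} (h : Cut O c u v g D E p q) : D ⊆ O :=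
  h.union ▸ subset_union_left

lemma Cut.sub2 {O c u v g D E : Set Z} {p q : Z} (h : Cut O c u v g D E p q) : E ⊆ O :=
  h.union ▸ subset_union_right

lemma Cut.image {O c u v g D E B : Set Z} {p q : Z} (h : Cut O c u v g D E p q) {f : Z → Z'}
    (hf : Emb f B) (hB : O ⊆ B) :
    Cut (f '' O) (f '' c) (f '' u) (f '' v) (f '' g) (f '' D) (f '' E) (f p) (f q) :=
  ⟨h.disc.image hf hB, h.two.image hf (h.disc.rim_sub.trans hB), h.cc.image h.disc.rim_sub hf hB,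
    image_union f u g ▸ h.d1.image hf (h.sub1.trans hB),
    image_union f v g ▸ h.d2.image hf (h.sub2.trans hB),
    by rw [← hf.inter (h.sub1.trans hB) (h.sub2.trans hB), h.inter],
    by rw [← image_union, h.union]⟩

/-- a connected set that misses the common part lies on one side -/
lemma side_of {P D E : Set Z} (hP : IsPreconnected P) (cD : IsClosed D) (cE : IsClosed E)
    (hs : P ⊆ D ∪ E) (hd : Disjoint P (D ∩ E)) : P ⊆ D ∨ P ⊆ E :=
  (isPreconnected_iff_subset_of_disjoint_closed.1 hP) D E cD cE hs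
    (disjoint_iff_inter_eq_empty.1 hd)

lemma Cut.side {O c u v g D E P : Set Z} {p q : Z} (h : Cut O c u v g D E p q)
    (hP : IsPreconnected P) (hs : P ⊆ O) (hd : Disjoint P g) : P ⊆ D ∨ P ⊆ E :=
  side_of hP h.d1.closed h.d2.closed (h.union.symm ▸ hs) (h.inter.symm ▸ hd)

lemma Hemi.symm {S D E c : Set Z} (h : Hemi S D E c) : Hemi S E D c :=
  ⟨h.d2, h.d1, by rw [inter_comm, h.inter], by rw [union_comm, h.union]⟩

lemma Hemi.sph {S D E c : Set Z} (h : Hemi S D E c) : Sph S := ⟨D, E, c, h⟩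

lemma Hemi.sub1 {S D E c : Set Z} (h : Hemi S D E c) : D ⊆ S := h.union ▸ subset_union_left

lemma Hemi.sub2 {S D E c : Set Z} (h : Hemi S D E c) : E ⊆ S := h.union ▸ subset_union_right

lemma Hemi.side {S D E c P : Set Z} (h : Hemi S D E c) (hP : IsPreconnected P) (hs : P ⊆ S)
    (hd : Disjoint P c) : P ⊆ D ∨ P ⊆ E :=
  side_of hP h.d1.closed h.d2.closed (h.union.symm ▸ hs) (h.inter.symm ▸ hd)

lemma Hemi.image {S D E c B : Set Z} (h : Hemi S D E c) {f : Z → Z'} (hf : Emb f B)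
    (hB : S ⊆ B) : Hemi (f '' S) (f '' D) (f '' E) (f '' c) :=
  ⟨h.d1.image hf (h.sub1.trans hB), h.d2.image hf (h.sub2.trans hB),
    by rw [← hf.inter (h.sub1.trans hB) (h.sub2.trans hB), h.inter],
    by rw [← image_union, h.union]⟩

lemma Sph.compact {S : Set Z} (h : Sph S) : IsCompact S := by
  obtain ⟨D, E, c, h⟩ := h; exact h.union ▸ h.d1.compact.union h.d2.compact

lemma Sph.image {S B : Set Z} (h : Sph S) {f : Z → Z'} (hf : Emb f B) (hB : S ⊆ B) :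
    Sph (f '' S) := by
  obtain ⟨D, E, c, h⟩ := h; exact (h.image hf hB).sph

end Pool.Agent.Lib.MP_b7d179_gt
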