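import Pool.Agent.Lib.MP_b7d179_gt.T.GP

/-! Normal position: no free bigon. -/

namespace Pool.Agent.Lib.MP_b7d179_gt

open Set Metric Topology Filter

variable {Z Z' : Type*} [MetricSpace Z] [MetricSpace Z'] {ι κ : Type*}

variable {S O₁ O₂ c c₁ c₂ A : Set Z}

/-- absorbing a bite lowers the number of crossings -/
lemma nf_red {X I I' g R R' : Set Z} {x y e : Z} (hS : Hemi S O₁ O₂ c) (hA : IsClosed A)
    (h : Cut O₂ c I I' g R R' x y) (hd : Disjoint A R) (hg : Disjoint X g)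
    (hf : (X ∩ (c \ A)).Finite) (he : e ∈ X ∩ (c \ A)) (he' : e ∉ I') :
    ∃ F, Iso S A F ∧ (F '' X ∩ (c \ A)).Finite ∧
      (F '' X ∩ (c \ A)).ncard < (X ∩ (c \ A)).ncard := by
  obtain ⟨F, hF, -, -, hc⟩ := absorb hS h hA hd
  have hs : F '' X ∩ (c \ A) ⊆ F '' ((X ∩ (c \ A)) \ {e}) := by
    rintro _ ⟨⟨z, hz, rfl⟩, h1, h2⟩
    rw [← hc] at h1
    obtain ⟨w, hw, e1⟩ := h1
    obtain rfl := hF.injective e1
    have hI : w ∈ I' := hw.resolve_right fun h' => hg.le_bot ⟨hz, h'⟩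
    refine ⟨w, ⟨⟨hz, h.two.sub2 hI, fun hA' => h2 ?_⟩, fun h' => he' ((h' : w = e) ▸ hI)⟩, rfl⟩
    rwa [hF.fix (Or.inl hA')]
  have f2 : ((X ∩ (c \ A)) \ {e}).Finite := hf.subset sdiff_subset
  refine ⟨F, hF, (f2.image F).subset hs, ?_⟩
  exact ((ncard_le_ncard hs (f2.image F)).trans (ncard_image_le f2)).trans_lt
    (ncard_sdiff_singleton_lt_of_mem he hf)

/-- the pieces of `X` -/
structure NfP (O₁ O₂ c A X : Set Z) (T : Set (Set Z)) (x y : Set Z → Z) : Prop where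
  fe : (X ∩ (c \ A)).Finite
  fin : T.Finite
  cov : ⋃₀ T = X
  arc : ∀ b ∈ T, Arc b (x b) (y b)
  inter : ∀ b ∈ T, b ∩ (c ∪ A) = {x b, y b}
  side : ∀ b ∈ T, b ⊆ O₁ ∨ b ⊆ O₂
  two : ∀ b ∈ T, ∀ b' ∈ T, b ≠ b' → b ∩ b' ⊆ c \ A
  deg : ∀ e ∈ X ∩ (c \ A), ∃ b ∈ T, ∃ b' ∈ T, b ≠ b' ∧ e ∈ b ∧ e ∈ b' ∧
    ∀ b'' ∈ T, e ∈ b'' → b'' = b ∨ b'' = b'

variable {X : Set Z} {T : Set (Set Z)} {x y : Set Z → Z}

lemma NfP.symm (h : NfP O₁ O₂ c A X T x y) : NfP O₂ O₁ c A X T x y :=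
  ⟨h.fe, h.fin, h.cov, h.arc, h.inter, fun b hb => (h.side b hb).symm, h.two, h.deg⟩

lemma NfP.closed (h : NfP O₁ O₂ c A X T x y) (P : Set Z → Prop) :
    IsClosed (⋃₀ {b ∈ T | P b}) := by
  rw [sUnion_eq_biUnion]
  exact (h.fin.subset fun _ hb => hb.1).isClosed_biUnion fun b hb => (h.arc b hb.1).closed

lemma NfP.sub (h : NfP O₁ O₂ c A X T x y) {b : Set Z} (hb : b ∈ T) : b ⊆ X :=
  h.cov ▸ subset_sUnion_of_mem hb

lemma NfP.ex (h : NfP O₁ O₂ c A X T x y) {z : Z} (hz : z ∈ X) : ∃ b ∈ T, z ∈ b := by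
  rwa [← h.cov] at hz

lemma nf_touch (hS : Hemi S O₁ O₂ c) (hA : IsClosed A) (h : NfP O₁ O₂ c A X T x y)
    {b b' : Set Z} (hb : b ∈ T) (hb' : b' ∈ T) (hne : b ≠ b') (h1 : b ⊆ O₁) (h2 : b' ⊆ O₁)
    {e : Z} (e1 : e ∈ b) (e2 : e ∈ b') : ∃ F, Iso S A F ∧ (F '' X ∩ (c \ A)).Finite ∧
      (F '' X ∩ (c \ A)).ncard < (X ∩ (c \ A)).ncard := by
  have he : e ∈ X ∩ (c \ A) := ⟨h.sub hb e1, h.two b hb b' hb' hne ⟨e1, e2⟩⟩
  obtain ⟨d, -, d', -, -, -, -, hd⟩ := h.deg e he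
  have all : ∀ b'' ∈ T, e ∈ b'' → b'' ⊆ O₁ := fun b'' h'' e'' => by
    rcases hd b hb e1 with r | r <;> rcases hd b' hb' e2 with r' | r' <;>
      rcases hd b'' h'' e'' with r'' | r''
    all_goals first
      | exact absurd (r.trans r'.symm) hne
      | exact (r''.trans r.symm) ▸ h1
      | exact (r''.trans r'.symm) ▸ h2
  set Y := A ∪ ⋃₀ {b ∈ T | e ∉ b} ∪ ((X ∩ (c \ A)) \ {e}) with hY
  have cY : IsClosed Y := (hA.union (h.closed _)).union (h.fe.subset sdiff_subset).isClosed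
  have eY : e ∉ Y := by
    rintro ((h' | ⟨b, hb, h'⟩) | h')
    · exact he.2.2 h'
    · exact hb.2 h'
    · exact h'.2 rfl
  obtain ⟨I, u, v, hI, hs, eI⟩ := hS.d2.rim_small he.2.1 (cY.isOpen_compl.mem_nhds eY)
  obtain ⟨I', hT⟩ := hS.d2.two_of_arc hI fun z hz => (hs hz).1
  obtain ⟨g, R, R', hc, hR⟩ := bite0 hS.d2 hT cY (disjoint_left.2 fun z hz hz' => (hs hz').2 hz)
  have gR : g ⊆ R := fun z hz => hc.d1.rim_sub (Or.inr hz)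
  refine nf_red hS hA hc (disjoint_left.2 fun z hz hz' => hR.le_bot ⟨hz', Or.inl (Or.inl hz)⟩)
    (disjoint_left.2 fun z hz hg => ?_) h.fe he fun h' => eI.2 (hT.inter.le ⟨eI.1, h'⟩)
  have zY : z ∉ Y := fun h' => hR.le_bot ⟨gR hg, h'⟩
  obtain ⟨d, hd, zd⟩ := h.ex hz
  by_cases ed : e ∈ d
  · have zc : z ∈ c := hS.inter.le ⟨all d hd ed zd, hc.cc.sub hg⟩
    have ze : z = e := by
      by_contra hn
      exact zY (Or.inr ⟨⟨hz, zc, fun h' => zY (Or.inl (Or.inl h'))⟩, hn⟩)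
    exact eI.2 (ze ▸ hc.cc.inter.le ⟨hg, zc⟩)
  · exact zY (Or.inl (Or.inr ⟨d, ⟨hd, ed⟩, zd⟩))

lemma nf_bigon (hS : Hemi S O₁ O₂ c) (hA : IsClosed A) (h : NfP O₁ O₂ c A X T x y)
    (hn : {b ∈ T | b ⊆ O₂}.PairwiseDisjoint id) {b u v D E : Set Z} (hb : b ∈ T)
    (hc : Cut O₂ c u v b D E (x b) (y b)) (hx : x b ∉ A) (hD : Disjoint D A) :
    ∃ F, Iso S A F ∧ (F '' X ∩ (c \ A)).Finite ∧
      (F '' X ∩ (c \ A)).ncard < (X ∩ (c \ A)).ncard := by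
  have uD : u ⊆ D := fun z hz => hc.d1.rim_sub (Or.inl hz)
  have bD : b ⊆ D := fun z hz => hc.d1.rim_sub (Or.inr hz)
  set Y := A ∪ ⋃₀ {b ∈ T | Disjoint b D} ∪ ((X ∩ (c \ A)) \ u) with hY
  have cY : IsClosed Y := (hA.union (h.closed _)).union (h.fe.subset sdiff_subset).isClosed
  have YD : Disjoint Y D := by
    refine disjoint_left.2 ?_
    rintro z ((h' | ⟨d, hd, h'⟩) | h') hz
    · exact hD.le_bot ⟨hz, h'⟩
    · exact hd.2.le_bot ⟨h', hz⟩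
    · exact h'.2 (hc.inter_rim.le ⟨hz, h'.1.2.1⟩)
  obtain ⟨I, j, j', hI, hs, uI, YI⟩ := hS.d2.rim_larger hc.two.a1 hc.two.sub1 cY (YD.mono_right uD)
  obtain ⟨I', hT⟩ := hS.d2.two_of_arc hI hs
  have uI' : Disjoint u I' :=
    disjoint_left.2 fun z hz hz' => (uI hz).2 (hT.inter.le ⟨(uI hz).1, hz'⟩)
  have e3 : O₂ \ (D ∪ I) = E \ (b ∪ (I ∩ v)) := by
    ext z
    constructor
    · rintro ⟨h1, h2⟩
      refine ⟨(hc.union.ge h1).resolve_left fun h' => h2 (Or.inl h'), ?_⟩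
      rintro (h' | h')
      · exact h2 (Or.inl (bD h'))
      · exact h2 (Or.inr h'.1)
    · rintro ⟨h1, h2⟩
      refine ⟨hc.sub2 h1, ?_⟩
      rintro (h' | h')
      · exact h2 (Or.inl (hc.inter.le ⟨h', h1⟩))
      · exact h2 (Or.inr ⟨h', hc.symm.inter_rim.le ⟨h1, hs h'⟩⟩)
  obtain ⟨g, R, R', hc', DR, Dg, RY⟩ := bite hS.d2 hT hc.d1.closed hc.sub1
    (disjoint_left.2 fun z hz hz' => uI'.le_bot ⟨hc.inter_rim.le ⟨hz, hT.sub2 hz'⟩, hz'⟩)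
    (hc.d1.conn.union _ (uD hc.two.a1.left) (uI hc.two.a1.left).1 hI.conn)
    (e3 ▸ hc.d2.conn_diff (union_subset subset_union_right fun z hz => Or.inl hz.2)) cY
    (disjoint_union_right.2 ⟨YD, YI⟩)
  have gR : g ⊆ R := fun z hz => hc'.d1.rim_sub (Or.inr hz)
  refine nf_red hS hA hc' (disjoint_left.2 fun z hz hz' => RY.le_bot ⟨hz', Or.inl (Or.inl hz)⟩)
    (disjoint_left.2 fun z hz hg => ?_) h.fe ⟨h.sub hb (h.arc b hb).left, hc.cc.left, hx⟩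
    fun h' => uI'.le_bot ⟨hc.two.a1.left, h'⟩
  have zY : z ∉ Y := fun h' => RY.le_bot ⟨gR hg, h'⟩
  have zD : z ∉ D := fun h' => Dg.le_bot ⟨h', hg⟩
  obtain ⟨d, hd, zd⟩ := h.ex hz
  rcases h.side d hd with h1 | h1
  · exact zY (Or.inr ⟨⟨hz, hS.inter.le ⟨h1 zd, hc'.cc.sub hg⟩, fun h' => zY (Or.inl (Or.inl h'))⟩,
      fun h' => zD (uD h')⟩)
  · have db : d ≠ b := fun h' => zD (bD (h' ▸ zd))
    refine zY (Or.inl (Or.inr ⟨d, ⟨hd, ?_⟩, zd⟩))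
    by_contra hn'
    exact zD ((hc.side1 (h.arc d hd).conn h1 (hn ⟨hd, h1⟩ ⟨hb, hc.cc.sub⟩ db)
      (not_disjoint_iff_nonempty_inter.1 hn')).1 zd)

lemma nf_pieces {s : Set ι} {a : ι → Set Z} {p q : ι → Z} (hS : Hemi S O₁ O₂ c)
    (h : Arcs S A s a p q) (hf : ((⋃ i ∈ s, a i) ∩ (c \ A)).Finite) :
    ∃ T x y, NfP O₁ O₂ c A (⋃ i ∈ s, a i) T x y ∧
      ∀ b ∈ T, ∃ i ∈ s, b ⊆ a i ∧ (x b ∈ A → y b ∈ A → b = a i) := by
  classical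
  rcases s.eq_empty_or_nonempty with rfl | ⟨i₀, -⟩
  · rcases isEmpty_or_nonempty Z with hZ | ⟨⟨z⟩⟩
    · exact hZ.elim (hS.d1.exists_rim finite_empty).choose
    · exact ⟨∅, fun _ => z, fun _ => z, ⟨hf, finite_empty, by simp, by simp, by simp, by simp,
        by simp, by simp⟩, by simp⟩
  have : Nonempty Z := ⟨p i₀⟩
  set X := ⋃ i ∈ s, a i with hX
  have key := fun i (hi : i ∈ s) => (h.arc i hi).pieces hf
  choose! t x y t1 t2 t3 t4 t5 using key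
  have sub : ∀ i ∈ s, ∀ b ∈ t i, b ⊆ a i := fun i hi b hb => t2 i hi ▸ subset_sUnion_of_mem hb
  have aX : ∀ i ∈ s, a i ⊆ X := fun i hi => subset_biUnion_of_mem (u := a) hi
  have pq : ∀ i ∈ s, ({p i, q i} : Set Z) ⊆ A := fun i hi z hz => ((h.inter i hi).ge hz).2
  have k2 : ∀ b ∈ ⋃ i ∈ s, t i, ∃ x y, Arc b x y ∧ b ∩ (c ∪ A) = {x, y} := by
    intro b hb
    obtain ⟨i, hi, hb⟩ := mem_iUnion₂.1 hb
    refine ⟨x i b, y i b, (t3 i hi b hb).1, ?_⟩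
    rw [← (t3 i hi b hb).2]
    ext z
    refine and_congr_right fun hz => ⟨fun h' => ?_, fun h' => ?_⟩
    · by_cases zA : z ∈ A
      · exact Or.inr ((h.inter i hi).le ⟨sub i hi b hb hz, zA⟩)
      · exact Or.inl ⟨aX i hi (sub i hi b hb hz), h'.resolve_right zA, zA⟩
    · exact h'.elim (fun h' => Or.inl h'.2.1) fun h' => Or.inr (pq i hi h')
  choose! x' y' k3 k4 using k2
  have same : ∀ i ∈ s, ∀ j ∈ s, ∀ z ∈ a i, z ∈ a j → i = j := fun i hi j hj z h1 h2 => by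
    by_contra hn
    exact (h.disj hi hj hn).le_bot ⟨h1, h2⟩
  refine ⟨⋃ i ∈ s, t i, x', y', ⟨hf, h.fin.biUnion t1, ?_, k3, k4, fun b hb => ?_, ?_, ?_⟩, ?_⟩
  · refine Subset.antisymm ?_ fun z hz => ?_
    · rintro z ⟨b, hb, hz⟩
      obtain ⟨i, hi, hb⟩ := mem_iUnion₂.1 hb
      exact aX i hi (sub i hi b hb hz)
    · obtain ⟨i, hi, hz⟩ := mem_iUnion₂.1 hz
      rw [← t2 i hi] at hz
      obtain ⟨b, hb, hz⟩ := hz
      exact ⟨b, mem_iUnion₂.2 ⟨i, hi, hb⟩, hz⟩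
  · have d := (k3 b hb).dense (toFinite ({x' b, y' b} : Set Z))
    obtain ⟨i, hi, hb'⟩ := mem_iUnion₂.1 hb
    refine (hS.side (k3 b hb).conn_open (sdiff_subset.trans ((sub i hi b hb').trans (h.sub i hi)))
      (disjoint_left.2 fun z hz hc => hz.2 ((k4 b hb).le ⟨hz.1, Or.inl hc⟩))).imp
      (fun h' => d.trans (hS.d1.closed.closure_subset_iff.2 h'))
      fun h' => d.trans (hS.d2.closed.closure_subset_iff.2 h')
  · intro b hb b' hb' hne z hz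
    obtain ⟨i, hi, hb⟩ := mem_iUnion₂.1 hb
    obtain ⟨j, hj, hb'⟩ := mem_iUnion₂.1 hb'
    obtain rfl := same i hi j hj z (sub i hi b hb hz.1) (sub j hj b' hb' hz.2)
    exact (t4 i hi b hb b' hb' hne hz).1.2
  · intro e he
    obtain ⟨i, hi, hz⟩ := mem_iUnion₂.1 he.1
    obtain ⟨b, hb, b', hb', hne, e1, e2, all⟩ :=
      t5 i hi e ⟨⟨hz, he⟩, fun h' => he.2.2 (pq i hi h')⟩
    refine ⟨b, mem_iUnion₂.2 ⟨i, hi, hb⟩, b', mem_iUnion₂.2 ⟨i, hi, hb'⟩, hne, e1, e2,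
      fun d hd ed => ?_⟩
    obtain ⟨j, hj, hd⟩ := mem_iUnion₂.1 hd
    obtain rfl := same i hi j hj e hz (sub j hj d hd ed)
    exact all d hd ed
  · intro b hb
    obtain ⟨i, hi, hb'⟩ := mem_iUnion₂.1 hb
    refine ⟨i, hi, sub i hi b hb', fun h1 h2 => ?_⟩
    have m1 := (h.inter i hi).le ⟨sub i hi b hb' (k3 b hb).left, h1⟩
    have m2 := (h.inter i hi).le ⟨sub i hi b hb' (k3 b hb).right, h2⟩
    have ar := k3 b hb
    have ne := ar.ne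
    rcases m1 with m1 | m1 <;> rcases m2 with m2 | m2
    · exact absurd (m1.trans m2.symm) ne
    · rw [m1, (m2 : y' b = q i)] at ar
      exact (h.arc i hi).eq_of_sub ar (sub i hi b hb')
    · rw [(m1 : x' b = q i), m2] at ar
      exact (h.arc i hi).eq_of_sub ar.symm (sub i hi b hb')
    · exact absurd ((m1 : x' b = q i).trans (m2 : y' b = q i).symm) ne

lemma NfP.cov1 (hS : Hemi S O₁ O₂ c) (h : NfP O₁ O₂ c A X T x y)
    (hn : {b ∈ T | b ⊆ O₂}.PairwiseDisjoint id) : (X ∩ O₁) \ A ⊆ ⋃₀ {b ∈ T | b ⊆ O₁} := by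
  rintro z ⟨⟨h1, h2⟩, h3⟩
  obtain ⟨b, hb, hz⟩ := h.ex h1
  rcases h.side b hb with h' | h'
  · exact ⟨b, ⟨hb, h'⟩, hz⟩
  obtain ⟨d, hd, d', hd', hne, e1, e2, -⟩ := h.deg z ⟨h1, hS.inter.le ⟨h2, h' hz⟩, h3⟩
  rcases h.side d hd with r | r
  · exact ⟨d, ⟨hd, r⟩, e1⟩
  rcases h.side d' hd' with r' | r'
  · exact ⟨d', ⟨hd', r'⟩, e2⟩
  exact ((hn ⟨hd, r⟩ ⟨hd', r'⟩ hne).le_bot ⟨e1, e2⟩).elim

theorem nf_of_fin {s : Set ι} {a : ι → Set Z} {p q : ι → Z} (hS : Hemi S O₁ O₂ c)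
    (hA : IsClosed A) (h : Arcs S A s a p q) (hf : ((⋃ i ∈ s, a i) ∩ (c \ A)).Finite) :
    ∃ F, Iso S A F ∧ ∃ s₁ s₂ x y, Normal O₁ O₂ c A (⋃ i ∈ s, F '' a i) s₁ s₂ x y ∧
      ∀ b ∈ s₁ ∪ s₂, ∃ i ∈ s, b ⊆ F '' a i ∧ (x b ∈ A → y b ∈ A → b = F '' a i) := by
  induction hn : ((⋃ i ∈ s, a i) ∩ (c \ A)).ncard using Nat.strong_induction_on generalizing a with
  | _ n ih =>
  by_cases red : ∃ F, Iso S A F ∧ (F '' (⋃ i ∈ s, a i) ∩ (c \ A)).Finite ∧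
      (F '' (⋃ i ∈ s, a i) ∩ (c \ A)).ncard < ((⋃ i ∈ s, a i) ∩ (c \ A)).ncard
  · obtain ⟨F, hF, f1, f2⟩ := red
    rw [image_iUnion₂] at f1 f2
    obtain ⟨G, hG, r⟩ := ih _ (hn ▸ f2) (h.iso hS.sph hF) f1 rfl
    refine ⟨G ∘ F, hG.comp hF, ?_⟩
    simpa only [image_comp] using r
  obtain ⟨T, x, y, hT, hw⟩ := nf_pieces hS h hf
  have d1 : {b ∈ T | b ⊆ O₁}.PairwiseDisjoint id := fun b hb b' hb' hne =>
    disjoint_left.2 fun e e1 e2 => red (nf_touch hS hA hT hb.1 hb'.1 hne hb.2 hb'.2 e1 e2)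
  have d2 : {b ∈ T | b ⊆ O₂}.PairwiseDisjoint id := fun b hb b' hb' hne =>
    disjoint_left.2 fun e e1 e2 => red (nf_touch hS.symm hA hT.symm hb.1 hb'.1 hne hb.2 hb'.2 e1 e2)
  refine ⟨id, Iso.refl, {b ∈ T | b ⊆ O₁}, {b ∈ T | b ⊆ O₂}, x, y, ?_, ?_⟩
  · simp only [image_id]
    refine ⟨hf, hT.fin.subset fun _ hb => hb.1, hT.fin.subset fun _ hb => hb.1,
      fun b hb => ⟨hT.arc b hb.1, hb.2, hT.inter b hb.1⟩,
      fun b hb => ⟨hT.arc b hb.1, hb.2, hT.inter b hb.1⟩, d1, d2, fun b hb b' hb' => ?_, ?_,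
      hT.cov1 hS d2, hT.symm.cov1 hS.symm d1, fun b hb u v D E hc hx _ => ?_,
      fun b hb u v D E hc hx _ => ?_⟩
    · refine hT.two b hb.1 b' hb'.1 fun e => ?_
      obtain ⟨z, hz, hz'⟩ := (hT.arc b hb.1).exists_notMem (toFinite ({x b, y b} : Set Z))
      exact hz' ((hT.inter b hb.1).le ⟨hz, Or.inl (hS.inter.le ⟨hb.2 hz, hb'.2 (e ▸ hz)⟩)⟩)
    · rw [← sUnion_union, ← hT.cov]
      congr 1
      ext b
      exact ⟨fun h' => h'.elim And.left And.left,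
        fun h' => (hT.side b h').imp (fun r => ⟨h', r⟩) fun r => ⟨h', r⟩⟩
    · by_contra hD
      exact red (nf_bigon hS.symm hA hT.symm d1 hb.1 hc hx
        (disjoint_iff_inter_eq_empty.2 (not_nonempty_iff_eq_empty.1 hD)))
    · by_contra hD
      exact red (nf_bigon hS hA hT d2 hb.1 hc hx
        (disjoint_iff_inter_eq_empty.2 (not_nonempty_iff_eq_empty.1 hD)))
  · simp only [image_id]
    exact fun b hb => hw b (hb.elim And.left And.left)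

theorem nf {t : Set κ} {W w : κ → Set Z} {s : Set ι} {a : ι → Set Z} {p q : ι → Z}
    (hS : Hemi S O₁ O₂ c) (hW : Holes S t W w) (h : Arcs S (⋃ j ∈ t, W j) s a p q)
    (he : ∀ i ∈ s, p i ∉ closure (c \ ⋃ j ∈ t, W j) ∧ q i ∉ closure (c \ ⋃ j ∈ t, W j)) :
    ∃ F, Iso S (⋃ j ∈ t, W j) F ∧ ∃ s₁ s₂ x y,
      Normal O₁ O₂ c (⋃ j ∈ t, W j) (⋃ i ∈ s, F '' a i) s₁ s₂ x y ∧
      ∀ b ∈ s₁ ∪ s₂, ∃ i ∈ s, b ⊆ F '' a i ∧
        (x b ∈ ⋃ j ∈ t, W j → y b ∈ ⋃ j ∈ t, W j → b = F '' a i) := by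
  obtain ⟨F, hF, f⟩ := gp hS hW h he
  obtain ⟨G, hG, r⟩ := nf_of_fin hS (hW.fin.isClosed_biUnion fun j hj => (hW.disc j hj).closed)
    (h.iso hS.sph hF) f
  refine ⟨G ∘ F, hG.comp hF, ?_⟩
  simpa only [image_comp] using r

end Pool.Agent.Lib.MP_b7d179_gt
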