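import Pool.Agent.Lib.MP_b7d179_gt.T.CircB

/-! The plane: Schoenflies for discs, sets that do not separate. -/

namespace Pool.Agent.Lib.MP_b7d179_gt

open Set Metric Topology Filter

variable {Z Z' : Type*} [MetricSpace Z] [MetricSpace Z'] {ι κ : Type*}

variable {D c a u v U A B : Set ℂ} {p q x y : ℂ}

open Pool.Agent.Lib.MP_d32f96_gt in
lemma plane_log {φ : ℂ → ℂ} (hφ : ContinuousOn φ (closedBall 0 1)) (hA : IsCompact A)
    (hs : A ⊆ closedBall 0 1) (hi : InjOn φ A) (hx : x ∉ φ '' closedBall 0 1) :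
    HasLog (fun z => z - x) (φ '' A) := by
  have e : (closedBall (0 : ℂ) 1)ᶜ = {z | 1 < ‖z‖} := by ext z; simp
  obtain ⟨L, hL, he⟩ := tHD (closedBall 0 1) (fun z => φ z - x) (isCompact_closedBall _ _)
    (e ▸ preconn_out' 1) (hφ.sub continuousOn_const) fun z hz h => hx ⟨z, hz, sub_eq_zero.1 h⟩
  obtain ⟨g, hg, l, r, i⟩ := Emb.inv ⟨hφ.mono hs, hi⟩ hA
  have m : ∀ w ∈ φ '' A, g w ∈ closedBall (0 : ℂ) 1 := by
    rintro _ ⟨z, hz, rfl⟩
    rw [l z hz]; exact hs hz
  exact ⟨L ∘ g, hL.comp hg.1 m, fun w hw => (he _ (m w hw)).trans (congrArg (· - x) (r w hw))⟩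

open Pool.Agent.Lib.MP_d32f96_gt in
lemma plane_conn {φ : ℂ → ℂ} (hφ : ContinuousOn φ (closedBall 0 1)) (hA : IsCompact A)
    (hs : A ⊆ closedBall 0 1) (hi : InjOn φ A) (he : φ '' closedBall 0 1 ⊆ φ '' A) :
    IsPreconnected (φ '' A)ᶜ := by
  have k : IsCompact (φ '' A) := hA.image_of_continuousOn (hφ.mono hs)
  have o : ∀ x ∈ (φ '' A)ᶜ, Out (φ '' A) x := fun x hx =>
    (sLogOut_of _ x k).1 (plane_log hφ hA hs hi fun h => hx (he h))
  refine isPreconnected_of_forall_pair fun x hx y hy => ⟨connectedComponentIn (φ '' A)ᶜ x,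
    connectedComponentIn_subset _ _, mem_connectedComponentIn hx, ?_,
    isPreconnected_connectedComponentIn⟩
  rw [T1.out_eq k.isBounded (o x hx) (o y hy)]
  exact mem_connectedComponentIn hy

lemma plane_in {P : Set ℂ} (hP : IsPreconnected P) (hd : ∀ z ∈ P, z ∉ sphere (0 : ℂ) 1)
    (hx : x ∈ P) (hb : x ∈ ball (0 : ℂ) 1) : P ⊆ ball 0 1 :=
  hP.subset_left_of_subset_union isOpen_ball isClosed_closedBall.isOpen_compl
    (disjoint_compl_right.mono_left ball_subset_closedBall)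
    (fun z hz => (em (z ∈ closedBall (0 : ℂ) 1)).imp
      (fun h => lt_of_le_of_ne h (hd z hz)) id) ⟨x, hx, hb⟩

open Pool.Agent.Lib.MP_d32f96_gt in
lemma plane_onto {ψ : ℂ → ℂ} (h : Emb ψ (closedBall 0 1)) (hf : ∀ z ∈ sphere (0 : ℂ) 1, ψ z = z) :
    ψ '' ball 0 1 = ball 0 1 := by
  have e : ψ '' sphere 0 1 = sphere 0 1 := (image_congr hf).trans (image_id' _)
  have h1 : ball 0 1 ⊆ ψ '' ball 0 1 := by
    intro x hx
    have hs : x ∉ sphere (0 : ℂ) 1 := ne_of_lt hx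
    by_cases hm : x ∈ ψ '' closedBall 0 1
    · obtain ⟨z, hz, rfl⟩ := hm
      exact ⟨z, lt_of_le_of_ne hz fun k => hs (by rwa [hf z k]), rfl⟩
    have o := plane_log h.1 (isCompact_sphere 0 1) sphere_subset_closedBall
      (h.2.mono sphere_subset_closedBall) hm
    rw [e] at o
    exact absurd (isBounded_ball.subset (plane_in isPreconnected_connectedComponentIn
      (connectedComponentIn_subset _ _) (mem_connectedComponentIn hs) hx))
      ((sLogOut_of _ x (isCompact_sphere 0 1)).1 o)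
  refine (plane_in ((convex_ball _ _).isPreconnected.image _ (h.1.mono ball_subset_closedBall))
    ?_ (h1 (mem_ball_self one_pos)) (mem_ball_self one_pos)).antisymm h1
  rintro _ ⟨z, hz, rfl⟩ k
  exact ne_of_lt hz ((h.mem_iff sphere_subset_closedBall (ball_subset_closedBall hz)).1
    (e.symm ▸ k))

theorem disc_ext {φ : ℂ → ℂ} (h : Emb φ (closedBall 0 1)) :
    ∃ k : ℂ ≃ₜ ℂ, EqOn k φ (closedBall 0 1) := by
  obtain ⟨k, hk⟩ := MP_d32f96_gt.tSP φ (h.1.mono sphere_subset_closedBall)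
    (h.2.mono sphere_subset_closedBall)
  have h1 : Emb (k.symm ∘ φ) (closedBall 0 1) :=
    Emb.comp ⟨k.symm.continuous.continuousOn, k.symm.injective.injOn⟩ h (subset_univ _)
  have hf : ∀ z ∈ sphere (0 : ℂ) 1, (k.symm ∘ φ) z = z := fun z hz => by
    rw [Function.comp_apply, ← hk z (mem_sphere_zero_iff_norm.1 hz), k.symm_apply_apply]
  have e : (k.symm ∘ φ) '' closedBall 0 1 = closedBall 0 1 := by
    rw [← ball_union_sphere, image_union, plane_onto h1 hf, (image_congr hf).trans (image_id' _)]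
  have i : closedBall (0 : ℂ) 1 ∩ (ball 0 1)ᶜ = sphere 0 1 := closedBall_sdiff_ball
  obtain ⟨F, hF, f1, f2⟩ := h1.paste (emb_id (ball (0 : ℂ) 1)ᶜ) isClosed_closedBall
    isOpen_ball.isClosed_compl (i ▸ hf) (by
      rw [e, image_id, i, (image_congr hf).trans (image_id' _)])
  have un : closedBall (0 : ℂ) 1 ∪ (ball 0 1)ᶜ = univ :=
    eq_univ_of_forall fun z => (em (z ∈ ball (0 : ℂ) 1)).imp (fun h => ball_subset_closedBall h) id
  rw [un] at hF
  have im : ∀ C : Set ℂ, F '' C = (k.symm ∘ φ) '' (closedBall 0 1 ∩ C) ∪ (ball 0 1)ᶜ ∩ C := by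
    intro C
    conv_lhs => rw [← univ_inter C, ← un, union_inter_distrib_right, image_union]
    rw [image_congr (f1.mono inter_subset_left), image_congr (f2.mono inter_subset_left)]
    simp only [id, image_id']
  have su : Function.Surjective F := by
    rw [← range_eq_univ, ← image_univ, im, inter_univ, inter_univ, e, un]
  refine ⟨((Equiv.ofBijective F ⟨injOn_univ.1 hF.2, su⟩).toHomeomorphOfContinuousClosed
    (continuousOn_univ.1 hF.1) fun C hC => ?_).trans k, fun z hz => ?_⟩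
  · change IsClosed (F '' C)
    rw [im]
    exact (h1.compact inter_subset_left ((isCompact_closedBall _ _).inter_right hC)).isClosed.union
      (isOpen_ball.isClosed_compl.inter hC)
  · change k (F z) = φ z
    rw [f1 hz, Function.comp_apply, k.apply_symm_apply]

theorem Disc.plane (h : Disc D c) :
    ∃ k : ℂ ≃ₜ ℂ, k '' closedBall 0 1 = D ∧ k '' sphere 0 1 = c ∧ k '' ball 0 1 = D \ c := by
  obtain ⟨φ, e, rfl, rfl⟩ := h
  obtain ⟨k, hk⟩ := disc_ext e
  refine ⟨k, image_congr hk, image_congr (hk.mono sphere_subset_closedBall), ?_⟩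
  rw [← e.diff subset_rfl sphere_subset_closedBall, closedBall_sdiff_sphere]
  exact image_congr (hk.mono ball_subset_closedBall)

theorem Disc.interior_eq (h : Disc D c) : interior D = D \ c := by
  obtain ⟨k, h1, -, h3⟩ := h.plane
  rw [← h3, ← h1, ← k.image_interior, interior_closedBall _ one_ne_zero]

theorem Disc.plane_eq {D' : Set ℂ} (h : Disc D c) (h' : Disc D' c) : D = D' := by
  obtain ⟨k, h1, h2, -⟩ := h.plane
  obtain ⟨k', h1', h2', -⟩ := h'.plane
  rw [← h1, ← h1']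
  exact MP_d32f96_gt.image_closedBall_of_sphere (h2.trans h2'.symm)

theorem Disc.nosep (h : Disc D c) : IsPreconnected Dᶜ := by
  obtain ⟨φ, e, rfl, -⟩ := h
  exact plane_conn e.1 (isCompact_closedBall _ _) subset_rfl e.2 subset_rfl

theorem Arc.nosep (h : Arc a p q) : IsPreconnected aᶜ := by
  obtain ⟨γ, e, rfl, -⟩ := h
  have m : ∀ z ∈ closedBall (0 : ℂ) 1, ‖z‖ ∈ Icc (0 : ℝ) 1 := fun z hz =>
    ⟨norm_nonneg z, mem_closedBall_zero_iff.1 hz⟩
  have n : ∀ t ∈ Icc (0 : ℝ) 1, ‖(t : ℂ)‖ = t := fun t ht => Complex.norm_of_nonneg ht.1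
  have i : (fun z : ℂ => γ ‖z‖) '' ((fun t : ℝ => (t : ℂ)) '' Icc 0 1) = γ '' Icc 0 1 := by
    rw [image_image]
    exact image_congr fun t ht => by rw [n t ht]
  rw [← i]
  refine plane_conn (e.1.comp continuous_norm.continuousOn m)
    (isCompact_Icc.image Complex.continuous_ofReal) ?_ ?_ ?_
  · rintro _ ⟨t, ht, rfl⟩
    rw [mem_closedBall_zero_iff, n t ht]; exact ht.2
  · rintro _ ⟨s, hs, rfl⟩ _ ⟨t, ht, rfl⟩ k
    simp only [n s hs, n t ht] at k
    rw [e.2 hs ht k]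
  · rw [i]
    rintro _ ⟨z, hz, rfl⟩
    exact ⟨_, m z hz, rfl⟩

theorem Two.plane_disc (h : Two c u v p q) : ∃ D, Disc D c := by
  obtain ⟨γ, e, rfl⟩ := h.param
  obtain ⟨k, hk⟩ := MP_d32f96_gt.tSP γ e.1 e.2
  exact ⟨_, k, ⟨k.continuous.continuousOn, k.injective.injOn⟩, rfl,
    image_congr fun z hz => hk z (mem_sphere_zero_iff_norm.1 hz)⟩

open Pool.Agent.Lib.MP_d32f96_gt in
theorem Two.plane_disc_sub (h : Two c u v p q) (hc : c ⊆ closedBall 0 1) :
    ∃ D ⊆ closedBall (0 : ℂ) 1, Disc D c := by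
  obtain ⟨D, hD⟩ := h.plane_disc
  refine ⟨D, fun w hw => by_contra fun hn => ?_, hD⟩
  obtain ⟨k, -, h2, h3⟩ := hD.plane
  have := subset_image_ball k (preconn_out' 1)
    (fun z hz hz' => not_le.2 hz (mem_closedBall_zero_iff.1 (hc (h2 ▸ hz'))))
    ⟨w, not_le.1 fun h => hn (mem_closedBall_zero_iff.2 h), h3 ▸ ⟨hw, fun h => hn (hc h)⟩⟩
  exact not_bdd_out 1 ((isBounded_image k isBounded_ball).subset this)

end Pool.Agent.Lib.MP_b7d179_gt
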