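import Pool.Agent.Lib.MP_b7d179_gt.T.Plane

/-! The plane: arcs in open sets, Janiszewski, crosscuts. -/

namespace Pool.Agent.Lib.MP_b7d179_gt

open Set Metric Topology Filter

variable {Z Z' : Type*} [MetricSpace Z] [MetricSpace Z'] {ι κ : Type*}

variable {D c a u v U A B : Set ℂ} {p q x y : ℂ}

lemma planeB_of {α : ℝ → ℂ} (h : MP_d32f96_gt.Arc α) : Arc (α '' Icc 0 1) (α 0) (α 1) :=
  ⟨α, ⟨h.1.continuousOn, h.2⟩, rfl, rfl, rfl⟩

/-- a globally continuous parametrisation with values in the arc -/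
lemma planeB_par (h : Arc a p q) : ∃ α : ℝ → ℂ, MP_d32f96_gt.Arc α ∧ α '' Icc 0 1 = a ∧
    α 0 = p ∧ α 1 = q ∧ ∀ t, α t ∈ a := by
  obtain ⟨γ, e, rfl, rfl, rfl⟩ := h
  have k : ∀ t ∈ Icc (0 : ℝ) 1, γ (projIcc (0 : ℝ) 1 zero_le_one t) = γ t := fun t ht => by
    rw [projIcc_of_mem _ ht]
  refine ⟨fun t => γ (projIcc (0 : ℝ) 1 zero_le_one t), ⟨?_, e.2.congr fun t ht => (k t ht).symm⟩,
    image_congr k, k 0 (left_mem_Icc.2 zero_le_one), k 1 (right_mem_Icc.2 zero_le_one),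
    fun t => mem_image_of_mem γ (Subtype.prop _)⟩
  exact e.1.comp_continuous (continuous_subtype_val.comp continuous_projIcc) fun t => Subtype.prop _

open Pool.Agent.Lib.MP_d32f96_gt.T4 in
lemma planeB_seg (h : x ≠ y) : (seg x y '' Icc 0 1 ∩ sphere 0 1).Finite := by
  have hA : 0 < Complex.normSq (y - x) := Complex.normSq_pos.2 (sub_ne_zero.2 h.symm)
  have e : ∀ t : ℝ, seg x y t ∈ sphere (0 : ℂ) 1 → Complex.normSq (y - x) * t ^ 2 +
      2 * (x.re * (y - x).re + x.im * (y - x).im) * t + Complex.normSq x = 1 := by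
    intro t ht
    have h1 : Complex.normSq (seg x y t) = 1 := by
      rw [← Complex.sq_norm, mem_sphere_zero_iff_norm.1 ht, one_pow]
    simp only [seg, Complex.normSq_apply, Complex.add_re, Complex.add_im, Complex.re_ofReal_mul,
      Complex.im_ofReal_mul] at h1 ⊢
    linear_combination h1
  rcases (seg x y '' Icc 0 1 ∩ sphere 0 1).eq_empty_or_nonempty with h0 | ⟨_, ⟨s, -, rfl⟩, hs⟩
  · rw [h0]
    exact finite_empty
  set A := Complex.normSq (y - x)
  set B := 2 * (x.re * (y - x).re + x.im * (y - x).im)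
  refine ((toFinite {s, -B / A - s}).image (seg x y)).subset ?_
  rintro _ ⟨⟨t, -, rfl⟩, ht⟩
  refine mem_image_of_mem _ ?_
  have k : (t - s) * (A * (t + s) + B) = 0 := by linear_combination e t ht - e s hs
  rcases mul_eq_zero.1 k with k | k
  · exact Or.inl (sub_eq_zero.1 k)
  · refine Or.inr ?_
    rw [mem_singleton_iff, eq_sub_iff_add_eq, eq_div_iff hA.ne']
    linear_combination k

open Pool.Agent.Lib.MP_d32f96_gt.T4 in
/-- an arc that meets the unit circle in finitely many points -/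
theorem plane_arc_fin (hU : IsOpen U) (hc : IsPreconnected U) (hx : x ∈ U) (hy : y ∈ U)
    (hne : x ≠ y) : ∃ a ⊆ U, Arc a x y ∧ (a ∩ sphere 0 1).Finite := by
  have key := hc.induction₂' (fun x y => x = y ∨ ∃ α, MP_d32f96_gt.Arc α ∧ α 0 = x ∧ α 1 = y ∧
    α '' Icc 0 1 ⊆ U ∧ (α '' Icc 0 1 ∩ sphere 0 1).Finite) ?_ ?_ hx hy
  · obtain ⟨α, hα, rfl, rfl, s, f⟩ := key.resolve_left hne
    exact ⟨_, s, planeB_of hα, f⟩
  · intro x hx
    obtain ⟨r, hr, hs⟩ := Metric.isOpen_iff.1 hU x hx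
    filter_upwards [mem_nhdsWithin_of_mem_nhds (ball_mem_nhds x hr)] with y hy
    by_cases e : x = y
    · exact ⟨Or.inl e, Or.inl e.symm⟩
    · exact ⟨Or.inr ⟨_, arc_seg e, seg_zero _ _, seg_one _ _, image_subset_iff.2 fun t ht =>
          hs (seg_mem (convex_ball x r) (mem_ball_self hr) hy ht), planeB_seg e⟩,
        Or.inr ⟨_, arc_seg (Ne.symm e), seg_zero _ _, seg_one _ _, image_subset_iff.2 fun t ht =>
          hs (seg_mem (convex_ball x r) hy (mem_ball_self hr) ht), planeB_seg (Ne.symm e)⟩⟩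
  · rintro x y z - - - (rfl | ⟨α, hα, a0, a1, am, af⟩) h2
    · exact h2
    rcases h2 with rfl | ⟨β, hβ, b0, b1, bm, bf⟩
    · exact Or.inr ⟨α, hα, a0, a1, am, af⟩
    by_cases e : x = z
    · exact Or.inl e
    obtain ⟨γ, hγ, g0, g1, gm⟩ := splice hα hβ
      ⟨1, ⟨zero_le_one, le_rfl⟩, 0, ⟨le_rfl, zero_le_one⟩, by rw [a1, b0]⟩ (by rwa [a0, b1])
    have s : γ '' Icc 0 1 ⊆ α '' Icc 0 1 ∪ β '' Icc 0 1 := image_subset_iff.2 gm
    refine Or.inr ⟨γ, hγ, g0.trans a0, g1.trans b1, s.trans (union_subset am bm),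
      (af.union bf).subset ?_⟩
    rw [← union_inter_distrib_right]
    exact inter_subset_inter_left _ s

theorem plane_arc (hU : IsOpen U) (hc : IsPreconnected U) (hx : x ∈ U) (hy : y ∈ U) (hne : x ≠ y) :
    ∃ a ⊆ U, Arc a x y := by
  obtain ⟨a, s, h, -⟩ := plane_arc_fin hU hc hx hy hne
  exact ⟨a, s, h⟩

/-- Janiszewski inside the unit disc -/
theorem plane_ns (hA : IsCompact A) (hB : IsCompact B) (hc : IsPreconnected (ball 0 1 \ A))
    (hn : IsPreconnected Bᶜ) (hi : IsPreconnected ((sphere 0 1 ∪ A) ∩ B)) :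
    IsPreconnected (ball 0 1 \ (A ∪ B)) := by
  refine isPreconnected_of_forall_pair fun x hx y hy => ?_
  have s : ball (0 : ℂ) 1 \ A ⊆ (sphere 0 1 ∪ A)ᶜ := fun z hz h => h.elim (ne_of_lt hz.1) hz.2
  have h1 : y ∈ connectedComponentIn (sphere 0 1 ∪ A)ᶜ x :=
    hc.subset_connectedComponentIn ⟨hx.1, fun h => hx.2 (Or.inl h)⟩ s
      ⟨hy.1, fun h => hy.2 (Or.inl h)⟩
  have h2 : y ∈ connectedComponentIn Bᶜ x :=
    hn.subset_connectedComponentIn (fun h => hx.2 (Or.inr h)) subset_rfl fun h => hy.2 (Or.inr h)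
  have h3 := MP_d32f96_gt.sJan_of _ _ x y ((isCompact_sphere 0 1).union hA) hB hi h1 h2
  have h4 : x ∈ connectedComponentIn (sphere 0 1 ∪ A ∪ B)ᶜ x :=
    mem_connectedComponentIn (connectedComponentIn_nonempty_iff.1 ⟨y, h3⟩)
  have h5 := connectedComponentIn_subset (sphere 0 1 ∪ A ∪ B)ᶜ x
  refine ⟨_, fun z hz => ⟨plane_in isPreconnected_connectedComponentIn
    (fun w hw k => h5 hw (Or.inl (Or.inl k))) h4 hx.1 hz, fun k => h5 hz ?_⟩, h4, h3,
    isPreconnected_connectedComponentIn⟩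
  exact k.elim (fun k => Or.inl (Or.inr k)) Or.inr

lemma planeB_end {α : ℝ → ℂ} (h : MP_d32f96_gt.Arc α) {t : ℝ} (ht : t ∈ Icc (0 : ℝ) 1)
    (e : α t ∈ ({α 0, α 1} : Set ℂ)) : t = 0 ∨ t = 1 :=
  e.imp (h.2 ht (left_mem_Icc.2 zero_le_one)) (h.2 ht (right_mem_Icc.2 zero_le_one))

theorem plane_cut {g : Set ℂ} (h : Two (sphere 0 1) u v p q)
    (hg : Cc (closedBall 0 1) (sphere 0 1) g p q) :
    ∃ D E, Cut (closedBall 0 1) (sphere 0 1) u v g D E p q := by
  obtain ⟨P, hP, iP, P0, P1, mP⟩ := planeB_par h.a1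
  obtain ⟨Q, hQ, iQ, Q0, Q1, mQ⟩ := planeB_par h.a2
  obtain ⟨α, hα, iα, a0, a1, mα⟩ := planeB_par hg.arc
  obtain ⟨k, l, t1, t2, t3, t4, t5⟩ := MP_d32f96_gt.F1.theta MP_d32f96_gt.tSP
    MP_d32f96_gt.sLogOut_of (α := α) (A := P) (B := Q)
    ⟨hP, hQ, P0.trans Q0.symm, P1.trans Q1.symm, fun t =>
      ⟨mem_sphere_zero_iff_norm.1 (h.sub1 (mP t)), mem_sphere_zero_iff_norm.1 (h.sub2 (mQ t))⟩,
      fun z hz => by
        rcases h.union.ge (mem_sphere_zero_iff_norm.2 hz) with m | m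
        · obtain ⟨t, ht, e⟩ := iP.ge m
          exact ⟨t, ht, Or.inl e.symm⟩
        · obtain ⟨t, ht, e⟩ := iQ.ge m
          exact ⟨t, ht, Or.inr e.symm⟩,
      fun t ht s _ e => planeB_end hP ht (by
        rw [P0, P1, ← h.inter]
        exact ⟨mP t, e ▸ mQ s⟩)⟩
    ⟨hα, a0.trans P0.symm, a1.trans P1.symm, fun t ht =>
      lt_of_le_of_ne (mem_closedBall_zero_iff.1 (hg.sub (mα t))) fun e => by
        rcases planeB_end hα (Ioo_subset_Icc_self ht) (by
          rw [a0, a1, ← hg.inter]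
          exact ⟨mα t, mem_sphere_zero_iff_norm.2 e⟩) with r | r
        · exact ht.1.ne' r
        · exact ht.2.ne r⟩
  have sk : k '' sphere 0 1 = u ∪ g := by
    rw [MP_d32f96_gt.F1.image_sphere fun t ht => ⟨(t1 t ht).1, (t1 t ht).2.2.1⟩, iα, iP, union_comm]
  have sl : l '' sphere 0 1 = v ∪ g := by
    rw [MP_d32f96_gt.F1.image_sphere fun t ht => ⟨(t1 t ht).2.1, (t1 t ht).2.2.2⟩, iα, iQ,
      union_comm]
  have dk : Disc (k '' closedBall 0 1) (u ∪ g) :=
    ⟨k, ⟨k.continuous.continuousOn, k.injective.injOn⟩, rfl, sk⟩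
  have dl : Disc (l '' closedBall 0 1) (v ∪ g) :=
    ⟨l, ⟨l.continuous.continuousOn, l.injective.injOn⟩, rfl, sl⟩
  have sub : ∀ (m : ℂ ≃ₜ ℂ) (w : Set ℂ), m '' ball 0 1 ⊆ ball 0 1 → m '' sphere 0 1 = w ∪ g →
      w ⊆ sphere 0 1 → m '' closedBall 0 1 ⊆ closedBall 0 1 := fun m w b s hw => by
    conv_lhs => rw [← ball_union_sphere, image_union, s]
    exact union_subset (b.trans ball_subset_closedBall)
      (union_subset (hw.trans sphere_subset_closedBall) hg.sub)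
  refine ⟨_, _, disc_unit, h, hg, dk, dl, (t5.trans iα.le).antisymm (subset_inter
    (subset_union_right.trans dk.rim_sub) (subset_union_right.trans dl.rim_sub)),
    (union_subset (sub k u t2 sk h.sub1) (sub l v t3 sl h.sub2)).antisymm ?_⟩
  conv_lhs => rw [← ball_union_sphere, ← h.union]
  exact union_subset t4 (union_subset_union (subset_union_left.trans dk.rim_sub)
    (subset_union_left.trans dl.rim_sub))

end Pool.Agent.Lib.MP_b7d179_gt
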