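import Pool.Agent.Lib.MP_b7d179_gt.T.SphB

/-! Separating crosscuts, bites, strips, arcs round holes, neighbourhoods. -/

namespace Pool.Agent.Lib.MP_b7d179_gt

open Set Metric Topology Filter

variable {Z Z' : Type*} [MetricSpace Z] [MetricSpace Z'] {ι κ : Type*}

variable {S O c I I' Y A B a W w W' w' η l r σ : Set Z} {u v p q e e' x x' : Z}

/-- `p` can be reached by an arc from `U` -/
def Acc (U : Set Z) (p : Z) : Prop := ∃ a x, Arc a p x ∧ a \ {p} ⊆ U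

lemma sep_ev {K X : Set ℂ} (hK : IsCompact K) (hX : IsClosed X) (hd : Disjoint X K) :
    ∀ᶠ μ : ℝ in 𝓝 1, ∀ z ∈ K, μ • z ∉ X := by
  refine hK.eventually_forall_of_forall_eventually fun z hz => ?_
  have hc : Continuous fun q : ℝ × ℂ => q.1 • q.2 := by fun_prop
  exact hc.continuousAt.eventually_mem (hX.isOpen_compl.mem_nhds (by
    simpa only [one_smul, mem_compl_iff] using disjoint_right.1 hd hz))

lemma sep_norm {z : ℂ} (hz : z ∈ sphere (0 : ℂ) 1) {μ : ℝ} (h : 0 ≤ μ) : ‖μ • z‖ = μ := by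
  rw [norm_smul, mem_sphere_zero_iff_norm.1 hz, mul_one, Real.norm_of_nonneg h]

lemma sep_rad {z : ℂ} (hz : z ∈ sphere (0 : ℂ) 1) {m : ℝ} (m0 : 0 < m) (m1 : m < 1) :
    ∃ a, Arc a z (m • z) ∧ ∀ y ∈ a, ∃ μ, m ≤ μ ∧ μ ≤ 1 ∧ y = μ • z := by
  have b : ∀ t ∈ Icc (0 : ℝ) 1, m ≤ 1 - t * (1 - m) ∧ 1 - t * (1 - m) ≤ 1 := fun t ht =>
    ⟨by nlinarith [ht.1, ht.2], by nlinarith [ht.1, ht.2]⟩
  refine ⟨_, ⟨fun t => (1 - t * (1 - m)) • z, ⟨by fun_prop, fun s hs t ht h => ?_⟩, rfl, by simp,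
    by simp⟩, ?_⟩
  · have h' := congrArg norm h
    simp only [sep_norm hz (m0.le.trans (b s hs).1), sep_norm hz (m0.le.trans (b t ht).1)] at h'
    exact mul_right_cancel₀ (sub_pos.2 m1).ne' (by linarith)
  · rintro _ ⟨t, ht, rfl⟩
    exact ⟨_, (b t ht).1, (b t ht).2, rfl⟩

lemma sep_unit {I I' Y A : Set ℂ} {u v : ℂ} (h : Two (sphere 0 1) I I' u v) (hY : IsCompact Y)
    (hA : IsCompact A) (hd : Disjoint Y A) (h1 : Disjoint Y I') (h2 : Disjoint A I) :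
    ∃ g, Cc (closedBall 0 1) (sphere 0 1) g u v ∧ Disjoint g (Y ∪ A) := by
  obtain ⟨ε, hε, hev⟩ := Metric.eventually_nhds_iff.1
    ((sep_ev h.a2.compact hY.isClosed h1).and (sep_ev h.a1.compact hA.isClosed h2))
  obtain ⟨m, m0, m1, hm⟩ : ∃ m : ℝ, 0 < m ∧ m < 1 ∧ ∀ μ, m ≤ μ → μ ≤ 1 →
      (∀ z ∈ I', μ • z ∉ Y) ∧ ∀ z ∈ I, μ • z ∉ A := by
    refine ⟨max (1 / 2) (1 - ε / 2), lt_max_of_lt_left one_half_pos,
      max_lt one_half_lt_one (by linarith), fun μ a b => hev ?_⟩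
    rw [Real.dist_eq, abs_lt]
    constructor <;> linarith [le_max_right (1 / 2) (1 - ε / 2)]
  have su := h.sub1 h.a1.left
  have sv := h.sub1 h.a1.right
  have jo : ∀ {K X : Set ℂ}, Arc K u v → K ⊆ sphere 0 1 → (∀ z ∈ K, m • z ∉ X) →
      m • v ∈ connectedComponentIn (X ∪ sphere 0 1)ᶜ (m • u) := fun hK hs hX =>
    (hK.conn.image (fun z => m • z) (by fun_prop)).subset_connectedComponentIn ⟨_, hK.left, rfl⟩ (by
      rintro _ ⟨z, hz, rfl⟩ (f | f)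
      · exact hX z hz f
      · rw [mem_sphere_zero_iff_norm, sep_norm (hs hz) m0.le] at f
        exact m1.ne f) ⟨_, hK.right, rfl⟩
  have ps : IsPreconnected (sphere (0 : ℂ) 1) := isPreconnected_sphere (by simp) _ _
  have j := MP_d32f96_gt.sJan_of _ _ _ _ (hY.union (isCompact_sphere 0 1))
    (hA.union (isCompact_sphere 0 1))
    (by rwa [← inter_union_distrib_right, disjoint_iff_inter_eq_empty.1 hd, empty_union])
    (jo h.a2 h.sub2 (hm m le_rfl m1.le).1) (jo h.a1 h.sub1 (hm m le_rfl m1.le).2)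
  set V := connectedComponentIn (Y ∪ sphere 0 1 ∪ (A ∪ sphere 0 1))ᶜ (m • u) with hV
  have Vs : V ⊆ (Y ∪ sphere 0 1 ∪ (A ∪ sphere 0 1))ᶜ := connectedComponentIn_subset _ _
  have Vo : IsOpen V := ((hY.union (isCompact_sphere 0 1)).union
    (hA.union (isCompact_sphere 0 1))).isClosed.isOpen_compl.connectedComponentIn
  have Vc : IsPreconnected V := isPreconnected_connectedComponentIn
  have mu : m • u ∈ V := mem_connectedComponentIn (connectedComponentIn_nonempty_iff.1 ⟨_, j⟩)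
  have Vb : V ⊆ ball 0 1 := Vc.subset_left_of_subset_union isOpen_ball
    (isClosed_closedBall (x := (0 : ℂ)) (ε := 1)).isOpen_compl
    (disjoint_compl_right.mono_left ball_subset_closedBall)
    (fun z hz => by
      by_cases k : z ∈ closedBall (0 : ℂ) 1
      · exact Or.inl (lt_of_le_of_ne k fun f => Vs hz (Or.inl (Or.inr f)))
      · exact Or.inr k)
    ⟨_, mu, by rwa [mem_ball_zero_iff, sep_norm su m0.le]⟩
  have ne : ∀ μ ν : ℝ, m ≤ μ → m ≤ ν → μ • u ≠ ν • v := fun μ ν a b f => by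
    have f' := congrArg norm f
    rw [sep_norm su (m0.le.trans a), sep_norm sv (m0.le.trans b)] at f'
    rw [f'] at f
    exact h.a1.ne (smul_right_injective ℂ (m0.trans_le b).ne' f)
  obtain ⟨a, aV, ha⟩ := plane_arc Vo Vc mu j (ne m m le_rfl le_rfl)
  obtain ⟨r₁, hr₁, k₁⟩ := sep_rad su m0 m1
  obtain ⟨r₂, hr₂, k₂⟩ := sep_rad sv m0 m1
  have ns : ∀ z ∈ sphere (0 : ℂ) 1, z ∉ a := fun z hz f => Vs (aV f) (Or.inl (Or.inr hz))
  obtain ⟨b, sb, hb⟩ := hr₁.splice ha ⟨_, hr₁.right, ha.left⟩ (ns u su) fun f => by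
    obtain ⟨μ, c1, -, c3⟩ := k₁ _ f
    exact ne μ m c1 le_rfl c3.symm
  obtain ⟨g, sg, hg⟩ := hb.splice hr₂.symm ⟨_, hb.right, hr₂.right⟩
    (fun f => by
      obtain ⟨μ, c1, -, c3⟩ := k₂ _ f
      exact ne 1 μ m1.le c1 (by rwa [one_smul]))
    (fun f => (sb f).elim (fun f => by
      obtain ⟨μ, c1, -, c3⟩ := k₁ _ f
      exact ne μ 1 c1 m1.le (by rw [one_smul]; exact c3.symm)) (ns v sv))
  have rad : ∀ z ∈ I ∩ I', ∀ μ, m ≤ μ → μ ≤ 1 → μ • z ∈ closedBall (0 : ℂ) 1 ∧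
      (μ • z ∈ sphere (0 : ℂ) 1 → μ • z = z) ∧ μ • z ∉ Y ∪ A := fun z hz μ c1 c2 => by
    have n := sep_norm (h.sub1 hz.1) (m0.le.trans c1)
    refine ⟨by rwa [mem_closedBall_zero_iff, n], fun f => ?_, ?_⟩
    · rw [mem_sphere_zero_iff_norm, n] at f
      rw [f, one_smul]
    · rintro (f | f)
      · exact (hm μ c1 c2).1 z hz.2 f
      · exact (hm μ c1 c2).2 z hz.1 f
  have all : ∀ z ∈ g, z ∈ closedBall (0 : ℂ) 1 ∧ (z ∈ sphere (0 : ℂ) 1 → z ∈ ({u, v} : Set ℂ)) ∧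
      z ∉ Y ∪ A := fun z hz => by
    rcases sg hz with f | f
    · rcases sb f with f | f
      · obtain ⟨μ, c1, c2, rfl⟩ := k₁ _ f
        have t := rad u ⟨h.a1.left, h.a2.left⟩ μ c1 c2
        exact ⟨t.1, fun f => Or.inl (t.2.1 f), t.2.2⟩
      · exact ⟨ball_subset_closedBall (Vb (aV f)), fun k => (ns z k f).elim, fun k =>
          Vs (aV f) (k.imp Or.inl Or.inl)⟩
    · obtain ⟨μ, c1, c2, rfl⟩ := k₂ _ f
      have t := rad v ⟨h.a1.right, h.a2.right⟩ μ c1 c2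
      exact ⟨t.1, fun f => Or.inr (t.2.1 f), t.2.2⟩
  exact ⟨g, ⟨hg, fun z hz => (all z hz).1, subset_antisymm (fun z hz => (all z hz.1).2.1 hz.2)
    (subset_inter hg.ends (h.a1.ends.trans h.sub1))⟩, disjoint_left.2 fun z hz => (all z hz).2.2⟩

theorem sepcut (hO : Disc O c) (h : Two c I I' u v) (hY : IsClosed Y) (hA : IsClosed A)
    (hd : Disjoint Y A) (h1 : Disjoint Y I') (h2 : Disjoint A I) :
    ∃ g, Cc O c g u v ∧ Disjoint g (Y ∪ A) := by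
  obtain ⟨φ, ψ, eφ, eψ, φD, φc, -, ψc, ψφ, φψ, -⟩ := hO.chart
  have t := h.image eψ hO.rim_sub
  rw [ψc] at t
  have k : ∀ {X : Set Z}, IsClosed X → IsCompact (ψ '' (O ∩ X)) := fun hX =>
    eψ.compact inter_subset_left (hO.compact.inter_right hX)
  obtain ⟨g, hg, dg⟩ := sep_unit t (k hY) (k hA)
    (eψ.disjoint inter_subset_left inter_subset_left (hd.mono inter_subset_right inter_subset_right))
    (eψ.disjoint inter_subset_left (h.sub2.trans hO.rim_sub) (h1.mono_left inter_subset_right))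
    (eψ.disjoint inter_subset_left (h.sub1.trans hO.rim_sub) (h2.mono_left inter_subset_right))
  have t' := hg.image sphere_subset_closedBall eφ subset_rfl
  rw [φD, φc, φψ u (hO.rim_sub (h.sub1 h.a1.left)), φψ v (hO.rim_sub (h.sub1 h.a1.right))] at t'
  refine ⟨_, t', disjoint_left.2 ?_⟩
  rintro _ ⟨z, hz, rfl⟩ f
  have m : φ z ∈ O := φD.le (mem_image_of_mem _ (hg.sub hz))
  exact disjoint_left.1 dg hz
    (f.imp (fun f => ⟨_, ⟨m, f⟩, ψφ z (hg.sub hz)⟩) fun f => ⟨_, ⟨m, f⟩, ψφ z (hg.sub hz)⟩)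

lemma sep_hull {C : Set Z} (hW : IsPreconnected W)
    (loc : ∀ x ∈ W, ∃ K ∈ 𝓝[W] x, IsCompact K ∧ IsPreconnected K ∧ K ⊆ W) (hC : IsCompact C)
    (hs : C ⊆ W) : ∃ K, IsCompact K ∧ IsPreconnected K ∧ C ⊆ K ∧ K ⊆ W := by
  rcases C.eq_empty_or_nonempty with rfl | ⟨x₀, h₀⟩
  · exact ⟨∅, isCompact_empty, isPreconnected_empty, subset_rfl, empty_subset _⟩
  have join : ∀ y ∈ W, ∃ K, IsCompact K ∧ IsPreconnected K ∧ K ⊆ W ∧ x₀ ∈ K ∧ y ∈ K := fun y hy =>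
    hW.induction₂' (fun x y => ∃ K, IsCompact K ∧ IsPreconnected K ∧ K ⊆ W ∧ x ∈ K ∧ y ∈ K)
      (fun x hx => by
        obtain ⟨K, hK, k1, k2, k3⟩ := loc x hx
        have m := mem_of_mem_nhdsWithin hx hK
        filter_upwards [hK] with z hz using ⟨⟨K, k1, k2, k3, m, hz⟩, K, k1, k2, k3, hz, m⟩)
      (fun x y z _ _ _ ⟨K, k1, k2, k3, k4, k5⟩ ⟨L, l1, l2, l3, l4, l5⟩ =>
        ⟨K ∪ L, k1.union l1, k2.union y k5 l4 l2, union_subset k3 l3, Or.inl k4, Or.inr l5⟩)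
      (hs h₀) hy
  have key : ∃ K, IsCompact K ∧ IsPreconnected K ∧ K ⊆ W ∧ x₀ ∈ K ∧ C ⊆ K := by
    refine hC.induction_on
      (p := fun t => ∃ K, IsCompact K ∧ IsPreconnected K ∧ K ⊆ W ∧ x₀ ∈ K ∧ t ⊆ K) ?_ ?_ ?_ ?_
    · exact ⟨{x₀}, isCompact_singleton, isPreconnected_singleton, singleton_subset_iff.2 (hs h₀),
        rfl, empty_subset _⟩
    · rintro s t st ⟨K, k1, k2, k3, k4, k5⟩
      exact ⟨K, k1, k2, k3, k4, st.trans k5⟩
    · rintro s t ⟨K, k1, k2, k3, k4, k5⟩ ⟨L, l1, l2, l3, l4, l5⟩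
      exact ⟨K ∪ L, k1.union l1, k2.union x₀ k4 l4 l2, union_subset k3 l3, Or.inl k4,
        union_subset_union k5 l5⟩
    · intro x hx
      obtain ⟨K, hK, k1, k2, k3⟩ := loc x (hs hx)
      obtain ⟨L, l1, l2, l3, l4, l5⟩ := join x (hs hx)
      exact ⟨K, nhdsWithin_mono x hs hK, L ∪ K, l1.union k1,
        l2.union x l5 (mem_of_mem_nhdsWithin (hs hx) hK) k2, union_subset l3 k3, Or.inl l4,
        subset_union_right⟩
  obtain ⟨K, k1, k2, k3, -, k5⟩ := key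
  exact ⟨K, k1, k2, k5, k3⟩

lemma sep_loc (hO : Disc O c) (hY : IsClosed Y) (hx : x ∈ O \ Y) :
    ∃ K ∈ 𝓝[O \ Y] x, IsCompact K ∧ IsPreconnected K ∧ K ⊆ O \ Y := by
  obtain ⟨φ, ψ, eφ, eψ, φD, -, ψD, -, -, φψ, -⟩ := hO.chart
  have m : ∀ y ∈ O, ψ y ∈ closedBall (0 : ℂ) 1 := fun y hy => ψD.le (mem_image_of_mem _ hy)
  have n : φ ⁻¹' Yᶜ ∈ 𝓝[closedBall 0 1] ψ x := eφ.1 _ (m x hx.1)
    (hY.isOpen_compl.mem_nhds (by rw [φψ x hx.1]; exact hx.2))
  obtain ⟨ε, hε, hs⟩ := (nhdsWithin_hasBasis nhds_basis_closedBall _).mem_iff.1 n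
  refine ⟨φ '' (closedBall (ψ x) ε ∩ closedBall 0 1), ?_,
    eφ.compact inter_subset_right ((isCompact_closedBall _ _).inter_right isClosed_closedBall),
    ((convex_closedBall _ _).inter (convex_closedBall _ _)).isPreconnected.image _
      (eφ.1.mono inter_subset_right), ?_⟩
  · have k : ψ ⁻¹' closedBall (ψ x) ε ∈ 𝓝[O] x := eψ.1 x hx.1 (closedBall_mem_nhds _ hε)
    filter_upwards [nhdsWithin_mono x sdiff_subset k, self_mem_nhdsWithin] with y hy hy'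
    exact ⟨ψ y, ⟨hy, m y hy'.1⟩, φψ y hy'.1⟩
  · rintro _ ⟨z, hz, rfl⟩
    exact ⟨φD.le (mem_image_of_mem _ hz.2), hs hz⟩

theorem enlarge (hO : Disc O c) (hY : IsClosed Y) (hc : IsPreconnected (O \ Y)) (hA : IsClosed A)
    (hd : Disjoint A Y) :
    ∃ A', IsCompact A' ∧ IsPreconnected A' ∧ A ∩ O ⊆ A' ∧ A' ⊆ O \ Y :=
  sep_hull hc (fun _ hx => sep_loc hO hY hx) (hO.compact.inter_left hA)
    fun _ hz => ⟨hz.2, disjoint_left.1 hd hz.1⟩

theorem bite (hO : Disc O c) (h : Two c I I' u v) (hY : IsClosed Y) (hs : Y ⊆ O)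
    (h1 : Disjoint Y I') (h2 : IsPreconnected (Y ∪ I)) (h3 : IsPreconnected (O \ (Y ∪ I)))
    (hA : IsClosed A) (hd : Disjoint A (Y ∪ I)) :
    ∃ g D E, Cut O c I I' g D E u v ∧ Y ⊆ D ∧ Disjoint Y g ∧ Disjoint D A := by
  obtain ⟨z, hz, zn⟩ := h.a2.exists_notMem ((finite_singleton v).insert u)
  have zY : z ∉ Y ∪ I := by
    rintro (f | f)
    · exact disjoint_left.1 h1 f hz
    · exact zn (h.inter.le ⟨f, hz⟩)
  obtain ⟨A', k1, k2, k3, k4⟩ := enlarge hO (hY.union h.a1.closed) h3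
    (hA.union (isClosed_singleton (x := z)))
    (disjoint_union_left.2 ⟨hd, disjoint_singleton_left.2 zY⟩)
  obtain ⟨g, hg, dg⟩ := sepcut hO h hY k1.isClosed
    (disjoint_left.2 fun y hy f => (k4 f).2 (Or.inl hy)) h1
    (disjoint_left.2 fun y hy f => (k4 hy).2 (Or.inr f))
  obtain ⟨D, E, t⟩ := hO.cut h hg
  have dY : Disjoint Y g := (dg.mono_right subset_union_left).symm
  have s := t.symm.side1 k2 (k4.trans sdiff_subset) (dg.mono_right subset_union_right).symm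
    ⟨z, k3 ⟨Or.inr rfl, hO.rim_sub (h.sub2 hz)⟩, t.d2.rim_sub (Or.inl hz)⟩
  refine ⟨g, D, E, t, ?_, dY, disjoint_left.2 fun y hy f =>
    disjoint_left.1 s.2 (k3 ⟨Or.inl f, t.sub1 hy⟩) hy⟩
  rcases side_of h2 t.d1.closed (t.d2.closed.inter hY)
    (by
      rintro y (f | f)
      · exact (t.union.ge (hs f)).imp_right fun k => ⟨k, f⟩
      · exact Or.inl (t.d1.rim_sub (Or.inl f)))
    (disjoint_left.2 fun y _ f => disjoint_left.1 dY f.2.2 (t.inter.le ⟨f.1, f.2.1⟩)) with f | f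
  · exact subset_union_left.trans f
  · exact (disjoint_left.1 h1 (f (Or.inr h.a1.left)).2 h.a2.left).elim

theorem bite0 (hO : Disc O c) (h : Two c I I' u v) (hA : IsClosed A) (hd : Disjoint A I) :
    ∃ g D E, Cut O c I I' g D E u v ∧ Disjoint D A := by
  obtain ⟨g, D, E, t, -, -, d⟩ := bite hO h isClosed_empty (empty_subset _) (empty_disjoint _)
    (by rw [empty_union]; exact h.a1.conn) (by rw [empty_union]; exact hO.conn_diff h.sub1) hA
    (by rwa [empty_union])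
  exact ⟨g, D, E, t, d⟩

end Pool.Agent.Lib.MP_b7d179_gt
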