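import Pool.Agent.Lib.MP_b7d179_gt.T.Sep

/-! Sets that do not separate a disc, arcs round holes. -/

namespace Pool.Agent.Lib.MP_b7d179_gt

open Set Metric Topology Filter

variable {Z Z' : Type*} [MetricSpace Z] [MetricSpace Z'] {ι κ : Type*}

variable {S O c I I' Y A B a W w W' w' η l r σ : Set Z} {u v p q e e' x x' : Z}

lemma sepB_chart (hO : Disc O c) : ∃ (φ : ℂ → Z) (ψ : Z → ℂ), Emb φ (closedBall 0 1) ∧ Emb ψ O ∧
    ψ '' O = closedBall 0 1 ∧ ψ '' c = sphere 0 1 ∧ (∀ x ∈ O, φ (ψ x) = x) ∧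
    (∀ B ⊆ O, φ '' (ψ '' B) = B) ∧ ∀ Y, ψ '' ((O \ c) \ Y) = ball 0 1 \ ψ '' (Y ∩ O) := by
  obtain ⟨φ, ψ, eφ, eψ, -, -, i1, i2, -, l, r⟩ := hO.chart
  refine ⟨φ, ψ, eφ, eψ, i1, i2, l, r, fun Y => ?_⟩
  have e : (O \ c) \ Y = (O \ c) \ (Y ∩ O) := by
    ext x
    exact ⟨fun h => ⟨h.1, fun k => h.2 k.1⟩, fun h => ⟨h.1, fun k => h.2 ⟨k, h.1.1⟩⟩⟩
  rw [e, eψ.diff sdiff_subset inter_subset_right, eψ.diff subset_rfl hO.rim_sub, i1, i2,
    closedBall_sdiff_sphere]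

lemma sepB_ns (hO : Disc O c) (hY : IsClosed Y) (hc : IsPreconnected ((O \ c) \ Y))
    (kB : IsCompact B) (hs : B ⊆ O) (hn : ∀ ψ : Z → ℂ, Emb ψ O → IsPreconnected (ψ '' B)ᶜ)
    (hi : IsPreconnected ((c ∪ Y) ∩ B)) : IsPreconnected ((O \ c) \ (Y ∪ B)) := by
  obtain ⟨φ, ψ, eφ, eψ, i1, i2, -, r, d⟩ := sepB_chart hO
  have s1 : ∀ Y, (O \ c) \ Y ⊆ O := fun _ => sdiff_subset.trans sdiff_subset
  have e1 : (sphere 0 1 ∪ ψ '' (Y ∩ O)) ∩ ψ '' B = ψ '' ((c ∪ Y) ∩ B) := by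
    rw [← i2, ← image_union, ← eψ.inter (union_subset hO.rim_sub inter_subset_right) hs]
    congr 1
    ext x
    exact ⟨fun h => ⟨h.1.imp id And.left, h.2⟩, fun h => ⟨h.1.imp id fun k => ⟨k, hs h.2⟩, h.2⟩⟩
  have k := plane_ns (eψ.compact inter_subset_right (hO.compact.inter_left hY)) (eψ.compact hs kB)
    (d Y ▸ hc.image ψ (eψ.1.mono (s1 Y))) (hn ψ eψ)
    (e1 ▸ hi.image ψ (eψ.1.mono (inter_subset_right.trans hs)))
  rw [← image_union, show Y ∩ O ∪ B = (Y ∪ B) ∩ O by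
    rw [union_inter_distrib_right, inter_eq_left.2 hs], ← d] at k
  exact r _ (s1 _) ▸ k.image φ (eφ.1.mono (i1 ▸ image_mono (s1 _)))

lemma sepB_seg {z z' : ℂ} (h : z ≠ z') : Arc (segment ℝ z z') z z' :=
  ⟨AffineMap.lineMap z z', ⟨AffineMap.lineMap_continuous.continuousOn,
    (AffineMap.lineMap_injective ℝ h).injOn⟩, (segment_eq_image_lineMap ℝ z z').symm,
    by simp, by simp⟩

lemma sepB_arc (hO : Disc O c) (hY : IsClosed Y) (hc : IsPreconnected ((O \ c) \ Y))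
    (hp : p ∈ (O \ c) \ Y) (hq : q ∈ (O \ c) \ Y) (hne : p ≠ q) :
    ∃ a ⊆ (O \ c) \ Y, Arc a p q := by
  obtain ⟨φ, ψ, eφ, eψ, i1, -, l, r, d⟩ := sepB_chart hO
  have s1 : (O \ c) \ Y ⊆ O := sdiff_subset.trans sdiff_subset
  have o : IsOpen (ψ '' ((O \ c) \ Y)) := d Y ▸
    isOpen_ball.sdiff (eψ.compact inter_subset_right (hO.compact.inter_left hY)).isClosed
  obtain ⟨a, ha, k⟩ := plane_arc o (hc.image ψ (eψ.1.mono s1)) (mem_image_of_mem ψ hp)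
    (mem_image_of_mem ψ hq) fun e => hne (eψ.2 (s1 hp) (s1 hq) e)
  have k' := k.image eφ (ha.trans (i1 ▸ image_mono s1))
  rw [l p (s1 hp), l q (s1 hq)] at k'
  exact ⟨_, r _ s1 ▸ image_mono ha, k'⟩

theorem ns_arc (hO : Disc O c) (hY : IsClosed Y) (hc : IsPreconnected ((O \ c) \ Y))
    (ha : Arc a p q) (hs : a ⊆ O) (hi : IsPreconnected ((c ∪ Y) ∩ a)) :
    IsPreconnected ((O \ c) \ (Y ∪ a)) :=
  sepB_ns hO hY hc ha.compact hs (fun _ e => (ha.image e hs).nosep) hi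

theorem ns_disc (hO : Disc O c) (hY : IsClosed Y) (hc : IsPreconnected ((O \ c) \ Y))
    (hW : Disc W w) (hs : W ⊆ O) (hi : IsPreconnected ((c ∪ Y) ∩ W)) :
    IsPreconnected ((O \ c) \ (Y ∪ W)) :=
  sepB_ns hO hY hc hW.compact hs (fun _ e => (hW.image e hs).nosep) hi

theorem ns_close (hO : Disc O c) (hY : IsClosed Y) (hc : IsPreconnected ((O \ c) \ Y))
    (hB : B ⊆ c) : IsPreconnected (O \ (Y ∪ B)) := by
  refine hc.subset_closure (fun x hx => ⟨hx.1.1, fun k => k.elim hx.2 fun b => hx.1.2 (hB b)⟩)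
    fun x hx => ?_
  rw [sdiff_eq, inter_comm]
  exact hY.isOpen_compl.inter_closure ⟨fun k => hx.2 (Or.inl k), hO.dense hx.1⟩

theorem ns_holes {t : Set ι} {W w : ι → Set Z} (hO : Disc O c) (hW : Holes (O \ c) t W w) :
    IsPreconnected ((O \ c) \ ⋃ j ∈ t, W j) := by
  refine Finite.induction_on_subset
    (motive := fun s _ => IsPreconnected ((O \ c) \ ⋃ j ∈ s, W j)) t hW.fin ?_ ?_
  · simpa using hO.conn_diff subset_rfl
  · intro j s hj hs hn ih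
    rw [biUnion_insert, union_comm]
    refine ns_disc hO ((hW.fin.subset hs).isClosed_biUnion fun i hi => (hW.disc i (hs hi)).closed)
      ih (hW.disc j hj) ((hW.sub j hj).trans sdiff_subset) ?_
    convert isPreconnected_empty
    refine eq_empty_of_forall_notMem fun x hx => hx.1.elim (hW.sub j hj hx.2).2 fun k => ?_
    obtain ⟨i, hi, k⟩ := mem_iUnion₂.1 k
    exact disjoint_left.1 (hW.disj (hs hi) hj fun e => hn (e ▸ hi)) k hx.2

theorem acc_rim (hO : Disc O c) (hY : IsClosed Y) (hp : p ∈ c) (hpY : p ∉ Y) :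
    Acc ((O \ c) \ Y) p := by
  obtain ⟨q, hq, n⟩ := hO.exists_rim (finite_singleton p)
  obtain ⟨a, ha⟩ := hO.exists_cc hp hq (Ne.symm n)
  obtain ⟨u, v, x, h1, -, -, h2, h3⟩ := ha.arc.start (U := Yᶜ ∩ {q}ᶜ)
    ((hY.isOpen_compl.inter isOpen_compl_singleton).mem_nhds ⟨hpY, Ne.symm n⟩)
  have s : u ⊆ a := h2 ▸ subset_union_left
  exact ⟨u, x, h1, fun z hz => ⟨⟨ha.sub (s hz.1), fun k =>
    (ha.inter.le ⟨s hz.1, k⟩).elim hz.2 (h3 hz.1).2⟩, (h3 hz.1).1⟩⟩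

theorem acc_int (hO : Disc O c) (hY : IsClosed Y) (hp : p ∈ (O \ c) \ Y) :
    Acc ((O \ c) \ Y) p := by
  obtain ⟨W, w, hW, s, m⟩ := hO.small hp.1 (hY.isOpen_compl.mem_nhds hp.2)
  obtain ⟨φ, e, i, -, rfl⟩ := hW.recentre m
  have g : segment ℝ (0 : ℂ) 1 ⊆ closedBall 0 1 :=
    (convex_closedBall _ _).segment_subset (by simp) (by simp)
  exact ⟨_, _, (sepB_seg zero_ne_one).image e g, fun z hz => s (i ▸ image_mono g hz.1)⟩

theorem acc_hole (hO : Disc O c) (hW : Disc W w) (hs : W ⊆ O) (hY : IsClosed Y) (hp : p ∈ w)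
    (hc : p ∉ c) (hpY : p ∉ Y) : Acc ((O \ c) \ (Y ∪ W)) p := by
  obtain ⟨φ, ψ, eφ, eψ, i1, -, l, r, d⟩ := sepB_chart hO
  obtain ⟨k, k1, k2, -⟩ := (hW.image eψ hs).plane
  have pO : p ∈ O := hs (hW.rim_sub hp)
  obtain ⟨z, hz, e⟩ : ψ p ∈ k '' sphere 0 1 := k2 ▸ mem_image_of_mem ψ hp
  have z1 : ‖z‖ = 1 := by simpa using hz
  have ne : z ≠ 2 * z := fun h => by
    have := congrArg norm h
    rw [norm_mul, z1] at this
    norm_num at this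
  have a1 := (sepB_seg ne).image (f := k) (B := univ)
    ⟨k.continuous.continuousOn, k.injective.injOn⟩ (subset_univ _)
  rw [e] at a1
  have o : IsOpen (ball (0 : ℂ) 1 \ ψ '' (Y ∩ O)) :=
    isOpen_ball.sdiff (eψ.compact inter_subset_right (hO.compact.inter_left hY)).isClosed
  obtain ⟨u, v, x, h1, -, -, h2, h3⟩ := a1.start
    (o.mem_nhds (d Y ▸ mem_image_of_mem ψ (show p ∈ (O \ c) \ Y from ⟨⟨pO, hc⟩, hpY⟩)))
  have a2 := h1.image eφ (h3.trans (sdiff_subset.trans ball_subset_closedBall))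
  rw [l p pO] at a2
  refine ⟨_, _, a2, ?_⟩
  rintro _ ⟨⟨y, hy, rfl⟩, n⟩
  rw [← r ((O \ c) \ (Y ∪ W)) (sdiff_subset.trans sdiff_subset), d, union_inter_distrib_right,
    image_union, inter_eq_left.2 hs]
  refine mem_image_of_mem φ ⟨(h3 hy).1, fun b => b.elim (h3 hy).2 fun b => n ?_⟩
  obtain ⟨y', ⟨s, t, s0, t0, st, rfl⟩, rfl⟩ := h2.le (Or.inl hy)
  rw [← k1, k.injective.mem_set_image, mem_closedBall_zero_iff,
    show s • z + t • (2 * z) = ((s + 2 * t : ℝ) : ℂ) * z by simp; ring, norm_mul, z1, mul_one,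
    Complex.norm_real, Real.norm_of_nonneg (by positivity)] at b
  obtain rfl : t = 0 := by linarith
  obtain rfl : s = 1 := by linarith
  simp [e, l p pO]

theorem arc_in (hO : Disc O c) (hY : IsClosed Y) (hc : IsPreconnected ((O \ c) \ Y))
    (hp : Acc ((O \ c) \ Y) p) (hq : Acc ((O \ c) \ Y) q) (hne : p ≠ q) :
    ∃ a, Arc a p q ∧ a \ {p, q} ⊆ (O \ c) \ Y := by
  obtain ⟨a, x, ha, sa⟩ := hp
  obtain ⟨b, y, hb, sb⟩ := hq
  obtain ⟨U, V, oU, oV, pU, qV, d⟩ := t2_separation hne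
  obtain ⟨a1, a2, x1, h1, -, -, e1, s1⟩ := ha.start (oU.mem_nhds pU)
  obtain ⟨b1, b2, y1, h2, -, -, e2, s2⟩ := hb.start (oV.mem_nhds qV)
  have t1 : a1 \ {p} ⊆ (O \ c) \ Y := fun z hz => sa ⟨e1.le (Or.inl hz.1), hz.2⟩
  have t2 : b1 \ {q} ⊆ (O \ c) \ Y := fun z hz => sb ⟨e2.le (Or.inl hz.1), hz.2⟩
  have d' := disjoint_left.1 d
  obtain ⟨m, sm, hm⟩ := sepB_arc hO hY hc (t1 ⟨h1.right, h1.ne.symm⟩) (t2 ⟨h2.right, h2.ne.symm⟩)
    fun e => d' (s1 h1.right) (e ▸ s2 h2.right)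
  obtain ⟨n, hn, sn⟩ : ∃ n, Arc n p y1 ∧ n \ {p} ⊆ (O \ c) \ Y := by
    by_cases k : p ∈ m
    · obtain ⟨n, sn, hn⟩ := hm.sub k hm.right fun e => d' pU (e ▸ s2 h2.right)
      exact ⟨n, hn, fun z hz => sm (sn hz.1)⟩
    · obtain ⟨n, sn, hn⟩ := h1.splice hm ⟨x1, h1.right, hm.left⟩ k
        fun e => d' (s1 e) (s2 h2.right)
      exact ⟨n, hn, fun z hz => (sn hz.1).elim (fun b => t1 ⟨b, hz.2⟩) fun b => sm b⟩
  by_cases k : q ∈ n
  · obtain ⟨n', sn', hn'⟩ := hn.sub hn.left k hne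
    exact ⟨n', hn', fun z hz => sn ⟨sn' hz.1, fun e => hz.2 (Or.inl e)⟩⟩
  · obtain ⟨n', sn', hn'⟩ := hn.splice h2.symm ⟨y1, hn.right, h2.right⟩ (fun e => d' pU (s2 e)) k
    exact ⟨n', hn', fun z hz => (sn' hz.1).elim (fun b => sn ⟨b, fun e => hz.2 (Or.inl e)⟩)
      fun b => t2 ⟨b, fun e => hz.2 (Or.inr e)⟩⟩

theorem hole_arc {t : Set ι} {W w : ι → Set Z} (hO : Disc O c) (hW : Holes (O \ c) t W w)
    (hp : p ∈ c ∪ ⋃ j ∈ t, w j) (hq : q ∈ c ∪ ⋃ j ∈ t, w j) (hne : p ≠ q) :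
    ∃ a, Arc a p q ∧ a \ {p, q} ⊆ (O \ c) \ ⋃ j ∈ t, W j := by
  have cl : ∀ s ⊆ t, IsClosed (⋃ j ∈ s, W j) := fun s hs =>
    (hW.fin.subset hs).isClosed_biUnion fun i hi => (hW.disc i (hs hi)).closed
  have k : ∀ p ∈ c ∪ ⋃ j ∈ t, w j, Acc ((O \ c) \ ⋃ j ∈ t, W j) p := by
    rintro p (hp | hp)
    · refine acc_rim hO (cl t subset_rfl) hp fun n => ?_
      obtain ⟨i, hi, n⟩ := mem_iUnion₂.1 n
      exact (hW.sub i hi n).2 hp
    · obtain ⟨j, hj, hp⟩ := mem_iUnion₂.1 hp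
      have m := (hW.disc j hj).rim_sub hp
      have := acc_hole hO (hW.disc j hj) ((hW.sub j hj).trans sdiff_subset)
        (cl (t \ {j}) sdiff_subset) hp (hW.sub j hj m).2 fun n => by
          obtain ⟨i, hi, n⟩ := mem_iUnion₂.1 n
          exact disjoint_left.1 (hW.disj hi.1 hj hi.2) n m
      rwa [union_comm, ← biUnion_insert, insert_sdiff_singleton, insert_eq_of_mem hj] at this
  exact arc_in hO (cl t subset_rfl) (ns_holes hO hW) (k p hp) (k q hq) hne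

end Pool.Agent.Lib.MP_b7d179_gt
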