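import Pool.Agent.Lib.MP_b7d179_gt.T.Base

/-! Spheres. -/

namespace Pool.Agent.Lib.MP_b7d179_gt

open Set Metric Topology Filter

variable {Z Z' : Type*} [MetricSpace Z] [MetricSpace Z'] {ι κ : Type*}

variable {S A D D' E c j u v P : Set Z} {p q : Z}

theorem sph_refl : ∃ r : ℂ → ℂ, (∀ z, r (r z) = z) ∧ (∀ z, ‖r z‖ = ‖z‖⁻¹) ∧
    (∀ z, ‖z‖ = 1 → r z = z) ∧ ContinuousOn r {0}ᶜ := by
  refine ⟨fun z => ((starRingEnd ℂ) z)⁻¹, fun z => by simp, fun z => by simp, fun z hz => ?_, ?_⟩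
  · refine inv_eq_of_mul_eq_one_right ?_
    rw [Complex.conj_mul', hz]; simp
  · exact Complex.continuous_conj.continuousOn.inv₀ fun z hz => by simpa using hz

theorem sph_one_le {x : ℝ} (h : 1 ≤ x) : x⁻¹ ≤ 1 := inv_le_one_of_one_le₀ h

theorem Sph.not_sub (h : Sph S) (hD : Disc D c) (hs : D ⊆ S) : ¬ S ⊆ D := by
  intro h'
  obtain ⟨D₁, E₁, c₁, h⟩ := h
  have e := hD.eq_of_rim h.d1 h.d2 (h.sub1.trans h') (h.sub2.trans h')
  obtain ⟨x, hx, -⟩ := h.d1.exists_int finite_empty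
  exact hx.2 (h.inter ▸ ⟨hx.1, e ▸ hx.1⟩)

theorem Hemi.chart (h : Hemi S D E c) (hp : p ∈ E \ c) : ∃ χ : ℂ → Z, Continuous χ ∧
    Function.Injective χ ∧ range χ = S \ {p} ∧ Tendsto χ (cocompact ℂ) (𝓝 p) ∧
    χ '' closedBall 0 1 = D ∧ χ '' sphere 0 1 = c := by
  obtain ⟨φ, e, i1, i2, i0⟩ := h.d2.recentre hp
  obtain ⟨F, eF, iF, qF⟩ := disc_unit.cone h.d1 (e.mono sphere_subset_closedBall) i2
  obtain ⟨r, rr, rn, r1, rc⟩ := sph_refl
  set B : Set ℂ := {z | 1 ≤ ‖z‖} with hB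
  have cB : IsClosed B := isClosed_le continuous_const continuous_norm
  have B0 : B ⊆ {0}ᶜ := by
    rintro z hz rfl
    simp [hB] at hz
    linarith
  have rB : r '' B = closedBall 0 1 \ {0} := by
    ext w
    constructor
    · rintro ⟨z, hz, rfl⟩
      refine ⟨mem_closedBall_zero_iff.2 (rn z ▸ sph_one_le hz), fun h0 => B0 hz ?_⟩
      have := rn z
      rw [mem_singleton_iff.1 h0, norm_zero, eq_comm, inv_eq_zero, norm_eq_zero] at this
      exact this
    · rintro ⟨h1, h0⟩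
      refine ⟨r w, ?_, rr w⟩
      show 1 ≤ ‖r w‖
      rw [rn]
      exact (one_le_inv₀ (norm_pos_iff.2 h0)).2 (mem_closedBall_zero_iff.1 h1)
  have er : Emb r B := ⟨rc.mono B0, fun x _ y _ h => by rw [← rr x, h, rr]⟩
  have eg : Emb (φ ∘ r) B := e.comp er (rB ▸ sdiff_subset)
  have ig : (φ ∘ r) '' B = E \ {p} := by
    rw [image_comp, rB, e.diff subset_rfl (by simp), i1, image_singleton, i0]
  have AB : closedBall (0 : ℂ) 1 ∩ B = sphere 0 1 := by
    ext z
    simp only [hB, mem_inter_iff, mem_closedBall_zero_iff, mem_ofPred_eq, mem_sphere_zero_iff_norm]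
    exact ⟨fun h => le_antisymm h.1 h.2, fun h => ⟨h.le, h.ge⟩⟩
  have iS : F '' sphere 0 1 = c := (image_congr qF).trans i2
  obtain ⟨χ, eχ, q1, q2⟩ := eF.paste eg isClosed_closedBall cB
    (by
      rw [AB]
      intro z hz
      rw [qF hz, Function.comp, r1 z (mem_sphere_zero_iff_norm.1 hz)])
    (by rw [AB, iS, iF, ig, ← h.inter]; exact fun x hx => ⟨hx.1, hx.2.1⟩)
  have un : closedBall (0 : ℂ) 1 ∪ B = univ := eq_univ_of_forall fun z =>
    (le_total ‖z‖ 1).imp mem_closedBall_zero_iff.2 id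
  have pD : p ∉ D := fun hD => hp.2 (h.inter ▸ ⟨hD, hp.1⟩)
  refine ⟨χ, continuousOn_univ.1 (un ▸ eχ.1), injOn_univ.1 (un ▸ eχ.2), ?_, ?_,
    (image_congr q1).trans iF, (image_congr (q1.mono sphere_subset_closedBall)).trans iS⟩
  · rw [← image_univ, ← un, image_union, image_congr q1, image_congr q2, iF, ig, ← h.union,
      union_sdiff_distrib, sdiff_singleton_eq_self pD]
  · have n : Tendsto (fun z : ℂ => ‖z‖) (cocompact ℂ) atTop := tendsto_norm_cocompact_atTop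
    have ev : ∀ᶠ z in cocompact ℂ, z ∈ B := n.eventually_ge_atTop 1
    have t0 : Tendsto r (cocompact ℂ) (𝓝[closedBall 0 1] 0) := by
      refine tendsto_nhdsWithin_iff.2 ⟨tendsto_zero_iff_norm_tendsto_zero.2 ?_,
        ev.mono fun z hz => (rB.le (mem_image_of_mem r hz)).1⟩
      simp only [rn]
      exact n.inv_tendsto_atTop
    have t1 := (e.1 0 (by simp)).tendsto.comp t0
    rw [i0] at t1
    exact t1.congr' (ev.mono fun z hz => (q2 hz).symm)

theorem sph_of_chart {χ : ℂ → Z} (hc : Continuous χ) (hi : Function.Injective χ) (hp : p ∈ S)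
    (hr : range χ = S \ {p}) (ht : Tendsto χ (cocompact ℂ) (𝓝 p)) :
    ∃ E, Hemi S (χ '' closedBall 0 1) E (χ '' sphere 0 1) := by
  classical
  obtain ⟨r, rr, rn, r1, rc⟩ := sph_refl
  have np : ∀ z, χ z ≠ p := fun z => (hr.le (mem_range_self z)).2
  set ψ : ℂ → Z := Function.update (χ ∘ r) 0 p with hψ
  have p0 : ψ 0 = p := Function.update_self ..
  have p1 : ∀ z, z ≠ 0 → ψ z = χ (r z) := fun z hz => Function.update_of_ne hz ..
  have ri : Function.Injective r := fun x y h => by rw [← rr x, h, rr]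
  have cψ : Continuous ψ := by
    refine continuous_iff_continuousAt.2 fun z => ?_
    by_cases hz : z = 0
    · subst hz
      refine continuousAt_update_same.2 (ht.comp ?_)
      rw [← cobounded_eq_cocompact, ← tendsto_norm_atTop_iff_cobounded]
      simp only [rn]
      exact tendsto_inv_nhdsGT_zero.comp tendsto_norm_nhdsNE_zero
    · exact (continuousAt_update_of_ne hz).2 (hc.continuousAt.comp
        (rc.continuousAt (isOpen_compl_singleton.mem_nhds hz)))
  have iψ : Function.Injective ψ := fun x y h => by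
    by_cases hx : x = 0 <;> by_cases hy : y = 0
    · rw [hx, hy]
    · rw [hx, p0, p1 y hy] at h; exact absurd h.symm (np _)
    · rw [hy, p0, p1 x hx] at h; exact absurd h (np _)
    · rw [p1 x hx, p1 y hy] at h; exact ri (hi h)
  have s1 : ∀ z ∈ sphere (0 : ℂ) 1, ψ z = χ z := fun z hz => by
    have h1 := mem_sphere_zero_iff_norm.1 hz
    rw [p1 z (by rintro rfl; simp at h1), r1 z h1]
  refine ⟨ψ '' closedBall 0 1, ⟨χ, ⟨hc.continuousOn, hi.injOn⟩, rfl, rfl⟩,
    ⟨ψ, ⟨cψ.continuousOn, iψ.injOn⟩, rfl, image_congr s1⟩, ?_, ?_⟩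
  · refine Subset.antisymm ?_ ?_
    · rintro _ ⟨⟨z, hz, rfl⟩, w, hw, e⟩
      have w0 : w ≠ 0 := by rintro rfl; exact np z (e.symm.trans p0)
      rw [p1 w w0] at e
      refine ⟨z, mem_sphere_zero_iff_norm.2 (le_antisymm (mem_closedBall_zero_iff.1 hz) ?_), rfl⟩
      rw [← hi e, rn]
      exact (one_le_inv₀ (norm_pos_iff.2 w0)).2 (mem_closedBall_zero_iff.1 hw)
    · rintro _ ⟨z, hz, rfl⟩
      exact ⟨⟨z, sphere_subset_closedBall hz, rfl⟩, z, sphere_subset_closedBall hz, s1 z hz⟩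
  · refine Subset.antisymm ?_ fun x hx => ?_
    · rintro _ (⟨z, -, rfl⟩ | ⟨z, -, rfl⟩)
      · exact (hr.le (mem_range_self z)).1
      · by_cases hz : z = 0
        · rw [hz, p0]; exact hp
        · rw [p1 z hz]; exact (hr.le (mem_range_self _)).1
    · by_cases hxp : x = p
      · exact Or.inr ⟨0, by simp, p0.trans hxp.symm⟩
      obtain ⟨z, rfl⟩ := hr.ge ⟨hx, hxp⟩
      rcases le_total ‖z‖ 1 with h | h
      · exact Or.inl ⟨z, mem_closedBall_zero_iff.2 h, rfl⟩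
      · refine Or.inr ⟨r z, mem_closedBall_zero_iff.2 (rn z ▸ sph_one_le h), ?_⟩
        rw [p1 _ fun h0 => ?_, rr]
        have := rn z
        rw [h0, norm_zero, eq_comm, inv_eq_zero] at this
        linarith

theorem sph_compl (h : Hemi S D' E j) (hp : p ∈ E \ j) (hD : Disc D c) (hs : D ⊆ S) (hn : p ∉ D) :
    ∃ E, Hemi S D E c := by
  obtain ⟨χ, hc, hi, hr, ht, -⟩ := h.chart hp
  have sub : D ⊆ range χ := fun x hx => hr.ge ⟨hs hx, fun e => hn (mem_singleton_iff.1 e ▸ hx)⟩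
  obtain ⟨K, hK, hK'⟩ := mem_cocompact.1 (ht (hD.closed.isOpen_compl.mem_nhds hn))
  have k0 : IsCompact (χ ⁻¹' D) := hK.of_isClosed_subset (hD.closed.preimage hc)
    fun z hz => by_contra fun hz' => hK' hz' hz
  obtain ⟨g, eg, -, gr, -⟩ := Emb.inv ⟨hc.continuousOn, hi.injOn⟩ k0
  rw [image_preimage_eq_of_subset sub] at eg gr
  obtain ⟨k, k1, k2, -⟩ := (hD.image eg subset_rfl).plane
  have back : ∀ B ⊆ D, χ '' (g '' B) = B := fun B hB => by
    rw [image_image]
    exact (image_congr fun x hx => gr x (hB hx)).trans (image_id' B)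
  have := sph_of_chart (χ := χ ∘ k) (hc.comp k.continuous) (hi.comp k.injective) (h.sub2 hp.1)
    (by rw [k.surjective.range_comp, hr]) (ht.comp k.map_cocompact.le)
  rwa [image_comp, image_comp, k1, k2, back _ subset_rfl, back _ hD.rim_sub] at this

theorem Sph.compl (h : Sph S) (hD : Disc D c) (hs : D ⊆ S) : ∃ E, Hemi S D E c := by
  obtain ⟨x, hx, hx'⟩ := not_subset.1 (h.not_sub hD hs)
  obtain ⟨D₁, E₁, c₁, h⟩ := h
  have o := hD.closed.isOpen_compl
  rcases h.union.ge hx with k | k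
  · obtain ⟨p, hp, hp'⟩ := mem_closure_iff.1 (h.d1.dense k) _ o hx'
    exact sph_compl h.symm hp' hD hs hp
  · obtain ⟨p, hp, hp'⟩ := mem_closure_iff.1 (h.d2.dense k) _ o hx'
    exact sph_compl h hp' hD hs hp

/-- a small disc round a point and its complement -/
theorem Sph.big (h : Sph S) (hA : IsClosed A) (hp : p ∈ S) (hpA : p ∉ A) :
    ∃ O O' c, Hemi S O O' c ∧ p ∈ O' \ c ∧ Disjoint O' A := by
  obtain ⟨D₁, E₁, c₁, h'⟩ := id h
  obtain ⟨q, hq, hq'⟩ := h'.d2.exists_int (finite_singleton p)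
  obtain ⟨χ, hc, hi, hr, -⟩ := h'.chart hq
  obtain ⟨z, rfl⟩ := hr.ge ⟨hp, fun e => hq' (mem_singleton_iff.1 e).symm⟩
  obtain ⟨ε, e0, he⟩ := nhds_basis_closedBall.mem_iff.1
    ((hA.isOpen_compl.preimage hc).mem_nhds hpA)
  have e1 : (ε : ℂ) ≠ 0 := by exact_mod_cast e0.ne'
  have inj : Function.Injective fun w : ℂ => χ (z + ε * w) := fun x y k =>
    mul_left_cancel₀ e1 (add_left_cancel (hi k))
  have d : Disc ((fun w : ℂ => χ (z + ε * w)) '' closedBall 0 1)
      ((fun w : ℂ => χ (z + ε * w)) '' sphere 0 1) :=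
    ⟨_, ⟨(hc.comp (by fun_prop)).continuousOn, inj.injOn⟩, rfl, rfl⟩
  obtain ⟨O, hO⟩ := h.compl d (by rintro _ ⟨w, -, rfl⟩; exact (hr.le (mem_range_self _)).1)
  refine ⟨O, _, _, hO.symm, ⟨⟨0, by simp, by simp⟩, ?_⟩, disjoint_left.2 ?_⟩
  · rintro ⟨w, hw, k⟩
    have : w = 0 := inj (by simpa using k)
    simp [this] at hw
  · rintro _ ⟨w, hw, rfl⟩
    refine he (a := z + ε * w) ?_
    rw [mem_closedBall, dist_eq_norm, add_sub_cancel_left, norm_mul, Complex.norm_real,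
      Real.norm_of_nonneg e0.le]
    exact mul_le_of_le_one_right e0.le (mem_closedBall_zero_iff.1 hw)

theorem Sph.open (h : Sph S) (hD : Disc D c) (hs : D ⊆ S) :
    ∃ U, IsOpen U ∧ U ∩ S = D \ c := by
  obtain ⟨E, h⟩ := h.compl hD hs
  refine ⟨Eᶜ, h.d2.closed.isOpen_compl, ?_⟩
  rw [← h.union, ← h.inter]
  ext x
  simp only [mem_inter_iff, mem_compl_iff, mem_union, Set.mem_sdiff]
  tauto

end Pool.Agent.Lib.MP_b7d179_gt
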