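import Pool.Agent.Lib.MP_b7d179_gt.T.AnnB

/-! Normal forms of systems of crosscuts in a disc. -/

namespace Pool.Agent.Lib.MP_b7d179_gt

open Set Metric Topology Filter

variable {Z Z' : Type*} [MetricSpace Z] [MetricSpace Z'] {ι κ : Type*}

variable {O c Q k u v g D E u' v' g' D' E' J l r g₀ gm gp P X : Set Z} {x y x' y' j j' m m' n n' e₀ : Z}

lemma Sys_g1 (h : Cut O c u v g D E x y) : g ⊆ D := subset_union_right.trans h.d1.rim_sub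

lemma Sys_u1 (h : Cut O c u v g D E x y) : u ⊆ D := subset_union_left.trans h.d1.rim_sub

lemma Sys_side (h : Cut O c u v g D E x y) (h' : Cut Q k u' v' g' D' E' x' y') (hs : Q ⊆ O)
    (hg : Q ∩ g = g') : D' ⊆ D ∨ D' ⊆ E := by
  have gg : g' ⊆ g := hg ▸ inter_subset_right
  have := h.side (h'.d1.conn_diff subset_union_right) (diff_subset.trans (h'.sub1.trans hs))
    (disjoint_left.2 fun z hz hz' => hz.2 (hg ▸ ⟨h'.sub1 hz.1, hz'⟩))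
  refine this.imp (fun i z hz => ?_) fun i z hz => ?_
  · by_cases e : z ∈ g'
    exacts [Sys_g1 h (gg e), i ⟨hz, e⟩]
  · by_cases e : z ∈ g'
    exacts [Sys_g1 h.symm (gg e), i ⟨hz, e⟩]

lemma Sys_not (h : Cut O c u v g D E x y) (h' : Cut Q k u' v' g' D' E' x' y')
    (hg : Q ∩ g = g') (h1 : D' ⊆ D) (h2 : E' ⊆ D) : False := by
  obtain ⟨z, hz, hn⟩ := h'.cc.arc.exists_notMem (toFinite {x', y'})
  have := h.d1.sub_int h'.disc (h'.union ▸ union_subset h1 h2)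
    ⟨h'.cc.sub hz, fun e => hn (h'.cc.inter ▸ ⟨hz, e⟩)⟩
  exact this.2 (Or.inr (hg.ge hz).2)

theorem sides (h : Cut O c u v g D E x y) (h' : Cut Q k u' v' g' D' E' x' y') (hs : Q ⊆ O)
    (hg : Q ∩ g = g') : (D' ⊆ D ∧ E' ⊆ E) ∨ (D' ⊆ E ∧ E' ⊆ D) := by
  rcases Sys_side h h' hs hg with a | a <;> rcases Sys_side h h'.symm hs hg with b | b
  exacts [(Sys_not h h' hg a b).elim, Or.inl ⟨a, b⟩, Or.inr ⟨a, b⟩,
    (Sys_not h.symm h' hg a b).elim]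

theorem cross4 {a : Set Z} (hO : Disc O c) (hq : Quad c g l g' r) (ha : Cc O c a x y) (hx : x ∈ g)
    (hy : y ∈ g') (hP : IsPreconnected P) (hs : P ⊆ O) (h1 : (P ∩ l).Nonempty)
    (h2 : (P ∩ r).Nonempty) : (P ∩ a).Nonempty := by
  obtain ⟨u, v, t, hl, hr⟩ := hq.two hx hy
  obtain ⟨D, E, h⟩ := hO.cut t ha
  by_contra hn
  obtain ⟨z, hz, hz'⟩ := h2
  exact disjoint_left.1 (h.side1 hP hs (disjoint_iff_inter_eq_empty.2 (not_nonempty_iff_eq_empty.1 hn))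
    (h1.mono (inter_subset_inter_right _ (hl.trans (Sys_u1 h))))).2 hz (Sys_u1 h.symm (hr hz'))

/-- a crosscut of a subdisc with ends in the rim of the large disc -/
lemma Sys_up {a : Set Z} (hO : Disc O c) (hQ : Disc Q k) (hs : Q ⊆ O) (ha : Cc Q k a x y)
    (hx : x ∈ c) (hy : y ∈ c) : Cc O c a x y := by
  refine ⟨ha.arc, ha.sub.trans hs, Subset.antisymm (fun z hz => ?_) ?_⟩
  · by_contra hn
    exact (hO.sub_int hQ hs ⟨ha.sub hz.1, fun e => hn (ha.inter ▸ ⟨hz.1, e⟩)⟩).2 hz.2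
  · exact subset_inter ha.arc.ends (insert_subset hx (singleton_subset_iff.2 hy))

/-- a subdisc cut along its part of `g`, with the sides matched -/
lemma Sys_cut (h : Cut O c u v g D E x y) (hQ : Disc Q k) (hs : Q ⊆ O) (hg : Q ∩ g = g')
    (hc : Cc Q k g' x' y') :
    ∃ u' v' D' E', Cut Q k u' v' g' D' E' x' y' ∧ D' ⊆ D ∧ E' ⊆ E := by
  obtain ⟨u', v', t⟩ := hQ.exists_two hc.left hc.right hc.arc.ne
  obtain ⟨D', E', h'⟩ := hQ.cut t hc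
  rcases sides h h' hs hg with a | a
  exacts [⟨_, _, _, _, h', a⟩, ⟨_, _, _, _, h'.symm, a.symm⟩]

lemma Sys_fix {F : Z → Z} {A : Set Z} (h : Cut O c u v g D E x y) (hF : Sup F D (u ∪ g))
    (hA : A ⊆ E) : F '' A = A :=
  (image_congr fun z hz => hF.fix z fun e => e.2 (Or.inr (h.inter ▸ ⟨e.1, hA hz⟩))).trans
    (image_id' A)

/-- the step of the inductions: move one arc to `g`, cut along it, work on both sides -/
lemma Sys_step {s : Set ι} {a : ι → Set Z} {p q : ι → Z} {i₀ : ι} {G : ι → Set Z → Prop}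
    (hs : Sys O c s a p q) (hi : i₀ ∈ s) (h : Cut O c u v g D E (p i₀) (q i₀)) (h0 : G i₀ g)
    (h1 : ∀ t ⊆ s \ {i₀}, ∀ b : ι → Set Z, Sys D (u ∪ g) t b p q → Sys O c t b p q →
      (∀ i ∈ t, Disjoint (b i) g) → ∃ F, Sup F D (u ∪ g) ∧ ∀ i ∈ t, G i (F '' b i))
    (h2 : ∀ t ⊆ s \ {i₀}, ∀ b : ι → Set Z, Sys E (v ∪ g) t b p q → Sys O c t b p q →
      (∀ i ∈ t, Disjoint (b i) g) → ∃ F, Sup F E (v ∪ g) ∧ ∀ i ∈ t, G i (F '' b i)) :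
    ∃ F, Sup F O c ∧ ∀ i ∈ s, G i (F '' a i) := by
  obtain ⟨F0, f0, e0⟩ := mc1 h.disc (hs.cc _ hi) h.cc
  have hb := f0.sys h.disc hs
  have dj : ∀ i ∈ s \ {i₀}, Disjoint (F0 '' a i) g := fun i m => e0 ▸ hb.disj m.1 hi m.2
  have mo : ∀ t ⊆ s \ {i₀}, Sys O c t (fun i => F0 '' a i) p q := fun t ht =>
    ⟨hs.fin.subset (ht.trans diff_subset), fun i m => hb.cc i (ht m).1,
      hb.disj.subset (ht.trans diff_subset)⟩
  have sy : ∀ {u v D E : Set Z}, Cut O c u v g D E (p i₀) (q i₀) →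
      Sys D (u ∪ g) {i ∈ s \ {i₀} | F0 '' a i ⊆ D} (fun i => F0 '' a i) p q := fun h =>
    ⟨(mo _ (sep_subset _ _)).fin, fun i m => h.cc1 (hb.cc i m.1.1) (dj i m.1)
      ⟨_, (hb.cc i m.1.1).arc.left, m.2 (hb.cc i m.1.1).arc.left⟩, (mo _ (sep_subset _ _)).disj⟩
  obtain ⟨F1, f1, e1⟩ := h1 _ (sep_subset _ _) _ (sy h) (mo _ (sep_subset _ _)) fun i m => dj i m.1
  obtain ⟨F2, f2, e2⟩ :=
    h2 _ (sep_subset _ _) _ (sy h.symm) (mo _ (sep_subset _ _)) fun i m => dj i m.1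
  refine ⟨F2 ∘ F1 ∘ F0, (f2.up h.disc h.d2 h.sub2).comp ((f1.up h.disc h.d1 h.sub1).comp f0),
    fun i m => ?_⟩
  rw [image_comp, image_comp]
  by_cases e : i = i₀
  · subst e
    rwa [e0, Sys_fix h f1 (Sys_g1 h.symm), Sys_fix h.symm f2 (Sys_g1 h)]
  · rcases h.side (hb.cc i m).arc.conn (hb.cc i m).sub (dj i ⟨m, e⟩) with w | w
    · rw [Sys_fix h.symm f2 ((image_mono w).trans f1.img.le)]
      exact e1 i ⟨⟨m, e⟩, w⟩
    · rw [Sys_fix h f1 w]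
      exact e2 i ⟨⟨m, e⟩, w⟩

lemma Sys_lt {s t : Set ι} {i₀ : ι} (hs : s.Finite) (hi : i₀ ∈ s) (ht : t ⊆ s \ {i₀}) :
    t.ncard < s.ncard :=
  (ncard_le_ncard ht (hs.subset diff_subset)).trans_lt (ncard_diff_singleton_lt_of_mem hi hs)

/-- a point of the rim of the subdisc that lies on the side `D` -/
lemma Sys_mem {z : Z} (h : Cut O c u v g D E x y) (h' : Cut Q k u' v' g' D' E' x' y')
    (h2 : E' ⊆ E) (hk : z ∈ k) (hD : z ∈ D) (hg : z ∉ g) : z ∈ u' :=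
  (h'.two.union.ge hk).resolve_right fun e => hg (h.inter ▸ ⟨hD, h2 (Sys_u1 h'.symm e)⟩)

theorem retract {s : Set ι} {a : ι → Set Z} {p q : ι → Z} (hO : Disc O c) (hQ : Disc Q k)
    (hs : Q ⊆ O) (h : Sys O c s a p q) (he : ∀ i ∈ s, p i ∈ k ∧ q i ∈ k) :
    ∃ F, Sup F O c ∧ ∀ i ∈ s, Cc Q k (F '' a i) (p i) (q i) := by
  induction hn : s.ncard using Nat.strong_induction_on generalizing s O c Q k a with
  | _ N ih =>
  subst hn
  rcases s.eq_empty_or_nonempty with rfl | ⟨i₀, hi⟩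
  · exact ⟨id, sup_id, fun i m => m.elim⟩
  have h0 := h.cc i₀ hi
  obtain ⟨b, hb⟩ := hQ.exists_cc (he _ hi).1 (he _ hi).2 h0.arc.ne
  obtain ⟨u, v, t⟩ := hO.exists_two h0.left h0.right h0.arc.ne
  obtain ⟨D, E, hc⟩ := hO.cut t (Sys_up hO hQ hs hb h0.left h0.right)
  obtain ⟨u', v', D', E', hc', s1, s2⟩ := Sys_cut hc hQ hs (inter_eq_right.2 hb.sub) hb
  have key : ∀ {u v D E u' v' D' E' : Set Z}, Cut O c u v b D E (p i₀) (q i₀) →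
      Cut Q k u' v' b D' E' (p i₀) (q i₀) → D' ⊆ D → E' ⊆ E →
      ∀ t ⊆ s \ {i₀}, ∀ a' : ι → Set Z, Sys D (u ∪ b) t a' p q → Sys O c t a' p q →
      (∀ i ∈ t, Disjoint (a' i) b) →
      ∃ F, Sup F D (u ∪ b) ∧ ∀ i ∈ t, Cc Q k (F '' a' i) (p i) (q i) := by
    intro u v D E u' v' D' E' hc hc' s1 s2 t ht a' y1 _ dj
    have me : ∀ i ∈ t, p i ∈ u' ∧ q i ∈ u' := fun i m =>
      have ca := y1.cc i m
      ⟨Sys_mem hc hc' s2 (he i (ht m).1).1 (ca.sub ca.arc.left)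
        (disjoint_left.1 (dj i m) ca.arc.left), Sys_mem hc hc' s2 (he i (ht m).1).2
        (ca.sub ca.arc.right) (disjoint_left.1 (dj i m) ca.arc.right)⟩
    obtain ⟨F, f, e⟩ := ih _ (Sys_lt h.fin hi ht) hc.d1 hc'.d1 s1 y1
      (fun i m => ⟨Or.inl (me i m).1, Or.inl (me i m).2⟩) rfl
    exact ⟨F, f, fun i m => hc'.cc_up (e i m) (me i m).1 (me i m).2⟩
  exact Sys_step (G := fun i A => Cc Q k A (p i) (q i)) h hi hc hb (key hc hc' s1 s2)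
    (key hc.symm hc'.symm s2 s1)

/-- the normal position of the arc `A` -/
def SysGood (u v g D E W A : Set Z) (p q : Z) : Prop :=
  (p ∈ u → q ∈ u → Cc D (u ∪ g) A p q) ∧ (p ∈ v → q ∈ v → Cc E (v ∪ g) A p q) ∧
  (p ∈ u → q ∈ v → ∃ e ∈ W, ∃ b b', Cc D (u ∪ g) b p e ∧ Cc E (v ∪ g) b' e q ∧ b ∪ b' = A) ∧
  (p ∈ v → q ∈ u → ∃ e ∈ W, ∃ b b', Cc E (v ∪ g) b p e ∧ Cc D (u ∪ g) b' e q ∧ b ∪ b' = A)

variable {W W' A : Set Z} {p q : Z}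

lemma SysGood.symm (h : SysGood u v g D E W A p q) : SysGood v u g E D W A p q :=
  ⟨h.2.1, h.1, h.2.2.2, h.2.2.1⟩

lemma Sys_uv (h : Cut O c u v g D E x y) (hp : p ∉ g) (h1 : p ∈ D) (h2 : p ∈ v) : False :=
  hp (h.inter ▸ ⟨h1, Sys_u1 h.symm h2⟩)

lemma Sys_good1 (h : Cut O c u v g D E x y) (ha : Cc O c A p q) (hd : Disjoint A g)
    (hs : A ⊆ D) : SysGood u v g D E W A p q :=
  have a := fun e => Sys_uv h (disjoint_left.1 hd ha.arc.left) (hs ha.arc.left) e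
  ⟨fun _ _ => h.cc1 ha hd ⟨_, ha.arc.left, hs ha.arc.left⟩, fun e _ => (a e).elim,
    fun _ e => (Sys_uv h (disjoint_left.1 hd ha.arc.right) (hs ha.arc.right) e).elim,
    fun e _ => (a e).elim⟩

lemma Sys_good (h : Cut O c u v g D E x y) (ha : Cc O c A p q) (hd : Disjoint A g) :
    SysGood u v g D E W A p q :=
  (h.side ha.arc.conn ha.sub hd).elim (Sys_good1 h ha hd) fun e => (Sys_good1 h.symm ha hd e).symm

lemma Sys_lift1 (h : Cut O c u v g D E x y) (h' : Cut Q k u' v' g' D' E' x' y') (h1 : D' ⊆ D)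
    (h2 : E' ⊆ E) (hW : W' ⊆ W) (hg : W ⊆ g) (pk : p ∈ k) (qk : q ∈ k) (pg : p ∉ g) (qg : q ∉ g)
    (G : SysGood u' v' g' D' E' W' A p q) : (p ∈ u → q ∈ u → Cc D (u ∪ g) A p q) ∧
    (p ∈ u → q ∈ v → ∃ e ∈ W, ∃ b b', Cc D (u ∪ g) b p e ∧ Cc E (v ∪ g) b' e q ∧ b ∪ b' = A) := by
  refine ⟨fun a b => Sys_up h.d1 h'.d1 h1 (G.1 (Sys_mem h h' h2 pk (Sys_u1 h a) pg)
    (Sys_mem h h' h2 qk (Sys_u1 h b) qg)) (Or.inl a) (Or.inl b), fun a b => ?_⟩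
  obtain ⟨e, he, w, w', c1, c2, i⟩ := G.2.2.1 (Sys_mem h h' h2 pk (Sys_u1 h a) pg)
    (Sys_mem h.symm h'.symm h1 qk (Sys_u1 h.symm b) qg)
  exact ⟨e, hW he, w, w', Sys_up h.d1 h'.d1 h1 c1 (Or.inl a) (Or.inr (hg (hW he))),
    Sys_up h.d2 h'.d2 h2 c2 (Or.inr (hg (hW he))) (Or.inl b), i⟩

lemma Sys_lift (h : Cut O c u v g D E x y) (h' : Cut Q k u' v' g' D' E' x' y') (h1 : D' ⊆ D)
    (h2 : E' ⊆ E) (hW : W' ⊆ W) (hg : W ⊆ g) (pk : p ∈ k) (qk : q ∈ k) (pg : p ∉ g) (qg : q ∉ g)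
    (G : SysGood u' v' g' D' E' W' A p q) : SysGood u v g D E W A p q :=
  have a := Sys_lift1 h h' h1 h2 hW hg pk qk pg qg G
  have b := Sys_lift1 h.symm h'.symm h2 h1 hW hg pk qk pg qg G.symm
  ⟨a.1, b.1, a.2, b.2⟩

/-- the statement of `split` for the index set `s` -/
def SysP (s : Set ι) (p q : ι → Z) : Prop :=
  ∀ (O c u v g D E J : Set Z) (x y j j' : Z) (a : ι → Set Z), Cut O c u v g D E x y → Arc J j j' →
    J ⊆ g → Sys O c s a p q → (∀ i ∈ s, p i ∉ g ∧ q i ∉ g) →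
    ∃ F, Sup F O c ∧ ∀ i ∈ s, SysGood u v g D E (J \ {j, j'}) (F '' a i) (p i) (q i)

/-- the induction hypothesis applied in a subdisc -/
lemma Sys_sub {t : Set ι} {a : ι → Set Z} {p q : ι → Z} {J' : Set Z} (ih : SysP t p q)
    (h : Cut O c u v g D E x y) (hQ : Disc Q k) (hs : Q ⊆ O) (hg : Q ∩ g = g')
    (hc : Cc Q k g' x' y') (hJ : Arc J' j j') (hJg : J' ⊆ g') (hW : J' \ {j, j'} ⊆ W)
    (hW' : W ⊆ g) (ht : Sys Q k t a p q) (he : ∀ i ∈ t, p i ∉ g ∧ q i ∉ g) :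
    ∃ F, Sup F Q k ∧ ∀ i ∈ t, SysGood u v g D E W (F '' a i) (p i) (q i) := by
  obtain ⟨u', v', D', E', h', s1, s2⟩ := Sys_cut h hQ hs hg hc
  have gg : g' ⊆ g := hg ▸ inter_subset_right
  obtain ⟨F, f, e⟩ := ih _ _ _ _ _ _ _ _ _ _ _ _ _ h' hJ hJg ht
    fun i m => ⟨fun w => (he i m).1 (gg w), fun w => (he i m).2 (gg w)⟩
  exact ⟨F, f, fun i m => Sys_lift h h' s1 s2 hW hW' (ht.cc i m).left (ht.cc i m).right
    (he i m).1 (he i m).2 (e i m)⟩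

/-- both ends of the first arc in `u` -/
lemma Sys_A {s : Set ι} {a : ι → Set Z} {p q : ι → Z} {i₀ : ι} (hi : i₀ ∈ s)
    (ih : ∀ t ⊆ s \ {i₀}, SysP t p q) (h : Cut O c u v g D E x y) (hJ : Arc J j j') (hJg : J ⊆ g)
    (hs : Sys O c s a p q) (he : ∀ i ∈ s, p i ∉ g ∧ q i ∉ g) (hp : p i₀ ∈ u) (hq : q i₀ ∈ u) :
    ∃ F, Sup F O c ∧ ∀ i ∈ s, SysGood u v g D E (J \ {j, j'}) (F '' a i) (p i) (q i) := by
  have h0 := hs.cc i₀ hi
  obtain ⟨b, hb⟩ := h.d1.exists_cc (Or.inl hp) (Or.inl hq) h0.arc.ne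
  have hb' := h.cc_up hb hp hq
  have bg : Disjoint g b := disjoint_left.2 fun z hz hz' => by
    rcases hb.inter.le ⟨hz', Or.inr hz⟩ with rfl | rfl
    exacts [(he _ hi).1 hz, (he _ hi).2 hz]
  obtain ⟨u1, v1, D1, E1, hc, w⟩ : ∃ u1 v1 D1 E1, Cut O c u1 v1 b D1 E1 (p i₀) (q i₀) ∧ g ⊆ D1 := by
    obtain ⟨u1, v1, t⟩ := h.disc.exists_two h0.left h0.right h0.arc.ne
    obtain ⟨D1, E1, hc⟩ := h.disc.cut t hb'
    rcases hc.side h.cc.arc.conn h.cc.sub bg with w | w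
    exacts [⟨_, _, _, _, hc, w⟩, ⟨_, _, _, _, hc.symm, w⟩]
  have ne : (g ∩ D1).Nonempty := ⟨_, h.cc.arc.left, w h.cc.arc.left⟩
  refine Sys_step (G := fun i A => SysGood u v g D E (J \ {j, j'}) A (p i) (q i)) hs hi hc
    (Sys_good h hb' bg.symm) (fun t ht a' y1 _ _ => ?_) fun t ht a' y1 y2 _ => ?_
  · exact Sys_sub (ih t ht) h hc.d1 hc.sub1 (inter_eq_right.2 w) (hc.cc1 h.cc bg ne) hJ hJg
      subset_rfl (diff_subset.trans hJg) y1 fun i m => he i (ht m).1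
  · refine ⟨id, sup_id, fun i m => ?_⟩
    rw [image_id]
    exact Sys_good h (y2.cc i m) ((hc.side1 h.cc.arc.conn h.cc.sub bg ne).2.symm.mono_left
      (y1.cc i m).sub)

/-- `g` does not lie on one side of a crosscut from `u` to `v` -/
lemma Sys_B0 {B u1 v1 D1 E1 : Set Z} (h : Cut O c u v g D E x y) (hc : Cut O c u1 v1 B D1 E1 p q)
    (hp : p ∈ u) (hq : q ∈ v) (pg : p ∉ g) (qg : q ∉ g) (w : g ⊆ E1) : False := by
  have cl : ∀ {X : Set Z}, IsClosed X → D1 \ (u1 ∪ B) ⊆ X → B ⊆ X := fun cX i =>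
    (Sys_g1 hc).trans (hc.d1.dense.trans (closure_minimal i cX))
  rcases h.side (hc.d1.conn_diff subset_rfl) (diff_subset.trans hc.sub1)
    (disjoint_left.2 fun z hz hz' => hz.2 (Or.inr (hc.inter ▸ ⟨hz.1, w hz'⟩))) with i | i
  · exact Sys_uv h qg (cl h.d1.closed i hc.cc.arc.right) hq
  · exact Sys_uv h.symm pg (cl h.d2.closed i hc.cc.arc.left) hp

/-- one half of `g` on one side of the crosscut `B` -/
lemma Sys_B1 {t : Set ι} {a : ι → Set Z} {p q : ι → Z} {B u1 v1 D1 E1 g1 g2 : Set Z} {e p0 q0 : Z}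
    (ih : SysP t p q) (h : Cut O c u v g D E x y) (hc : Cut O c u1 v1 B D1 E1 p0 q0)
    (hJ : Arc J j j') (hJg : J ⊆ g) (hB : B ∩ g = {e}) (eJ : e ∈ J \ {j, j'}) (a1 : Arc g1 x e)
    (a2 : Arc g2 e y) (i12 : g1 ∩ g2 = {e}) (u12 : g1 ∪ g2 = g) (w1 : g1 ⊆ D1) (w2 : g2 ⊆ E1)
    (ht : Sys D1 (u1 ∪ B) t a p q) (he : ∀ i ∈ t, p i ∉ g ∧ q i ∉ g) :
    ∃ F, Sup F D1 (u1 ∪ B) ∧
      ∀ i ∈ t, SysGood u v g D E (J \ {j, j'}) (F '' a i) (p i) (q i) := by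
  have s1 : g1 ⊆ g := u12 ▸ subset_union_left
  have eB : e ∈ B := (hB.ge rfl).1
  obtain ⟨U, oU, hU⟩ := h.cc.arc.rel_open hJ hJg
  obtain ⟨J', _, z, aJ, -, -, uJ, sJ⟩ := a1.symm.start (oU.mem_nhds (hU.ge eJ).1)
  have sJ' : J' ⊆ g1 := uJ ▸ subset_union_left
  refine Sys_sub ih h hc.d1 hc.sub1 (g' := g1) ?_ ⟨a1, w1, ?_⟩ aJ sJ'
    (fun w m => hU.le ⟨sJ m.1, s1 (sJ' m.1)⟩) (diff_subset.trans hJg) ht he
  · refine Subset.antisymm (fun w m => (u12.ge m.2).elim id fun m' => ?_) (subset_inter w1 s1)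
    rw [show w = e from hB.le ⟨hc.inter.le ⟨m.1, w2 m'⟩, m.2⟩]
    exact a1.right
  · refine Subset.antisymm ?_ (subset_inter a1.ends (insert_subset
      (Or.inl (hc.inter_rim.le ⟨w1 a1.left, h.cc.left⟩)) (singleton_subset_iff.2 (Or.inr eB))))
    rintro w ⟨m, m' | m'⟩
    · rcases h.cc.inter.le ⟨s1 m, hc.two.sub1 m'⟩ with rfl | rfl
      exacts [Or.inl rfl, Or.inr (i12.le ⟨m, a2.right⟩)]
    · exact Or.inr (hB.le ⟨m', s1 m⟩)

/-- the ends of the first arc on both sides -/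
lemma Sys_B {s : Set ι} {a : ι → Set Z} {p q : ι → Z} {i₀ : ι} (hi : i₀ ∈ s)
    (ih : ∀ t ⊆ s \ {i₀}, SysP t p q) (h : Cut O c u v g D E x y) (hJ : Arc J j j') (hJg : J ⊆ g)
    (hs : Sys O c s a p q) (he : ∀ i ∈ s, p i ∉ g ∧ q i ∉ g) (hp : p i₀ ∈ u) (hq : q i₀ ∈ v) :
    ∃ F, Sup F O c ∧ ∀ i ∈ s, SysGood u v g D E (J \ {j, j'}) (F '' a i) (p i) (q i) := by
  have h0 := hs.cc i₀ hi
  obtain ⟨pg, qg⟩ := he _ hi
  obtain ⟨e, eJ, hn⟩ := hJ.exists_notMem (toFinite {j, j', x, y})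
  simp only [mem_insert_iff, mem_singleton_iff, not_or] at hn
  have eg := hJg eJ
  have eJ' : e ∈ J \ {j, j'} := ⟨eJ, fun w => w.elim hn.1 hn.2.1⟩
  have ec : e ∉ c := fun w => (h.cc.inter.le ⟨eg, w⟩).elim hn.2.2.1 hn.2.2.2
  obtain ⟨b, hb⟩ := h.d1.exists_cc (Or.inl hp) (Or.inr eg) (ne_of_mem_of_not_mem eg pg).symm
  obtain ⟨b', hb'⟩ := h.d2.exists_cc (Or.inr eg) (Or.inl hq) (ne_of_mem_of_not_mem eg qg)
  have g1 : ∀ z ∈ b, z ∈ g → z = e := fun z m m' =>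
    (hb.inter.le ⟨m, Or.inr m'⟩).resolve_left fun w => pg (w ▸ m')
  have g2 : ∀ z ∈ b', z ∈ g → z = e := fun z m m' =>
    (hb'.inter.le ⟨m, Or.inr m'⟩).resolve_right fun w => qg (mem_singleton_iff.1 w ▸ m')
  have hB : (b ∪ b') ∩ g = {e} := Subset.antisymm
    (fun z m => m.1.elim (g1 z · m.2) (g2 z · m.2)) (singleton_subset_iff.2 ⟨Or.inl hb.arc.right, eg⟩)
  have aB : Arc (b ∪ b') (p i₀) (q i₀) := hb.arc.cat hb'.arc (Subset.antisymm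
    (fun z m => g1 z m.1 (h.inter.le ⟨hb.sub m.1, hb'.sub m.2⟩))
    (singleton_subset_iff.2 ⟨hb.arc.right, hb'.arc.left⟩))
  have cB : Cc O c (b ∪ b') (p i₀) (q i₀) := by
    refine ⟨aB, union_subset (hb.sub.trans h.sub1) (hb'.sub.trans h.sub2), Subset.antisymm ?_
      (subset_inter aB.ends (insert_subset h0.left (singleton_subset_iff.2 h0.right)))⟩
    rintro z ⟨m | m, m'⟩
    · exact Or.inl ((hb.inter.le ⟨m, Or.inl (h.inter_rim.le ⟨hb.sub m, m'⟩)⟩).resolve_right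
        fun w => ec (mem_singleton_iff.1 w ▸ m'))
    · exact Or.inr ((hb'.inter.le ⟨m, Or.inl (h.symm.inter_rim.le ⟨hb'.sub m, m'⟩)⟩).resolve_left
        fun w => ec (w ▸ m'))
  obtain ⟨k1, k2, a1, a2, i12, u12⟩ := h.cc.arc.split eg hn.2.2.1 hn.2.2.2
  have sd : ∀ {u1 v1 D1 E1 k : Set Z} {z : Z}, Cut O c u1 v1 (b ∪ b') D1 E1 (p i₀) (q i₀) →
      Arc k e z → k ⊆ g → k ⊆ D1 ∨ k ⊆ E1 := fun hc ak s => by
    have eB := (hB.ge rfl).1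
    refine (hc.side ak.conn_half (diff_subset.trans (s.trans h.cc.sub)) (disjoint_left.2
      fun z m m' => m.2 (hB.le ⟨m', s m.1⟩))).imp (fun i z m => ?_) fun i z m => ?_
    · by_cases w : z = e
      exacts [w ▸ Sys_g1 hc eB, i ⟨m, w⟩]
    · by_cases w : z = e
      exacts [w ▸ Sys_g1 hc.symm eB, i ⟨m, w⟩]
  obtain ⟨u1, v1, D1, E1, hc, w1, w2⟩ : ∃ u1 v1 D1 E1,
      Cut O c u1 v1 (b ∪ b') D1 E1 (p i₀) (q i₀) ∧ k1 ⊆ D1 ∧ k2 ⊆ E1 := by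
    obtain ⟨u1, v1, t⟩ := h.disc.exists_two h0.left h0.right h0.arc.ne
    obtain ⟨D1, E1, hc⟩ := h.disc.cut t cB
    rcases sd hc a1.symm (u12 ▸ subset_union_left) with w | w <;>
      rcases sd hc a2 (u12 ▸ subset_union_right) with w' | w'
    exacts [(Sys_B0 h hc.symm hp hq pg qg (u12 ▸ union_subset w w')).elim, ⟨_, _, _, _, hc, w, w'⟩,
      ⟨_, _, _, _, hc.symm, w, w'⟩, (Sys_B0 h hc hp hq pg qg (u12 ▸ union_subset w w')).elim]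
  refine Sys_step (G := fun i A => SysGood u v g D E (J \ {j, j'}) A (p i) (q i)) hs hi hc
    ⟨fun _ w => (Sys_uv h qg (Sys_u1 h w) hq).elim, fun w _ => (Sys_uv h pg (Sys_u1 h hp) w).elim,
      fun _ _ => ⟨e, eJ', b, b', hb, hb', rfl⟩, fun w _ => (Sys_uv h pg (Sys_u1 h hp) w).elim⟩
    (fun t ht a' y1 _ _ => ?_) fun t ht a' y1 _ _ => ?_
  · exact Sys_B1 (ih t ht) h hc hJ hJg hB eJ' a1 a2 i12 u12 w1 w2 y1 fun i m => he i (ht m).1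
  · exact Sys_B1 (ih t ht) h.rev hc.symm hJ hJg hB eJ' a2.symm a1.symm (inter_comm _ _ ▸ i12)
      (union_comm _ _ ▸ u12) w2 w1 y1 fun i m => he i (ht m).1

lemma Sys_P (s : Set ι) (p q : ι → Z) : SysP s p q := by
  induction hn : s.ncard using Nat.strong_induction_on generalizing s with
  | _ N ih =>
  subst hn
  intro O c u v g D E J x y j j' a h hJ hJg hs he
  rcases s.eq_empty_or_nonempty with rfl | ⟨i₀, hi⟩
  · exact ⟨id, sup_id, fun i m => m.elim⟩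
  have ih' : ∀ t ⊆ s \ {i₀}, SysP t p q := fun t ht => ih _ (Sys_lt hs.fin hi ht) t rfl
  rcases h.two.union.ge (hs.cc _ hi).left with hp | hp <;>
    rcases h.two.union.ge (hs.cc _ hi).right with hq | hq
  · exact Sys_A hi ih' h hJ hJg hs he hp hq
  · exact Sys_B hi ih' h hJ hJg hs he hp hq
  · exact (Sys_B hi ih' h.symm hJ hJg hs he hp hq).imp fun F f => ⟨f.1, fun i m => (f.2 i m).symm⟩
  · exact (Sys_A hi ih' h.symm hJ hJg hs he hp hq).imp fun F f => ⟨f.1, fun i m => (f.2 i m).symm⟩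

theorem split {s : Set ι} {a : ι → Set Z} {p q : ι → Z} (h : Cut O c u v g D E x y)
    (hJ : Arc J j j') (hJg : J ⊆ g) (hs : Sys O c s a p q) (he : ∀ i ∈ s, p i ∉ g ∧ q i ∉ g) :
    ∃ F, Sup F O c ∧ ∀ i ∈ s,
      (p i ∈ u → q i ∈ u → Cc D (u ∪ g) (F '' a i) (p i) (q i)) ∧
      (p i ∈ v → q i ∈ v → Cc E (v ∪ g) (F '' a i) (p i) (q i)) ∧
      (p i ∈ u → q i ∈ v → ∃ e ∈ J \ {j, j'}, ∃ b b', Cc D (u ∪ g) b (p i) e ∧
        Cc E (v ∪ g) b' e (q i) ∧ b ∪ b' = F '' a i) ∧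
      (p i ∈ v → q i ∈ u → ∃ e ∈ J \ {j, j'}, ∃ b b', Cc E (v ∪ g) b (p i) e ∧
        Cc D (u ∪ g) b' e (q i) ∧ b ∪ b' = F '' a i) :=
  Sys_P s p q _ _ _ _ _ _ _ _ _ _ _ _ _ h hJ hJg hs he

end Pool.Agent.Lib.MP_b7d179_gt
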