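import Pool.Agent.Lib.MP_b7d179_gt.T.SepB

/-! Thickening lollipops, crosscuts and dumbbells. -/

namespace Pool.Agent.Lib.MP_b7d179_gt

open Set Metric Topology Filter

variable {Z Z' : Type*} [MetricSpace Z] [MetricSpace Z'] {ι κ : Type*}

variable {S O c I I' A a W w W' w' η l r σ u v D E U U' : Set Z} {p q e e' x x' : Z}

theorem bite_lol (hO : Disc O c) (h : Two c I I' p q) (hL : Lol η W w e x) (hη : η ⊆ O)
    (hi : η ∩ c = {e}) (hW : W ⊆ O \ c) (he : e ∉ I') (hA : IsClosed A)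
    (hd : Disjoint A (η ∪ W ∪ I)) :
    ∃ g D E, Cut O c I I' g D E p q ∧ η ∪ W ⊆ D ∧ Disjoint (η ∪ W) g ∧ Disjoint D A := by
  have h0 : IsPreconnected ((O \ c) \ ∅) := by rw [sdiff_empty]; exact hO.conn_diff subset_rfl
  have h1 := ns_arc hO isClosed_empty h0 hL.arc hη
    (by rw [union_empty, inter_comm, hi]; exact isPreconnected_singleton)
  rw [empty_union] at h1
  have e2 : (c ∪ η) ∩ W = {x} := by
    rw [union_inter_distrib_right, hL.inter, (_ : c ∩ W = ∅), empty_union]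
    exact eq_empty_of_forall_notMem fun z hz => (hW hz.2).2 hz.1
  have h2 := ns_disc hO hL.arc.closed h1 hL.disc (hW.trans sdiff_subset)
    (by rw [e2]; exact isPreconnected_singleton)
  have cl := hL.arc.closed.union hL.disc.closed
  have eI : e ∈ I := (h.union.ge (hi.ge rfl).2).resolve_right he
  refine bite hO h cl (union_subset hη (hW.trans sdiff_subset)) (disjoint_left.2 ?_) ?_
    (ns_close hO cl h2 h.sub1) hA hd
  · rintro z (hz | hz) hz'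
    · exact he ((hi.le ⟨hz, h.sub2 hz'⟩ : z = e) ▸ hz')
    · exact (hW hz).2 (h.sub2 hz')
  · exact (hL.arc.conn.union x hL.arc.right (hL.inter.ge rfl).2 hL.disc.conn).union e
      (Or.inl hL.arc.left) eI h.a1.conn

lemma thick_half {b d : Z} (h : Cut O c u v a D E e e') (hl : Arc l b d) (lu : l ⊆ u) (he : e ∉ l)
    (he' : e' ∉ l) (hA : IsClosed A) (hd : Disjoint A (a ∪ (u \ (l \ {b, d})))) :
    ∃ w g D₁ D₂, Cut D (u ∪ a) w l g D₁ D₂ b d ∧ a ⊆ w ∧ w ⊆ a ∪ (u \ (l \ {b, d})) ∧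
      Disjoint D₁ A ∧ Disjoint g a ∧ Cc O c g b d := by
  obtain ⟨w, hw⟩ := h.d1.two_of_arc hl (lu.trans subset_union_left)
  have al : ∀ z ∈ a, z ∉ l := fun z hz hz' =>
    (h.cc.inter.le ⟨hz, h.two.sub1 (lu hz')⟩).elim (fun r => he (r ▸ hz'))
      fun r => he' ((r : z = e') ▸ hz')
  have s1 : w ⊆ a ∪ (u \ (l \ {b, d})) := fun z hz => (hw.sub2 hz).elim
    (fun r => Or.inr ⟨r, fun r' => r'.2 (hw.inter.le ⟨r'.1, hz⟩)⟩) Or.inl
  obtain ⟨g, D₁, D₂, hc, hD⟩ := bite0 h.d1 hw.symm hA (hd.mono_right s1)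
  exact ⟨w, g, D₁, D₂, hc, fun z hz => (hw.union.ge (Or.inr hz)).resolve_left (al z hz), s1, hD,
    disjoint_left.2 fun z hz hz' => al z hz' (hl.ends (hc.cc.inter.le ⟨hz, Or.inr hz'⟩)),
    h.cc_up hc.cc (lu hl.left) (lu hl.right)⟩

theorem strip (hO : Disc O c) (hq : Quad c I l I' r) (ha : Cc O c a e e') (he : e ∈ I \ (l ∪ r))
    (he' : e' ∈ I' \ (l ∪ r)) (hA : IsClosed A) (hd : Disjoint A (a ∪ I ∪ I')) :
    ∃ N n g g', Disc N n ∧ N ⊆ O ∧ Quad n I g I' g' ∧ N ∩ c = I ∪ I' ∧ Cc N n a e e' ∧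
      Disjoint N A := by
  obtain ⟨u, v, h2, lu, rv⟩ := hq.two he.1 he'.1
  obtain ⟨D, E, hc⟩ := hO.cut h2 ha
  obtain ⟨p₁, p₂, p₃, p₄, hI, hl, hI', hr, i1, i2, i3, i4⟩ := hq.ex
  have ee : ({e, e'} : Set Z) ⊆ I ∪ I' :=
    insert_subset (Or.inl he.1) (singleton_subset_iff.2 (Or.inr he'.1))
  have m1 : ({p₂, p₃} : Set Z) ⊆ I ∪ I' :=
    insert_subset (Or.inl hI.right) (singleton_subset_iff.2 (Or.inr hI'.left))
  have m2 : ({p₄, p₁} : Set Z) ⊆ I ∪ I' :=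
    insert_subset (Or.inr hI'.right) (singleton_subset_iff.2 (Or.inl hI.left))
  have s1 : u \ (l \ {p₂, p₃}) ⊆ I ∪ I' := by
    rintro z ⟨h1, h3⟩
    rcases hq.union.ge (h2.sub1 h1) with ((r' | r') | r') | r'
    · exact Or.inl r'
    · exact m1 (by by_contra hn; exact h3 ⟨r', hn⟩)
    · exact Or.inr r'
    · exact ee (h2.inter.le ⟨h1, rv r'⟩)
  have s2 : v \ (r \ {p₄, p₁}) ⊆ I ∪ I' := by
    rintro z ⟨h1, h3⟩
    rcases hq.union.ge (h2.sub2 h1) with ((r' | r') | r') | r'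
    · exact Or.inl r'
    · exact ee (h2.inter.le ⟨lu r', h1⟩)
    · exact Or.inr r'
    · exact m2 (by by_contra hn; exact h3 ⟨r', hn⟩)
  rw [union_assoc] at hd
  obtain ⟨w, g, D₁, D₂, c1, aw, wa, DA, ga, k1⟩ := thick_half hc hl lu (fun r => he.2 (Or.inl r))
    (fun r => he'.2 (Or.inl r)) hA (hd.mono_right (union_subset_union_right _ s1))
  obtain ⟨w', g', E₁, E₂, c2, aw', wa', EA, ga', k2⟩ := thick_half hc.symm hr rv
    (fun r => he.2 (Or.inr r)) (fun r => he'.2 (Or.inr r)) hA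
    (hd.mono_right (union_subset_union_right _ s2))
  have hN := c1.d1.glue' c2.d1 ha.arc (Subset.antisymm
    (fun z hz => hc.inter.le ⟨c1.sub1 hz.1, c2.sub1 hz.2⟩) fun z hz =>
      ⟨c1.d1.rim_sub (Or.inl (aw hz)), c2.d1.rim_sub (Or.inl (aw' hz))⟩)
    (aw.trans subset_union_left) (aw'.trans subset_union_left)
  have Ic : I ∪ I' ⊆ c := hq.union ▸ union_subset
    ((subset_union_left.trans subset_union_left).trans subset_union_left)
    (subset_union_right.trans subset_union_left)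
  have en : I ∪ g ∪ I' ∪ g' = (w ∪ g ∪ (w' ∪ g')) \ (a \ {e, e'}) := by
    have k : I ∪ I' ⊆ (w ∪ g ∪ (w' ∪ g')) \ (a \ {e, e'}) := fun z hz => by
      refine ⟨?_, fun r => r.2 (ha.inter.le ⟨r.1, Ic hz⟩)⟩
      rcases h2.union.ge (Ic hz) with r' | r'
      · refine Or.inl (Or.inl ((c1.two.union.ge (Or.inl r')).elim id fun r'' => c1.two.a1.ends ?_))
        exact hz.elim (fun h' => Or.inl (i1.le ⟨h', r''⟩)) fun h' => Or.inr (i2.le ⟨r'', h'⟩)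
      · refine Or.inr (Or.inl ((c2.two.union.ge (Or.inl r')).elim id fun r'' => c2.two.a1.ends ?_))
        exact hz.elim (fun h' => Or.inr (i4.le ⟨r'', h'⟩)) fun h' => Or.inl (i3.le ⟨h', r''⟩)
    refine Subset.antisymm ?_ ?_
    · rintro z (((r' | r') | r') | r')
      · exact k (Or.inl r')
      · exact ⟨Or.inl (Or.inr r'), fun r'' => ga.le_bot ⟨r', r''.1⟩⟩
      · exact k (Or.inr r')
      · exact ⟨Or.inr (Or.inr r'), fun r'' => ga'.le_bot ⟨r', r''.1⟩⟩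
    · have k' : ∀ z ∈ I ∪ I', z ∈ I ∪ g ∪ I' ∪ g' := fun z hz =>
        hz.elim (fun r => Or.inl (Or.inl (Or.inl r))) fun r => Or.inl (Or.inr r)
      rintro z ⟨(r' | r') | r' | r', h3⟩
      · exact k' z ((wa r').elim (fun r => ee (by by_contra hn; exact h3 ⟨r, hn⟩)) fun r => s1 r)
      · exact Or.inl (Or.inl (Or.inr r'))
      · exact k' z ((wa' r').elim (fun r => ee (by by_contra hn; exact h3 ⟨r, hn⟩)) fun r => s2 r)
      · exact Or.inr r'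
  refine ⟨_, _, g, g', hN, union_subset (c1.sub1.trans hc.sub1) (c2.sub1.trans hc.sub2),
    ⟨⟨p₁, p₂, p₃, p₄, hI, k1.arc, hI', k2.arc, ?_, ?_, ?_, ?_⟩, hq.d1, ?_, en⟩, ?_,
    ⟨ha.arc, fun z hz => Or.inl (c1.d1.rim_sub (Or.inl (aw hz))), ?_⟩,
    disjoint_union_left.2 ⟨DA, EA⟩⟩
  · exact Subset.antisymm (fun z hz => (k1.inter.le ⟨hz.2, Ic (Or.inl hz.1)⟩).resolve_right
      fun r => hq.d1.le_bot ⟨hz.1, (r : z = p₃) ▸ hI'.left⟩)
      (singleton_subset_iff.2 ⟨hI.right, k1.arc.left⟩)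
  · exact Subset.antisymm (fun z hz => (k1.inter.le ⟨hz.1, Ic (Or.inr hz.2)⟩).resolve_left
      fun r => hq.d1.le_bot ⟨r ▸ hI.right, hz.2⟩) (singleton_subset_iff.2 ⟨k1.arc.right, hI'.left⟩)
  · exact Subset.antisymm (fun z hz => (k2.inter.le ⟨hz.2, Ic (Or.inr hz.1)⟩).resolve_right
      fun r => hq.d1.le_bot ⟨(r : z = p₁) ▸ hI.left, hz.1⟩)
      (singleton_subset_iff.2 ⟨hI'.right, k2.arc.left⟩)
  · exact Subset.antisymm (fun z hz => (k2.inter.le ⟨hz.1, Ic (Or.inl hz.2)⟩).resolve_left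
      fun r => hq.d1.le_bot ⟨hz.2, r ▸ hI'.right⟩) (singleton_subset_iff.2 ⟨k2.arc.right, hI.left⟩)
  · exact disjoint_left.2 fun z hz hz' =>
      ga.le_bot ⟨hz, hc.inter.le ⟨c1.cc.sub hz, c2.cc.sub hz'⟩⟩
  · refine Subset.antisymm ?_ fun z hz => ⟨hN.rim_sub (en.le ?_), Ic hz⟩
    · rintro z ⟨r' | r', hz⟩
      · exact (wa (c1.inter_rim.le ⟨r', Or.inl (hc.inter_rim.le ⟨c1.sub1 r', hz⟩)⟩)).elim
          (fun r => ee (ha.inter.le ⟨r, hz⟩)) fun r => s1 r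
      · exact (wa' (c2.inter_rim.le ⟨r', Or.inl (hc.symm.inter_rim.le ⟨c2.sub1 r', hz⟩)⟩)).elim
          (fun r => ee (ha.inter.le ⟨r, hz⟩)) fun r => s2 r
    · exact hz.elim (fun r => Or.inl (Or.inl (Or.inl r))) fun r => Or.inl (Or.inr r)
  · refine Subset.antisymm (fun z hz => ?_) fun z hz =>
      ⟨ha.arc.ends hz, Or.inl (Or.inl (aw (ha.arc.ends hz))), fun r => r.2 hz⟩
    by_contra hn
    exact hz.2.2 ⟨hz.1, hn⟩

/-- a parallel copy of a crosscut on the side `D` -/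
theorem parallel (h : Cut O c u v a D E p q) (hA : IsClosed A) (hd : Disjoint A a)
    (hU : U ∈ 𝓝 p) (hU' : U' ∈ 𝓝 q) : ∃ a' p' q' u' v' D' E', Cut O c u' v' a' D' E' p' q' ∧
      p' ∈ U ∧ q' ∈ U' ∧ u' ⊆ u \ {p, q} ∧ u \ u' ⊆ U ∪ U' ∧ D' ⊆ D \ a ∧ E ⊆ E' \ a' ∧
      Disjoint (E' ∩ D) A := by
  obtain ⟨u₁, v₁, p', a1, a2, i1, e1, s1⟩ := h.two.a1.start (inter_mem hU
    (hA.isOpen_compl.mem_nhds fun r => hd.le_bot ⟨r, h.cc.arc.left⟩))
  obtain ⟨u₂, u', q', b1, b2, i2, e2, s2⟩ := a2.symm.start (inter_mem hU'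
    (hA.isOpen_compl.mem_nhds fun r => hd.le_bot ⟨r, h.cc.arc.right⟩))
  have uv : u' ⊆ v₁ := e2 ▸ subset_union_right
  have uu : u' ⊆ u := uv.trans (e1 ▸ subset_union_right)
  have pu : p ∉ u' := fun r => a1.ne (i1.le ⟨a1.left, uv r⟩)
  have qu : q ∉ u' := fun r => b1.ne (i2.le ⟨b1.left, r⟩)
  have s3 : ∀ z ∈ u, z ∉ u' \ {p', q'} → z ∈ u₁ ∪ u₂ := fun z hz hn => by
    rcases e1.ge hz with r | r
    · exact Or.inl r
    rcases e2.ge r with r' | r'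
    · exact Or.inr r'
    have : z ∈ ({p', q'} : Set Z) := by by_contra h'; exact hn ⟨r', h'⟩
    exact this.elim (fun t => Or.inl (t ▸ a1.right)) fun t => Or.inr ((t : z = q') ▸ b1.right)
  obtain ⟨w, g, D₁, D₂, c1, aw, -, DA, ga, k1⟩ := thick_half h b2.symm uu pu qu hA
    (disjoint_union_right.2 ⟨hd, disjoint_left.2 fun z hz hz' =>
      (s3 z hz'.1 hz'.2).elim (fun r => (s1 r).2 hz) fun r => (s2 r).2 hz⟩)
  obtain ⟨v', h2⟩ := h.disc.two_of_arc b2.symm (uu.trans h.two.sub1)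
  obtain ⟨D', E', c2⟩ := h.disc.cut h2 k1
  obtain rfl : D' = D₂ := h.disc.eq_of_rim c2.d1 c1.d2 c2.sub1 (c1.sub2.trans h.sub1)
  have Eg : Disjoint E g := disjoint_left.2 fun z hz hz' =>
    ga.le_bot ⟨hz', h.inter.le ⟨c1.cc.sub hz', hz⟩⟩
  refine ⟨g, p', q', u', v', D', E', c2, (s1 a1.right).1, (s2 b1.right).1,
    fun z hz => ⟨uu hz, fun r => r.elim (fun t => pu (t ▸ hz)) fun t => qu ((t : z = q) ▸ hz)⟩,
    fun z hz => (s3 z hz.1 fun r => hz.2 r.1).imp (fun r => (s1 r).1) fun r => (s2 r).1,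
    fun z hz => ⟨c1.sub2 hz, fun r => ?_⟩, fun z hz => ⟨(c2.symm.side1 h.d2.conn h.sub2 Eg
      ⟨p, h.d2.rim_sub (Or.inr h.cc.arc.left), c2.d2.rim_sub (Or.inl
        ((h2.union.ge h.cc.left).resolve_left pu))⟩).1 hz, fun r => Eg.le_bot ⟨hz, r⟩⟩,
    disjoint_left.2 fun z hz hz' => DA.le_bot ⟨(c1.union.ge hz.2).elim id fun r =>
      c1.d1.rim_sub (Or.inr (c2.inter.le ⟨r, hz.1⟩)), hz'⟩⟩
  have zu : z ∈ u' := c1.symm.inter_rim.le ⟨hz, Or.inr r⟩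
  exact (h.cc.inter.le ⟨r, h.two.sub1 (uu zu)⟩).elim (fun t => pu (t ▸ zu))
    fun t => qu ((t : z = q) ▸ zu)

end Pool.Agent.Lib.MP_b7d179_gt
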