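import Pool.Agent.Lib.MP_b7d179_gt.T.Thick

/-! Disc neighbourhoods. -/

namespace Pool.Agent.Lib.MP_b7d179_gt

open Set Metric Topology Filter

variable {Z Z' : Type*} [MetricSpace Z] [MetricSpace Z'] {ι κ : Type*}

variable {S O c I I' A a W w W' w' η l r σ u v D E U U' : Set Z} {p q e e' x x' : Z}

open Pool.Agent.Lib.MP_d32f96_gt in
lemma thB_plane {K B : Set ℂ} (hK : IsCompact K) (hc : IsPreconnected K) (hn : K.Nonempty)
    (hs : K ⊆ ball 0 1) (hB : IsClosed B) (cB : IsPreconnected B) (sB : sphere 0 1 ⊆ B)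
    (hd : Disjoint K B) :
    ∃ h : ℂ ≃ₜ ℂ, K ⊆ h '' ball 0 1 ∧ h '' closedBall 0 1 ⊆ ball 0 1 \ B := by
  obtain ⟨z, hz⟩ := hn
  have hzB : z ∈ Bᶜ := disjoint_left.1 hd hz
  have u : connectedComponentIn Bᶜ z ⊆ ball 0 1 := plane_in isPreconnected_connectedComponentIn
    (fun y hy k => connectedComponentIn_subset _ _ hy (sB k)) (mem_connectedComponentIn hzB) (hs hz)
  obtain ⟨h, -, h1, h2⟩ := tJS K _ hK hB.isOpen_compl.connectedComponentIn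
    (isBounded_ball.subset u) isPreconnected_connectedComponentIn ⟨z, mem_connectedComponentIn hzB⟩
    (hc.subset_connectedComponentIn hz hd.subset_compl_right)
  refine ⟨h, h1, fun y hy => by_contra fun n => not_bdd_out 1 ?_⟩
  have c1 : IsPreconnected (B ∪ {y : ℂ | 1 ≤ ‖y‖}) :=
    cB.union 1 (sB (by simp)) (by simp) (preconn_out 1)
  have m : y ∈ B ∪ {y : ℂ | 1 ≤ ‖y‖} := by_contra fun k =>
    n ⟨mem_ball_zero_iff.2 (not_le.1 fun l => k (.inr l)), fun l => k (.inl l)⟩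
  have b : Bornology.IsBounded (connectedComponentIn (connectedComponentIn Bᶜ z)ᶜ y) := h2 hy
  exact (b.subset (c1.subset_connectedComponentIn m fun v hv k =>
    hv.elim (fun l => connectedComponentIn_subset _ _ k l)
      (not_le.2 (mem_ball_zero_iff.1 (u k))))).subset
      fun v (hv : 1 < ‖v‖) => .inr (show 1 ≤ ‖v‖ from hv.le)

theorem nbhd (hO : Disc O c) (hσ : IsCompact σ) (hc : IsPreconnected σ) (hn : σ.Nonempty)
    (hs : σ ⊆ O \ c) (hns : IsPreconnected ((O \ c) \ σ)) (hA : IsClosed A) (hd : Disjoint A σ) :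
    ∃ T t, Disc T t ∧ σ ⊆ T \ t ∧ T ⊆ O \ c ∧ Disjoint T A := by
  obtain ⟨A', kA, cA, a1, a2⟩ := enlarge hO hσ.isClosed
    (by simpa using ns_close hO hσ.isClosed hns (empty_subset c)) (hA.union hO.rim_closed)
    (disjoint_union_left.2 ⟨hd, disjoint_left.2 fun z hz k => (hs k).2 hz⟩)
  obtain ⟨φ, ψ, eφ, eψ, φD, φc, ψD, ψc, ψφ, φψ, r⟩ := hO.chart
  have s1 : σ ⊆ O := hs.trans sdiff_subset
  have s2 : A' ⊆ O := a2.trans sdiff_subset
  have i : φ '' ball 0 1 = O \ c := by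
    rw [← closedBall_sdiff_sphere, eφ.diff subset_rfl sphere_subset_closedBall, φD, φc]
  obtain ⟨h, h1, h2⟩ := thB_plane (eψ.compact s1 hσ) (hc.image _ (eψ.1.mono s1)) (hn.image _)
    (by
      rw [← closedBall_sdiff_sphere, ← ψD, ← ψc, ← eψ.diff subset_rfl hO.rim_sub]
      exact image_mono hs)
    (eψ.compact s2 kA).isClosed (cA.image _ (eψ.1.mono s2))
    (ψc ▸ image_mono fun z hz => a1 ⟨.inr hz, hO.rim_sub hz⟩)
    (eψ.disjoint s1 s2 (disjoint_left.2 fun z hz k => (a2 k).2 hz))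
  have eh : Emb h (closedBall 0 1) := ⟨h.continuous.continuousOn, h.injective.injOn⟩
  have b : h '' closedBall 0 1 ⊆ closedBall 0 1 := fun z hz => ball_subset_closedBall (h2 hz).1
  refine ⟨_, _, (disc_unit.image eh subset_rfl).image eφ b, ?_,
    i ▸ image_mono fun z hz => (h2 hz).1, disjoint_left.2 ?_⟩
  · rw [← eφ.diff b ((image_mono sphere_subset_closedBall).trans b),
      ← eh.diff subset_rfl sphere_subset_closedBall, closedBall_sdiff_sphere, ← r σ s1]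
    exact image_mono h1
  · rintro _ ⟨z, hz, rfl⟩ k
    exact (h2 hz).2 ⟨_, a1 ⟨.inl k, φD.le ⟨z, b hz, rfl⟩⟩, ψφ z (b hz)⟩

lemma thB_big (hS : Sph S) (hA : IsClosed A) (hs : A ⊆ S) (hp : p ∈ S) (hn : p ∉ A) :
    ∃ O c, Disc O c ∧ O ⊆ S ∧ A ⊆ O \ c := by
  obtain ⟨O, O', c, h, -, d⟩ := hS.big hA hp hn
  exact ⟨O, c, h.d1, h.sub1, fun z hz =>
    ⟨(h.union.ge (hs hz)).resolve_right fun k => disjoint_left.1 d k hz,
      fun k => disjoint_left.1 d (h.d2.rim_sub k) hz⟩⟩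

lemma thB_ns (hO : Disc O c) (hW : Disc W w) (hs : W ⊆ O \ c) : IsPreconnected ((O \ c) \ W) := by
  have e : (c ∪ ∅) ∩ W = ∅ := eq_empty_of_forall_notMem fun z hz => hz.1.elim (hs hz.2).2 id
  simpa using ns_disc hO isClosed_empty (by simpa using hO.conn_diff subset_rfl) hW
    (hs.trans sdiff_subset) (by rw [e]; exact isPreconnected_empty)

lemma thB_rim (hD : Disc D c) (ha : Arc a x x') : ¬ c ⊆ a := fun h => by
  obtain ⟨p, hp, -⟩ := hD.exists_rim finite_empty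
  obtain ⟨q, hq, n⟩ := hD.exists_rim (finite_singleton p)
  obtain ⟨u, v, T⟩ := hD.exists_two hp hq (Ne.symm n)
  obtain ⟨y, hy, m⟩ := T.a1.exists_notMem (toFinite {p, q})
  exact m (T.inter.le ⟨hy, ha.sub_of_conn T.a1 (T.sub1.trans h) T.a2.conn (T.sub2.trans h)
    T.a2.left T.a2.right hy⟩)

lemma thB_dumb (hO : Disc O c) (hW : Disc W w) (hW' : Disc W' w') (ha : Arc a x x')
    (hs : W ∪ a ∪ W' ⊆ O \ c) (hWW : Disjoint W W') (h1 : a ∩ W = {x}) (h2 : a ∩ W' = {x'})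
    (hA : IsClosed A) (hd : Disjoint A (W ∪ a ∪ W')) :
    ∃ T t, Disc T t ∧ W ∪ a ∪ W' ⊆ T \ t ∧ T ⊆ O \ c ∧ Disjoint T A := by
  have e1 : (c ∪ W) ∩ a = {x} := by
    rw [← h1]
    exact Set.ext fun z => ⟨fun k => ⟨k.2, k.1.resolve_left (hs (.inl (.inr k.2))).2⟩,
      fun k => ⟨.inr k.2, k.1⟩⟩
  have e2 : (c ∪ (W ∪ a)) ∩ W' = {x'} := by
    rw [← h2]
    exact Set.ext fun z => ⟨fun k => ⟨(k.1.resolve_left (hs (.inr k.2)).2).resolve_left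
      fun m => disjoint_left.1 hWW m k.2, k.2⟩, fun k => ⟨.inr (.inr k.1), k.2⟩⟩
  exact nbhd hO ((hW.compact.union ha.compact).union hW'.compact)
    ((hW.conn.union x (h1.ge rfl).2 ha.left ha.conn).union x' (.inr ha.right) (h2.ge rfl).2
      hW'.conn) ⟨x, .inl (.inr ha.left)⟩ hs
    (ns_disc hO (hW.closed.union ha.closed)
      (ns_arc hO hW.closed (thB_ns hO hW fun z hz => hs (.inl (.inl hz))) ha
        (fun z hz => (hs (.inl (.inr hz))).1) (e1 ▸ isPreconnected_singleton))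
      hW' (fun z hz => (hs (.inr hz)).1) (e2 ▸ isPreconnected_singleton)) hA hd

theorem Sph.disc_nbhd (hS : Sph S) (hW : Disc W w) (hs : W ⊆ S) (hA : IsClosed A)
    (hd : Disjoint A W) : ∃ T t, Disc T t ∧ W ⊆ T \ t ∧ T ⊆ S ∧ Disjoint T A := by
  obtain ⟨p, hp, hn⟩ := not_subset.1 (hS.not_sub hW hs)
  obtain ⟨O, c, hO, s1, s2⟩ := thB_big hS hW.closed hs hp hn
  obtain ⟨y, hy, -⟩ := hW.exists_rim finite_empty
  obtain ⟨T, t, h1, h2, h3, h4⟩ := nbhd hO hW.compact hW.conn ⟨y, hW.rim_sub hy⟩ s2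
    (thB_ns hO hW s2) hA hd
  exact ⟨T, t, h1, h2, (h3.trans sdiff_subset).trans s1, h4⟩

theorem Sph.dumb_nbhd (hS : Sph S) (hW : Disc W w) (hW' : Disc W' w') (ha : Arc a x x')
    (hs : W ∪ a ∪ W' ⊆ S) (hWW : Disjoint W W') (h1 : a ∩ W = {x}) (h2 : a ∩ W' = {x'})
    (hA : IsClosed A) (hd : Disjoint A (W ∪ a ∪ W')) :
    ∃ T t, Disc T t ∧ W ∪ a ∪ W' ⊆ T \ t ∧ T ⊆ S ∧ Disjoint T A := by
  obtain ⟨T, t, hT, t1, t2, t3⟩ := hS.disc_nbhd hW (fun z hz => hs (.inl (.inl hz))) hW'.closed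
    hWW.symm
  obtain ⟨p, hp, hn⟩ := not_subset.1 (thB_rim hT ha)
  obtain ⟨O, c, hO, s1, s2⟩ := thB_big hS ((hW.closed.union ha.closed).union hW'.closed) hs
    (t2 (hT.rim_sub hp)) fun k => k.elim (fun k => k.elim (fun k => (t1 k).2 hp) hn)
      (disjoint_left.1 t3 (hT.rim_sub hp))
  obtain ⟨T, t, k1, k2, k3, k4⟩ := thB_dumb hO hW hW' ha s2 hWW h1 h2 hA hd
  exact ⟨T, t, k1, k2, (k3.trans sdiff_subset).trans s1, k4⟩

theorem Disc.dumb_nbhd (hO : Disc O c) (hW : Disc W w) (hW' : Disc W' w') (ha : Arc a x x')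
    (hs : W ∪ a ∪ W' ⊆ O \ c) (hWW : Disjoint W W') (h1 : a ∩ W = {x}) (h2 : a ∩ W' = {x'})
    (hA : IsClosed A) (hd : Disjoint A (W ∪ a ∪ W')) :
    ∃ T t, Disc T t ∧ W ∪ a ∪ W' ⊆ T \ t ∧ T ⊆ O \ c ∧ Disjoint T A :=
  thB_dumb hO hW hW' ha hs hWW h1 h2 hA hd

/-- an arc between two holes of a sphere -/
theorem Sph.hole_arc {t : Set ι} {W w : ι → Set Z} (hS : Sph S) (hW : Holes S t W w)
    (hp : p ∈ ⋃ j ∈ t, w j) (hq : q ∈ ⋃ j ∈ t, w j) (hne : p ≠ q) :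
    ∃ a ⊆ S, Arc a p q ∧ a ∩ ⋃ j ∈ t, W j = {p, q} := by
  have cl : ∀ s ⊆ t, IsClosed (⋃ j ∈ s, W j) := fun s hs =>
    (hW.fin.subset hs).isClosed_biUnion fun i hi => (hW.disc i (hs hi)).closed
  have sub : ⋃ j ∈ t, W j ⊆ S := iUnion₂_subset hW.sub
  have rim : ⋃ j ∈ t, w j ⊆ ⋃ j ∈ t, W j := iUnion₂_mono fun j hj => (hW.disc j hj).rim_sub
  obtain ⟨i, hi, -⟩ := mem_iUnion₂.1 hp
  obtain ⟨T, r, hT, t1, t2, t3⟩ := hS.disc_nbhd (hW.disc i hi) (hW.sub i hi)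
    (cl (t \ {i}) sdiff_subset) (disjoint_iUnion₂_left.2 fun j hj => hW.disj hj.1 hi hj.2)
  obtain ⟨y, hy, -⟩ := hT.exists_rim finite_empty
  obtain ⟨O, c, hO, s1, s2⟩ := thB_big hS (cl t subset_rfl) sub (t2 (hT.rim_sub hy)) fun k => by
    obtain ⟨j, hj, m⟩ := mem_iUnion₂.1 k
    by_cases e : j = i
    · exact (t1 (e ▸ m)).2 hy
    · exact disjoint_left.1 t3 (hT.rim_sub hy) (mem_iUnion₂.2 ⟨j, ⟨hj, e⟩, m⟩)
  obtain ⟨a, ha, h⟩ := MP_b7d179_gt.hole_arc hO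
    ⟨hW.fin, hW.disc, fun j hj => (subset_biUnion_of_mem hj).trans s2, hW.disj⟩
    (.inr hp) (.inr hq) hne
  have e : ({p, q} : Set Z) ⊆ ⋃ j ∈ t, W j :=
    insert_subset (rim hp) (singleton_subset_iff.2 (rim hq))
  refine ⟨a, fun z hz => ?_, ha, subset_antisymm (fun z hz => by_contra fun n => ?_)
    (subset_inter ha.ends e)⟩
  · by_cases n : z ∈ ({p, q} : Set Z)
    · exact sub (e n)
    · exact s1 (h ⟨hz, n⟩).1.1
  · exact (h ⟨hz.1, n⟩).2 hz.2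

end Pool.Agent.Lib.MP_b7d179_gt
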